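import Pool.Agent.Work.MP_a793bb_nt.Asy.FMain
import Pool.Agent.Work.MP_a793bb_nt.RadE.FinalE

/-!
# The theorem for points

Proof. For `R > 0` the map `(a : b : c) ↦ - a / c` is a bijection of `abcPts K R` onto `tset K (log R)` (see `radPts_eq` in
`RadK/FinalK.lean` and `abc_sub` in `RadE/FinalE.lean`: `rad_affine`, `affine_ne_zero`, `affine_ne_one`; inverse
`t ↦ (t : 1 - t : -1)`), so the cardinalities agree (`Set.ncard_congr` or `Set.ncard_image_of_injective`). `kappa K > 0`: by `lower_abcPts`,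
`c ≤ #abcPts K R / R ^ (2 / 3)` for large `R`, so `0 < c ≤ kappa K` (`ge_of_tendsto`).
-/

set_option autoImplicit false

namespace Pool.Agent.Work.MP_a793bb_nt

open NumberField Filter Topology AbcAsy

private theorem abcPts_eq {K : Type*} [Field K] [NumberField K] {R : ℝ} (hR : 0 < R) :
    abcPts K R = BPlus.ptOf '' tset K (Real.log R) := by
  set d : ℝ := (Module.finrank ℚ K : ℝ) with hd
  have hd0 : 0 < d := finrank_pos'
  have hconv : ∀ t : K, Real.exp (d * rad t (1 - t) (-1)) ≤ R ↔ Rs (Ip t) ≤ Real.log R := by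
    intro t
    have e2 : rad t (1 - t) (-1) = Rs (Ip t) / d := rfl
    rw [e2, mul_div_cancel₀ _ hd0.ne', Real.le_log_iff_exp_le hR]
  ext P
  constructor
  · rintro ⟨a, b, c, h, rfl, habc, hne, h1⟩
    have hc : c ≠ 0 := right_ne_zero_of_mul hne
    have hb : b ≠ 0 := right_ne_zero_of_mul (left_ne_zero_of_mul hne)
    have ha : a ≠ 0 := left_ne_zero_of_mul (left_ne_zero_of_mul hne)
    refine ⟨-a / c, ⟨affine_ne_zero ha hc, affine_ne_one hb hc habc, ?_⟩, ?_⟩
    · rw [← hconv]
      have e2 : rad (-a / c) (1 - -a / c) (-1) = rad a b c := (rad_affine hc habc).symm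
      rw [e2]
      exact h1
    · rw [BPlus.ptOf, Projectivization.mk_eq_mk_iff']
      refine ⟨-1 / c, ?_⟩
      have h2 : -1 / c * b = 1 - -a / c := by
        field_simp
        linear_combination -habc
      ext i
      fin_cases i
      · change -1 / c * a = -a / c
        ring
      · exact h2
      · change -1 / c * c = -1
        field_simp
  · rintro ⟨t, ⟨h0, h1, h2⟩, rfl⟩
    refine ⟨t, 1 - t, -1, BPlus.vec_ne_zero t, rfl, by ring, ?_, (hconv t).2 h2⟩
    exact mul_ne_zero (mul_ne_zero h0 (sub_ne_zero.mpr (Ne.symm h1))) (by simp)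

theorem ncard_abcPts (K : Type*) [Field K] [NumberField K] {R : ℝ} (hR : 0 < R) :
    (abcPts K R).ncard = (tset K (Real.log R)).ncard := by
  rw [abcPts_eq hR, Set.ncard_image_of_injective _ BPlus.ptOf_injective]

theorem asymptotic (K : Type*) [Field K] [NumberField K] :
    0 < kappa K ∧ Tendsto (fun R : ℝ => ((abcPts K R).ncard : ℝ) / R ^ (2 / 3 : ℝ)) atTop
      (𝓝 (kappa K)) := by
  have h1 : Tendsto (fun R : ℝ => ((abcPts K R).ncard : ℝ) / R ^ (2 / 3 : ℝ)) atTop
      (𝓝 (kappa K)) := by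
    refine (main_tset K).congr' ?_
    filter_upwards [eventually_gt_atTop 0] with R hR
    rw [ncard_abcPts K hR]
  refine ⟨?_, h1⟩
  obtain ⟨c, R₀, hc, h⟩ := lower_abcPts K
  refine hc.trans_le (ge_of_tendsto h1 ?_)
  filter_upwards [eventually_gt_atTop 0, eventually_ge_atTop R₀] with R hR hR0
  rw [le_div_iff₀ (Real.rpow_pos_of_pos hR _)]
  exact h R hR0

end Pool.Agent.Work.MP_a793bb_nt
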