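import Pool.Agent.Work.MP_a793bb_nt.Asy.Kappa
import Pool.Agent.Work.MP_a793bb_nt.RadK.DefsK
import Pool.Agent.Work.MP_a793bb_nt.RadE.FinalDefsE

/-!
# Definitions for the asymptotic formula

`t` is an element of the number field `K` different from `0` and `1`. In the library: `Ip t` is the
set of primes where `t` or `1 - t` is not a unit, `Rs` the sum of the logarithms of the norms,
`hh t` the logarithmic height `logHeight ![t, 1 - t, -1]` (not divided by the degree), `side j t`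
(`j : Fin 3`) is `t`, `1 - t`, `t⁻¹`, `kp p y` the exponent of `p` in `y`, `LP y univ` the logarithm of
the norm of the numerator of `y` and `LR y univ` the logarithm of the norm of its radical.
-/

set_option autoImplicit false

namespace AbcAsy

open NumberField IsDedekindDomain MeasureTheory Pool.Agent.Work.MP_a793bb_nt
  Pool.Agent.Work.MP_a793bb_nt.BPlus mixedEmbedding

/-! ### Elements of `K` -/

section elements

variable {K : Type*} [Field K] [NumberField K]

/-- `log G(t)`: the logarithm of the norm of the product of `p ^ (k - 1)` over the prime powers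
`p ^ k` (`k ≥ 1`) exactly dividing the numerators of `t`, `1 - t`, `t⁻¹`. -/
noncomputable def LG (t : K) : ℝ :=
  ∑ j : Fin 3, (LP (side j t) Set.univ - LR (side j t) Set.univ)

/-- The archimedean deficiency of `t` at `v`: `3 log max(1, |t|, |1 - t|) - log |t| - log |1 - t|`. -/
noncomputable def Av (v : InfinitePlace K) (t : K) : ℝ :=
  3 * Real.log (max 1 (max (v t) (v (1 - t)))) - Real.log (v t) - Real.log (v (1 - t))

/-- The excess ideal of the numerator of `y`: the product of `p ^ (k - 1)` over the prime powers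
`p ^ k` exactly dividing the numerator of `y`. -/
noncomputable def exI (y : K) : Ideal (𝓞 K) := ∏ᶠ p : HeightOneSpectrum (𝓞 K),
  p.asIdeal ^ (kp p y - 1).toNat

/-- The elements with radical at most `exp ℓ`. -/
def tset (K : Type*) [Field K] [NumberField K] (ℓ : ℝ) : Set K :=
  {t | t ≠ 0 ∧ t ≠ 1 ∧ Rs (Ip t) ≤ ℓ}

end elements

/-! ### The real space -/

section space

variable (K : Type*) [Field K] [NumberField K]

/-- The square of the mixed space. -/
abbrev EE : Type _ := mixedSpace K × mixedSpace K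

variable {K} in
/-- The form `F(x, z) = |N(x) N(z) N(z - x)|`. -/
noncomputable def Fn (q : EE K) : ℝ :=
  mixedEmbedding.norm q.1 * mixedEmbedding.norm q.2 * mixedEmbedding.norm (q.2 - q.1)

/-- The pairs `(x, z)` with `z` in the fundamental cone and `x`, `z`, `z - x` of comparable size at
all places. -/
def coneT (T : ℝ) : Set (EE K) :=
  {q | q.2 ∈ fundamentalCone K ∧ ∀ v : InfinitePlace K,
    normAtPlace v q.1 ≤ T * normAtPlace v q.2 ∧ normAtPlace v q.2 ≤ T * normAtPlace v q.1 ∧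
    normAtPlace v q.2 ≤ T * normAtPlace v (q.2 - q.1)}

/-- The part of `coneT K T` with `F ≤ 1`. -/
def regT (T : ℝ) : Set (EE K) := {q | q ∈ coneT K T ∧ Fn q ≤ 1}

/-- The limit of the sets `regT K T`. -/
def regInf : Set (EE K) := {q | q.2 ∈ fundamentalCone K ∧ Fn q ≤ 1}

variable {K} in
/-- The pair of integers as an element of the real space. -/
noncomputable def emb (q : 𝓞 K × 𝓞 K) : EE K :=
  (mixedEmbedding K (q.1 : K), mixedEmbedding K (q.2 : K))

end space

/-! ### The sieve -/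

section sieve

variable {K : Type*} [Field K] [NumberField K]

open Classical in
/-- `min (v_p(x) - v_p(J), k)` for `x ∈ J`. -/
noncomputable def vI (J : Ideal (𝓞 K)) (k : ℕ) (p : HeightOneSpectrum (𝓞 K)) (x : 𝓞 K) : ℕ :=
  Nat.findGreatest (fun i => x ∈ p.asIdeal ^ i * J) k

/-- The largest of the three exponents of `x`, `z`, `z - x`. -/
noncomputable def mI (J : Ideal (𝓞 K)) (k : ℕ) (p : HeightOneSpectrum (𝓞 K)) (q : 𝓞 K × 𝓞 K) : ℕ :=
  max (vI J k p q.1) (max (vI J k p q.2) (vI J k p (q.2 - q.1)))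

/-- `p` does not divide both `x / J` and `z / J`. -/
def copI (J : Ideal (𝓞 K)) (p : HeightOneSpectrum (𝓞 K)) (q : 𝓞 K × 𝓞 K) : Prop :=
  ¬ (q.1 ∈ p.asIdeal * J ∧ q.2 ∈ p.asIdeal * J)

/-- `G_S(x, z)`. -/
noncomputable def GS (J : Ideal (𝓞 K)) (S : Finset (HeightOneSpectrum (𝓞 K))) (k : ℕ)
    (q : 𝓞 K × 𝓞 K) : ℝ :=
  ∏ p ∈ S, (Ideal.absNorm p.asIdeal : ℝ) ^ (mI J k p q - 1)

/-- The sieved set of pairs. -/
def AS (J : Ideal (𝓞 K)) (S : Finset (HeightOneSpectrum (𝓞 K))) (k : ℕ) (T R : ℝ) :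
    Set (𝓞 K × 𝓞 K) :=
  {q | q.1 ∈ J ∧ q.2 ∈ J ∧ emb q ∈ coneT K T ∧ (∀ p ∈ S, copI J p q) ∧ GS J S k q ≤ T ∧
    Fn (emb q) ≤ R * (Ideal.absNorm J : ℝ) ^ 3 * GS J S k q}

/-- The pairs `(x, z)` with `(x, z) = J`, `z` in the fundamental cone, whose quotient has radical
at most `R`. -/
def PS (J : Ideal (𝓞 K)) (R : ℝ) : Set (𝓞 K × 𝓞 K) :=
  {q | q.1 ≠ 0 ∧ q.2 ≠ 0 ∧ q.1 ≠ q.2 ∧ Ideal.span {q.1, q.2} = J ∧
    mixedEmbedding K (q.2 : K) ∈ fundamentalCone K ∧
    Real.exp (Rs (Ip ((q.1 : K) / (q.2 : K)))) ≤ R}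

/-- The special pairs: a square of a prime outside `S`, or a power `p ^ (k + 1)` of any prime,
divides one of `x / J`, `z / J`, `(z - x) / J`, or a prime outside `S` divides both. -/
def Special (J : Ideal (𝓞 K)) (S : Finset (HeightOneSpectrum (𝓞 K))) (k : ℕ) (q : 𝓞 K × 𝓞 K) :
    Prop :=
  ∃ p : HeightOneSpectrum (𝓞 K),
    (p ∉ S ∧ (q.1 ∈ p.asIdeal ^ 2 * J ∨ q.2 ∈ p.asIdeal ^ 2 * J ∨ q.2 - q.1 ∈ p.asIdeal ^ 2 * J ∨
      (q.1 ∈ p.asIdeal * J ∧ q.2 ∈ p.asIdeal * J))) ∨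
    (q.1 ∈ p.asIdeal ^ (k + 1) * J ∨ q.2 ∈ p.asIdeal ^ (k + 1) * J ∨
      q.2 - q.1 ∈ p.asIdeal ^ (k + 1) * J)

/-- The weight of the sieve at one prime, with exponent `s`. -/
noncomputable def wI (k : ℕ) (s : ℝ) (p : HeightOneSpectrum (𝓞 K)) (q : 𝓞 K × 𝓞 K) : ℝ :=
  open Classical in
  if copI ⊤ p q then ((Ideal.absNorm p.asIdeal : ℝ) ^ s) ^ (mI ⊤ k p q - 1) else 0

/-- The average of a function of pairs of integers over the residue classes modulo `I`. -/
noncomputable def avg (I : Ideal (𝓞 K)) (f : 𝓞 K × 𝓞 K → ℝ) : ℝ :=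
  (∑ᶠ c : (𝓞 K ⧸ I) × (𝓞 K ⧸ I), f (Quotient.out c.1, Quotient.out c.2)) /
    (Ideal.absNorm I : ℝ) ^ 2

/-- The local density with exponent `s`, truncated at `k`, for a prime of norm `N`. -/
noncomputable def Lk (s : ℝ) (k : ℕ) (N : ℝ) : ℝ :=
  1 - 3 / N + 2 / N ^ 2 + 3 * (1 - 1 / N) *
    (∑ i ∈ Finset.range (k - 1), (1 - 1 / N) * N⁻¹ ^ (i + 1) * (N ^ s) ^ i +
      N⁻¹ ^ k * (N ^ s) ^ (k - 1))

end sieve

end AbcAsy
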