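import Pool.Agent.Work.MP_a793bb_nt.Asy.SDefs

/-!
# Every element comes from exactly `torsionOrder K` pairs

Proof. Let `t ∈ U`, `t ≠ 0`. Write `t = x₀ / z₀` with `x₀, z₀ ∈ 𝓞 K`, `z₀ ≠ 0` (`x₀ ≠ 0`), `A = span {x₀, z₀}`. The pairs `(x, z)`, `z ≠ 0`,
with `x / z = t` are `(c x₀, c z₀)`, `c = z / z₀ ∈ K^*`. Let `C = ClassGroup.mk0 A`. If `span {x, z} = J` for a nonzero `J`, then `z₀ J = z A` as ideals
(`span {z₀ x, z₀ z} = span {z x₀, z z₀}` because `z₀ x = z x₀`), so `mk0 J = mk0 A` (`ClassGroup.mk0_eq_mk0_iff`); so only the class `C` contributes,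
`J = rep C`. Existence: `mk0 (rep C) = mk0 A` gives nonzero `α, β ∈ 𝓞 K` with `span {α} * A = span {β} * J`
(`ClassGroup.mk0_eq_mk0_iff`); then `α x₀ ∈ span {β} * J`, so `β ∣ α x₀`, `β ∣ α z₀`, and `x = α x₀ / β`, `z = α z₀ / β` satisfy `span {x, z} = J`
(cancel `span {β}`). Two pairs `(x, z)`, `(x', z')` for `t` with the same `J`: `z' / z = c` satisfies `c J = J`, so `c` is a unit `u`
(`z' A' ...`: `span {z} * J = ...`; e.g. `z' J = span {z' x, z' z} = span {z x', z z'} = z J`, so `span {z'} = span {z}` by cancelling `J`, associated), and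
`x' = u x`. So the pairs for `t` with `span = rep C` are `(u x, u z)`, `u ∈ (𝓞 K)ˣ`, all different. By `fundamentalCone.exists_unit_smul_mem`
one of them has `mixedEmbedding K z ∈ fundamentalCone K` (`mixedEmbedding.norm ≠ 0` because `z ≠ 0`; the action is
`u • mixedEmbedding K z = mixedEmbedding K (u z)`, `unitSMul_smul`), and then exactly those with `u` in the torsion subgroup times it
(`unit_smul_mem_iff_mem_torsion`), which has `torsionOrder K = Fintype.card (torsion K)` elements. Sum over `t ∈ U`, `U` finite (the sets for different `t` are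
disjoint; every class contributes the `t` with this class).
-/

set_option autoImplicit false

namespace AbcAsy

open NumberField NumberField.Units NumberField.mixedEmbedding nonZeroDivisors

private theorem span_smul_pair {R : Type*} [CommRing R] (a x z : R) :
    Ideal.span {a * x, a * z} = Ideal.span {a} * Ideal.span {x, z} := by
  rw [Ideal.span_mul_span', Set.singleton_mul, Set.image_pair]

private theorem key {K : Type*} [Field K] [NumberField K]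
    {rep : ClassGroup (𝓞 K) → (Ideal (𝓞 K))⁰} (hrep : ∀ C, ClassGroup.mk0 (rep C) = C) {t : K}
    (ht : t ≠ 0) : ∃ (C₀ : ClassGroup (𝓞 K)) (x z : 𝓞 K), z ≠ 0 ∧ (x : K) / (z : K) = t ∧
      ∀ (C : ClassGroup (𝓞 K)) (q : 𝓞 K × 𝓞 K),
        (q.2 ≠ 0 ∧ Ideal.span {q.1, q.2} = (rep C : Ideal (𝓞 K)) ∧
          mixedEmbedding K (q.2 : K) ∈ fundamentalCone K ∧ (q.1 : K) / (q.2 : K) = t) ↔
        (C = C₀ ∧ ∃ ζ : torsion K,
          q = (((ζ : (𝓞 K)ˣ) : 𝓞 K) * x, ((ζ : (𝓞 K)ˣ) : 𝓞 K) * z)) := by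
  obtain ⟨x₀, z₀, hz₀', h0⟩ := IsFractionRing.div_surjective (A := 𝓞 K) t
  have hz₀ : z₀ ≠ 0 := nonZeroDivisors.ne_zero hz₀'
  have hA : Ideal.span {x₀, z₀} ≠ ⊥ := by
    intro h
    exact hz₀ (by simpa using (Ideal.span_eq_bot.1 h) z₀ (by simp))
  obtain ⟨A, hAdef⟩ : ∃ A : (Ideal (𝓞 K))⁰, (A : Ideal (𝓞 K)) = Ideal.span {x₀, z₀} :=
    ⟨⟨_, mem_nonZeroDivisors_of_ne_zero hA⟩, rfl⟩
  obtain ⟨C₀, hC₀⟩ : ∃ C₀, C₀ = ClassGroup.mk0 A := ⟨_, rfl⟩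
  have h1 : ClassGroup.mk0 A = ClassGroup.mk0 (rep C₀) := by rw [hrep, hC₀]
  obtain ⟨α, β, hα, hβ, h2⟩ := ClassGroup.mk0_eq_mk0_iff.1 h1
  have hx : α * x₀ ∈ Ideal.span {β} * (rep C₀ : Ideal (𝓞 K)) := by
    rw [← h2, hAdef, Ideal.mem_span_singleton_mul]
    exact ⟨x₀, Ideal.subset_span (by simp), rfl⟩
  have hz : α * z₀ ∈ Ideal.span {β} * (rep C₀ : Ideal (𝓞 K)) := by
    rw [← h2, hAdef, Ideal.mem_span_singleton_mul]
    exact ⟨z₀, Ideal.subset_span (by simp), rfl⟩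
  obtain ⟨x₁, -, hx₁⟩ := Ideal.mem_span_singleton_mul.1 hx
  obtain ⟨z₁, -, hz₁⟩ := Ideal.mem_span_singleton_mul.1 hz
  have hβ' : (Ideal.span {β} : Ideal (𝓞 K)) ≠ 0 := by
    rw [Ne, Ideal.zero_eq_bot, Ideal.span_singleton_eq_bot]
    exact hβ
  have hJ : Ideal.span {x₁, z₁} = (rep C₀ : Ideal (𝓞 K)) := by
    refine mul_left_cancel₀ hβ' ?_
    rw [← span_smul_pair, hx₁, hz₁, span_smul_pair, ← h2, hAdef]
  have hz₁0 : z₁ ≠ 0 := by
    rintro rfl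
    rw [mul_zero] at hz₁
    exact (mul_ne_zero hα hz₀) hz₁.symm
  -- the unit
  have hnorm : mixedEmbedding.norm (mixedEmbedding K (z₁ : K)) ≠ 0 := by
    rw [mixedEmbedding.norm_eq_norm]
    simpa using hz₁0
  obtain ⟨u, hu⟩ := fundamentalCone.exists_unit_smul_mem hnorm
  obtain ⟨x, hxdef⟩ : ∃ x, x = (u : 𝓞 K) * x₁ := ⟨_, rfl⟩
  obtain ⟨z, hzdef⟩ : ∃ z, z = (u : 𝓞 K) * z₁ := ⟨_, rfl⟩
  have hz0 : z ≠ 0 := by
    rw [hzdef]
    exact mul_ne_zero u.ne_zero hz₁0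
  have hspan : ∀ w : (𝓞 K)ˣ, ∀ a b : 𝓞 K, Ideal.span {(w : 𝓞 K) * a, (w : 𝓞 K) * b} =
      Ideal.span {a, b} := by
    intro w a b
    rw [span_smul_pair, Ideal.span_singleton_eq_top.2 w.isUnit, Ideal.top_mul]
  have hcone : mixedEmbedding K (z : K) ∈ fundamentalCone K := by
    have h3 : u • mixedEmbedding K (z₁ : K) = mixedEmbedding K (z : K) :=
      unit_smul_eq_iff_mul_eq.2 hzdef.symm
    rwa [← h3]
  have hcoe : ∀ a b : 𝓞 K, ((a * b : 𝓞 K) : K) = (a : K) * (b : K) := fun a b => by push_cast; rfl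
  have hne : ∀ a : 𝓞 K, a ≠ 0 → (a : K) ≠ 0 := fun a ha => by exact_mod_cast ha
  have ht1 : (x : K) / (z : K) = t := by
    have h3 : (u : 𝓞 K) ≠ 0 := u.ne_zero
    have h4 : (x : K) / (z : K) = (x₁ : K) / (z₁ : K) := by
      rw [hxdef, hzdef, hcoe, hcoe, mul_div_mul_left _ _ (hne _ h3)]
    have h5 : (x₁ : K) / (z₁ : K) = ((β * x₁ : 𝓞 K) : K) / ((β * z₁ : 𝓞 K) : K) := by
      rw [hcoe, hcoe, mul_div_mul_left _ _ (hne _ hβ)]
    rw [h4, h5, hx₁, hz₁, hcoe, hcoe, mul_div_mul_left _ _ (hne _ hα)]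
    exact h0
  refine ⟨C₀, x, z, hz0, ht1, fun C q => ⟨?_, ?_⟩⟩
  · rintro ⟨g1, g2, g3, g4⟩
    have h3 : q.1 * z = x * q.2 := by
      have h4 : (q.1 : K) * z = x * q.2 := by
        have h5 : (q.1 : K) / (q.2 : K) = (x : K) / (z : K) := g4.trans ht1.symm
        rwa [div_eq_div_iff (hne _ g1) (hne _ hz0)] at h5
      exact_mod_cast h4
    have h4 : Ideal.span {z} * (rep C : Ideal (𝓞 K)) =
        Ideal.span {q.2} * (rep C₀ : Ideal (𝓞 K)) := by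
      rw [← g2, ← hJ, ← hspan u x₁ z₁, ← hxdef, ← hzdef, ← span_smul_pair, ← span_smul_pair,
        mul_comm z q.1, h3, mul_comm x q.2, mul_comm z q.2]
    have hC : C = C₀ := by
      have h5 : ClassGroup.mk0 (rep C) = ClassGroup.mk0 (rep C₀) :=
        ClassGroup.mk0_eq_mk0_iff.2 ⟨z, q.2, hz0, g1, h4⟩
      rwa [hrep, hrep] at h5
    refine ⟨hC, ?_⟩
    rw [hC] at h4
    have h5 : (rep C₀ : Ideal (𝓞 K)) ≠ 0 := nonZeroDivisors.ne_zero (rep C₀).2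
    have h6 : (Ideal.span {z} : Ideal (𝓞 K)) = Ideal.span {q.2} := mul_right_cancel₀ h5 h4
    rw [Ideal.span_singleton_eq_span_singleton] at h6
    obtain ⟨w, hw⟩ := h6
    have h7 : w • mixedEmbedding K (z : K) = mixedEmbedding K (q.2 : K) :=
      unit_smul_eq_iff_mul_eq.2 (by rw [← hw, mul_comm])
    have h8 : w ∈ torsion K := by
      rw [← fundamentalCone.unit_smul_mem_iff_mem_torsion hcone, h7]
      exact g3
    refine ⟨⟨w, h8⟩, ?_⟩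
    refine Prod.ext ?_ ?_
    · show q.1 = (w : 𝓞 K) * x
      rw [← hw] at h3
      refine mul_right_cancel₀ hz0 ?_
      rw [h3]
      ring
    · show q.2 = (w : 𝓞 K) * z
      rw [← hw, mul_comm]
  · rintro ⟨rfl, ζ, rfl⟩
    refine ⟨mul_ne_zero (Units.ne_zero _) hz0, ?_, ?_, ?_⟩
    · show Ideal.span {((ζ : (𝓞 K)ˣ) : 𝓞 K) * x, ((ζ : (𝓞 K)ˣ) : 𝓞 K) * z} = _
      rw [hspan, hxdef, hzdef, hspan, hJ]
    · have h3 : (ζ : (𝓞 K)ˣ) • mixedEmbedding K (z : K) =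
          mixedEmbedding K ((((ζ : (𝓞 K)ˣ) : 𝓞 K) * z : 𝓞 K) : K) :=
        unit_smul_eq_iff_mul_eq.2 rfl
      show mixedEmbedding K ((((ζ : (𝓞 K)ˣ) : 𝓞 K) * z : 𝓞 K) : K) ∈ _
      rw [← h3]
      exact fundamentalCone.torsion_smul_mem_of_mem hcone ζ.2
    · show ((((ζ : (𝓞 K)ˣ) : 𝓞 K) * x : 𝓞 K) : K) / ((((ζ : (𝓞 K)ˣ) : 𝓞 K) * z : 𝓞 K) : K) = t
      rw [hcoe, hcoe, mul_div_mul_left _ _ (hne _ (Units.ne_zero _)), ht1]

theorem mult_count (K : Type*) [Field K] [NumberField K] {U : Set K} (hU : U.Finite)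
    (h0 : (0 : K) ∉ U) {rep : ClassGroup (𝓞 K) → (Ideal (𝓞 K))⁰}
    (hrep : ∀ C, ClassGroup.mk0 (rep C) = C) :
    (∀ C, {q : 𝓞 K × 𝓞 K | q.2 ≠ 0 ∧ Ideal.span {q.1, q.2} = (rep C : Ideal (𝓞 K)) ∧
      mixedEmbedding K (q.2 : K) ∈ fundamentalCone K ∧ (q.1 : K) / (q.2 : K) ∈ U}.Finite) ∧
    torsionOrder K * U.ncard = ∑ C : ClassGroup (𝓞 K), {q : 𝓞 K × 𝓞 K | q.2 ≠ 0 ∧
      Ideal.span {q.1, q.2} = (rep C : Ideal (𝓞 K)) ∧
      mixedEmbedding K (q.2 : K) ∈ fundamentalCone K ∧ (q.1 : K) / (q.2 : K) ∈ U}.ncard := by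
  classical
  have hft : Fintype (torsion K) := Fintype.ofFinite _
  choose! C₀ x z hz ht h using fun (t : K) (ht : t ≠ 0) => key hrep ht
  have hU0 : ∀ t ∈ U, t ≠ 0 := fun t ht h => h0 (h ▸ ht)
  obtain ⟨Φ, hΦ⟩ : ∃ Φ : K × torsion K → 𝓞 K × 𝓞 K, Φ = fun a =>
    ((((a.2 : (𝓞 K)ˣ) : 𝓞 K) * x a.1, ((a.2 : (𝓞 K)ˣ) : 𝓞 K) * z a.1)) := ⟨_, rfl⟩
  have hcoe : ∀ a b : 𝓞 K, ((a * b : 𝓞 K) : K) = (a : K) * (b : K) := fun a b => by push_cast; rfl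
  have hne : ∀ a : 𝓞 K, a ≠ 0 → (a : K) ≠ 0 := fun a ha => by exact_mod_cast ha
  have hinj : Set.InjOn Φ {a | a.1 ∈ U} := by
    rintro ⟨t, ζ⟩ ha ⟨t', ζ'⟩ ha' hEq
    have ht0 := hU0 _ ha
    have ht0' := hU0 _ ha'
    rw [hΦ] at hEq
    simp only [Prod.mk.injEq] at hEq ht0 ht0'
    have e1 : t = t' := by
      have e2 : ((((ζ : (𝓞 K)ˣ) : 𝓞 K) * x t : 𝓞 K) : K) / ((((ζ : (𝓞 K)ˣ) : 𝓞 K) * z t : 𝓞 K) : K)
          = ((((ζ' : (𝓞 K)ˣ) : 𝓞 K) * x t' : 𝓞 K) : K) /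
            ((((ζ' : (𝓞 K)ˣ) : 𝓞 K) * z t' : 𝓞 K) : K) := by
        rw [hEq.1, hEq.2]
      rw [hcoe, hcoe, hcoe, hcoe, mul_div_mul_left _ _ (hne _ (Units.ne_zero _)),
        mul_div_mul_left _ _ (hne _ (Units.ne_zero _)), ht t ht0, ht t' ht0'] at e2
      exact e2
    subst e1
    have e3 : ((ζ : (𝓞 K)ˣ) : 𝓞 K) = ((ζ' : (𝓞 K)ˣ) : 𝓞 K) := mul_right_cancel₀ (hz t ht0) hEq.2
    rw [Prod.mk.injEq]
    exact ⟨rfl, Subtype.ext (Units.ext e3)⟩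
  have hset : ∀ C, {q : 𝓞 K × 𝓞 K | q.2 ≠ 0 ∧ Ideal.span {q.1, q.2} = (rep C : Ideal (𝓞 K)) ∧
      mixedEmbedding K (q.2 : K) ∈ fundamentalCone K ∧ (q.1 : K) / (q.2 : K) ∈ U} =
      ((((hU.toFinset.filter fun t => C₀ t = C) ×ˢ (Finset.univ : Finset (torsion K))).image Φ :
        Finset (𝓞 K × 𝓞 K)) : Set (𝓞 K × 𝓞 K)) := by
    intro C
    ext q
    rw [Finset.mem_coe, Finset.mem_image, Set.mem_setOf_eq]
    constructor
    · rintro ⟨g1, g2, g3, g4⟩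
      have ht0 := hU0 _ g4
      obtain ⟨g5, ζ, g6⟩ := (h _ ht0 C q).1 ⟨g1, g2, g3, rfl⟩
      refine ⟨((q.1 : K) / (q.2 : K), ζ), ?_, ?_⟩
      · rw [Finset.mem_product, Finset.mem_filter, Set.Finite.mem_toFinset]
        exact ⟨⟨g4, g5.symm⟩, Finset.mem_univ _⟩
      · rw [hΦ]
        exact g6.symm
    · rintro ⟨⟨t, ζ⟩, g1, g2⟩
      rw [Finset.mem_product, Finset.mem_filter, Set.Finite.mem_toFinset] at g1
      obtain ⟨⟨g3, g4⟩, -⟩ := g1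
      have ht0 := hU0 _ g3
      obtain ⟨g5, g6, g7, g8⟩ := (h t ht0 C q).2 ⟨g4.symm, ζ, by rw [← g2, hΦ]⟩
      refine ⟨g5, g6, g7, ?_⟩
      rw [g8]
      exact g3
  refine ⟨fun C => by rw [hset]; exact Finset.finite_toSet _, ?_⟩
  have hcard : ∀ C, {q : 𝓞 K × 𝓞 K | q.2 ≠ 0 ∧ Ideal.span {q.1, q.2} = (rep C : Ideal (𝓞 K)) ∧
      mixedEmbedding K (q.2 : K) ∈ fundamentalCone K ∧ (q.1 : K) / (q.2 : K) ∈ U}.ncard =
      (hU.toFinset.filter fun t => C₀ t = C).card * torsionOrder K := by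
    intro C
    rw [hset, Set.ncard_coe_finset, Finset.card_image_of_injOn, Finset.card_product,
      Finset.card_univ]
    · rw [torsionOrder, Nat.card_eq_fintype_card]
    · refine hinj.mono ?_
      intro a ha
      rw [Finset.mem_coe, Finset.mem_product, Finset.mem_filter, Set.Finite.mem_toFinset] at ha
      exact ha.1.1
  rw [Finset.sum_congr rfl fun C _ => hcard C, ← Finset.sum_mul,
    ← Finset.card_eq_sum_card_fiberwise (fun t _ => Finset.mem_univ (C₀ t)),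
    Set.ncard_eq_toFinset_card _ hU, mul_comm]

end AbcAsy
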