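import Pool.Agent.Work.MP_a793bb_nt.Asy.Defs
import Pool.Agent.Work.MP_a793bb_nt.OrdA.ConcD

/-!
# Concentration

Parts II and III of RadicalOrder: all but a power
saving number of the points with radical at most `exp ℓ` have height at most `3 ℓ / 8`.
-/

set_option autoImplicit false

namespace AbcAsy

open NumberField IsDedekindDomain Height Pool.Agent.Work.MP_a793bb_nt
  Pool.Agent.Work.MP_a793bb_nt.BPlus

theorem conc (K : Type*) [Field K] [NumberField K] :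
    ∃ C η : ℝ, 0 < C ∧ 0 < η ∧ ∀ (ℓ : ℝ) (F : Finset K), 0 ≤ ℓ →
      (∀ t ∈ F, t ∈ tset K ℓ ∧ 3 / 8 * ℓ < hh t) →
      (F.card : ℝ) ≤ C * Real.exp ((2 / 3 - η) * ℓ) := by
  obtain ⟨η, C, hη, hC, h⟩ := conc_affine K (1 / 24) (by norm_num)
  refine ⟨C, η, hC, hη, fun ℓ F hℓ hF => ?_⟩
  obtain ⟨f, b⟩ := h ℓ hℓ
  refine le_trans ?_ b
  have hsub : (F : Set K) ⊆
      {t : K | t ≠ 0 ∧ t ≠ 1 ∧ Rs (Ip t) ≤ ℓ ∧ (1 / 3 + 1 / 24) * ℓ ≤ hh t} := by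
    intro t ht
    obtain ⟨⟨n0, n1, hR⟩, hH⟩ := hF t ht
    refine ⟨n0, n1, hR, ?_⟩
    linarith
  have h1 := Set.ncard_le_ncard hsub f
  rw [Set.ncard_coe_finset] at h1
  exact_mod_cast h1

end AbcAsy
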