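import Pool.Agent.Work.MP_a793bb_nt.Asy.TTail
import Pool.Agent.Work.MP_a793bb_nt.Asy.TConc

/-!
# Uniform tails, finiteness and the truncation

Proof of `tail_eps`: split `F` at `hh t ≤ 3 ℓ / 8`; `tail_one` and `conc` give
`F.card ≤ C exp (2 ℓ / 3) (exp (- τ / 4) + exp (- ℓ / 24) + exp (- η ℓ))`; choose `τ` with `C exp (- τ / 4) ≤ ε / 3` and then `ℓ₀`.

Proof of `tset_finite`: every finite subset has at most `C (exp (2 ℓ / 3) + exp (5 ℓ / 8) + exp ((2 / 3 - η) ℓ))` elements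
(`τ = 0`, `three_hh`) for `ℓ ≥ 0`, and `tset K ℓ ⊆ tset K 0` for `ℓ ≤ 0` (`Set.infinite_iff`, `Set.Infinite.exists_subset_card_eq`).

Proof of `trunc`: `three_hh`: `LG t + ∑_v mult Av v t < log (T / 2)`, all terms nonnegative, `mult ≥ 1`; so
`LG t ≤ log T`, and `Av v t < log (T / 2)`, i.e. `exp (- Av v t) > 2 / T`, for all `v`; `Av_large`.
-/

set_option autoImplicit false

namespace AbcAsy

open NumberField IsDedekindDomain Height Pool.Agent.Work.MP_a793bb_nt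
  Pool.Agent.Work.MP_a793bb_nt.BPlus

private lemma exp_small {C c δ : ℝ} (hC : 0 < C) (hc : 0 < c) (hδ : 0 < δ) :
    ∃ x₀ : ℝ, 0 ≤ x₀ ∧ ∀ x, x₀ ≤ x → C * Real.exp (-(c * x)) ≤ δ := by
  refine ⟨max 0 (Real.log (C / δ) / c), le_max_left _ _, fun x hx => ?_⟩
  have h1 : Real.log (C / δ) / c ≤ x := (le_max_right _ _).trans hx
  rw [div_le_iff₀ hc] at h1
  have h2 : C / δ ≤ Real.exp (c * x) := by
    rw [← Real.log_le_iff_le_exp (by positivity)]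
    linarith
  rw [Real.exp_neg]
  have h3 := Real.exp_pos (c * x)
  rw [div_le_iff₀ hδ] at h2
  rw [← div_eq_mul_inv, div_le_iff₀ h3]
  linarith

private lemma dev_nonneg {K : Type*} [Field K] [NumberField K] {t : K} (h0 : t ≠ 0) (h1 : t ≠ 1) :
    0 ≤ 3 * hh t - Rs (Ip t) := by
  have h := three_hh h0 h1
  have h2 := LG_nonneg h0 h1
  have h3 : 0 ≤ ∑ v : InfinitePlace K, (v.mult : ℝ) * Av v t :=
    Finset.sum_nonneg fun v _ => mul_nonneg (by positivity) (Av_nonneg v h0 h1)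
  linarith

private lemma split_bound (K : Type*) [Field K] [NumberField K] : ∃ C₁ C₂ η : ℝ, 0 < C₁ ∧ 0 < C₂ ∧
    0 < η ∧ ∀ (ℓ τ : ℝ) (F : Finset K), 0 ≤ ℓ → 0 ≤ τ →
      (∀ t ∈ F, t ∈ tset K ℓ ∧ τ ≤ 3 * hh t - Rs (Ip t)) →
      (F.card : ℝ) ≤ C₁ * (Real.exp (2 / 3 * ℓ - τ / 4) + Real.exp (5 / 8 * ℓ)) +
        C₂ * Real.exp ((2 / 3 - η) * ℓ) := by
  classical
  obtain ⟨C₁, hC₁, h1⟩ := tail_one K
  obtain ⟨C₂, η, hC₂, hη, h2⟩ := conc K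
  refine ⟨C₁, C₂, η, by linarith, hC₂, hη, fun ℓ τ F hℓ hτ hF => ?_⟩
  have hsplit : (F.card : ℝ) = ((F.filter fun t => hh t ≤ 3 / 8 * ℓ).card : ℝ) +
      ((F.filter fun t => ¬ hh t ≤ 3 / 8 * ℓ).card : ℝ) := by
    have := Finset.card_filter_add_card_filter_not (s := F) (fun t => hh t ≤ 3 / 8 * ℓ)
    exact_mod_cast this.symm
  rw [hsplit]
  apply add_le_add
  · apply h1 ℓ τ _ hℓ hτ
    intro t ht
    rw [Finset.mem_filter] at ht
    exact ⟨(hF t ht.1).1, ht.2, (hF t ht.1).2⟩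
  · apply h2 ℓ _ hℓ
    intro t ht
    rw [Finset.mem_filter] at ht
    exact ⟨(hF t ht.1).1, not_le.mp ht.2⟩

theorem tail_eps (K : Type*) [Field K] [NumberField K] (ε : ℝ) (hε : 0 < ε) :
    ∃ τ ℓ₀ : ℝ, 0 ≤ τ ∧ 0 ≤ ℓ₀ ∧ ∀ (ℓ : ℝ) (F : Finset K), ℓ₀ ≤ ℓ →
      (∀ t ∈ F, t ∈ tset K ℓ ∧ τ ≤ 3 * hh t - Rs (Ip t)) →
      (F.card : ℝ) ≤ ε * Real.exp (2 / 3 * ℓ) := by
  obtain ⟨C₁, C₂, η, hC₁, hC₂, hη, h⟩ := split_bound K
  obtain ⟨τ, hτ0, hτ⟩ := exp_small hC₁ (show (0 : ℝ) < 1 / 4 by norm_num)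
    (show 0 < ε / 3 by positivity)
  obtain ⟨a, ha0, ha⟩ := exp_small hC₁ (show (0 : ℝ) < 1 / 24 by norm_num)
    (show 0 < ε / 3 by positivity)
  obtain ⟨b, hb0, hb⟩ := exp_small hC₂ hη (show 0 < ε / 3 by positivity)
  refine ⟨τ, max a b, hτ0, le_max_of_le_left ha0, fun ℓ F hℓ hF => ?_⟩
  have hla : a ≤ ℓ := (le_max_left _ _).trans hℓ
  have hlb : b ≤ ℓ := (le_max_right _ _).trans hℓ
  refine (h ℓ τ F (ha0.trans hla) hτ0 hF).trans ?_
  have e1 := hτ τ le_rfl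
  have e2 := ha ℓ hla
  have e3 := hb ℓ hlb
  have hp := Real.exp_pos (2 / 3 * ℓ)
  have f1 : Real.exp (2 / 3 * ℓ - τ / 4) = Real.exp (2 / 3 * ℓ) * Real.exp (-(1 / 4 * τ)) := by
    rw [← Real.exp_add]; congr 1; ring
  have f2 : Real.exp (5 / 8 * ℓ) = Real.exp (2 / 3 * ℓ) * Real.exp (-(1 / 24 * ℓ)) := by
    rw [← Real.exp_add]; congr 1; ring
  have f3 : Real.exp ((2 / 3 - η) * ℓ) = Real.exp (2 / 3 * ℓ) * Real.exp (-(η * ℓ)) := by
    rw [← Real.exp_add]; congr 1; ring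
  rw [f1, f2, f3]
  calc _ = Real.exp (2 / 3 * ℓ) * (C₁ * Real.exp (-(1 / 4 * τ)) +
        C₁ * Real.exp (-(1 / 24 * ℓ)) + C₂ * Real.exp (-(η * ℓ))) := by ring
    _ ≤ Real.exp (2 / 3 * ℓ) * (ε / 3 + ε / 3 + ε / 3) := by
        apply mul_le_mul_of_nonneg_left _ hp.le
        linarith
    _ = ε * Real.exp (2 / 3 * ℓ) := by ring

theorem tset_finite (K : Type*) [Field K] [NumberField K] (ℓ : ℝ) : (tset K ℓ).Finite := by
  obtain ⟨C₁, C₂, η, hC₁, hC₂, hη, h⟩ := split_bound K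
  by_contra hinf
  have hinf' : (tset K ℓ).Infinite := hinf
  set B : ℝ := C₁ * (Real.exp (2 / 3 * max ℓ 0 - 0 / 4) + Real.exp (5 / 8 * max ℓ 0)) +
        C₂ * Real.exp ((2 / 3 - η) * max ℓ 0) with hB
  obtain ⟨F, hFs, hFc⟩ := hinf'.exists_subset_card_eq (⌊B⌋₊ + 1)
  have hF : (F.card : ℝ) ≤ B := by
    apply h (max ℓ 0) 0 F (le_max_right _ _) le_rfl
    intro t ht
    obtain ⟨h0, h1, h2⟩ := hFs ht
    exact ⟨⟨h0, h1, h2.trans (le_max_left _ _)⟩, dev_nonneg h0 h1⟩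
  rw [hFc] at hF
  have := Nat.lt_floor_add_one B
  push_cast at hF
  linarith

theorem trunc {K : Type*} [Field K] [NumberField K] {t : K} (h0 : t ≠ 0) (h1 : t ≠ 1) {T : ℝ}
    (hT : 2 ≤ T) (h : 3 * hh t - Rs (Ip t) < Real.log (T / 2)) :
    LG t ≤ Real.log T ∧ ∀ v : InfinitePlace K, v t ≤ T ∧ 1 ≤ T * v t ∧ 1 ≤ T * v (1 - t) := by
  have hid := three_hh h0 h1
  have hLG := LG_nonneg h0 h1
  have hterm : ∀ v : InfinitePlace K, 0 ≤ (v.mult : ℝ) * Av v t := fun v =>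
    mul_nonneg (by positivity) (Av_nonneg v h0 h1)
  have hs : 0 ≤ ∑ v : InfinitePlace K, (v.mult : ℝ) * Av v t :=
    Finset.sum_nonneg fun v _ => hterm v
  have hlog : Real.log (T / 2) ≤ Real.log T :=
    Real.log_le_log (by positivity) (by linarith)
  refine ⟨by linarith, fun v => ?_⟩
  apply Av_large v h0 h1 hT
  have h2 : (v.mult : ℝ) * Av v t ≤ ∑ v : InfinitePlace K, (v.mult : ℝ) * Av v t :=
    Finset.single_le_sum (f := fun v : InfinitePlace K => (v.mult : ℝ) * Av v t)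
      (fun v _ => hterm v) (Finset.mem_univ v)
  have hm : (1 : ℝ) ≤ v.mult := by
    have := v.mult_pos
    exact_mod_cast this
  have h3 : Av v t ≤ (v.mult : ℝ) * Av v t := by
    have := Av_nonneg v h0 h1
    nlinarith
  have h4 : Av v t < Real.log (T / 2) := by linarith
  have h5 : Real.exp (-Real.log (T / 2)) < Real.exp (-Av v t) := Real.exp_lt_exp.mpr (by linarith)
  rw [Real.exp_neg, Real.exp_log (by positivity), inv_div] at h5
  exact h5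

end AbcAsy
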