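import Pool.Agent.Work.MP_a793bb_nt.Asy.PComp
import Pool.Agent.Work.MP_a793bb_nt.Asy.PMult
import Pool.Agent.Work.MP_a793bb_nt.Asy.TEps

/-!
# The truncated count

Proof of `UT_count`. Choose `rep C` with `ClassGroup.mk0 (rep C) = C` (`ClassGroup.mk0_surjective`). `w #UT = ∑_C #PT (rep C) T R` (`mult_count`, `PT_eq`;
`UT K T R` is finite because it is contained in `tset K (log R)`, `tset_finite`), each `#PT` differs from `#AS` by at most
`C R ^ (2 / 3) errS S k` (`comp`), and `#AS / R ^ (2 / 3)` tends to `V_T 4 ^ r₂ / |discr| * dens S k T` (`AS_count`), the same limit for all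
classes; there are `h = classNumber K = Fintype.card (ClassGroup (𝓞 K))` classes. So for large `R`
`|w #UT / R ^ (2 / 3) - h V_T 4 ^ r₂ / |discr| dens S k T| ≤ (∑_C C_C) errS S k + ε`.

Proof of `tset_diff`. `t ∈ tset K (log R)` not in `UT K T R` has `3 hh t - Rs (Ip t) ≥ log (T / 2)` (`trunc`); `tail_eps` with `τ ≤ log (T / 2)`,
`ℓ = log R`, `exp (2 / 3 log R) = R ^ (2 / 3)`.
-/

set_option autoImplicit false

namespace AbcAsy

open MeasureTheory NumberField NumberField.InfinitePlace IsDedekindDomain Filter Topology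

private theorem UT_sub (K : Type*) [Field K] [NumberField K] (T R : ℝ) :
    UT K T R ⊆ tset K (Real.log R) := fun _ h => h.1

open scoped Classical in
theorem UT_count (K : Type*) [Field K] [NumberField K] {T : ℝ} (hT : 2 ≤ T) : ∃ C : ℝ, 0 ≤ C ∧
    ∀ (S : Finset (HeightOneSpectrum (𝓞 K))) (k : ℕ) (ε : ℝ), 1 ≤ k → 0 < ε →
      ∀ᶠ R : ℝ in atTop, |(Units.torsionOrder K : ℝ) * (UT K T R).ncard / R ^ (2 / 3 : ℝ) -
        classNumber K * (volume.real (regT K T) * 4 ^ nrComplexPlaces K / |(discr K : ℝ)|) *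
          dens S k T| ≤ C * errS S k + ε := by
  choose rep hrep using ClassGroup.mk0_surjective (R := 𝓞 K)
  have hne : ∀ C, (rep C : Ideal (𝓞 K)) ≠ ⊥ := fun C => nonZeroDivisors.coe_ne_zero (rep C)
  choose c hc0 hc using fun C => comp K hT (hne C)
  refine ⟨∑ C, c C, Finset.sum_nonneg fun C _ => hc0 C, fun S k ε hk hε => ?_⟩
  set L : ℝ := volume.real (regT K T) * 4 ^ nrComplexPlaces K / |(discr K : ℝ)| * dens S k T
    with hL
  have hlim : Tendsto (fun R : ℝ => ∑ C, ((AS (rep C : Ideal (𝓞 K)) S k T R).ncard : ℝ) /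
      R ^ (2 / 3 : ℝ)) atTop (𝓝 (∑ _C : ClassGroup (𝓞 K), L)) :=
    tendsto_finsetSum _ fun C _ => (AS_count K (by linarith) (hne C) S hk).2
  have hsum : ∑ _C : ClassGroup (𝓞 K), L = classNumber K * L := by
    rw [Finset.sum_const, nsmul_eq_mul, Finset.card_univ]
    rfl
  rw [hsum] at hlim
  have hev := (Metric.tendsto_nhds.1 hlim) ε hε
  filter_upwards [hev, eventually_gt_atTop (0 : ℝ)] with R hR1 hR
  rw [Real.dist_eq] at hR1
  have hRp : 0 < R ^ (2 / 3 : ℝ) := Real.rpow_pos_of_pos hR _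
  have hfin : (UT K T R).Finite := (tset_finite K _).subset (UT_sub K T R)
  have h0 : (0 : K) ∉ UT K T R := fun h => h.1.1 rfl
  have hmc := (mult_count K hfin h0 hrep).2
  have hmc2 : (Units.torsionOrder K : ℝ) * (UT K T R).ncard =
      ∑ C, ((PT (rep C : Ideal (𝓞 K)) T R).ncard : ℝ) := by
    have : ((Units.torsionOrder K * (UT K T R).ncard : ℕ) : ℝ) =
        ((∑ C : ClassGroup (𝓞 K), (PT (rep C : Ideal (𝓞 K)) T R).ncard : ℕ) : ℝ) := by
      rw [hmc]
      congr 1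
      exact Finset.sum_congr rfl fun C _ => by rw [PT_eq hT hR (hne C)]
    push_cast at this
    exact this
  have hdiff : |∑ C, ((PT (rep C : Ideal (𝓞 K)) T R).ncard : ℝ) -
      ∑ C, ((AS (rep C : Ideal (𝓞 K)) S k T R).ncard : ℝ)| ≤
      (∑ C, c C) * R ^ (2 / 3 : ℝ) * errS S k := by
    rw [← Finset.sum_sub_distrib, Finset.sum_mul, Finset.sum_mul]
    exact (Finset.abs_sum_le_sum_abs _ _).trans
      (Finset.sum_le_sum fun C _ => (hc C S k R hk hR).2)
  have hdiff2 : |(∑ C, ((PT (rep C : Ideal (𝓞 K)) T R).ncard : ℝ)) / R ^ (2 / 3 : ℝ) -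
      ∑ C, ((AS (rep C : Ideal (𝓞 K)) S k T R).ncard : ℝ) / R ^ (2 / 3 : ℝ)| ≤
      (∑ C, c C) * errS S k := by
    rw [← Finset.sum_div, ← sub_div, abs_div, abs_of_pos hRp, div_le_iff₀ hRp]
    calc _ ≤ _ := hdiff
      _ = _ := by ring
  rw [hmc2]
  have h1 : classNumber K * (volume.real (regT K T) * 4 ^ nrComplexPlaces K /
      |(discr K : ℝ)|) * dens S k T = classNumber K * L := by rw [hL]; ring
  rw [h1]
  calc _ = |((∑ C, ((PT (rep C : Ideal (𝓞 K)) T R).ncard : ℝ)) / R ^ (2 / 3 : ℝ) -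
      ∑ C, ((AS (rep C : Ideal (𝓞 K)) S k T R).ncard : ℝ) / R ^ (2 / 3 : ℝ)) +
      ((∑ C, ((AS (rep C : Ideal (𝓞 K)) S k T R).ncard : ℝ) / R ^ (2 / 3 : ℝ)) -
        classNumber K * L)| := by ring_nf
    _ ≤ _ := abs_add_le _ _
    _ ≤ _ := add_le_add hdiff2 hR1.le

theorem tset_diff (K : Type*) [Field K] [NumberField K] (ε : ℝ) (hε : 0 < ε) :
    ∃ T₀ : ℝ, 2 ≤ T₀ ∧ ∀ T : ℝ, T₀ ≤ T → ∀ᶠ R : ℝ in atTop,
      |((tset K (Real.log R)).ncard : ℝ) - (UT K T R).ncard| ≤ ε * R ^ (2 / 3 : ℝ) := by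
  obtain ⟨τ, ℓ₀, hτ, hℓ₀, h⟩ := tail_eps K ε hε
  refine ⟨max 2 (2 * Real.exp τ), le_max_left _ _, fun T hT => ?_⟩
  have hT2 : 2 ≤ T := (le_max_left _ _).trans hT
  have hTτ : τ ≤ Real.log (T / 2) := by
    rw [Real.le_log_iff_exp_le (by linarith)]
    linarith [(le_max_right 2 (2 * Real.exp τ)).trans hT]
  filter_upwards [eventually_ge_atTop (Real.exp ℓ₀)] with R hR
  have hR0 : 0 < R := (Real.exp_pos _).trans_le hR
  have hℓ : ℓ₀ ≤ Real.log R := (Real.le_log_iff_exp_le hR0).2 hR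
  have hf := tset_finite K (Real.log R)
  have hfd : (tset K (Real.log R) \ UT K T R).Finite := hf.subset Set.sdiff_subset
  have hcard := Set.ncard_sdiff_add_ncard_of_subset (UT_sub K T R) hf
  have hcard2 : ((tset K (Real.log R)).ncard : ℝ) - (UT K T R).ncard =
      ((tset K (Real.log R) \ UT K T R).ncard : ℝ) := by
    rw [← hcard]
    push_cast
    ring
  rw [hcard2, abs_of_nonneg (Nat.cast_nonneg _), Set.ncard_eq_toFinset_card _ hfd]
  have key := h (Real.log R) hfd.toFinset hℓ fun t ht => by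
    rw [Set.Finite.mem_toFinset] at ht
    refine ⟨ht.1, ?_⟩
    by_contra hcon
    refine ht.2 ⟨ht.1, ?_⟩
    exact trunc ht.1.1 ht.1.2.1 hT2 (lt_of_lt_of_le (not_le.1 hcon) hTτ)
  refine key.trans (le_of_eq ?_)
  rw [Real.rpow_def_of_pos hR0, mul_comm (2 / 3 : ℝ)]

end AbcAsy
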