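import Pool.Agent.Work.MP_a793bb_nt.Asy.SDefs

/-!
# The local average

Proof. Let `N = absNorm p`, `k ≥ 1`, `A = 𝓞 K ⧸ p ^ k` (`N ^ k` elements), and for `c ∈ A` let `v c = vI ⊤ k p (out c)`
(`vI ⊤ k p x` is the largest `i ≤ k` with `x ∈ p ^ i`, it depends only on `x` modulo `p ^ k`). For `i ≤ k` the number of `c ∈ A` with
`v c ≥ i`, i.e. `out c ∈ p ^ i`, is `N ^ (k - i)` (the kernel of `A → 𝓞 K ⧸ p ^ i`, `absNorm (p ^ i) = N ^ i`; e.g.
`Ideal.quotientFactor`, cardinality of fibres of a surjective homomorphism, or the submodule `p ^ i ⧸ p ^ k`,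
`Ideal.card_norm...`). So `v c = i` for `N ^ (k - i) - N ^ (k - i - 1)` elements (`0 ≤ i < k`) and `v c = k` for one element.
Let `W = N ^ s`. For a pair `(x, z)` with not both in `p` at most one of `x, z, z - x` lies in `p`. The sum over all pairs of the weights:
- none of the three in `p`: weight `1`, number `N ^ (2 k) (1 - 3 / N + 2 / N ^ 2)` (inclusion-exclusion: each of the events
  `x ∈ p`, `z ∈ p`, `z - x ∈ p` has `N ^ (2 k - 1)` pairs, any two of them together mean both in `p`: `N ^ (2 k - 2)` pairs);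
- `x ∈ p`, `z ∉ p`, `v x = i + 1`: weight `W ^ i`, number `(N ^ (k - i - 1) - N ^ (k - i - 2)) (N ^ k - N ^ (k - 1))` for
  `i + 1 < k`, and `1 * (N ^ k - N ^ (k - 1))` for `i + 1 = k`;
- `z ∈ p`, `x ∉ p`: the same; `z - x ∈ p`, `z ∉ p`: the same, by the bijection `(x, z) ↦ (z - x, z)`.
Divide by `N ^ (2 k)`. (`2 ≤ N`; `mI` is the maximum of the three exponents and `mI - 1 = 0` if it is `0`.)
-/

set_option autoImplicit false

namespace AbcAsy

open NumberField IsDedekindDomain

variable {K : Type*} [Field K] [NumberField K]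

theorem card_mem_pow (p : HeightOneSpectrum (𝓞 K)) {i k : ℕ} (hik : i ≤ k) :
    {c : 𝓞 K ⧸ p.asIdeal ^ k | Quotient.out c ∈ p.asIdeal ^ i}.ncard =
      Ideal.absNorm p.asIdeal ^ (k - i) := by
  have hle : p.asIdeal ^ k ≤ p.asIdeal ^ i := Ideal.pow_le_pow_right hik
  set f := (Ideal.Quotient.factor hle).toAddMonoidHom with hf
  have hsurj : Function.Surjective f := Ideal.Quotient.factor_surjective hle
  have h1 : {c : 𝓞 K ⧸ p.asIdeal ^ k | Quotient.out c ∈ p.asIdeal ^ i} = (f.ker : Set _) := by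
    ext c
    simp only [Set.mem_ofPred_eq, SetLike.mem_coe, AddMonoidHom.mem_ker]
    have h2 : f c = Ideal.Quotient.mk (p.asIdeal ^ i) (Quotient.out c) := by
      conv_lhs => rw [← Ideal.Quotient.mk_out c]
      exact Ideal.Quotient.factor_mk hle _
    rw [h2, Ideal.Quotient.eq_zero_iff_mem]
  rw [h1, ← Nat.card_coe_set_eq]
  have h2 := AddSubgroup.card_eq_card_quotient_mul_card_addSubgroup f.ker
  have h3 : Nat.card ((𝓞 K ⧸ p.asIdeal ^ k) ⧸ f.ker) = Nat.card (𝓞 K ⧸ p.asIdeal ^ i) :=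
    Nat.card_congr (QuotientAddGroup.quotientKerEquivOfSurjective f hsurj).toEquiv
  have h4 : ∀ j : ℕ, Nat.card (𝓞 K ⧸ p.asIdeal ^ j) = Ideal.absNorm p.asIdeal ^ j := by
    intro j
    rw [← map_pow]
    rfl
  rw [h3, h4, h4] at h2
  have hN : 0 < Ideal.absNorm p.asIdeal :=
    Nat.pos_of_ne_zero (by rw [Ne, Ideal.absNorm_eq_zero_iff]; exact p.ne_bot)
  have h5 : Ideal.absNorm p.asIdeal ^ k =
      Ideal.absNorm p.asIdeal ^ i * Ideal.absNorm p.asIdeal ^ (k - i) := by
    rw [← pow_add]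
    congr 1
    omega
  rw [h5] at h2
  exact (Nat.eq_of_mul_eq_mul_left (pow_pos hN i) h2).symm

/-! ### An abstract sum -/

private noncomputable def phi {A : Type*} (v : A → ℕ) (W : ℝ) (a : A) : ℝ :=
  if 1 ≤ v a then W ^ (v a - 1) - 1 else 0

private theorem sum_w {A : Type*} [AddCommGroup A] [Fintype A] (v : A → ℕ) (W : ℝ)
    (h1 : ∀ a b, 1 ≤ v a → 1 ≤ v b → 1 ≤ v (b - a))
    (h2 : ∀ a b, 1 ≤ v a → 1 ≤ v (b - a) → 1 ≤ v b)
    (h3 : ∀ a b, 1 ≤ v b → 1 ≤ v (b - a) → 1 ≤ v a) :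
    ∑ c : A × A, (if ¬ (1 ≤ v c.1 ∧ 1 ≤ v c.2) then
      W ^ (max (v c.1) (max (v c.2) (v (c.2 - c.1))) - 1) else 0) =
    (Fintype.card A : ℝ) ^ 2 + 3 * Fintype.card A * ∑ a, phi v W a -
      (((Finset.univ.filter fun a => 1 ≤ v a).card : ℝ) ^ 2 +
        3 * (Finset.univ.filter fun a => 1 ≤ v a).card * ∑ a, phi v W a) := by
  classical
  set n : ℝ := ((Fintype.card A : ℕ) : ℝ) with hn
  set D := Finset.univ.filter fun a : A => 1 ≤ v a with hD
  set Φ : ℝ := ∑ a, phi v W a with hΦ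
  have hpt : ∀ a b : A, (if ¬ (1 ≤ v a ∧ 1 ≤ v b) then
      W ^ (max (v a) (max (v b) (v (b - a))) - 1) else 0) =
      (1 + phi v W a + phi v W b + phi v W (b - a)) -
        (if 1 ≤ v a then (if 1 ≤ v b then
          (1 + phi v W a + phi v W b + phi v W (b - a)) else 0) else 0) := by
    intro a b
    unfold phi
    by_cases ha : 1 ≤ v a <;> by_cases hb : 1 ≤ v b <;> by_cases hc : 1 ≤ v (b - a)
    · simp [ha, hb]
    · exact absurd (h1 a b ha hb) hc
    · exact absurd (h2 a b ha hc) hb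
    · have hb' : v b = 0 := by omega
      have hc' : v (b - a) = 0 := by omega
      simp [ha, hb', hc']
    · exact absurd (h3 a b hb hc) ha
    · have ha' : v a = 0 := by omega
      have hc' : v (b - a) = 0 := by omega
      simp [hb, ha', hc']
    · have ha' : v a = 0 := by omega
      have hb' : v b = 0 := by omega
      simp [hc, ha', hb']
    · have ha' : v a = 0 := by omega
      have hb' : v b = 0 := by omega
      have hc' : v (b - a) = 0 := by omega
      simp [ha', hb', hc']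
  have hphi : ∀ a, ¬ 1 ≤ v a → phi v W a = 0 := fun a ha => by
    unfold phi
    rw [if_neg ha]
  have hshift : ∀ a : A, ∑ b, phi v W (b - a) = Φ := fun a =>
    Equiv.sum_comp (Equiv.subRight a) (phi v W)
  have hΦD : ∑ a ∈ D, phi v W a = Φ := by
    rw [hD, Finset.sum_filter]
    refine Finset.sum_congr rfl fun a _ => ?_
    split_ifs with h
    · rfl
    · exact (hphi a h).symm
  rw [Fintype.sum_prod_type]
  simp only [hpt]
  rw [Finset.sum_congr rfl (fun a _ => Finset.sum_sub_distrib _ _), Finset.sum_sub_distrib]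
  congr 1
  · have h4 : ∀ a : A, ∑ b : A, (1 + phi v W a + phi v W b + phi v W (b - a)) =
        n + n * phi v W a + Φ + Φ := by
      intro a
      rw [Finset.sum_add_distrib, Finset.sum_add_distrib, Finset.sum_add_distrib, hshift,
        Finset.sum_const, Finset.sum_const, Finset.card_univ]
      simp only [nsmul_eq_mul, mul_one, ← hn, ← hΦ]
    simp only [h4]
    rw [Finset.sum_add_distrib, Finset.sum_add_distrib, Finset.sum_add_distrib,
      Finset.sum_const, Finset.sum_const, ← Finset.mul_sum, Finset.card_univ]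
    simp only [nsmul_eq_mul, ← hn, ← hΦ]
    ring
  · have h4 : ∀ a : A, (∑ b : A, if 1 ≤ v a then (if 1 ≤ v b then
          (1 + phi v W a + phi v W b + phi v W (b - a)) else 0) else 0) =
        if 1 ≤ v a then ((D.card : ℝ) + D.card * phi v W a + Φ + Φ) else 0 := by
      intro a
      split_ifs with ha
      · rw [← Finset.sum_filter, ← hD, Finset.sum_add_distrib, Finset.sum_add_distrib,
          Finset.sum_add_distrib, hΦD, Finset.sum_const, Finset.sum_const]
        simp only [nsmul_eq_mul, mul_one]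
        congr 1
        rw [hD, Finset.sum_filter, ← hshift a]
        refine Finset.sum_congr rfl fun b _ => ?_
        split_ifs with hb
        · rfl
        · rw [hphi]
          intro hc
          exact hb (h2 a b ha hc)
      · simp
    simp only [h4]
    rw [← Finset.sum_filter, ← hD, Finset.sum_add_distrib, Finset.sum_add_distrib,
      Finset.sum_add_distrib, ← Finset.mul_sum, hΦD, Finset.sum_const, Finset.sum_const]
    simp only [nsmul_eq_mul]
    ring

private theorem sum_phi {A : Type*} [Fintype A] (v : A → ℕ) (W : ℝ) (N k : ℕ) (hk : 1 ≤ k)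
    (hvk : ∀ a, v a ≤ k)
    (hc : ∀ i, i ≤ k → (Finset.univ.filter fun a => i ≤ v a).card = N ^ (k - i)) :
    ∑ a, phi v W a = (∑ i ∈ Finset.range (k - 1),
      ((N : ℝ) ^ (k - 1 - i) - (N : ℝ) ^ (k - 2 - i)) * W ^ i + W ^ (k - 1)) -
        (N : ℝ) ^ (k - 1) := by
  classical
  have h1 : ∑ a, phi v W a = ∑ a, (if 1 ≤ v a then W ^ (v a - 1) else 0) -
      ∑ a, (if 1 ≤ v a then (1 : ℝ) else 0) := by
    rw [← Finset.sum_sub_distrib]
    refine Finset.sum_congr rfl fun a _ => ?_
    unfold phi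
    split_ifs <;> simp
  have h2 : ∑ a, (if 1 ≤ v a then (1 : ℝ) else 0) = (N : ℝ) ^ (k - 1) := by
    rw [← Finset.sum_filter, Finset.sum_const, nsmul_eq_mul, mul_one, hc 1 hk]
    push_cast
    rfl
  rw [h1, h2]
  congr 1
  -- fibres of `v`
  have h3 : ∑ a, (if 1 ≤ v a then W ^ (v a - 1) else 0) =
      ∑ j ∈ Finset.range k, ∑ a, (if v a = j + 1 then W ^ j else 0) := by
    rw [Finset.sum_comm]
    refine Finset.sum_congr rfl fun a _ => ?_
    split_ifs with h
    · rw [Finset.sum_eq_single (v a - 1)]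
      · rw [if_pos (by omega)]
      · intro j _ hj
        rw [if_neg (by omega)]
      · intro hj
        exfalso
        apply hj
        rw [Finset.mem_range]
        have := hvk a
        omega
    · symm
      apply Finset.sum_eq_zero
      intro j _
      rw [if_neg (by omega)]
  have h4 : ∀ j, j < k - 1 → ∑ a, (if v a = j + 1 then W ^ j else 0) =
      ((N : ℝ) ^ (k - 1 - j) - (N : ℝ) ^ (k - 2 - j)) * W ^ j := by
    intro j hj
    have h5 : ((Finset.univ.filter fun a => v a = j + 1).card : ℝ) =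
        (N : ℝ) ^ (k - 1 - j) - (N : ℝ) ^ (k - 2 - j) := by
      have h6 : (Finset.univ.filter fun a => j + 1 ≤ v a).card =
          (Finset.univ.filter fun a => v a = j + 1).card +
            (Finset.univ.filter fun a => j + 2 ≤ v a).card := by
        rw [← Finset.card_union_of_disjoint]
        · congr 1
          ext a
          simp only [Finset.mem_filter, Finset.mem_univ, true_and, Finset.mem_union]
          omega
        · rw [Finset.disjoint_filter]
          intro a _ h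
          omega
      rw [hc (j + 1) (by omega), hc (j + 2) (by omega)] at h6
      have h7 : k - (j + 1) = k - 1 - j := by omega
      have h8 : k - (j + 2) = k - 2 - j := by omega
      rw [h7, h8] at h6
      have h9 : (N : ℝ) ^ (k - 1 - j) = ((Finset.univ.filter fun a => v a = j + 1).card : ℝ) +
          (N : ℝ) ^ (k - 2 - j) := by exact_mod_cast h6
      linarith
    rw [← Finset.sum_filter, Finset.sum_const, nsmul_eq_mul, h5]
  have h5 : ∑ a, (if v a = k - 1 + 1 then W ^ (k - 1) else 0) = W ^ (k - 1) := by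
    rw [← Finset.sum_filter, Finset.sum_const, nsmul_eq_mul]
    have h6 : (Finset.univ.filter fun a => v a = k - 1 + 1) =
        (Finset.univ.filter fun a => k ≤ v a) := by
      ext a
      simp only [Finset.mem_filter, Finset.mem_univ, true_and]
      have := hvk a
      omega
    rw [h6, hc k le_rfl]
    simp
  obtain ⟨m, rfl⟩ : ∃ m, k = m + 1 := ⟨k - 1, by omega⟩
  rw [h3, Finset.sum_range_succ]
  simp only [Nat.add_sub_cancel] at h4 h5 ⊢
  rw [h5]
  congr 1
  exact Finset.sum_congr rfl fun j hj => h4 j (Finset.mem_range.mp hj)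

/-! ### The exponents -/

private theorem le_vI (p : HeightOneSpectrum (𝓞 K)) {i k : ℕ} (hik : i ≤ k) (x : 𝓞 K) :
    i ≤ vI ⊤ k p x ↔ x ∈ p.asIdeal ^ i := by
  classical
  unfold vI
  constructor
  · intro h
    have h0 : x ∈ p.asIdeal ^ 0 * ⊤ := by simp
    have h1 := Nat.findGreatest_spec (P := fun i => x ∈ p.asIdeal ^ i * ⊤) (Nat.zero_le k) h0
    rw [Ideal.mul_top] at h1
    exact Ideal.pow_le_pow_right h h1
  · intro h
    refine Nat.le_findGreatest hik ?_
    rw [Ideal.mul_top]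
    exact h

private theorem vI_le (p : HeightOneSpectrum (𝓞 K)) (k : ℕ) (x : 𝓞 K) : vI ⊤ k p x ≤ k := by
  classical
  exact Nat.findGreatest_le k

private theorem vI_congr (p : HeightOneSpectrum (𝓞 K)) (k : ℕ) {x y : 𝓞 K}
    (h : x - y ∈ p.asIdeal ^ k) : vI ⊤ k p x = vI ⊤ k p y := by
  have key : ∀ {x y : 𝓞 K}, x - y ∈ p.asIdeal ^ k → vI ⊤ k p x ≤ vI ⊤ k p y := by
    intro x y h
    rw [le_vI p (vI_le p k x)]
    have h1 : x ∈ p.asIdeal ^ (vI ⊤ k p x) := (le_vI p (vI_le p k x) x).mp le_rfl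
    have h2 : x - y ∈ p.asIdeal ^ (vI ⊤ k p x) := Ideal.pow_le_pow_right (vI_le p k x) h
    have h3 := Ideal.sub_mem _ h1 h2
    simpa using h3
  refine le_antisymm (key h) (key ?_)
  rw [← neg_sub]
  exact neg_mem h

theorem avg_local (p : HeightOneSpectrum (𝓞 K)) (k : ℕ) (hk : 1 ≤ k) (s : ℝ) :
    avg (p.asIdeal ^ k) (wI k s p) = Lk s k (Ideal.absNorm p.asIdeal) := by
  classical
  have hpk : p.asIdeal ^ k ≠ ⊥ := pow_ne_zero k p.ne_bot
  haveI : Finite (𝓞 K ⧸ p.asIdeal ^ k) := Ideal.finiteQuotientOfFreeOfNeBot _ hpk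
  haveI : Fintype (𝓞 K ⧸ p.asIdeal ^ k) := Fintype.ofFinite _
  set N := Ideal.absNorm p.asIdeal with hN
  have hN0 : 0 < N :=
    Nat.pos_of_ne_zero (by rw [hN, Ne, Ideal.absNorm_eq_zero_iff]; exact p.ne_bot)
  have hNR : (0 : ℝ) < N := by exact_mod_cast hN0
  set W : ℝ := (N : ℝ) ^ s with hW
  set v : 𝓞 K ⧸ p.asIdeal ^ k → ℕ := fun c => vI ⊤ k p (Quotient.out c) with hv
  have hv1 : ∀ c, 1 ≤ v c ↔ Quotient.out c ∈ p.asIdeal := by
    intro c
    have := le_vI p hk (Quotient.out c)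
    rwa [pow_one] at this
  have hsub : ∀ a b : 𝓞 K ⧸ p.asIdeal ^ k,
      vI ⊤ k p (Quotient.out b - Quotient.out a) = v (b - a) := by
    intro a b
    apply vI_congr
    rw [← Ideal.Quotient.eq_zero_iff_mem, map_sub, map_sub, Ideal.Quotient.mk_out,
      Ideal.Quotient.mk_out, Ideal.Quotient.mk_out, sub_self]
  have hmem : ∀ a b : 𝓞 K ⧸ p.asIdeal ^ k,
      1 ≤ v (b - a) ↔ Quotient.out b - Quotient.out a ∈ p.asIdeal := by
    intro a b
    rw [← hsub, le_vI p hk, pow_one]
  have hcard : ∀ i, i ≤ k →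
      (Finset.univ.filter fun a => i ≤ v a).card = N ^ (k - i) := by
    intro i hik
    rw [← card_mem_pow p hik, ← Set.ncard_coe_finset]
    congr 1
    ext c
    simp only [Finset.coe_filter, Finset.mem_univ, true_and, Set.mem_ofPred_eq]
    exact le_vI p hik _
  have hw : ∀ c : (𝓞 K ⧸ p.asIdeal ^ k) × (𝓞 K ⧸ p.asIdeal ^ k),
      wI k s p (Quotient.out c.1, Quotient.out c.2) =
      if ¬ (1 ≤ v c.1 ∧ 1 ≤ v c.2) then
        W ^ (max (v c.1) (max (v c.2) (v (c.2 - c.1))) - 1) else 0 := by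
    intro c
    unfold wI
    have h1 : copI ⊤ p (Quotient.out c.1, Quotient.out c.2) ↔ ¬ (1 ≤ v c.1 ∧ 1 ≤ v c.2) := by
      unfold copI
      rw [hv1, hv1, Ideal.mul_top]
    by_cases h : copI ⊤ p (Quotient.out c.1, Quotient.out c.2)
    · rw [if_pos h, if_pos (h1.mp h)]
      unfold mI
      rw [hsub]
    · rw [if_neg h, if_neg (fun h2 => h (h1.mpr h2))]
  unfold avg
  rw [finsum_eq_sum_of_fintype]
  simp only [hw]
  rw [sum_w v W
    (fun a b ha hb => by
      rw [hv1] at ha hb
      rw [hmem]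
      exact Ideal.sub_mem _ hb ha)
    (fun a b ha hb => by
      rw [hv1] at ha
      rw [hmem] at hb
      rw [hv1]
      have := Ideal.add_mem _ hb ha
      simpa using this)
    (fun a b hb hc => by
      rw [hv1] at hb
      rw [hmem] at hc
      rw [hv1]
      have := Ideal.sub_mem _ hb hc
      simpa using this),
    hcard 1 hk, sum_phi v W N k hk (fun a => vI_le p k _) hcard]
  have hcA : (Fintype.card (𝓞 K ⧸ p.asIdeal ^ k) : ℝ) = (N : ℝ) ^ k := by
    have h1 := hcard 0 (Nat.zero_le k)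
    have h2 : (Finset.univ.filter fun a => 0 ≤ v a) = Finset.univ := by
      ext a
      simp
    rw [h2, Finset.card_univ, Nat.sub_zero] at h1
    rw [h1]
    push_cast
    rfl
  rw [hcA, map_pow, ← hN]
  unfold Lk
  rw [← hW]
  obtain ⟨m, rfl⟩ : ∃ m, k = m + 1 := ⟨k - 1, by omega⟩
  simp only [Nat.add_sub_cancel]
  have hsum : ∑ i ∈ Finset.range m, (1 - 1 / (N : ℝ)) * (N : ℝ)⁻¹ ^ (i + 1) * W ^ i =
      (∑ i ∈ Finset.range m, ((N : ℝ) ^ (m - i) - (N : ℝ) ^ (m + 1 - 2 - i)) * W ^ i) /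
        (N : ℝ) ^ (m + 1) := by
    rw [Finset.sum_div]
    refine Finset.sum_congr rfl fun i hi => ?_
    rw [Finset.mem_range] at hi
    obtain ⟨j, rfl⟩ : ∃ j, m = i + 1 + j := ⟨m - i - 1, by omega⟩
    have h1 : i + 1 + j - i = j + 1 := by omega
    have h2 : i + 1 + j + 1 - 2 - i = j := by omega
    rw [h1, h2, inv_pow]
    field_simp
    ring
  rw [hsum, inv_pow]
  set Z : ℝ := ∑ i ∈ Finset.range m, ((N : ℝ) ^ (m - i) - (N : ℝ) ^ (m + 1 - 2 - i)) * W ^ i
  push_cast
  field_simp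
  ring

end AbcAsy
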