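import Pool.Agent.Work.MP_a793bb_nt.Asy.SAvgMul
import Pool.Agent.Work.MP_a793bb_nt.Asy.SLocal

/-!
# Bounds for the density

Proof. Let `c(q)` be the condition `∀ p ∈ S, copI ⊤ p q` and `G = GS ⊤ S k q ≥ 1`. For every real `s`,
`∏ p ∈ S, wI k s p q = G ^ s` if `c(q)` and `0` otherwise (`((N) ^ s) ^ m = (N ^ m) ^ s`, `Real.finsetProd_rpow`). So
`dens S k T = avg (if c ∧ G ≤ T then G ^ (2 / 3) else 0) ≤ avg (∏ wI k (2 / 3))`, and
`∏ wI k (2 / 3) - T ^ (- 1 / 6) ∏ wI k (5 / 6) ≤ if c ∧ G ≤ T then G ^ (2 / 3) else 0` pointwise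
(if `G > T` then `G ^ (2 / 3) ≤ T ^ (- 1 / 6) G ^ (5 / 6)`). `avg` is monotone and linear (finite sums over the quotient,
`MS_ne_bot`), and `avg (MS S k) (∏ wI k s p) = ∏ Lk s k N(p)` by `avg_prod`, `avg_local`.
-/

set_option autoImplicit false

namespace AbcAsy

open NumberField IsDedekindDomain

variable {K : Type*} [Field K] [NumberField K]

private theorem finite_quot {I : Ideal (𝓞 K)} (hI : I ≠ ⊥) : Finite (𝓞 K ⧸ I) :=
  (Ideal.absNorm_ne_zero_iff I).1 fun h => hI (Ideal.absNorm_eq_zero_iff.1 h)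

private theorem avg_mono {I : Ideal (𝓞 K)} (hI : I ≠ ⊥) {f g : 𝓞 K × 𝓞 K → ℝ}
    (h : ∀ q, f q ≤ g q) : avg I f ≤ avg I g := by
  have := finite_quot hI
  have := Fintype.ofFinite (𝓞 K ⧸ I)
  rw [avg, avg, finsum_eq_sum_of_fintype, finsum_eq_sum_of_fintype]
  refine div_le_div_of_nonneg_right ?_ (sq_nonneg _)
  exact Finset.sum_le_sum fun c _ => h _

private theorem avg_sub_mul {I : Ideal (𝓞 K)} (hI : I ≠ ⊥) (f g : 𝓞 K × 𝓞 K → ℝ) (c : ℝ) :
    avg I (fun q => f q - c * g q) = avg I f - c * avg I g := by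
  have := finite_quot hI
  have := Fintype.ofFinite (𝓞 K ⧸ I)
  simp only [avg, finsum_eq_sum_of_fintype]
  rw [Finset.sum_sub_distrib, ← Finset.mul_sum]
  ring

private theorem norm_pos' (p : HeightOneSpectrum (𝓞 K)) : (1 : ℝ) ≤ Ideal.absNorm p.asIdeal := by
  have h : Ideal.absNorm p.asIdeal ≠ 0 := fun h => p.ne_bot (Ideal.absNorm_eq_zero_iff.1 h)
  exact_mod_cast Nat.one_le_iff_ne_zero.2 h

private theorem one_le_GS (S : Finset (HeightOneSpectrum (𝓞 K))) (k : ℕ) (q : 𝓞 K × 𝓞 K) :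
    1 ≤ GS ⊤ S k q := by
  unfold GS
  refine Finset.prod_induction _ (fun x : ℝ => 1 ≤ x) (fun a b ha hb => ?_) le_rfl ?_
  · nlinarith
  · exact fun p _ => one_le_pow₀ (norm_pos' p)

open Classical in
private theorem prod_wI (S : Finset (HeightOneSpectrum (𝓞 K))) (k : ℕ) (s : ℝ) (q : 𝓞 K × 𝓞 K) :
    ∏ p ∈ S, wI k s p q = if ∀ p ∈ S, copI ⊤ p q then GS ⊤ S k q ^ s else 0 := by
  split_ifs with h
  · unfold GS
    rw [← Real.finsetProd_rpow _ _ fun p _ => pow_nonneg (zero_le_one.trans (norm_pos' p)) _]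
    refine Finset.prod_congr rfl fun p hp => ?_
    unfold wI
    rw [if_pos (h p hp), ← Real.rpow_natCast, ← Real.rpow_mul (zero_le_one.trans (norm_pos' p)),
      ← Real.rpow_natCast, ← Real.rpow_mul (zero_le_one.trans (norm_pos' p)), mul_comm]
  · push Not at h
    obtain ⟨p, hp, hn⟩ := h
    refine Finset.prod_eq_zero hp ?_
    unfold wI
    rw [if_neg hn]

theorem dens_le (S : Finset (HeightOneSpectrum (𝓞 K))) (k : ℕ) (hk : 1 ≤ k) (T : ℝ) :
    dens S k T ≤ ∏ p ∈ S, Lk (2 / 3) k (Ideal.absNorm p.asIdeal) := by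
  classical
  have h : ∏ p ∈ S, Lk (2 / 3) k (Ideal.absNorm p.asIdeal) =
      avg (MS S k) (fun q => ∏ p ∈ S, wI k (2 / 3) p q) := by
    rw [avg_prod S k hk]
    exact Finset.prod_congr rfl fun p _ => (avg_local p k hk _).symm
  rw [h]
  unfold dens
  refine avg_mono (MS_ne_bot S k) fun q => ?_
  rw [prod_wI]
  have h1 := one_le_GS S k q
  have h2 : 0 ≤ GS ⊤ S k q ^ (2 / 3 : ℝ) := Real.rpow_nonneg (zero_le_one.trans h1) _
  by_cases hc : ∀ p ∈ S, copI ⊤ p q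
  · by_cases hT : GS ⊤ S k q ≤ T
    · rw [if_pos ⟨hc, hT⟩, if_pos hc]
    · rw [if_neg (fun h => hT h.2), if_pos hc]
      exact h2
  · rw [if_neg (fun h => hc h.1), if_neg hc]

theorem le_dens (S : Finset (HeightOneSpectrum (𝓞 K))) (k : ℕ) (hk : 1 ≤ k) {T : ℝ}
    (hT : 1 ≤ T) :
    ∏ p ∈ S, Lk (2 / 3) k (Ideal.absNorm p.asIdeal) -
      T ^ (-(1 / 6) : ℝ) * ∏ p ∈ S, Lk (5 / 6) k (Ideal.absNorm p.asIdeal) ≤ dens S k T := by
  classical
  have h : ∀ s : ℝ, ∏ p ∈ S, Lk s k (Ideal.absNorm p.asIdeal) =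
      avg (MS S k) (fun q => ∏ p ∈ S, wI k s p q) := by
    intro s
    rw [avg_prod S k hk]
    exact Finset.prod_congr rfl fun p _ => (avg_local p k hk _).symm
  rw [h, h, ← avg_sub_mul (MS_ne_bot S k)]
  unfold dens
  refine avg_mono (MS_ne_bot S k) fun q => ?_
  rw [prod_wI, prod_wI]
  have h1 := one_le_GS S k q
  have h0 : 0 < GS ⊤ S k q := zero_lt_one.trans_le h1
  have hT0 : 0 < T := zero_lt_one.trans_le hT
  by_cases hc : ∀ p ∈ S, copI ⊤ p q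
  · by_cases hT' : GS ⊤ S k q ≤ T
    · rw [if_pos hc, if_pos hc, if_pos ⟨hc, hT'⟩]
      have : 0 ≤ T ^ (-(1 / 6) : ℝ) * GS ⊤ S k q ^ (5 / 6 : ℝ) := by positivity
      linarith
    · rw [if_pos hc, if_pos hc, if_neg (fun h => hT' h.2)]
      have h3 : GS ⊤ S k q ^ (2 / 3 : ℝ) =
          GS ⊤ S k q ^ (-(1 / 6) : ℝ) * GS ⊤ S k q ^ (5 / 6 : ℝ) := by
        rw [← Real.rpow_add h0]
        norm_num
      have h4 : GS ⊤ S k q ^ (-(1 / 6) : ℝ) ≤ T ^ (-(1 / 6) : ℝ) :=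
        Real.rpow_le_rpow_of_nonpos hT0 (not_le.1 hT').le (by norm_num)
      have h5 : 0 ≤ GS ⊤ S k q ^ (5 / 6 : ℝ) := by positivity
      rw [h3]
      nlinarith
  · rw [if_neg hc, if_neg hc, if_neg (fun h => hc h.1)]
    simp

end AbcAsy
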