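import Mathlib

/-!
# VIntR: integrability over the real line  (size S-M)

PROOF. `f x = |x (1 - x)| ^ (-2/3)`. On `[-1/2, 1/2]`: `|1 - x| ≥ 1/2`, `f x ≤ 2 |x| ^ (-2/3)`,
integrable (`intervalIntegral.intervalIntegrable_rpow'`, `-2/3 > -1`). On `[1/2, 3/2]`: the same with
`1 - x`. Elsewhere `|x| > 1/2` and `|1 - x| > 1/2`, `|1 - x| ≥ |x| / 3`, so
`f x ≤ 3 |x| ^ (-4/3)`, integrable on `(1/2, ∞)` and `(-∞, -1/2)` (`integrableOn_Ioi_rpow_of_lt`).
Measurability: `Measurable.pow_const`.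
-/

set_option autoImplicit false

namespace AbcAsy

open MeasureTheory

private theorem gen_F (n : ℕ) (hn : 1 ≤ n) (a C : ℝ) (ha : a < n) (ha2 : (n : ℝ) < 2 * a) :
    IntegrableOn (fun y : ℝ => y ^ (n - 1) •
      (if y ≤ 1 / 2 then C * y ^ (-a) else C * y ^ (-(2 * a)))) (Set.Ioi 0) := by
  have hcast : (((n - 1 : ℕ) : ℕ) : ℝ) = (n : ℝ) - 1 := by
    rw [Nat.cast_sub hn, Nat.cast_one]
  have hpow : ∀ (y s : ℝ), 0 < y → y ^ (n - 1) * (C * y ^ s) = C * y ^ ((n : ℝ) - 1 + s) := by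
    intro y s hy
    rw [Real.rpow_add hy, ← hcast, Real.rpow_natCast]
    ring
  have hU : Set.Ioi (0 : ℝ) = Set.Ioc 0 (1 / 2) ∪ Set.Ioi (1 / 2) :=
    (Set.Ioc_union_Ioi_eq_Ioi (by norm_num)).symm
  rw [hU]
  refine IntegrableOn.union ?_ ?_
  · have h1 : IntegrableOn (fun y : ℝ => C * y ^ ((n : ℝ) - 1 + -a)) (Set.Ioc 0 (1 / 2)) := by
      have h2 := (intervalIntegral.intervalIntegrable_rpow' (a := 0) (b := 1 / 2)
        (r := (n : ℝ) - 1 + -a) (by linarith)).const_mul C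
      exact (intervalIntegrable_iff_integrableOn_Ioc_of_le (by norm_num)).1 h2
    refine h1.congr_fun (fun y hy => ?_) measurableSet_Ioc
    simp only [smul_eq_mul]
    rw [if_pos hy.2, hpow y (-a) hy.1]
  · have h1 : IntegrableOn (fun y : ℝ => C * y ^ ((n : ℝ) - 1 + -(2 * a))) (Set.Ioi (1 / 2)) :=
      (integrableOn_Ioi_rpow_of_lt (by linarith) (by norm_num)).const_mul C
    refine h1.congr_fun (fun y hy => ?_) measurableSet_Ioi
    have hy' : (1 : ℝ) / 2 < y := hy
    simp only [smul_eq_mul]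
    rw [if_neg (not_le.2 hy'), hpow y _ (lt_trans (by norm_num) hy')]

private theorem gen_bound {x y a : ℝ} (hx : 0 ≤ x) (hy : 0 ≤ y) (hxy : 1 ≤ x + y) (ha : 0 < a) :
    (x * y) ^ (-a) ≤ (if x ≤ 1 / 2 then 2 ^ a * x ^ (-a) else 2 ^ a * x ^ (-(2 * a))) +
      (if y ≤ 1 / 2 then 2 ^ a * y ^ (-a) else 2 ^ a * y ^ (-(2 * a))) := by
  have h2 : (1 : ℝ) ≤ 2 ^ a := Real.one_le_rpow (by norm_num) ha.le
  have hhalf : (1 / 2 : ℝ) ^ (-a) = 2 ^ a := by
    rw [one_div, Real.inv_rpow (by norm_num), Real.rpow_neg (by norm_num), inv_inv]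
  have nn : ∀ z : ℝ, 0 ≤ z →
      0 ≤ (if z ≤ 1 / 2 then 2 ^ a * z ^ (-a) else 2 ^ a * z ^ (-(2 * a))) := by
    intro z hz
    split_ifs <;> positivity
  have small : ∀ x y : ℝ, 0 ≤ x → 1 / 2 ≤ y → x ≤ 1 / 2 → (x * y) ^ (-a) ≤
      (if x ≤ 1 / 2 then 2 ^ a * x ^ (-a) else 2 ^ a * x ^ (-(2 * a))) := by
    intro x y hx hy hx2
    rw [if_pos hx2, Real.mul_rpow hx (by linarith), mul_comm]
    refine mul_le_mul_of_nonneg_right ?_ (Real.rpow_nonneg hx _)
    rw [← hhalf]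
    exact Real.rpow_le_rpow_of_nonpos (by norm_num) hy (by linarith)
  have big : ∀ x y : ℝ, 1 / 2 < x → x ≤ y → (x * y) ^ (-a) ≤
      (if x ≤ 1 / 2 then 2 ^ a * x ^ (-a) else 2 ^ a * x ^ (-(2 * a))) := by
    intro x y hx hxy
    have hx0 : 0 < x := lt_trans (by norm_num) hx
    rw [if_neg (not_le.2 hx)]
    have h3 : (x * y) ^ (-a) ≤ (x * x) ^ (-a) :=
      Real.rpow_le_rpow_of_nonpos (by positivity) (by nlinarith) (by linarith)
    have h4 : (x * x) ^ (-a) = x ^ (-(2 * a)) := by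
      rw [← sq, ← Real.rpow_natCast, ← Real.rpow_mul hx0.le]
      congr 1
      push_cast
      ring
    rw [h4] at h3
    have h5 : 0 ≤ x ^ (-(2 * a)) := Real.rpow_nonneg hx0.le _
    nlinarith
  by_cases h1 : x ≤ 1 / 2
  · have h3 := small x y hx (by linarith) h1
    have h4 := nn y hy
    linarith
  · by_cases h5 : y ≤ 1 / 2
    · have h3 := small y x hy (by linarith) h5
      have h4 := nn x hx
      rw [mul_comm y x] at h3
      linarith
    · rcases le_total x y with h6 | h6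
      · have h3 := big x y (not_le.1 h1) h6
        have h4 := nn y hy
        linarith
      · have h3 := big y x (not_le.1 h5) h6
        have h4 := nn x hx
        rw [mul_comm y x] at h3
        linarith

private theorem gen_int {E : Type*} [RCLike E] [MeasurableSpace E] [BorelSpace E]
    (μ : Measure E) [μ.IsAddHaarMeasure] (n : ℕ) (hn : Module.finrank ℝ E = n) (a : ℝ)
    (ha : a < n) (ha2 : (n : ℝ) < 2 * a) :
    Integrable (fun z : E => ‖z * (1 - z)‖ ^ (-a)) μ := by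
  have h1 : 1 ≤ n := by
    rw [← hn]
    exact Module.finrank_pos
  have ha0 : 0 < a := by
    have : (0 : ℝ) ≤ n := Nat.cast_nonneg n
    linarith
  have hF := gen_F n h1 a (2 ^ a) ha ha2
  rw [← hn] at hF
  have hI := (integrable_fun_norm_addHaar (E := E) μ).2 hF
  have hI2 := hI.comp_sub_left 1
  refine Integrable.mono' (hI.add hI2) ?_ ?_
  · refine Measurable.aestronglyMeasurable ?_
    have : Measurable fun z : E => ‖z * (1 - z)‖ :=
      (continuous_norm.comp (continuous_id.mul (continuous_const.sub continuous_id))).measurable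
    exact this.pow_const _
  · refine Filter.Eventually.of_forall fun z => ?_
    rw [Real.norm_eq_abs, abs_of_nonneg (Real.rpow_nonneg (norm_nonneg _) _), norm_mul]
    have h2 : 1 ≤ ‖z‖ + ‖1 - z‖ := by
      calc (1 : ℝ) = ‖z + (1 - z)‖ := by rw [add_sub_cancel, norm_one]
        _ ≤ _ := norm_add_le _ _
    exact gen_bound (norm_nonneg _) (norm_nonneg _) h2 ha0

theorem integrable_real : Integrable (fun x : ℝ => |x * (1 - x)| ^ (-(2 / 3) : ℝ)) := by
  have h := gen_int (E := ℝ) volume 1 (by simp) (2 / 3) (by norm_num) (by norm_num)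
  simpa only [Real.norm_eq_abs] using h

end AbcAsy
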