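import Pool.Agent.Work.MP_a793bb_nt.Asy.Defs

/-!
# VProd: the integral over the mixed space is a product  (size M)

PROOF. `N(u (1 - u)) = ∏_{v real} |u_v (1 - u_v)| * ∏_{v complex} ‖u_v (1 - u_v)‖²`
(`mixedEmbedding.norm_apply`, `normAtPlace_apply_of_isReal/isComplex`; split the product over the
places into real and complex ones as in Mathlib, e.g. `Fintype.prod_sum_type`/
`prod_eq_prod_mul_prod`), so the integrand is `∏_real ofReal (|u_v(1-u_v)| ^ (-2/3)) *
∏_complex ofReal (‖u_v(1-u_v)‖ ^ (-4/3))` (`Real.finsetProd_rpow`, `ENNReal.ofReal_prod_of_nonneg`).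
Then `lintegral_prod_mul` for the product of the two factors of `mixedSpace K` and the formula for
the `lintegral` of a product of functions of the single coordinates over `Measure.pi`
(`lintegral_fintype_prod_eq_prod` or induction). The number of real (complex) places is
`nrRealPlaces` (`nrComplexPlaces`), the cardinality of the index types.
-/

set_option autoImplicit false

namespace AbcAsy

open NumberField IsDedekindDomain MeasureTheory Pool.Agent.Work.MP_a793bb_nt mixedEmbedding

private theorem lint_fin {X : Type} [MeasureSpace X] [SigmaFinite (volume : Measure X)]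
    (f : X → ENNReal) (hf : Measurable f) (n : ℕ) :
    ∫⁻ x : Fin n → X, ∏ i, f (x i) = (∫⁻ x, f x) ^ n := by
  induction n with
  | zero =>
    have h : (volume : Measure (Fin 0 → X)) Set.univ = 1 := by
      rw [volume_pi, Measure.pi_univ]
      simp
    simp [h]
  | succ n ih =>
    have h := (volume_preserving_piFinSuccAbove (fun _ : Fin (n + 1) => X) 0).symm
    rw [← h.lintegral_comp_emb (MeasurableEquiv.measurableEmbedding _)]
    have e : ∀ a : X × (Fin n → X), (∏ i, f ((MeasurableEquiv.piFinSuccAbove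
        (fun _ : Fin (n + 1) => X) 0).symm a i)) = f a.1 * ∏ i, f (a.2 i) := by
      intro a
      rw [Fin.prod_univ_succ]
      rfl
    simp_rw [e]
    have h2 : (volume : Measure (X × (Fin n → X))) = (volume : Measure X).prod volume := rfl
    have h3 : AEMeasurable (fun x : Fin n → X => ∏ i, f (x i)) volume :=
      (Finset.measurable_prod _ (fun i _ => hf.comp (measurable_pi_apply i))).aemeasurable
    rw [h2, lintegral_prod_mul hf.aemeasurable h3, ih, pow_succ, mul_comm]

private theorem lint_pi {ι : Type*} [Fintype ι] {X : Type} [MeasureSpace X]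
    [SigmaFinite (volume : Measure X)]
    (f : X → ENNReal) (hf : Measurable f) :
    ∫⁻ x : ι → X, ∏ i, f (x i) = (∫⁻ x, f x) ^ Fintype.card ι := by
  rw [← lint_fin f hf (Fintype.card ι)]
  have h := volume_measurePreserving_piCongrLeft (fun _ : ι => X) (Fintype.equivFin ι).symm
  rw [← h.lintegral_comp_emb (MeasurableEquiv.measurableEmbedding _)]
  congr 1
  ext x
  rw [← (Fintype.equivFin ι).symm.prod_comp]
  refine Finset.prod_congr rfl fun i _ => ?_
  congr 1
  exact MeasurableEquiv.piCongrLeft_apply_apply _ _ _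

variable (K : Type*) [Field K] [NumberField K]

open scoped Classical in
private theorem norm_split (u : mixedSpace K) :
    ENNReal.ofReal (mixedEmbedding.norm (u * (1 - u)) ^ (-(2 / 3) : ℝ)) =
      (∏ w, ENNReal.ofReal (|u.1 w * (1 - u.1 w)| ^ (-(2 / 3) : ℝ))) *
        ∏ w, ENNReal.ofReal (‖u.2 w * (1 - u.2 w)‖ ^ (-(4 / 3) : ℝ)) := by
  rw [mixedEmbedding.norm_apply, InfinitePlace.prod_eq_prod_mul_prod,
    Real.mul_rpow (Finset.prod_nonneg fun i _ => pow_nonneg (normAtPlace_nonneg _ _) _)
      (Finset.prod_nonneg fun i _ => pow_nonneg (normAtPlace_nonneg _ _) _),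
    ← Real.finsetProd_rpow _ _ (fun i _ => pow_nonneg (normAtPlace_nonneg _ _) _),
    ← Real.finsetProd_rpow _ _ (fun i _ => pow_nonneg (normAtPlace_nonneg _ _) _),
    ENNReal.ofReal_mul (Finset.prod_nonneg fun i _ =>
      Real.rpow_nonneg (pow_nonneg (normAtPlace_nonneg _ _) _) _),
    ENNReal.ofReal_prod_of_nonneg (fun i _ =>
      Real.rpow_nonneg (pow_nonneg (normAtPlace_nonneg _ _) _) _),
    ENNReal.ofReal_prod_of_nonneg (fun i _ =>
      Real.rpow_nonneg (pow_nonneg (normAtPlace_nonneg _ _) _) _)]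
  congr 1
  · refine Finset.prod_congr rfl fun w _ => ?_
    rw [normAtPlace_apply_of_isReal w.2, InfinitePlace.mult_isReal w, pow_one, Real.norm_eq_abs]
    rfl
  · refine Finset.prod_congr rfl fun w _ => ?_
    rw [normAtPlace_apply_of_isComplex w.2, InfinitePlace.mult_isComplex w,
      ← Real.rpow_natCast, ← Real.rpow_mul (norm_nonneg _)]
    congr 2
    norm_num

open scoped Classical in
theorem lintegral_prod_eq :
    ∫⁻ u : mixedSpace K,
        ENNReal.ofReal (mixedEmbedding.norm (u * (1 - u)) ^ (-(2 / 3) : ℝ)) =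
      (∫⁻ x : ℝ, ENNReal.ofReal (|x * (1 - x)| ^ (-(2 / 3) : ℝ))) ^
          InfinitePlace.nrRealPlaces K *
        (∫⁻ z : ℂ, ENNReal.ofReal (‖z * (1 - z)‖ ^ (-(4 / 3) : ℝ))) ^
          InfinitePlace.nrComplexPlaces K := by
  have h1 : Measurable fun x : ℝ => ENNReal.ofReal (|x * (1 - x)| ^ (-(2 / 3) : ℝ)) := by
    fun_prop
  have h2 : Measurable fun z : ℂ => ENNReal.ofReal (‖z * (1 - z)‖ ^ (-(4 / 3) : ℝ)) := by
    fun_prop
  simp_rw [norm_split]
  have hv : (volume : Measure (mixedSpace K)) = (volume : Measure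
    ({w : InfinitePlace K // w.IsReal} → ℝ)).prod volume := rfl
  have h3 : AEMeasurable (fun x : {w : InfinitePlace K // w.IsReal} → ℝ =>
      ∏ w, ENNReal.ofReal (|x w * (1 - x w)| ^ (-(2 / 3) : ℝ))) volume :=
    (Finset.measurable_prod _ (fun i _ => h1.comp (measurable_pi_apply i))).aemeasurable
  have h4 : AEMeasurable (fun x : {w : InfinitePlace K // w.IsComplex} → ℂ =>
      ∏ w, ENNReal.ofReal (‖x w * (1 - x w)‖ ^ (-(4 / 3) : ℝ))) volume :=
    (Finset.measurable_prod _ (fun i _ => h2.comp (measurable_pi_apply i))).aemeasurable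
  rw [hv, lintegral_prod_mul h3 h4, lint_pi _ h1, lint_pi _ h2]

end AbcAsy
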