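import Pool.Agent.Work.MP_a793bb_nt.Asy.VTon
import Pool.Agent.Work.MP_a793bb_nt.Asy.VProd
import Pool.Agent.Work.MP_a793bb_nt.Asy.VIntR
import Pool.Agent.Work.MP_a793bb_nt.Asy.VIntC

/-!
# VFin: the value of the volume of `regInf K`  (size S-M)

PROOF. `volume_regInf`, `lintegral_prod_eq`, `fundamentalCone.volume_normLeOne`; the two integrals
are finite by `integrable_real`, `integrable_complex`, and
`∫⁻ ofReal f = ofReal (∫ f)` for non-negative integrable `f` (`ofReal_integral_eq_lintegral_ofReal`).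
-/

set_option autoImplicit false

namespace AbcAsy

open NumberField IsDedekindDomain MeasureTheory Pool.Agent.Work.MP_a793bb_nt mixedEmbedding

variable (K : Type*) [Field K] [NumberField K]

private theorem lint_real : ∫⁻ x : ℝ, ENNReal.ofReal (|x * (1 - x)| ^ (-(2 / 3) : ℝ)) =
    ENNReal.ofReal (∫ x : ℝ, |x * (1 - x)| ^ (-(2 / 3) : ℝ)) :=
  (ofReal_integral_eq_lintegral_ofReal integrable_real
    (Filter.Eventually.of_forall fun _ => Real.rpow_nonneg (abs_nonneg _) _)).symm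

private theorem lint_complex : ∫⁻ z : ℂ, ENNReal.ofReal (‖z * (1 - z)‖ ^ (-(4 / 3) : ℝ)) =
    ENNReal.ofReal (∫ z : ℂ, ‖z * (1 - z)‖ ^ (-(4 / 3) : ℝ)) :=
  (ofReal_integral_eq_lintegral_ofReal integrable_complex
    (Filter.Eventually.of_forall fun _ => Real.rpow_nonneg (norm_nonneg _) _)).symm

open scoped Classical in
private theorem value : volume (regInf K) =
    2 ^ InfinitePlace.nrRealPlaces K * NNReal.pi ^ InfinitePlace.nrComplexPlaces K *
        ENNReal.ofReal (Units.regulator K) / 2 *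
      (ENNReal.ofReal (∫ x : ℝ, |x * (1 - x)| ^ (-(2 / 3) : ℝ)) ^ InfinitePlace.nrRealPlaces K *
        ENNReal.ofReal (∫ z : ℂ, ‖z * (1 - z)‖ ^ (-(4 / 3) : ℝ)) ^
          InfinitePlace.nrComplexPlaces K) := by
  rw [volume_regInf, lintegral_prod_eq, fundamentalCone.volume_normLeOne, lint_real, lint_complex]

open scoped Classical in
theorem volume_regInf_lt_top : volume (regInf K) < ⊤ := by
  rw [value]
  refine ENNReal.mul_lt_top (ENNReal.div_lt_top ?_ (by norm_num)) ?_
  · exact ENNReal.mul_ne_top (ENNReal.mul_ne_top (ENNReal.pow_ne_top (by norm_num))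
      (ENNReal.pow_ne_top ENNReal.coe_ne_top)) ENNReal.ofReal_ne_top
  · exact ENNReal.mul_lt_top (ENNReal.pow_lt_top ENNReal.ofReal_lt_top)
      (ENNReal.pow_lt_top ENNReal.ofReal_lt_top)

open scoped Classical in
theorem volume_real_regInf :
    volume.real (regInf K) =
      2 ^ InfinitePlace.nrRealPlaces K * Real.pi ^ InfinitePlace.nrComplexPlaces K *
        Units.regulator K / 2 *
        (∫ x : ℝ, |x * (1 - x)| ^ (-(2 / 3) : ℝ)) ^ InfinitePlace.nrRealPlaces K *
        (∫ z : ℂ, ‖z * (1 - z)‖ ^ (-(4 / 3) : ℝ)) ^ InfinitePlace.nrComplexPlaces K := by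
  have hA : 0 ≤ ∫ x : ℝ, |x * (1 - x)| ^ (-(2 / 3) : ℝ) :=
    integral_nonneg fun _ => Real.rpow_nonneg (abs_nonneg _) _
  have hB : 0 ≤ ∫ z : ℂ, ‖z * (1 - z)‖ ^ (-(4 / 3) : ℝ) :=
    integral_nonneg fun _ => Real.rpow_nonneg (norm_nonneg _) _
  have hR : 0 ≤ Units.regulator K := (Units.regulator_pos K).le
  rw [Measure.real, value]
  simp only [ENNReal.toReal_mul, ENNReal.toReal_div, ENNReal.toReal_pow, ENNReal.toReal_ofReal hA,
    ENNReal.toReal_ofReal hB, ENNReal.toReal_ofReal hR, ENNReal.toReal_ofNat, ENNReal.coe_toReal,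
    NNReal.coe_real_pi]
  ring

end AbcAsy
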