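import Pool.Agent.Work.MP_a793bb_nt.Asy.VCone

/-!
# VNull: null sets  (size M)

PROOF. `null_sphere`: the coordinate map `x ↦ x.1 ⟨v, _⟩` (or `x.2 ⟨v, _⟩`) is quasi measure
preserving (`Measure.quasiMeasurePreserving_fst/snd`, `Measure.quasiMeasurePreserving_eval`), and the
sphere `{y : ‖a_v - y‖ = c}` in `ℝ` or `ℂ` is null (`Measure.addHaar_sphere`, or for `ℝ` a finite set).
`normAtPlace v x` is the norm of the coordinate (`normAtPlace_apply_of_isReal/isComplex`).
The three product statements: the sets are closed (hence measurable), swap and Tonelli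
(`Measure.measure_prod_null`, `volume` on `EE K` is the product measure): for fixed `z` the
section is a sphere `{x : |a - x|_v = c}`, `a = 0` or `a = z`.
`null_norm_zero`: `N(x) = 0` iff some `|x|_v = 0`, finite union.
`null_Fn`: `A = {Fn = 1}`. For `r ≥ 1`, `r • A = {Fn = r ^ (3 d)}` (`Fn_smul`), these are pairwise
disjoint, measurable, of measure `r ^ (2 d) volume A` (`Measure.addHaar_smul`; or `≠ 0` if
`volume A ≠ 0`). At most countably many members of a disjoint family in a sigma-finite space have
positive measure (`Measure.countable_meas_pos_of_disjoint_iUnion`), so `volume A = 0`.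
-/

set_option autoImplicit false

namespace AbcAsy

open NumberField IsDedekindDomain MeasureTheory Pool.Agent.Work.MP_a793bb_nt mixedEmbedding

variable {K : Type*} [Field K] [NumberField K]

open scoped Classical in
theorem null_sphere (v : InfinitePlace K) (a : mixedSpace K) (c : ℝ) :
    volume {x : mixedSpace K | normAtPlace v (a - x) = c} = 0 := by
  rcases v.isReal_or_isComplex with hv | hv
  · have h1 : {x : mixedSpace K | normAtPlace v (a - x) = c} =
        Prod.fst ⁻¹' (Function.eval (⟨v, hv⟩ : {w : InfinitePlace K // w.IsReal}) ⁻¹'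
          Metric.sphere (a.1 ⟨v, hv⟩) c) := by
      ext x
      rw [Set.mem_ofPred_eq, normAtPlace_apply_of_isReal hv, Set.mem_preimage, Set.mem_preimage,
        Metric.mem_sphere, dist_comm, dist_eq_norm]
      rfl
    rw [h1, Measure.volume_eq_prod]
    refine Measure.quasiMeasurePreserving_fst.preimage_null ?_
    rw [volume_pi]
    refine (Measure.quasiMeasurePreserving_eval _ _).preimage_null ?_
    exact Measure.addHaar_sphere _ _ _
  · have h1 : {x : mixedSpace K | normAtPlace v (a - x) = c} =
        Prod.snd ⁻¹' (Function.eval (⟨v, hv⟩ : {w : InfinitePlace K // w.IsComplex}) ⁻¹'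
          Metric.sphere (a.2 ⟨v, hv⟩) c) := by
      ext x
      rw [Set.mem_ofPred_eq, normAtPlace_apply_of_isComplex hv, Set.mem_preimage,
        Set.mem_preimage, Metric.mem_sphere, dist_comm, dist_eq_norm]
      rfl
    rw [h1, Measure.volume_eq_prod]
    refine Measure.quasiMeasurePreserving_snd.preimage_null ?_
    rw [volume_pi]
    refine (Measure.quasiMeasurePreserving_eval _ _).preimage_null ?_
    exact Measure.addHaar_sphere _ _ _

open scoped Classical in
private theorem vn_norm_sub_zero (a : mixedSpace K) :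
    volume {x : mixedSpace K | mixedEmbedding.norm (a - x) = 0} = 0 := by
  have h1 : {x : mixedSpace K | mixedEmbedding.norm (a - x) = 0} =
      ⋃ v : InfinitePlace K, {x : mixedSpace K | normAtPlace v (a - x) = 0} := by
    ext x
    rw [Set.mem_ofPred_eq, mixedEmbedding.norm_eq_zero_iff, Set.mem_iUnion]
    rfl
  rw [h1, measure_iUnion_null_iff]
  exact fun v => null_sphere v a 0

open scoped Classical in
theorem null_norm_zero : volume {x : mixedSpace K | mixedEmbedding.norm x = 0} = 0 := by
  have h1 : {x : mixedSpace K | mixedEmbedding.norm x = 0} =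
      {x : mixedSpace K | mixedEmbedding.norm (0 - x) = 0} := by
    ext x
    rw [Set.mem_ofPred_eq, Set.mem_ofPred_eq, zero_sub]
    have h2 : mixedEmbedding.norm (-x) = mixedEmbedding.norm x :=
      norm_eq_of_normAtPlace_eq fun v => normAtPlace_neg v x
    rw [h2]
  rw [h1]
  exact vn_norm_sub_zero 0

open scoped Classical in
theorem null_norm_sub_zero (a : mixedSpace K) :
    volume {x : mixedSpace K | mixedEmbedding.norm (a - x) = 0} = 0 :=
  vn_norm_sub_zero a

open scoped Classical in
private theorem vn_prod {S : Set (EE K)} (hS : IsClosed S)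
    (h : ∀ z : mixedSpace K, volume {x : mixedSpace K | (x, z) ∈ S} = 0) : volume S = 0 := by
  rw [Measure.volume_eq_prod, Measure.prod_apply_symm hS.measurableSet]
  have h1 : ∀ z : mixedSpace K, volume ((fun x : mixedSpace K => (x, z)) ⁻¹' S) = 0 := h
  rw [lintegral_congr h1, lintegral_zero]

private theorem vn_cont1 (v : InfinitePlace K) :
    Continuous fun q : EE K => normAtPlace v q.1 :=
  (continuous_normAtPlace v).comp continuous_fst

private theorem vn_cont2 (v : InfinitePlace K) :
    Continuous fun q : EE K => normAtPlace v q.2 :=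
  (continuous_normAtPlace v).comp continuous_snd

private theorem vn_cont3 (v : InfinitePlace K) :
    Continuous fun q : EE K => normAtPlace v (q.2 - q.1) :=
  (continuous_normAtPlace v).comp (continuous_snd.sub continuous_fst)

open scoped Classical in
theorem null_eq1 (v : InfinitePlace K) (T : ℝ) :
    volume {q : EE K | normAtPlace v q.1 = T * normAtPlace v q.2} = 0 := by
  refine vn_prod (isClosed_eq (vn_cont1 v) (continuous_const.mul (vn_cont2 v))) fun z => ?_
  have h1 : {x : mixedSpace K | (x, z) ∈
      {q : EE K | normAtPlace v q.1 = T * normAtPlace v q.2}} =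
      {x : mixedSpace K | normAtPlace v (0 - x) = T * normAtPlace v z} := by
    ext x
    rw [Set.mem_ofPred_eq, Set.mem_ofPred_eq, Set.mem_ofPred_eq, zero_sub, normAtPlace_neg]
  rw [h1]
  exact null_sphere v 0 _

open scoped Classical in
theorem null_eq2 (v : InfinitePlace K) {T : ℝ} (hT : 0 < T) :
    volume {q : EE K | normAtPlace v q.2 = T * normAtPlace v q.1} = 0 := by
  refine vn_prod (isClosed_eq (vn_cont2 v) (continuous_const.mul (vn_cont1 v))) fun z => ?_
  have h1 : {x : mixedSpace K | (x, z) ∈
      {q : EE K | normAtPlace v q.2 = T * normAtPlace v q.1}} =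
      {x : mixedSpace K | normAtPlace v (0 - x) = normAtPlace v z / T} := by
    ext x
    rw [Set.mem_ofPred_eq, Set.mem_ofPred_eq, Set.mem_ofPred_eq, zero_sub, normAtPlace_neg,
      eq_div_iff hT.ne', eq_comm, mul_comm]
  rw [h1]
  exact null_sphere v 0 _

open scoped Classical in
theorem null_eq3 (v : InfinitePlace K) {T : ℝ} (hT : 0 < T) :
    volume {q : EE K | normAtPlace v q.2 = T * normAtPlace v (q.2 - q.1)} = 0 := by
  refine vn_prod (isClosed_eq (vn_cont2 v) (continuous_const.mul (vn_cont3 v))) fun z => ?_
  have h1 : {x : mixedSpace K | (x, z) ∈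
      {q : EE K | normAtPlace v q.2 = T * normAtPlace v (q.2 - q.1)}} =
      {x : mixedSpace K | normAtPlace v (z - x) = normAtPlace v z / T} := by
    ext x
    rw [Set.mem_ofPred_eq, Set.mem_ofPred_eq, Set.mem_ofPred_eq, eq_div_iff hT.ne', eq_comm,
      mul_comm]
  rw [h1]
  exact null_sphere v z _

open scoped Classical in
theorem null_Fn : volume {q : EE K | Fn q = 1} = 0 := by
  by_contra hne
  have hA : Measure.IsAddHaarMeasure (volume : Measure (EE K)) :=
    Measure.prod.instIsAddHaarMeasure volume volume
  have hB : BorelSpace (EE K) := Prod.borelSpace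
  have hSF : SFinite (volume : Measure (EE K)) :=
    Measure.prod.instSFinite (μ := (volume : Measure (mixedSpace K)))
      (ν := (volume : Measure (mixedSpace K)))
  have hd0 : (0 : ℝ) < Module.finrank ℚ K := by exact_mod_cast Module.finrank_pos
  have hc := Measure.countable_meas_level_set_pos (μ := (volume : Measure (EE K)))
    (g := (Fn : EE K → ℝ)) continuous_Fn.measurable
  have hsub : Set.Ioi (0 : ℝ) ⊆ {t : ℝ | 0 < volume {q : EE K | Fn q = t}} := by
    intro t ht
    have ht0 : (0 : ℝ) < t := ht
    obtain ⟨c, hc⟩ : ∃ c, c = (t ^ (1 / (3 * (Module.finrank ℚ K : ℝ))))⁻¹ := ⟨_, rfl⟩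
    have hc0 : 0 < c := hc ▸ inv_pos.2 (Real.rpow_pos_of_pos ht0 _)
    have hct : c ^ (3 * Module.finrank ℚ K) = t⁻¹ := by
      rw [hc, inv_pow, ← Real.rpow_mul_natCast ht0.le]
      have e : 1 / (3 * (Module.finrank ℚ K : ℝ)) * ((3 * Module.finrank ℚ K : ℕ) : ℝ) = 1 := by
        push_cast
        field_simp
      rw [e, Real.rpow_one]
    have h1 : {q : EE K | Fn q = t} = (c • ·) ⁻¹' {q : EE K | Fn q = 1} := by
      ext q
      rw [Set.mem_preimage, Set.mem_ofPred_eq, Set.mem_ofPred_eq, Fn_smul hc0.le, hct,
        inv_mul_eq_one₀ ht0.ne', eq_comm]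
    show 0 < volume {q : EE K | Fn q = t}
    rw [h1, Measure.addHaar_preimage_smul _ hc0.ne']
    refine ENNReal.mul_pos ?_ hne
    rw [ne_eq, ENNReal.ofReal_eq_zero, not_le, abs_pos]
    exact inv_ne_zero (pow_ne_zero _ hc0.ne')
  have h2 := Cardinal.mk_le_aleph0_iff.2 (hc.mono hsub).to_subtype
  rw [Cardinal.mk_Ioi_real] at h2
  exact absurd h2 (not_le.2 Cardinal.aleph0_lt_continuum)

end AbcAsy
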