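import Pool.Agent.Work.MP_a793bb_nt.Asy.VMeas
import Pool.Agent.Work.MP_a793bb_nt.Asy.VNull
import Pool.Agent.Work.MP_a793bb_nt.Asy.VFin

/-!
# VLim: the volume of `regT K T` tends to the volume of `regInf K`  (size M)

PROOF. For `T ≤ T'` (`0 ≤ T`), `regT K T ⊆ regT K T' ⊆ regInf K`. The union of the increasing
family `regT K (max T 0)` over real `T` is the set of `q = (x, z) ∈ regInf K` with `|x|_v > 0`,
`|z - x|_v > 0` for all `v` (`|z|_v > 0` holds by `fundamentalCone.normAtPlace_pos_of_mem`; finitely many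
places, take `T` large). Its complement in `regInf K` is contained in
`{N(x) = 0} ∪ {N(z - x) = 0}`, a null set of `EE K` (`null_norm_zero`, `null_norm_sub_zero` and
`Measure.measure_prod_null`). So `volume (regT K T) → volume (regInf K) < ∞`
(`tendsto_measure_iUnion_atTop`, `volume_regInf_lt_top`, `ENNReal.tendsto_toReal`).
-/

set_option autoImplicit false

namespace AbcAsy

open NumberField IsDedekindDomain MeasureTheory Pool.Agent.Work.MP_a793bb_nt mixedEmbedding Filter
  Topology

variable (K : Type*) [Field K] [NumberField K]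

private theorem mono_regT {T T' : ℝ} (hTT : T ≤ T') : regT K T ⊆ regT K T' := by
  rintro q ⟨⟨h1, h2⟩, h3⟩
  refine ⟨⟨h1, fun v => ?_⟩, h3⟩
  obtain ⟨ha, hb, hc⟩ := h2 v
  have e1 := normAtPlace_nonneg v q.1
  have e2 := normAtPlace_nonneg v q.2
  have e3 := normAtPlace_nonneg v (q.2 - q.1)
  exact ⟨ha.trans (mul_le_mul_of_nonneg_right hTT e2), hb.trans (mul_le_mul_of_nonneg_right hTT e1),
    hc.trans (mul_le_mul_of_nonneg_right hTT e3)⟩

private theorem exists_regT {q : EE K} (hq : q ∈ regInf K) (h1 : mixedEmbedding.norm q.1 ≠ 0)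
    (h2 : mixedEmbedding.norm (q.2 - q.1) ≠ 0) : ∃ T : ℝ, q ∈ regT K T := by
  have ha : ∀ v, 0 < normAtPlace v q.1 := fun v =>
    lt_of_le_of_ne (normAtPlace_nonneg _ _) (Ne.symm (mixedEmbedding.norm_ne_zero_iff.1 h1 v))
  have hb : ∀ v, 0 < normAtPlace v q.2 := fun v =>
    fundamentalCone.normAtPlace_pos_of_mem hq.1 v
  have hc : ∀ v, 0 < normAtPlace v (q.2 - q.1) := fun v =>
    lt_of_le_of_ne (normAtPlace_nonneg _ _) (Ne.symm (mixedEmbedding.norm_ne_zero_iff.1 h2 v))
  refine ⟨∑ v : InfinitePlace K, (normAtPlace v q.1 / normAtPlace v q.2 +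
    normAtPlace v q.2 / normAtPlace v q.1 + normAtPlace v q.2 / normAtPlace v (q.2 - q.1)),
    ⟨hq.1, fun v => ?_⟩, hq.2⟩
  have e1 := fun v => div_nonneg (ha v).le (hb v).le
  have e2 := fun v => div_nonneg (hb v).le (ha v).le
  have e3 := fun v => div_nonneg (hb v).le (hc v).le
  have key := Finset.single_le_sum (s := Finset.univ) (f := fun v : InfinitePlace K =>
    normAtPlace v q.1 / normAtPlace v q.2 +
    normAtPlace v q.2 / normAtPlace v q.1 + normAtPlace v q.2 / normAtPlace v (q.2 - q.1))
    (fun v _ => add_nonneg (add_nonneg (e1 v) (e2 v)) (e3 v)) (Finset.mem_univ v)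
  refine ⟨(div_le_iff₀ (hb v)).1 ?_, (div_le_iff₀ (ha v)).1 ?_, (div_le_iff₀ (hc v)).1 ?_⟩
  · linarith [e1 v, e2 v, e3 v]
  · linarith [e1 v, e2 v, e3 v]
  · linarith [e1 v, e2 v, e3 v]

open scoped Classical in
private theorem null1 : volume {q : EE K | mixedEmbedding.norm q.1 = 0} = 0 := by
  have h : {q : EE K | mixedEmbedding.norm q.1 = 0} =
      {x : mixedSpace K | mixedEmbedding.norm x = 0} ×ˢ Set.univ := by
    ext q; simp
  rw [h, Measure.volume_eq_prod, Measure.prod_prod, null_norm_zero, zero_mul]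

open scoped Classical in
private theorem null2 : volume {q : EE K | mixedEmbedding.norm (q.2 - q.1) = 0} = 0 := by
  have hm : MeasurableSet {q : EE K | mixedEmbedding.norm (q.2 - q.1) = 0} := by
    refine IsClosed.measurableSet ?_
    exact isClosed_singleton.preimage
      ((mixedEmbedding.continuous_norm K).comp (continuous_snd.sub continuous_fst))
  rw [Measure.volume_eq_prod, Measure.measure_prod_null hm]
  refine Eventually.of_forall fun x => ?_
  have h := null_norm_sub_zero x
  simp only [Pi.zero_apply]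
  convert h using 2
  ext z
  simp only [Set.mem_preimage, Set.mem_ofPred_eq]
  rw [norm_eq_of_normAtPlace_eq (x := z - x) (y := x - z) fun w => by
    rw [← normAtPlace_neg, neg_sub]]

open scoped Classical in
theorem tendsto_volume_regT :
    Tendsto (fun T : ℝ => volume.real (regT K T)) atTop (𝓝 (volume.real (regInf K))) := by
  have hmono : Monotone (fun T : ℝ => regT K T) := fun T T' h => mono_regT K h
  have hsub : (⋃ T : ℝ, regT K T) ⊆ regInf K := by
    intro q hq
    obtain ⟨T, hT⟩ := Set.mem_iUnion.1 hq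
    exact ⟨hT.1.1, hT.2⟩
  have hnull : volume (regInf K \ ⋃ T : ℝ, regT K T) = 0 := by
    refine measure_mono_null (t := {q : EE K | mixedEmbedding.norm q.1 = 0} ∪
      {q : EE K | mixedEmbedding.norm (q.2 - q.1) = 0}) ?_
      (measure_union_null (null1 K) (null2 K))
    rintro q ⟨hq, hn⟩
    by_contra hcon
    simp only [Set.mem_union, Set.mem_ofPred_eq, not_or] at hcon
    exact hn (Set.mem_iUnion.2 (exists_regT K hq hcon.1 hcon.2))
  have h1 : Tendsto (fun T : ℝ => volume (regT K T)) atTop (𝓝 (volume (regInf K))) := by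
    have h := tendsto_measure_iUnion_atTop (μ := (volume : Measure (EE K))) hmono
    rw [measure_eq_measure_of_null_sdiff hsub hnull] at h
    exact h
  exact (ENNReal.tendsto_toReal (volume_regInf_lt_top K).ne).comp h1

end AbcAsy
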