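import Pool.Agent.Work.MP_a793bb_nt.Asy.FLim
import Pool.Agent.Work.MP_a793bb_nt.Asy.SDens
import Pool.Agent.Work.MP_a793bb_nt.Asy.VLim

/-!
# The asymptotic formula

Proof. Let `w = torsionOrder K ≥ 1`, `h = classNumber K`, `V = volume.real (regInf K)`, `V_T = volume.real (regT K T)`,
`a = h 4 ^ r₂ / |discr K|`, `P = ∏' locFac`; `kappa K = a V P / w` by `volume_real_regInf`
(`V = 2 ^ r₁ π ^ r₂ Reg / 2 * ...`, `4 ^ r₂ π ^ r₂ = (4 π) ^ r₂`). Let `ε > 0`. Choose `T ≥ 2` with: `T ≥ T₀` of `tset_diff` for `ε`,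
`|V_T - V| ≤ ε` (`tendsto_volume_regT`), `T ^ (- 1 / 6) ≤ ε`. With this `T` let `C_T` be the constant of `UT_count`, and let `S, k` be as in
`choose_S_k` for `ε' = min ε (ε / (C_T + 1))`. Then for large `R`
`|w #tset / R ^ (2 / 3) - a V_T dens S k T| ≤ w ε + C_T errS S k + ε ≤ (w + 2) ε`, and
`|dens S k T - P| ≤ ε + C₅ ε` by `dens_le`, `le_dens`, `choose_S_k`, `prod_Lk_le` (constant `C₅`). So
`|w #tset / R ^ (2 / 3) - a V P| ≤ (w + 2) ε + a V_T (1 + C₅) ε + a ε |P| ≤ C₆ ε` with `C₆` independent of `ε ≤ 1` (`V_T ≤ V + 1`). (`Metric.tendsto_atTop` or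
`tendsto_order`.)
-/

set_option autoImplicit false

namespace AbcAsy

open MeasureTheory NumberField NumberField.InfinitePlace IsDedekindDomain Filter Topology
  Pool.Agent.Work.MP_a793bb_nt

open scoped Classical in
private theorem bound_all (K : Type*) [Field K] [NumberField K] : ∃ C₆ : ℝ, 0 ≤ C₆ ∧
    ∀ ε : ℝ, 0 < ε → ε ≤ 1 → ∀ᶠ R : ℝ in atTop,
      |(Units.torsionOrder K : ℝ) * (((tset K (Real.log R)).ncard : ℝ) / R ^ (2 / 3 : ℝ)) -
        (classNumber K * 4 ^ nrComplexPlaces K / |(discr K : ℝ)|) *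
          volume.real (regInf K) *
          ∏' p : HeightOneSpectrum (𝓞 K), locFac (Ideal.absNorm p.asIdeal)| ≤ C₆ * ε := by
  obtain ⟨C₅, hC₅, h5⟩ := prod_Lk_le K
  set w : ℝ := (Units.torsionOrder K : ℝ) with hw
  set a : ℝ := (classNumber K : ℝ) * 4 ^ nrComplexPlaces K / |(discr K : ℝ)| with ha
  set V : ℝ := volume.real (regInf K) with hV
  set P : ℝ := ∏' p : HeightOneSpectrum (𝓞 K), locFac (Ideal.absNorm p.asIdeal) with hP
  have hw0 : 0 ≤ w := Nat.cast_nonneg _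
  have ha0 : 0 ≤ a := by positivity
  have hV0 : 0 ≤ V := measureReal_nonneg
  refine ⟨w + 2 + a * ((V + 1) * (1 + C₅)) + a * |P|, by positivity, fun ε hε hε1 => ?_⟩
  obtain ⟨T₀, hT₀, hT₀'⟩ := tset_diff K ε hε
  have e1 := (Metric.tendsto_nhds.1 (tendsto_volume_regT K)) ε hε
  have e2 : ∀ᶠ T : ℝ in atTop, T ^ (-(1 / 6) : ℝ) < ε :=
    (tendsto_rpow_neg_atTop (by norm_num : (0 : ℝ) < 1 / 6)).eventually (gt_mem_nhds hε)
  obtain ⟨T, hT1, hT2, hT3⟩ := (e1.and (e2.and (eventually_ge_atTop T₀))).exists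
  have hT4 : 2 ≤ T := hT₀.trans hT3
  rw [Real.dist_eq] at hT1
  set VT : ℝ := volume.real (regT K T) with hVT
  have hVT0 : 0 ≤ VT := measureReal_nonneg
  obtain ⟨C, hC, hCc⟩ := UT_count K hT4
  have hε' : 0 < min ε (ε / (C + 1)) := lt_min hε (by positivity)
  obtain ⟨S, k, hk, hS1, hS2⟩ := choose_S_k K _ hε'
  have hT0 : 0 ≤ T ^ (-(1 / 6) : ℝ) := Real.rpow_nonneg (by linarith) _
  have d1 := dens_le S k hk T
  have d2 := le_dens S k hk (T := T) (by linarith)
  have d3 := h5 S k hk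
  have d4 : T ^ (-(1 / 6) : ℝ) * ∏ p ∈ S, Lk (5 / 6) k (Ideal.absNorm p.asIdeal) ≤ ε * C₅ := by
    calc _ ≤ T ^ (-(1 / 6) : ℝ) * C₅ := mul_le_mul_of_nonneg_left d3 hT0
      _ ≤ _ := mul_le_mul_of_nonneg_right hT2.le hC₅
  have d5 := abs_le.1 (hS2.trans (min_le_left _ _))
  have hd : |dens S k T - P| ≤ (1 + C₅) * ε := by
    rw [abs_le]
    constructor
    · nlinarith [d5.1]
    · nlinarith [d5.2, mul_nonneg hC₅ hε.le]
  have herr : C * errS S k ≤ ε := by
    calc C * errS S k ≤ C * (ε / (C + 1)) :=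
          mul_le_mul_of_nonneg_left (hS1.trans (min_le_right _ _)) hC
      _ ≤ ε := by
          rw [mul_div_assoc', div_le_iff₀ (by linarith)]
          nlinarith
  filter_upwards [hCc S k ε hk hε, hT₀' T hT3, eventually_gt_atTop (0 : ℝ)] with R h1 h2 hR
  have hRp : 0 < R ^ (2 / 3 : ℝ) := Real.rpow_pos_of_pos hR _
  have h3 : |w * (((tset K (Real.log R)).ncard : ℝ) / R ^ (2 / 3 : ℝ)) -
      w * (UT K T R).ncard / R ^ (2 / 3 : ℝ)| ≤ w * ε := by
    have : w * (((tset K (Real.log R)).ncard : ℝ) / R ^ (2 / 3 : ℝ)) -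
      w * (UT K T R).ncard / R ^ (2 / 3 : ℝ) =
      w * ((((tset K (Real.log R)).ncard : ℝ) - (UT K T R).ncard) / R ^ (2 / 3 : ℝ)) := by ring
    rw [this, abs_mul, abs_of_nonneg hw0, abs_div, abs_of_pos hRp]
    refine mul_le_mul_of_nonneg_left ?_ hw0
    rw [div_le_iff₀ hRp]
    exact h2
  have h4 : classNumber K * (VT * 4 ^ nrComplexPlaces K / |(discr K : ℝ)|) * dens S k T =
      a * VT * dens S k T := by rw [ha]; ring
  rw [← hw, h4] at h1
  have h6 : |a * VT * dens S k T - a * V * P| ≤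
      a * ((V + 1) * (1 + C₅)) * ε + a * |P| * ε := by
    have e : a * VT * dens S k T - a * V * P =
        a * VT * (dens S k T - P) + a * (VT - V) * P := by ring
    rw [e]
    refine (abs_add_le _ _).trans (add_le_add ?_ ?_)
    · rw [abs_mul, abs_of_nonneg (mul_nonneg ha0 hVT0)]
      have hVT1 : VT ≤ V + 1 := by linarith [(abs_lt.1 hT1).2]
      calc a * VT * |dens S k T - P| ≤ a * (V + 1) * ((1 + C₅) * ε) :=
            mul_le_mul (mul_le_mul_of_nonneg_left hVT1 ha0) hd (abs_nonneg _) (by positivity)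
        _ = _ := by ring
    · rw [abs_mul, abs_mul, abs_of_nonneg ha0]
      calc a * |VT - V| * |P| ≤ a * ε * |P| :=
            mul_le_mul_of_nonneg_right (mul_le_mul_of_nonneg_left hT1.le ha0) (abs_nonneg _)
        _ = _ := by ring
  calc _ = |(w * (((tset K (Real.log R)).ncard : ℝ) / R ^ (2 / 3 : ℝ)) -
      w * (UT K T R).ncard / R ^ (2 / 3 : ℝ)) + (w * (UT K T R).ncard / R ^ (2 / 3 : ℝ) -
        a * VT * dens S k T) + (a * VT * dens S k T - a * V * P)| := by ring_nf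
    _ ≤ _ := abs_add_three _ _ _
    _ ≤ w * ε + (C * errS S k + ε) + (a * ((V + 1) * (1 + C₅)) * ε + a * |P| * ε) :=
        add_le_add (add_le_add h3 h1) h6
    _ ≤ _ := by linarith

theorem main_tset (K : Type*) [Field K] [NumberField K] :
    Tendsto (fun R : ℝ => ((tset K (Real.log R)).ncard : ℝ) / R ^ (2 / 3 : ℝ)) atTop
      (𝓝 (kappa K)) := by
  classical
  obtain ⟨C₆, hC₆, h⟩ := bound_all K
  set P : ℝ := ∏' p : HeightOneSpectrum (𝓞 K), locFac (Ideal.absNorm p.asIdeal) with hP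
  have hw : (0 : ℝ) < Units.torsionOrder K := Nat.cast_pos.2 (Units.torsionOrder_pos K)
  have h1 : Tendsto (fun R : ℝ => (Units.torsionOrder K : ℝ) *
      (((tset K (Real.log R)).ncard : ℝ) / R ^ (2 / 3 : ℝ))) atTop
      (𝓝 ((classNumber K * 4 ^ nrComplexPlaces K / |(discr K : ℝ)|) *
          volume.real (regInf K) * P)) := by
    rw [Metric.tendsto_nhds]
    intro δ hδ
    have hε : 0 < min 1 (δ / (2 * (C₆ + 1))) := lt_min one_pos (by positivity)
    filter_upwards [h _ hε (min_le_left _ _)] with R hR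
    rw [Real.dist_eq]
    refine lt_of_le_of_lt hR ?_
    calc C₆ * min 1 (δ / (2 * (C₆ + 1))) ≤ C₆ * (δ / (2 * (C₆ + 1))) :=
          mul_le_mul_of_nonneg_left (min_le_right _ _) hC₆
      _ < δ := by
          rw [mul_div_assoc', div_lt_iff₀ (by positivity)]
          nlinarith
  have h2 := h1.const_mul ((Units.torsionOrder K : ℝ)⁻¹)
  have h3 : (Units.torsionOrder K : ℝ)⁻¹ * ((classNumber K * 4 ^ nrComplexPlaces K /
      |(discr K : ℝ)|) * volume.real (regInf K) * P) = kappa K := by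
    rw [volume_real_regInf, kappa, mul_pow]
    have : |(discr K : ℝ)| ≠ 0 := abs_ne_zero.2 (Int.cast_ne_zero.2 (discr_ne_zero K))
    rw [← hP]
    field_simp
  rw [h3] at h2
  refine h2.congr fun R => ?_
  rw [← mul_assoc, inv_mul_cancel₀ hw.ne', one_mul]

end AbcAsy
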