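import Mathlib

/-!
# The constant in the asymptotic formula
-/

set_option autoImplicit false

namespace Pool.Agent.Work.MP_a793bb_nt

open NumberField IsDedekindDomain MeasureTheory

/-- The local factor `1 - 3 / q + 2 / q ^ 2 + 3 (1 - 1 / q) ^ 2 / (q (1 - q ^ (- 1 / 3)))` at a prime
ideal of norm `q`. -/
noncomputable def locFac (q : ℝ) : ℝ :=
  1 - 3 / q + 2 / q ^ 2 + 3 * (1 - 1 / q) ^ 2 / (q * (1 - q ^ (-(1 / 3) : ℝ)))

/-- The constant `κ` of the number field `K` in the asymptotic formula. -/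
noncomputable def kappa (K : Type*) [Field K] [NumberField K] : ℝ :=
  2 ^ InfinitePlace.nrRealPlaces K * (4 * Real.pi) ^ InfinitePlace.nrComplexPlaces K *
    Units.regulator K * classNumber K / (2 * Units.torsionOrder K * |(discr K : ℝ)|) *
    (∫ x : ℝ, |x * (1 - x)| ^ (-(2 / 3) : ℝ)) ^ InfinitePlace.nrRealPlaces K *
    (∫ z : ℂ, ‖z * (1 - z)‖ ^ (-(4 / 3) : ℝ)) ^ InfinitePlace.nrComplexPlaces K *
    ∏' p : HeightOneSpectrum (𝓞 K), locFac (Ideal.absNorm p.asIdeal)

end Pool.Agent.Work.MP_a793bb_nt
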