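import Mathlib

/-!
# The fundamental domain of an ideal

Proof. Let `I' = FractionalIdeal.mk0 K ⟨I, _⟩`, `B = fractionalIdealLatticeBasis K I'` and `D = ZSpan.fundamentalDomain B`
(measurable, bounded). Its volume is the covolume of `mixedEmbedding.idealLattice K I'`
(`ZLattice.covolume_eq_measure_fundamentalDomain`, or `volume_fundamentalDomain_fractionalIdealLatticeBasis`), which is
`mixedEmbedding.covolume_idealLattice` with `FractionalIdeal.absNorm I' = absNorm I` (`FractionalIdeal.coeIdeal_absNorm`, see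
`Mathlib/NumberTheory/NumberField/Ideal/Asymptotics.lean`). The last claim: apply
`ZSpan.exist_unique_vadd_mem_fundamentalDomain B` to `e - mixedEmbedding K x₀`; the elements of `span ℤ (range B)` are the images of
the elements of `I` (`mem_span_fractionalIdealLatticeBasis`, `mem_idealLattice`), and `mixedEmbedding K` is injective.
-/

set_option autoImplicit false

namespace AbcAsy

open MeasureTheory NumberField NumberField.InfinitePlace

private theorem mem_lat (K : Type*) [Field K] [NumberField K] (I : Ideal (𝓞 K)) (hI : I ≠ ⊥)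
    (v : mixedEmbedding.mixedSpace K) :
    v ∈ Submodule.span ℤ (Set.range (mixedEmbedding.fractionalIdealLatticeBasis K
      (FractionalIdeal.mk0 K ⟨I, mem_nonZeroDivisors_iff_ne_zero.2 hI⟩))) ↔
      ∃ a ∈ I, mixedEmbedding K (a : K) = v := by
  rw [mixedEmbedding.mem_span_fractionalIdealLatticeBasis]
  constructor
  · rintro ⟨y, hy, rfl⟩
    have h2 : y ∈ ((I : Ideal (𝓞 K)) : FractionalIdeal (nonZeroDivisors (𝓞 K)) K) := hy
    rw [FractionalIdeal.mem_coeIdeal] at h2
    obtain ⟨a, ha, rfl⟩ := h2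
    exact ⟨a, ha, rfl⟩
  · rintro ⟨a, ha, rfl⟩
    refine ⟨(a : K), ?_, rfl⟩
    have h2 : (a : K) ∈ ((I : Ideal (𝓞 K)) : FractionalIdeal (nonZeroDivisors (𝓞 K)) K) :=
      (FractionalIdeal.mem_coeIdeal _).2 ⟨a, ha, rfl⟩
    exact h2

open scoped Classical in
theorem exists_tile (K : Type*) [Field K] [NumberField K] (I : Ideal (𝓞 K)) (hI : I ≠ ⊥) :
    ∃ D : Set (mixedEmbedding.mixedSpace K), MeasurableSet D ∧ Bornology.IsBounded D ∧
      volume.real D = (Ideal.absNorm I : ℝ) * 2⁻¹ ^ nrComplexPlaces K * √|(discr K : ℝ)| ∧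
      ∀ (x₀ : 𝓞 K) (e : mixedEmbedding.mixedSpace K),
        ∃! x : 𝓞 K, x - x₀ ∈ I ∧ e - mixedEmbedding K (x : K) ∈ D := by
  set I' := FractionalIdeal.mk0 K ⟨I, mem_nonZeroDivisors_iff_ne_zero.2 hI⟩ with hI'
  set B := mixedEmbedding.fractionalIdealLatticeBasis K I' with hB
  refine ⟨ZSpan.fundamentalDomain B, ZSpan.fundamentalDomain_measurableSet B,
    ZSpan.fundamentalDomain_isBounded B, ?_, ?_⟩
  · have h1 := mixedEmbedding.covolume_idealLattice K I'
    rw [ZLattice.covolume_eq_measure_fundamentalDomain _ _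
      (mixedEmbedding.fundamentalDomain_idealLattice K I')] at h1
    rw [← hB] at h1
    rw [h1, hI', FractionalIdeal.coe_mk0, FractionalIdeal.coeIdeal_absNorm, Rat.cast_natCast]
  · intro x₀ e
    obtain ⟨v, hv, huv⟩ := ZSpan.exist_unique_vadd_mem_fundamentalDomain B
      (e - mixedEmbedding K (x₀ : K))
    obtain ⟨a, ha, hav⟩ := (mem_lat K I hI (v : mixedEmbedding.mixedSpace K)).1 v.2
    have hv2 : (v : mixedEmbedding.mixedSpace K) + (e - mixedEmbedding K (x₀ : K)) ∈
      ZSpan.fundamentalDomain B := hv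
    refine ⟨x₀ - a, ⟨?_, ?_⟩, ?_⟩
    · have : x₀ - a - x₀ = -a := by ring
      rw [this]
      exact I.neg_mem ha
    · convert hv2 using 1
      rw [← hav]
      push_cast
      rw [map_sub]
      abel
    · rintro x ⟨hx1, hx2⟩
      have h3 : -(x - x₀) ∈ I := I.neg_mem hx1
      have h4 := (mem_lat K I hI (mixedEmbedding K ((-(x - x₀) : 𝓞 K) : K))).2 ⟨_, h3, rfl⟩
      have h5 := huv ⟨_, h4⟩ (by
        change (mixedEmbedding K ((-(x - x₀) : 𝓞 K) : K)) + (e - mixedEmbedding K (x₀ : K)) ∈
          ZSpan.fundamentalDomain B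
        convert hx2 using 1
        push_cast
        rw [map_neg, map_sub]
        abel)
      have h6 : mixedEmbedding K ((-(x - x₀) : 𝓞 K) : K) = mixedEmbedding K (a : K) := by
        rw [hav, ← h5]
      have h7 := mixedEmbedding_injective K h6
      have h8 : -(x - x₀) = a := by exact_mod_cast h7
      rw [← h8]
      ring

end AbcAsy
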