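import Pool.Agent.Work.MP_a793bb_nt.Asy.VCone

/-!
# VFrc: the frontier of the fundamental cone is null  (size M)

PROOF. Let `d = [K : ℚ]`, `n ≥ 1`, `U_n = {x : N(x) < n ^ d}` (open), and
`A_n = {x ∈ FC : N(x) ≤ n ^ d} = n • normLeOne K` (`fundamentalCone.smul_mem_iff_mem`,
`mixedEmbedding.norm_smul`). The frontier of `A_n` is `n • frontier (normLeOne K)` (homeomorphism
`Homeomorph.smulOfNeZero`), which is null (`fundamentalCone.volume_frontier_normLeOne`,
`Measure.addHaar_smul`). As `FC ∩ U_n = A_n ∩ U_n` and `U_n` is open,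
`frontier FC ∩ U_n = frontier A_n ∩ U_n` (the frontier is local), so `frontier FC ∩ U_n` is null; the
`U_n` cover the space. `frontier_prod`: the frontier of `univ ×ˢ FC` is `univ ×ˢ frontier FC`
(`frontier_univ_prod_eq`), null by `Measure.prod_prod`.
-/

set_option autoImplicit false

namespace AbcAsy

open NumberField IsDedekindDomain MeasureTheory Pool.Agent.Work.MP_a793bb_nt mixedEmbedding

variable (K : Type*) [Field K] [NumberField K]

open scoped Classical Pointwise in
private theorem vfrc_key (n : ℕ) : volume (frontier (fundamentalCone K) ∩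
    {x : mixedSpace K | mixedEmbedding.norm x < ((n : ℝ) + 1) ^ Module.finrank ℚ K}) = 0 := by
  have hc : ((n : ℝ) + 1) ≠ 0 := by positivity
  have hpos : (0 : ℝ) < (n : ℝ) + 1 := by positivity
  have hU : IsOpen {x : mixedSpace K | mixedEmbedding.norm x < ((n : ℝ) + 1) ^ Module.finrank ℚ K} :=
    isOpen_lt (mixedEmbedding.continuous_norm K) continuous_const
  have h1 : fundamentalCone K ∩ {x | mixedEmbedding.norm x ≤ ((n : ℝ) + 1) ^ Module.finrank ℚ K} =
      ((n : ℝ) + 1) • fundamentalCone.normLeOne K := by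
    ext x
    rw [Set.mem_smul_set_iff_inv_smul_mem₀ hc, fundamentalCone.mem_normLeOne,
      fundamentalCone.smul_mem_iff_mem (inv_ne_zero hc), mixedEmbedding.norm_smul, abs_inv,
      abs_of_pos hpos, inv_pow, inv_mul_le_iff₀ (by positivity), mul_one]
    rfl
  have h2 : frontier (((n : ℝ) + 1) • fundamentalCone.normLeOne K) =
      ((n : ℝ) + 1) • frontier (fundamentalCone.normLeOne K) := by
    have := (Homeomorph.smulOfNeZero ((n : ℝ) + 1) hc).image_frontier (fundamentalCone.normLeOne K)
    exact this.symm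
  have h3 : volume (frontier (((n : ℝ) + 1) • fundamentalCone.normLeOne K)) = 0 := by
    rw [h2, Measure.addHaar_smul, fundamentalCone.volume_frontier_normLeOne, mul_zero]
  set U := {x : mixedSpace K | mixedEmbedding.norm x < ((n : ℝ) + 1) ^ Module.finrank ℚ K} with hUdef
  have h4 : fundamentalCone K ∩ U = (((n : ℝ) + 1) • fundamentalCone.normLeOne K) ∩ U := by
    rw [← h1]
    ext x
    constructor
    · rintro ⟨hx, hxU⟩
      refine ⟨⟨hx, ?_⟩, hxU⟩
      exact (show mixedEmbedding.norm x ≤ ((n : ℝ) + 1) ^ Module.finrank ℚ K from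
        le_of_lt (show mixedEmbedding.norm x < ((n : ℝ) + 1) ^ Module.finrank ℚ K from hxU))
    · rintro ⟨⟨hx, _⟩, hxU⟩
      exact ⟨hx, hxU⟩
  have h5 : frontier (fundamentalCone K) ∩ U =
      frontier (((n : ℝ) + 1) • fundamentalCone.normLeOne K) ∩ U := by
    rw [← frontier_inter_open_inter hU, ← frontier_inter_open_inter hU (s := ((n : ℝ) + 1) •
      fundamentalCone.normLeOne K), h4]
  rw [h5]
  exact measure_mono_null Set.inter_subset_left h3

open scoped Classical in
theorem volume_frontier_cone : volume (frontier (fundamentalCone K)) = 0 := by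
  have h : frontier (fundamentalCone K) = ⋃ n : ℕ, frontier (fundamentalCone K) ∩
      {x : mixedSpace K | mixedEmbedding.norm x < ((n : ℝ) + 1) ^ Module.finrank ℚ K} := by
    rw [← Set.inter_iUnion]
    symm
    apply Set.inter_eq_left.mpr
    intro x _
    rw [Set.mem_iUnion]
    obtain ⟨n, hn⟩ := exists_nat_gt (mixedEmbedding.norm x)
    refine ⟨n, ?_⟩
    have hd : Module.finrank ℚ K ≠ 0 := Module.finrank_pos.ne'
    have h1 : (1 : ℝ) ≤ (n : ℝ) + 1 := by
      have : (0 : ℝ) ≤ n := Nat.cast_nonneg n
      linarith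
    have h2 := le_self_pow₀ h1 hd
    have h3 : mixedEmbedding.norm x < (n : ℝ) + 1 := by linarith
    exact lt_of_lt_of_le h3 h2
  rw [h]
  exact measure_iUnion_null fun n => vfrc_key K n

open scoped Classical in
theorem volume_frontier_cone_prod :
    volume (frontier {q : EE K | q.2 ∈ fundamentalCone K}) = 0 := by
  have h : {q : EE K | q.2 ∈ fundamentalCone K} = Set.univ ×ˢ fundamentalCone K := by
    ext q
    simp
  rw [h, frontier_univ_prod_eq, Measure.volume_eq_prod, Measure.prod_prod,
    volume_frontier_cone, mul_zero]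

end AbcAsy
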