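import Pool.Agent.Work.MP_a793bb_nt.Asy.VNull
import Pool.Agent.Work.MP_a793bb_nt.Asy.VFrc

/-!
# VFront: the frontier of `regT K T` is null  (size S-M)

PROOF. `regT K T` is a finite intersection of `{q : q.2 ∈ FC}`, of the closed sets
`{|x|_v ≤ T |z|_v}`, `{|z|_v ≤ T |x|_v}`, `{|z|_v ≤ T |z - x|_v}` and of `{Fn ≤ 1}`. The frontier of
an intersection is contained in the union of the frontiers (`frontier_inter_subset`), the frontier
of `{f ≤ g}` (`f, g` continuous) is contained in `{f = g}` (`frontier_le_subset_eq`). Use
`volume_frontier_cone_prod`, `null_eq1`, `null_eq2`, `null_eq3`, `null_Fn`.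
-/

set_option autoImplicit false

namespace AbcAsy

open NumberField IsDedekindDomain MeasureTheory Pool.Agent.Work.MP_a793bb_nt mixedEmbedding

variable (K : Type*) [Field K] [NumberField K]

private lemma null_frontier_iInter {X ι : Type*} [TopologicalSpace X] [MeasurableSpace X]
    (μ : Measure X) (s : ι → Set X) (hs : ∀ i, μ (frontier (s i)) = 0) (F : Finset ι) :
    μ (frontier (⋂ i ∈ F, s i)) = 0 := by
  classical
  induction F using Finset.induction_on with
  | empty => simp
  | insert a F ha ih =>
    rw [Finset.set_biInter_insert]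
    exact null_frontier_inter (hs a) ih

private lemma null_frontier_le {X : Type*} [TopologicalSpace X] [MeasurableSpace X]
    (μ : Measure X) {f g : X → ℝ} (hf : Continuous f) (hg : Continuous g)
    (h : μ {x | f x = g x} = 0) : μ (frontier {x | f x ≤ g x}) = 0 :=
  measure_mono_null (frontier_le_subset_eq hf hg) h

open scoped Classical in
theorem volume_frontier_regT {T : ℝ} (hT : 1 ≤ T) : volume (frontier (regT K T)) = 0 := by
  have hT0 : 0 < T := by linarith
  have e : regT K T = ({q : EE K | q.2 ∈ fundamentalCone K} ∩
      (⋂ v ∈ (Finset.univ : Finset (InfinitePlace K)),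
        ({q : EE K | normAtPlace v q.1 ≤ T * normAtPlace v q.2} ∩
          ({q : EE K | normAtPlace v q.2 ≤ T * normAtPlace v q.1} ∩
            {q : EE K | normAtPlace v q.2 ≤ T * normAtPlace v (q.2 - q.1)})))) ∩
      {q : EE K | Fn q ≤ 1} := by
    ext q
    simp only [regT, coneT, Set.mem_ofPred_eq, Set.mem_inter_iff, Set.mem_iInter, Finset.mem_univ,
      forall_true_left]
  rw [e]
  have c1 : ∀ v : InfinitePlace K, Continuous fun q : EE K => normAtPlace v q.1 := fun v =>
    (continuous_normAtPlace v).comp continuous_fst
  have c2 : ∀ v : InfinitePlace K, Continuous fun q : EE K => normAtPlace v q.2 := fun v =>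
    (continuous_normAtPlace v).comp continuous_snd
  have c3 : ∀ v : InfinitePlace K, Continuous fun q : EE K => normAtPlace v (q.2 - q.1) := fun v =>
    (continuous_normAtPlace v).comp (continuous_snd.sub continuous_fst)
  refine null_frontier_inter (null_frontier_inter (volume_frontier_cone_prod K) ?_) ?_
  · apply null_frontier_iInter
    intro v
    refine null_frontier_inter ?_ (null_frontier_inter ?_ ?_)
    · exact null_frontier_le _ (c1 v) (continuous_const.mul (c2 v)) (null_eq1 v T)
    · exact null_frontier_le _ (c2 v) (continuous_const.mul (c1 v)) (null_eq2 v hT0)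
    · exact null_frontier_le _ (c2 v) (continuous_const.mul (c3 v)) (null_eq3 v hT0)
  · exact null_frontier_le _ continuous_Fn continuous_const null_Fn

end AbcAsy
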