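import Pool.Agent.Work.MP_a793bb_nt.Asy.VCone

/-!
# VMeas: measurability  (size S)

PROOF. `fundamentalCone.measurableSet_fundamentalCone`, `continuous_normAtPlace`, `continuous_Fn`;
finite intersection over the places.
-/

set_option autoImplicit false

namespace AbcAsy

open NumberField IsDedekindDomain MeasureTheory Pool.Agent.Work.MP_a793bb_nt mixedEmbedding

variable {K : Type*} [Field K] [NumberField K]

private theorem meas_cone2 : MeasurableSet {q : EE K | q.2 ∈ fundamentalCone K} :=
  measurable_snd (measurableSet_fundamentalCone K)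

private theorem meas_Fn : MeasurableSet {q : EE K | Fn q ≤ 1} :=
  (isClosed_le continuous_Fn continuous_const).measurableSet

theorem measurableSet_coneT (T : ℝ) : MeasurableSet (coneT K T) := by
  have h1 : ∀ v : InfinitePlace K, Continuous fun q : EE K => normAtPlace v q.1 := fun v =>
    (mixedEmbedding.continuous_normAtPlace v).comp continuous_fst
  have h2 : ∀ v : InfinitePlace K, Continuous fun q : EE K => normAtPlace v q.2 := fun v =>
    (mixedEmbedding.continuous_normAtPlace v).comp continuous_snd
  have h3 : ∀ v : InfinitePlace K, Continuous fun q : EE K => normAtPlace v (q.2 - q.1) := fun v =>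
    (mixedEmbedding.continuous_normAtPlace v).comp (continuous_snd.sub continuous_fst)
  have h4 : ∀ v : InfinitePlace K, MeasurableSet {q : EE K |
      normAtPlace v q.1 ≤ T * normAtPlace v q.2 ∧ normAtPlace v q.2 ≤ T * normAtPlace v q.1 ∧
      normAtPlace v q.2 ≤ T * normAtPlace v (q.2 - q.1)} := by
    intro v
    refine IsClosed.measurableSet ?_
    exact (isClosed_le (h1 v) (continuous_const.mul (h2 v))).inter
      ((isClosed_le (h2 v) (continuous_const.mul (h1 v))).inter
        (isClosed_le (h2 v) (continuous_const.mul (h3 v))))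
  have h5 : coneT K T = {q : EE K | q.2 ∈ fundamentalCone K} ∩ ⋂ v : InfinitePlace K, {q : EE K |
      normAtPlace v q.1 ≤ T * normAtPlace v q.2 ∧ normAtPlace v q.2 ≤ T * normAtPlace v q.1 ∧
      normAtPlace v q.2 ≤ T * normAtPlace v (q.2 - q.1)} := by
    ext q
    simp only [coneT, Set.mem_ofPred_eq, Set.mem_inter_iff, Set.mem_iInter]
  rw [h5]
  exact meas_cone2.inter (MeasurableSet.iInter h4)

theorem measurableSet_regT (T : ℝ) : MeasurableSet (regT K T) :=
  (measurableSet_coneT T).inter meas_Fn

theorem measurableSet_regInf : MeasurableSet (regInf K) :=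
  meas_cone2.inter meas_Fn

end AbcAsy
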