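import Pool.Agent.Work.MP_a793bb_nt.Asy.LTile
import Pool.Agent.Work.MP_a793bb_nt.Asy.LDom
import Pool.Agent.Work.MP_a793bb_nt.Asy.Defs
import Pool.Agent.Work.MP_a793bb_nt.Asy.VFront
import Pool.Agent.Work.MP_a793bb_nt.Asy.VMeas

/-!
# Pairs of integers in a residue class

Proof. Let `D` be as in `exists_tile` for `I`, `L = {emb q | q.1 - q₀.1 ∈ I, q.2 - q₀.2 ∈ I}`. The set `D ×ˢ D` is a bounded measurable
set of volume `(volume D) ^ 2 = N(I) ^ 2 4⁻¹ ^ r₂ |discr|` (`Measure.volume_eq_prod`, `measureReal_prod_prod`) and tiles by `L`: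
`∃! p ∈ L, e - p ∈ D ×ˢ D` (componentwise; `mixedEmbedding K` is injective). Apply `tile_count` on `EE K` with
`s = regT K T` (bounded, measurable, frontier null: `isBounded_regT`, `measurableSet_regT`, `volume_frontier_regT`): with `c = X ^ (1 / (3 d))`, `d = finrank ℚ K ≥ 1`,
`c • regT K T = {q ∈ coneT K T | Fn q ≤ c ^ (3 d) = X}` for `X > 0` (`smul_mem_coneT`, `Fn_smul`), and
`c ^ finrank ℝ (EE K) = c ^ (2 d) = X ^ (2 / 3)` (`mixedEmbedding.finrank`, `Module.finrank_prod`). The map `emb` is injective, so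
the cardinality of `L ∩ c • s` is that of the set of pairs (`Set.ncard_image_of_injective`). For `X ≤ 0` the set is empty, because
`Fn q > 0` on `coneT K T` (all `normAtPlace v` of `q.1`, `q.2`, `q.2 - q.1` are positive).
-/

set_option autoImplicit false

namespace AbcAsy

open MeasureTheory NumberField NumberField.InfinitePlace Filter Topology

open scoped Pointwise

private theorem tile_count' {E : Type*} [NormedAddCommGroup E] [NormedSpace ℝ E]
    [FiniteDimensional ℝ E] [MeasurableSpace E] (hB : BorelSpace E) (μ : Measure E)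
    (hμ : μ.IsAddHaarMeasure) {D L s : Set E}
    (hD : MeasurableSet D) (hDb : Bornology.IsBounded D) (hD0 : μ D ≠ 0)
    (hL : ∀ e : E, ∃! p : E, p ∈ L ∧ e - p ∈ D) (hs : Bornology.IsBounded s)
    (hsm : MeasurableSet s) (hfr : μ (frontier s) = 0) :
    (∀ c : ℝ, 0 < c → (L ∩ c • s).Finite) ∧
    Tendsto (fun c : ℝ => ((L ∩ c • s).ncard : ℝ) / c ^ Module.finrank ℝ E) atTop
      (𝓝 (μ.real s / μ.real D)) :=
  tile_count μ hD hDb hD0 hL hs hsm hfr

private theorem emb_inj (K : Type*) [Field K] [NumberField K] :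
    Function.Injective (emb : 𝓞 K × 𝓞 K → EE K) := by
  intro q q' h
  have h1 : mixedEmbedding K (q.1 : K) = mixedEmbedding K (q'.1 : K) := congrArg Prod.fst h
  have h2 : mixedEmbedding K (q.2 : K) = mixedEmbedding K (q'.2 : K) := congrArg Prod.snd h
  refine Prod.ext ?_ ?_
  · exact_mod_cast mixedEmbedding_injective K h1
  · exact_mod_cast mixedEmbedding_injective K h2

private theorem mem_scale (K : Type*) [Field K] [NumberField K] {T c : ℝ} (hc : 0 < c)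
    (e : EE K) :
    e ∈ c • regT K T ↔ e ∈ coneT K T ∧ Fn e ≤ c ^ (3 * Module.finrank ℚ K) := by
  rw [Set.mem_smul_set_iff_inv_smul_mem₀ hc.ne']
  have h1 : c⁻¹ • e ∈ regT K T ↔ c⁻¹ • e ∈ coneT K T ∧ Fn (c⁻¹ • e) ≤ 1 := Iff.rfl
  rw [h1, smul_mem_coneT (inv_pos.2 hc), Fn_smul (inv_pos.2 hc).le, inv_pow,
    inv_mul_le_iff₀ (pow_pos hc _), mul_one]

open scoped Classical in
theorem coset_count (K : Type*) [Field K] [NumberField K] {T : ℝ} (hT : 1 ≤ T) {I : Ideal (𝓞 K)}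
    (hI : I ≠ ⊥) (q₀ : 𝓞 K × 𝓞 K) :
    (∀ X : ℝ, {q : 𝓞 K × 𝓞 K | q.1 - q₀.1 ∈ I ∧ q.2 - q₀.2 ∈ I ∧ emb q ∈ coneT K T ∧
      Fn (emb q) ≤ X}.Finite) ∧
    Tendsto (fun X : ℝ => ({q : 𝓞 K × 𝓞 K | q.1 - q₀.1 ∈ I ∧ q.2 - q₀.2 ∈ I ∧
      emb q ∈ coneT K T ∧ Fn (emb q) ≤ X}.ncard : ℝ) / X ^ (2 / 3 : ℝ)) atTop
      (𝓝 (volume.real (regT K T) * 4 ^ nrComplexPlaces K /
        ((Ideal.absNorm I : ℝ) ^ 2 * |(discr K : ℝ)|))) := by
  obtain ⟨D, hDm, hDb, hDv, hD⟩ := exists_tile K I hI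
  have hd : (0 : ℝ) < Module.finrank ℚ K := by exact_mod_cast Module.finrank_pos
  set A : ℝ → Set (𝓞 K × 𝓞 K) := fun X => {q : 𝓞 K × 𝓞 K | q.1 - q₀.1 ∈ I ∧ q.2 - q₀.2 ∈ I ∧
      emb q ∈ coneT K T ∧ Fn (emb q) ≤ X} with hA
  set L : Set (EE K) := emb '' {q : 𝓞 K × 𝓞 K | q.1 - q₀.1 ∈ I ∧ q.2 - q₀.2 ∈ I} with hLdef
  have hNI : (0 : ℝ) < Ideal.absNorm I := by
    exact_mod_cast Nat.pos_of_ne_zero (fun h => hI (Ideal.absNorm_eq_zero_iff.1 h))
  have hdisc : (0 : ℝ) < |(discr K : ℝ)| := abs_pos.2 (by exact_mod_cast discr_ne_zero K)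
  have hDD : volume.real (D ×ˢ D : Set (EE K)) =
      ((Ideal.absNorm I : ℝ) * 2⁻¹ ^ nrComplexPlaces K * √|(discr K : ℝ)|) ^ 2 := by
    rw [← hDv, sq]
    have h1 : (volume : Measure (EE K)) =
      (volume : Measure (mixedEmbedding.mixedSpace K)).prod volume := rfl
    rw [h1, measureReal_prod_prod]
  have hDD0 : 0 < volume.real (D ×ˢ D : Set (EE K)) := by
    rw [hDD]
    have := Real.sqrt_pos.2 hdisc
    positivity
  have hL : ∀ e : EE K, ∃! p : EE K, p ∈ L ∧ e - p ∈ (D ×ˢ D : Set (EE K)) := by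
    intro e
    obtain ⟨x, ⟨hx1, hx2⟩, hx3⟩ := hD q₀.1 e.1
    obtain ⟨z, ⟨hz1, hz2⟩, hz3⟩ := hD q₀.2 e.2
    refine ⟨emb (x, z), ⟨⟨(x, z), ⟨hx1, hz1⟩, rfl⟩, ⟨hx2, hz2⟩⟩, ?_⟩
    rintro p ⟨⟨q, ⟨hq1, hq2⟩, rfl⟩, ⟨hp1, hp2⟩⟩
    have h1 : q.1 = x := hx3 q.1 ⟨hq1, hp1⟩
    have h2 : q.2 = z := hz3 q.2 ⟨hq2, hp2⟩
    rw [← h1, ← h2]
  have hDD1 : volume (D ×ˢ D : Set (EE K)) ≠ 0 := fun h => by
    rw [Measure.real, h] at hDD0
    simp at hDD0
  obtain ⟨hfin, hlim⟩ := tile_count' (E := EE K) Prod.borelSpace (volume : Measure (EE K))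
    (Measure.prod.instIsAddHaarMeasure (volume : Measure (mixedEmbedding.mixedSpace K)) _)
    (hDm.prod hDm) (hDb.prod hDb) hDD1 hL (isBounded_regT hT)
    (measurableSet_regT T) (volume_frontier_regT K hT)
  set cc : ℝ → ℝ := fun X => X ^ (1 / (3 * (Module.finrank ℚ K : ℝ))) with hcc
  have hcc0 : ∀ X : ℝ, 0 < X → 0 < cc X := fun X hX => Real.rpow_pos_of_pos hX _
  have hpow : ∀ X : ℝ, 0 < X → cc X ^ (3 * Module.finrank ℚ K) = X := by
    intro X hX
    rw [hcc, ← Real.rpow_natCast, ← Real.rpow_mul hX.le]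
    push_cast
    rw [one_div_mul_cancel (by positivity), Real.rpow_one]
  have hset : ∀ X : ℝ, 0 < X → emb '' A X = L ∩ cc X • regT K T := by
    intro X hX
    ext e
    constructor
    · rintro ⟨q, ⟨h1, h2, h3, h4⟩, rfl⟩
      refine ⟨⟨q, ⟨h1, h2⟩, rfl⟩, (mem_scale K (hcc0 X hX) _).2 ⟨h3, ?_⟩⟩
      rw [hpow X hX]
      exact h4
    · rintro ⟨⟨q, ⟨h1, h2⟩, rfl⟩, h5⟩
      obtain ⟨h3, h4⟩ := (mem_scale K (hcc0 X hX) _).1 h5
      rw [hpow X hX] at h4
      exact ⟨q, ⟨h1, h2, h3, h4⟩, rfl⟩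
  refine ⟨fun X => ?_, ?_⟩
  · rcases lt_or_ge 0 X with hX | hX
    · have h1 : (emb '' A X).Finite := by
        rw [hset X hX]
        exact hfin _ (hcc0 X hX)
      exact Set.Finite.of_finite_image h1 (emb_inj K).injOn
    · have h1 : A X = ∅ := by
        rw [Set.eq_empty_iff_forall_notMem]
        rintro q ⟨-, -, h3, h4⟩
        exact absurd (Fn_pos_of_mem hT h3) (not_lt.2 (h4.trans hX))
      change (A X).Finite
      rw [h1]
      exact Set.finite_empty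
  · have ht : Tendsto cc atTop atTop := tendsto_rpow_atTop (by positivity)
    have h1 := hlim.comp ht
    have hval : volume.real (regT K T) / volume.real (D ×ˢ D : Set (EE K)) =
        volume.real (regT K T) * 4 ^ nrComplexPlaces K /
        ((Ideal.absNorm I : ℝ) ^ 2 * |(discr K : ℝ)|) := by
      rw [hDD, mul_pow, mul_pow, Real.sq_sqrt hdisc.le, ← pow_mul, mul_comm _ 2, pow_mul]
      have h4 : ((2 : ℝ)⁻¹ ^ 2) = 4⁻¹ := by norm_num
      rw [h4, inv_pow]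
      field_simp
    rw [← hval]
    refine h1.congr' ?_
    filter_upwards [eventually_gt_atTop 0] with X hX
    change ((L ∩ cc X • regT K T).ncard : ℝ) / cc X ^ Module.finrank ℝ (EE K) = _
    rw [← hset X hX, Set.ncard_image_of_injective _ (emb_inj K)]
    congr 1
    rw [Module.finrank_prod, mixedEmbedding.finrank, hcc, ← Real.rpow_natCast,
      ← Real.rpow_mul hX.le]
    congr 1
    push_cast
    field_simp
    norm_num

end AbcAsy
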