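import Mathlib

/-!
# Counting the points of a set with a tiling

Proof. Let `n = finrank ℝ E`, `r` with `D ⊆ closedBall 0 r`, `0 < c`, `S = c • s`, `P = L ∩ S`. The sets
`p +ᵥ D` (`p ∈ L`) are pairwise disjoint, cover `E` and have measure `μ D > 0`; those with `p ∈ S` lie in a
bounded set of finite measure, so `P` is finite and `U = ⋃_{p ∈ P} (p + D)` has measure `P.ncard * μ D` (`measureReal`). If `e ∈ S \ U`
then the `p ∈ L` with `e - p ∈ D` is not in `S`, so the segment `[e, p]` (connected, `‖e - p‖ ≤ r`) meets `frontier S`, so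
`e ∈ cthickening r (frontier S)`; the same for `e ∈ U \ S`. So `|μ U - μ S| ≤ μ (cthickening r (frontier S))`, and
`frontier S = c • frontier s`, `cthickening r (c • A) = c • cthickening (r / c) A`, `μ (c • A) = c ^ n μ A`
(`Measure.addHaar_smul`). Divide by `c ^ n`: `|P.ncard / c ^ n * μ D - μ s| ≤ μ (cthickening (r / c) (frontier s)) → μ (frontier s) = 0`
(`tendsto_measure_cthickening_of_isClosed` or `..._of_isCompact`; the frontier of a bounded set is compact).
(If `E` is trivial everything is constant; the argument above still works.)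
-/

set_option autoImplicit false

namespace AbcAsy

open MeasureTheory Filter Topology Pointwise

private theorem seg_frontier {E : Type*} [NormedAddCommGroup E] [NormedSpace ℝ E] {s : Set E}
    {x y : E} (hx : x ∉ s) (hy : y ∈ s) : ∃ z ∈ frontier s, dist x z ≤ dist x y := by
  by_contra hcon
  push Not at hcon
  have hball : segment ℝ x y ⊆ Metric.closedBall x (dist x y) :=
    (convex_closedBall x _).segment_subset (Metric.mem_closedBall_self dist_nonneg)
      (by rw [Metric.mem_closedBall, dist_comm])
  have hseg : ∀ z ∈ segment ℝ x y, z ∉ frontier s := fun z hz hf => by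
    have h1 := hcon z hf
    have h2 := hball hz
    rw [Metric.mem_closedBall, dist_comm] at h2
    exact absurd h2 (not_le.2 h1)
  have hpre : IsPreconnected (segment ℝ x y) := (convex_segment x y).isPreconnected
  have hy2 : y ∈ interior s := by
    by_contra h
    exact hseg y (right_mem_segment ℝ x y) ⟨subset_closure hy, h⟩
  have hx2 : x ∈ (closure s)ᶜ := fun h =>
    hseg x (left_mem_segment ℝ x y) ⟨h, fun hi => hx (interior_subset hi)⟩
  obtain ⟨z, -, hz1, hz2⟩ := hpre (interior s) (closure s)ᶜ isOpen_interior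
    isClosed_closure.isOpen_compl (fun z hz => by
      by_cases h : z ∈ closure s
      · left
        by_contra hi
        exact hseg z hz ⟨h, hi⟩
      · exact Or.inr h) ⟨y, right_mem_segment ℝ x y, hy2⟩ ⟨x, left_mem_segment ℝ x y, hx2⟩
  exact hz2 (subset_closure (interior_subset hz1))

private theorem finite_tile {E : Type*} [NormedAddCommGroup E] [NormedSpace ℝ E]
    [FiniteDimensional ℝ E]
    [MeasurableSpace E] [BorelSpace E] (μ : Measure E) [μ.IsAddHaarMeasure] {D L s : Set E}
    (hD : MeasurableSet D) (hDb : Bornology.IsBounded D) (hD0 : μ D ≠ 0)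
    (hL : ∀ e : E, ∃! p : E, p ∈ L ∧ e - p ∈ D) (hs : Bornology.IsBounded s) :
    (L ∩ s).Finite := by
  have : ProperSpace E := FiniteDimensional.proper ℝ E
  obtain ⟨R, hR⟩ := hs.subset_closedBall 0
  obtain ⟨r, hr⟩ := hDb.subset_closedBall 0
  set As : (L ∩ s : Set E) → Set E := fun p => (fun e => e + (-(p : E))) ⁻¹' D with hAs
  have h := Measure.finite_const_le_meas_of_disjoint_iUnion μ (ε := μ D)
    (pos_iff_ne_zero.2 hD0) (As := As) (fun p => (measurable_add_const _) hD)
    (fun p q hpq => by
      refine Set.disjoint_left.2 fun e h1 h2 => hpq (Subtype.ext ?_)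
      simp only [hAs, Set.mem_preimage, ← sub_eq_add_neg] at h1 h2
      exact (hL e).unique ⟨p.2.1, h1⟩ ⟨q.2.1, h2⟩)
    (ne_top_of_le_ne_top (Metric.isBounded_closedBall (x := (0 : E)) (r := R + r)).measure_lt_top.ne
      (measure_mono (Set.iUnion_subset fun p e he => by
        simp only [hAs, Set.mem_preimage, ← sub_eq_add_neg] at he
        have h1 := hr he
        have h2 := hR p.2.2
        rw [mem_closedBall_zero_iff] at h1 h2 ⊢
        calc ‖e‖ = ‖(p : E) + (e - p)‖ := by congr 1; abel
          _ ≤ ‖(p : E)‖ + ‖e - p‖ := norm_add_le _ _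
          _ ≤ R + r := add_le_add h2 h1)))
  have h3 : {i : (L ∩ s : Set E) | μ D ≤ μ (As i)} = Set.univ := by
    ext i
    simp only [hAs, Set.mem_ofPred_eq, Set.mem_univ, iff_true]
    rw [measure_preimage_add_right]
  rw [h3, Set.finite_univ_iff] at h
  exact Set.toFinite _

theorem tile_count {E : Type*} [NormedAddCommGroup E] [NormedSpace ℝ E] [FiniteDimensional ℝ E]
    [MeasurableSpace E] [BorelSpace E] (μ : Measure E) [μ.IsAddHaarMeasure] {D L s : Set E}
    (hD : MeasurableSet D) (hDb : Bornology.IsBounded D) (hD0 : μ D ≠ 0)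
    (hL : ∀ e : E, ∃! p : E, p ∈ L ∧ e - p ∈ D) (hs : Bornology.IsBounded s)
    (hsm : MeasurableSet s) (hfr : μ (frontier s) = 0) :
    (∀ c : ℝ, 0 < c → (L ∩ c • s).Finite) ∧
    Tendsto (fun c : ℝ => ((L ∩ c • s).ncard : ℝ) / c ^ Module.finrank ℝ E) atTop
      (𝓝 (μ.real s / μ.real D)) := by
  have hfin : ∀ c : ℝ, 0 < c → (L ∩ c • s).Finite := fun c hc =>
    finite_tile μ hD hDb hD0 hL (hs.smul₀ c)
  refine ⟨hfin, ?_⟩
  have : ProperSpace E := FiniteDimensional.proper ℝ E
  obtain ⟨r, hr⟩ := hDb.subset_closedBall 0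
  have hDt : μ D ≠ ⊤ := hDb.measure_lt_top.ne
  have hDr : 0 < μ.real D := ENNReal.toReal_pos hD0 hDt
  have hcpt : IsCompact (frontier s) :=
    Metric.isCompact_of_isClosed_isBounded isClosed_frontier
      (hs.closure.subset frontier_subset_closure)
  -- the error term tends to zero
  have hlim : Tendsto (fun c : ℝ => μ.real (Metric.cthickening (r / c) (frontier s))) atTop
      (𝓝 0) := by
    have h1 := tendsto_measure_cthickening_of_isCompact (μ := μ) hcpt
    have h2 : Tendsto (fun c : ℝ => r / c) atTop (𝓝 0) := tendsto_const_nhds.div_atTop tendsto_id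
    have h3 := h1.comp h2
    rw [hfr] at h3
    exact (ENNReal.tendsto_toReal ENNReal.zero_ne_top).comp h3
  -- the main estimate
  have hmain : ∀ c : ℝ, 0 < c →
      |((L ∩ c • s).ncard : ℝ) / c ^ Module.finrank ℝ E * μ.real D - μ.real s| ≤
        μ.real (Metric.cthickening (r / c) (frontier s)) := by
    intro c hc
    have hf := hfin c hc
    set U : Set E := ⋃ p ∈ hf.toFinset, (fun e : E => c • e) ⁻¹' ((fun e => e + (-p)) ⁻¹' D)
      with hU
    have hUm : μ U = (hf.toFinset.card : ENNReal) *
        (ENNReal.ofReal (abs (c ^ Module.finrank ℝ E)⁻¹) * μ D) := by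
      rw [hU, measure_biUnion_finset]
      · rw [Finset.sum_congr rfl (g := fun _ =>
          ENNReal.ofReal (abs (c ^ Module.finrank ℝ E)⁻¹) * μ D)]
        · rw [Finset.sum_const, nsmul_eq_mul]
        · intro p _
          rw [Measure.addHaar_preimage_smul μ hc.ne', measure_preimage_add_right]
      · intro p hp q hq hpq
        refine Set.disjoint_left.2 fun e h1 h2 => hpq ?_
        simp only [Set.mem_preimage, ← sub_eq_add_neg] at h1 h2
        rw [Finset.mem_coe, Set.Finite.mem_toFinset] at hp hq
        exact (hL (c • e)).unique ⟨hp.1, h1⟩ ⟨hq.1, h2⟩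
      · intro p _
        exact (measurable_const_smul c) ((measurable_add_const _) hD)
    have hUt : μ U ≠ ⊤ := by
      rw [hUm]
      exact ENNReal.mul_ne_top (ENNReal.natCast_ne_top _)
        (ENNReal.mul_ne_top ENNReal.ofReal_ne_top hDt)
    have hUr : μ.real U = ((L ∩ c • s).ncard : ℝ) / c ^ Module.finrank ℝ E * μ.real D := by
      rw [Measure.real, hUm, Set.ncard_eq_toFinset_card _ hf, ENNReal.toReal_mul,
        ENNReal.toReal_mul, ENNReal.toReal_natCast, ENNReal.toReal_ofReal (abs_nonneg _),
        abs_of_pos (inv_pos.2 (pow_pos hc _)), Measure.real]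
      ring
    have hst : μ s ≠ ⊤ := hs.measure_lt_top.ne
    have hZt : μ (Metric.cthickening (r / c) (frontier s)) ≠ ⊤ :=
      hcpt.isBounded.cthickening.measure_lt_top.ne
    have key : ∀ x y : E, ‖c • x - c • y‖ ≤ r → dist x y ≤ r / c := by
      intro x y h
      rw [← smul_sub, norm_smul, Real.norm_eq_abs, abs_of_pos hc] at h
      rw [dist_eq_norm, le_div_iff₀ hc, mul_comm]
      exact h
    have hsub1 : U ⊆ s ∪ Metric.cthickening (r / c) (frontier s) := by
      intro x hx
      rw [hU, Set.mem_iUnion₂] at hx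
      obtain ⟨p, hp, hx⟩ := hx
      rw [Set.Finite.mem_toFinset] at hp
      obtain ⟨hpL, y, hy, rfl⟩ := hp
      simp only [Set.mem_preimage, ← sub_eq_add_neg] at hx
      have h1 := key x y (by simpa using hr hx)
      by_cases hxs : x ∈ s
      · exact Or.inl hxs
      · right
        obtain ⟨z, hz, hz2⟩ := seg_frontier hxs hy
        exact Metric.mem_cthickening_of_dist_le x z _ _ hz (hz2.trans h1)
    have hsub2 : s ⊆ U ∪ Metric.cthickening (r / c) (frontier s) := by
      intro x hx
      obtain ⟨p, ⟨hpL, hpD⟩, -⟩ := hL (c • x)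
      by_cases hps : p ∈ c • s
      · left
        rw [hU, Set.mem_iUnion₂]
        refine ⟨p, ?_, ?_⟩
        · rw [Set.Finite.mem_toFinset]
          exact ⟨hpL, hps⟩
        · simp only [Set.mem_preimage, ← sub_eq_add_neg]
          exact hpD
      · right
        have hy : c⁻¹ • p ∉ s := fun h => hps ⟨c⁻¹ • p, h, smul_inv_smul₀ hc.ne' p⟩
        have h1 := key x (c⁻¹ • p) (by
          rw [smul_inv_smul₀ hc.ne']
          simpa using hr hpD)
        have hx' : x ∉ sᶜ := fun h => h hx
        obtain ⟨z, hz, hz2⟩ := seg_frontier hx' (y := c⁻¹ • p) hy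
        rw [frontier_compl] at hz
        exact Metric.mem_cthickening_of_dist_le x z _ _ hz (hz2.trans h1)
    have hle1 : μ.real U ≤ μ.real s + μ.real (Metric.cthickening (r / c) (frontier s)) :=
      (measureReal_mono hsub1 (ne_top_of_le_ne_top (ENNReal.add_ne_top.2 ⟨hst, hZt⟩)
        (measure_union_le _ _))).trans (measureReal_union_le _ _)
    have hle2 : μ.real s ≤ μ.real U + μ.real (Metric.cthickening (r / c) (frontier s)) :=
      (measureReal_mono hsub2 (ne_top_of_le_ne_top (ENNReal.add_ne_top.2 ⟨hUt, hZt⟩)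
        (measure_union_le _ _))).trans (measureReal_union_le _ _)
    rw [← hUr, abs_le]
    constructor <;> linarith
  have hlim2 : Tendsto (fun c : ℝ => ((L ∩ c • s).ncard : ℝ) / c ^ Module.finrank ℝ E *
      μ.real D) atTop (𝓝 (μ.real s)) := by
    rw [tendsto_iff_norm_sub_tendsto_zero]
    refine squeeze_zero' (Eventually.of_forall fun c => norm_nonneg _) ?_ hlim
    filter_upwards [eventually_gt_atTop 0] with c hc
    rw [Real.norm_eq_abs]
    exact hmain c hc
  have h4 := hlim2.div_const (μ.real D)
  refine h4.congr fun c => ?_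
  rw [mul_div_assoc, div_self hDr.ne', mul_one]

end AbcAsy
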