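import Pool.Agent.Work.MP_a793bb_nt.Asy.SPrimes
import Pool.Agent.Work.MP_a793bb_nt.RadL.LowPack

/-!
# Special pairs in a box

Proof of `box_ideal`. Finiteness: bounded absolute values (`NumberField.Embeddings.finite_of_norm_le`, or as in `finite_boxA` in
`LowBox.lean`). If the set is nonempty then `absNorm I ≤ b ^ d` (`RadL.absNorm_le_of_mem`, `∏ v x ^ mult ≤ b ^ d`,
`InfinitePlace.sum_mult_eq`), and `RadL.pack` gives `card ≤ C (1 + b ^ d / N(I)) ≤ 2 C b ^ d / N(I)` (`x - y ∈ I`).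

Proof of `special_count`. Let `Q` be the set of pairs (finite: both coordinates lie in finite sets). Every `q ∈ Q` is special because of some prime `p`, one
of the following: (a) `p ∉ S` and `q.1 ∈ p² J`, (b) `p ∉ S`, `q.2 ∈ p² J`, (c) `p ∉ S`, `q.2 - q.1 ∈ p² J`, (d) `p ∉ S` and
`q.1, q.2 ∈ p J`, (e) (f) (g) `q.1`, `q.2`, `q.2 - q.1 ∈ p ^ (k + 1) J`. For each `p` the number of pairs is at most (`box_ideal`, with
`N = absNorm p`, `A = b ^ d / absNorm J ≤ b ^ d`; for (c), (g) use the pair `(q.2 - q.1, q.2)` and the box `2 b`, `v (z - x) ≤ 2 b`):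
`2 ^ d C² A² N ^ (- 2)` in the cases (a)-(d) (in (d) `(C A / N)²`), and `2 ^ d C² A² N ^ (- (k + 1))` in (e)-(g). Only finitely many `p` occur (choose one for
every `q ∈ Q`), so `Q.ncard ≤ ∑_{p ∈ P} (...) ≤ 7 * 2 ^ d C² b ^ (2 d) errS S k` (finite sums of nonnegative terms are at most the `tsum`, summable by
`summable_primes`, `k + 1 ≥ 2 > 1`).
-/

set_option autoImplicit false

namespace AbcAsy

open NumberField IsDedekindDomain Module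

theorem box_ideal (K : Type*) [Field K] [NumberField K] : ∃ C : ℝ, 1 ≤ C ∧
    ∀ (I : Ideal (𝓞 K)) (b : ℝ), I ≠ ⊥ → 0 ≤ b →
      {x : 𝓞 K | x ∈ I ∧ x ≠ 0 ∧ ∀ v : InfinitePlace K, v (x : K) ≤ b}.Finite ∧
      ({x : 𝓞 K | x ∈ I ∧ x ≠ 0 ∧ ∀ v : InfinitePlace K, v (x : K) ≤ b}.ncard : ℝ) ≤
        C * b ^ finrank ℚ K / Ideal.absNorm I := by
  obtain ⟨C, hC1, hC⟩ := Pool.Agent.Work.MP_a793bb_nt.RadL.pack K
  refine ⟨2 * C, by linarith, fun I b hI hb => ?_⟩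
  have hfin : ({x : 𝓞 K | x ∈ I ∧ x ≠ 0 ∧ ∀ v : InfinitePlace K, v (x : K) ≤ b}).Finite := by
    by_contra hinf
    obtain ⟨n, hn⟩ := exists_nat_gt (C * (1 + b ^ finrank ℚ K / (Ideal.absNorm I : ℝ)))
    obtain ⟨A, hA, hAc⟩ := Set.Infinite.exists_subset_card_eq hinf n
    have h1 := hC I b A hI hb (fun x hx v => (hA hx).2.2 v)
      (fun x hx y hy => I.sub_mem (hA hx).1 (hA hy).1)
    rw [hAc] at h1
    linarith
  refine ⟨hfin, ?_⟩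
  have hN : (0 : ℝ) < Ideal.absNorm I := by
    exact_mod_cast Nat.pos_of_ne_zero (by rwa [Ne, Ideal.absNorm_eq_zero_iff])
  rw [Set.ncard_eq_toFinset_card _ hfin]
  rcases hfin.toFinset.eq_empty_or_nonempty with h | ⟨x, hx⟩
  · rw [h, Finset.card_empty, Nat.cast_zero]
    positivity
  · rw [Set.Finite.mem_toFinset] at hx
    have h1 := Pool.Agent.Work.MP_a793bb_nt.RadL.absNorm_le_of_mem hx.2.1 hx.1
    have h2 : ∏ v : InfinitePlace K, v (x : K) ^ v.mult ≤ b ^ finrank ℚ K := by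
      rw [← InfinitePlace.sum_mult_eq, ← Finset.prod_pow_eq_pow_sum]
      exact Finset.prod_le_prod (fun v _ => pow_nonneg (apply_nonneg v _) _)
        (fun v _ => pow_le_pow_left₀ (apply_nonneg v _) (hx.2.2 v) _)
    have h3 : 1 ≤ b ^ finrank ℚ K / (Ideal.absNorm I : ℝ) := by
      rw [le_div_iff₀ hN]
      linarith
    have h4 := hC I b hfin.toFinset hI hb
      (fun x hx v => ((Set.Finite.mem_toFinset _).1 hx).2.2 v)
      (fun x hx y hy => I.sub_mem ((Set.Finite.mem_toFinset _).1 hx).1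
        ((Set.Finite.mem_toFinset _).1 hy).1)
    calc _ ≤ _ := h4
      _ ≤ C * (b ^ finrank ℚ K / (Ideal.absNorm I : ℝ) +
          b ^ finrank ℚ K / (Ideal.absNorm I : ℝ)) :=
          mul_le_mul_of_nonneg_left (by linarith) (by linarith)
      _ = 2 * C * b ^ finrank ℚ K / Ideal.absNorm I := by ring

/-- The nonzero elements of `I` in the box. -/
private def XI {K : Type*} [Field K] [NumberField K] (I : Ideal (𝓞 K)) (b : ℝ) : Set (𝓞 K) :=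
  {x : 𝓞 K | x ∈ I ∧ x ≠ 0 ∧ ∀ v : InfinitePlace K, v (x : K) ≤ b}

private theorem pair_count {K : Type*} [Field K] [NumberField K] {C : ℝ} (hC1 : 1 ≤ C)
    (hC : ∀ (I : Ideal (𝓞 K)) (b : ℝ), I ≠ ⊥ → 0 ≤ b → (XI I b).Finite ∧
      ((XI I b).ncard : ℝ) ≤ C * b ^ finrank ℚ K / Ideal.absNorm I)
    {I₁ I₂ : Ideal (𝓞 K)} (h₁ : I₁ ≠ ⊥) (h₂ : I₂ ≠ ⊥) {b₁ b₂ : ℝ} (hb₁ : 0 ≤ b₁)
    (hb₂ : 0 ≤ b₂) (F : Finset (𝓞 K × 𝓞 K)) (g : 𝓞 K × 𝓞 K → 𝓞 K × 𝓞 K)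
    (hg : Function.Injective g) (hF : ∀ q ∈ F, (g q).1 ∈ XI I₁ b₁ ∧ (g q).2 ∈ XI I₂ b₂) :
    (F.card : ℝ) ≤ C ^ 2 * (b₁ ^ finrank ℚ K * b₂ ^ finrank ℚ K) /
      (Ideal.absNorm I₁ * Ideal.absNorm I₂) := by
  obtain ⟨f₁, c₁⟩ := hC I₁ b₁ h₁ hb₁
  obtain ⟨f₂, c₂⟩ := hC I₂ b₂ h₂ hb₂
  have h3 : F.card ≤ (f₁.toFinset ×ˢ f₂.toFinset).card := by
    refine Finset.card_le_card_of_injOn g (fun q hq => ?_) hg.injOn
    have := hF q hq
    simp only [Finset.coe_product, Set.Finite.coe_toFinset, Set.mem_prod]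
    exact this
  rw [Finset.card_product, ← Set.ncard_eq_toFinset_card _ f₁, ← Set.ncard_eq_toFinset_card _ f₂]
    at h3
  calc (F.card : ℝ) ≤ ((XI I₁ b₁).ncard : ℝ) * ((XI I₂ b₂).ncard : ℝ) := by exact_mod_cast h3
    _ ≤ (C * b₁ ^ finrank ℚ K / Ideal.absNorm I₁) * (C * b₂ ^ finrank ℚ K / Ideal.absNorm I₂) :=
        mul_le_mul c₁ c₂ (Nat.cast_nonneg _) ((Nat.cast_nonneg _).trans c₁)
    _ = _ := by
        rw [div_mul_div_comm]
        ring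

private theorem card_or {α : Type*} (F : Finset α) (P Q : α → Prop) [DecidablePred P]
    [DecidablePred Q] [DecidablePred fun x => P x ∨ Q x] :
    (F.filter fun x => P x ∨ Q x).card ≤ (F.filter P).card + (F.filter Q).card := by
  classical
  refine le_trans (Finset.card_le_card ?_) (Finset.card_union_le _ _)
  intro x hx
  rw [Finset.mem_filter] at hx
  rw [Finset.mem_union, Finset.mem_filter, Finset.mem_filter]
  rcases hx.2 with h | h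
  · exact Or.inl ⟨hx.1, h⟩
  · exact Or.inr ⟨hx.1, h⟩

private theorem nrm_pow {K : Type*} [Field K] [NumberField K] (p : HeightOneSpectrum (𝓞 K))
    {J : Ideal (𝓞 K)} (hJ : J ≠ ⊥) (e : ℕ) :
    p.asIdeal ^ e * J ≠ ⊥ ∧ (0 : ℝ) < Ideal.absNorm p.asIdeal ∧
      (Ideal.absNorm p.asIdeal : ℝ) ^ e ≤ (Ideal.absNorm (p.asIdeal ^ e * J) : ℝ) ∧
      (1 : ℝ) ≤ Ideal.absNorm J := by
  have h1 : (1 : ℝ) ≤ Ideal.absNorm J := by
    exact_mod_cast Nat.pos_of_ne_zero (by rwa [Ne, Ideal.absNorm_eq_zero_iff])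
  have h2 : (0 : ℝ) < Ideal.absNorm p.asIdeal := by
    exact_mod_cast Nat.pos_of_ne_zero (by rw [Ne, Ideal.absNorm_eq_zero_iff]; exact p.ne_bot)
  refine ⟨mul_ne_zero (pow_ne_zero _ p.ne_bot) hJ, h2, ?_, h1⟩
  rw [map_mul, map_pow]
  push_cast
  exact le_mul_of_one_le_right (by positivity) h1

theorem special_count (K : Type*) [Field K] [NumberField K] : ∃ C : ℝ, 0 ≤ C ∧
    ∀ (J : Ideal (𝓞 K)) (S : Finset (HeightOneSpectrum (𝓞 K))) (k : ℕ) (b : ℝ), J ≠ ⊥ →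
      1 ≤ k → 0 ≤ b →
      {q : 𝓞 K × 𝓞 K | q.1 ∈ J ∧ q.2 ∈ J ∧ q.1 ≠ 0 ∧ q.2 ≠ 0 ∧ q.1 ≠ q.2 ∧
        (∀ v : InfinitePlace K, v (q.1 : K) ≤ b ∧ v (q.2 : K) ≤ b) ∧ Special J S k q}.Finite ∧
      ({q : 𝓞 K × 𝓞 K | q.1 ∈ J ∧ q.2 ∈ J ∧ q.1 ≠ 0 ∧ q.2 ≠ 0 ∧ q.1 ≠ q.2 ∧
        (∀ v : InfinitePlace K, v (q.1 : K) ≤ b ∧ v (q.2 : K) ≤ b) ∧ Special J S k q}.ncard : ℝ) ≤
        C * b ^ (2 * finrank ℚ K) * errS S k := by
  classical
  obtain ⟨C, hC1, hC'⟩ := box_ideal K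
  have hC : ∀ (I : Ideal (𝓞 K)) (b : ℝ), I ≠ ⊥ → 0 ≤ b → (XI I b).Finite ∧
      ((XI I b).ncard : ℝ) ≤ C * b ^ finrank ℚ K / Ideal.absNorm I := hC'
  refine ⟨4 * (2 ^ finrank ℚ K * C ^ 2), by positivity, fun J S k b hJ hk hb => ?_⟩
  obtain ⟨Y, hYdef⟩ : ∃ Y : Set (𝓞 K × 𝓞 K), Y = {q : 𝓞 K × 𝓞 K | q.1 ∈ J ∧ q.2 ∈ J ∧
      q.1 ≠ 0 ∧ q.2 ≠ 0 ∧ q.1 ≠ q.2 ∧
      (∀ v : InfinitePlace K, v (q.1 : K) ≤ b ∧ v (q.2 : K) ≤ b)} := ⟨_, rfl⟩
  have hYfin : Y.Finite := by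
    refine ((hC J b hJ hb).1.prod (hC J b hJ hb).1).subset ?_
    intro q hq
    rw [hYdef] at hq
    exact ⟨⟨hq.1, hq.2.2.1, fun v => (hq.2.2.2.2.2 v).1⟩,
      ⟨hq.2.1, hq.2.2.2.1, fun v => (hq.2.2.2.2.2 v).2⟩⟩
  obtain ⟨YF, hYF⟩ : ∃ YF : Finset (𝓞 K × 𝓞 K), YF = hYfin.toFinset := ⟨_, rfl⟩
  have hmem : ∀ q, q ∈ YF ↔ q ∈ Y := fun q => by rw [hYF, Set.Finite.mem_toFinset]
  have hset : {q : 𝓞 K × 𝓞 K | q.1 ∈ J ∧ q.2 ∈ J ∧ q.1 ≠ 0 ∧ q.2 ≠ 0 ∧ q.1 ≠ q.2 ∧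
        (∀ v : InfinitePlace K, v (q.1 : K) ≤ b ∧ v (q.2 : K) ≤ b) ∧ Special J S k q} =
      ((YF.filter fun q => Special J S k q : Finset (𝓞 K × 𝓞 K)) : Set (𝓞 K × 𝓞 K)) := by
    ext q
    rw [Finset.mem_coe, Finset.mem_filter, hmem, hYdef]
    simp only [Set.mem_setOf_eq, and_assoc]
  rw [hset]
  refine ⟨Finset.finite_toSet _, ?_⟩
  rw [Set.ncard_coe_finset]
  obtain ⟨M, hM⟩ : ∃ M : ℝ, M = 2 ^ finrank ℚ K * C ^ 2 * b ^ (2 * finrank ℚ K) := ⟨_, rfl⟩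
  have hM0 : 0 ≤ M := by rw [hM]; positivity
  have hbb : C ^ 2 * (b ^ finrank ℚ K * b ^ finrank ℚ K) ≤ M := by
    rw [hM, two_mul (finrank ℚ K), pow_add]
    have h1 : (1 : ℝ) ≤ 2 ^ finrank ℚ K := one_le_pow₀ (by norm_num)
    have h2 : 0 ≤ C ^ 2 * (b ^ finrank ℚ K * b ^ finrank ℚ K) := by positivity
    nlinarith [mul_le_mul_of_nonneg_right h1 h2]
  have hbb2 : C ^ 2 * ((2 * b) ^ finrank ℚ K * b ^ finrank ℚ K) = M := by
    rw [hM, mul_pow, two_mul (finrank ℚ K), pow_add]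
    ring
  -- the four counts
  have hX : ∀ q ∈ YF, ∀ I : Ideal (𝓞 K), (q.1 ∈ I → q.1 ∈ XI I b) ∧ (q.2 ∈ I → q.2 ∈ XI I b) ∧
      (q.2 - q.1 ∈ I → q.2 - q.1 ∈ XI I (2 * b)) := by
    intro q hq I
    have hq' := (hmem q).1 hq
    rw [hYdef] at hq'
    obtain ⟨g1, g2, g3, g4, g5, g6⟩ := hq'
    refine ⟨fun h => ⟨h, g3, fun v => (g6 v).1⟩, fun h => ⟨h, g4, fun v => (g6 v).2⟩,
      fun h => ⟨h, sub_ne_zero.2 (Ne.symm g5), fun v => ?_⟩⟩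
    have h1 : ((q.2 - q.1 : 𝓞 K) : K) = (q.2 : K) - (q.1 : K) := by push_cast; rfl
    rw [h1]
    have h2 : v ((q.2 : K) - (q.1 : K)) ≤ v (q.2 : K) + v (q.1 : K) := by
      have h3 := v.1.sub_le_add (q.2 : K) (q.1 : K)
      exact h3
    linarith [(g6 v).1, (g6 v).2]
  have hYJ : ∀ q ∈ YF, q.1 ∈ J ∧ q.2 ∈ J := by
    intro q hq
    have hq' := (hmem q).1 hq
    rw [hYdef] at hq'
    exact ⟨hq'.1, hq'.2.1⟩
  have hA1 : ∀ (p : HeightOneSpectrum (𝓞 K)) (e : ℕ),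
      ((YF.filter fun q => q.1 ∈ p.asIdeal ^ e * J).card : ℝ) ≤
        M * ((Ideal.absNorm p.asIdeal : ℝ) ^ e)⁻¹ := by
    intro p e
    obtain ⟨n1, n2, n3, n4⟩ := nrm_pow p hJ e
    refine (pair_count hC1 hC n1 hJ hb hb _ id Function.injective_id ?_).trans ?_
    · intro q hq
      rw [Finset.mem_filter] at hq
      exact ⟨(hX q hq.1 _).1 hq.2, (hX q hq.1 _).2.1 (hYJ q hq.1).2⟩
    · rw [← div_eq_mul_inv]
      refine div_le_div₀ hM0 hbb (by positivity) ?_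
      calc (Ideal.absNorm p.asIdeal : ℝ) ^ e ≤ (Ideal.absNorm (p.asIdeal ^ e * J) : ℝ) := n3
        _ ≤ _ := le_mul_of_one_le_right (Nat.cast_nonneg _) n4
  have hA2 : ∀ (p : HeightOneSpectrum (𝓞 K)) (e : ℕ),
      ((YF.filter fun q => q.2 ∈ p.asIdeal ^ e * J).card : ℝ) ≤
        M * ((Ideal.absNorm p.asIdeal : ℝ) ^ e)⁻¹ := by
    intro p e
    obtain ⟨n1, n2, n3, n4⟩ := nrm_pow p hJ e
    refine (pair_count hC1 hC hJ n1 hb hb _ id Function.injective_id ?_).trans ?_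
    · intro q hq
      rw [Finset.mem_filter] at hq
      exact ⟨(hX q hq.1 _).1 (hYJ q hq.1).1, (hX q hq.1 _).2.1 hq.2⟩
    · rw [← div_eq_mul_inv]
      refine div_le_div₀ hM0 hbb (by positivity) ?_
      calc (Ideal.absNorm p.asIdeal : ℝ) ^ e ≤ (Ideal.absNorm (p.asIdeal ^ e * J) : ℝ) := n3
        _ ≤ _ := le_mul_of_one_le_left (Nat.cast_nonneg _) n4
  have hA3 : ∀ (p : HeightOneSpectrum (𝓞 K)) (e : ℕ),
      ((YF.filter fun q => q.2 - q.1 ∈ p.asIdeal ^ e * J).card : ℝ) ≤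
        M * ((Ideal.absNorm p.asIdeal : ℝ) ^ e)⁻¹ := by
    intro p e
    obtain ⟨n1, n2, n3, n4⟩ := nrm_pow p hJ e
    have hinj : Function.Injective (fun q : 𝓞 K × 𝓞 K => (q.2 - q.1, q.2)) := by
      rintro ⟨x, z⟩ ⟨x', z'⟩ h
      simp only [Prod.mk.injEq] at h
      obtain ⟨h1, rfl⟩ := h
      rw [sub_right_inj.1 h1]
    refine (pair_count hC1 hC n1 hJ (by positivity : (0 : ℝ) ≤ 2 * b) hb _ _ hinj ?_).trans ?_
    · intro q hq
      rw [Finset.mem_filter] at hq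
      exact ⟨(hX q hq.1 _).2.2 hq.2, (hX q hq.1 _).2.1 (hYJ q hq.1).2⟩
    · rw [← div_eq_mul_inv, hbb2]
      refine div_le_div_of_nonneg_left hM0 (by positivity) ?_
      calc (Ideal.absNorm p.asIdeal : ℝ) ^ e ≤ (Ideal.absNorm (p.asIdeal ^ e * J) : ℝ) := n3
        _ ≤ _ := le_mul_of_one_le_right (Nat.cast_nonneg _) n4
  have hA4 : ∀ (p : HeightOneSpectrum (𝓞 K)),
      ((YF.filter fun q => q.1 ∈ p.asIdeal * J ∧ q.2 ∈ p.asIdeal * J).card : ℝ) ≤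
        M * ((Ideal.absNorm p.asIdeal : ℝ) ^ 2)⁻¹ := by
    intro p
    obtain ⟨n1, n2, n3, n4⟩ := nrm_pow p hJ 1
    rw [pow_one] at n1 n3
    rw [pow_one] at n3
    refine (pair_count hC1 hC n1 n1 hb hb _ id Function.injective_id ?_).trans ?_
    · intro q hq
      rw [Finset.mem_filter] at hq
      exact ⟨(hX q hq.1 _).1 hq.2.1, (hX q hq.1 _).2.1 hq.2.2⟩
    · rw [← div_eq_mul_inv]
      refine div_le_div₀ hM0 hbb (by positivity) ?_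
      rw [sq]
      exact mul_le_mul n3 n3 n2.le (Nat.cast_nonneg _)
  obtain ⟨cA, hcA⟩ : ∃ cA : HeightOneSpectrum (𝓞 K) → 𝓞 K × 𝓞 K → Prop, cA = fun p q =>
      q.1 ∈ p.asIdeal ^ 2 * J ∨ q.2 ∈ p.asIdeal ^ 2 * J ∨ q.2 - q.1 ∈ p.asIdeal ^ 2 * J ∨
      (q.1 ∈ p.asIdeal * J ∧ q.2 ∈ p.asIdeal * J) := ⟨_, rfl⟩
  obtain ⟨cB, hcB⟩ : ∃ cB : HeightOneSpectrum (𝓞 K) → 𝓞 K × 𝓞 K → Prop, cB = fun p q =>
      q.1 ∈ p.asIdeal ^ (k + 1) * J ∨ q.2 ∈ p.asIdeal ^ (k + 1) * J ∨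
      q.2 - q.1 ∈ p.asIdeal ^ (k + 1) * J := ⟨_, rfl⟩
  have hBA : ∀ p, ((YF.filter (cA p)).card : ℝ) ≤
      4 * M * (Ideal.absNorm p.asIdeal : ℝ) ^ (-2 : ℝ) := by
    intro p
    have e1 : (Ideal.absNorm p.asIdeal : ℝ) ^ (-2 : ℝ) =
        ((Ideal.absNorm p.asIdeal : ℝ) ^ 2)⁻¹ := by
      rw [Real.rpow_neg (Nat.cast_nonneg _), Real.rpow_two]
    rw [e1, hcA]
    have a1 := card_or YF (fun q => q.1 ∈ p.asIdeal ^ 2 * J) (fun q => q.2 ∈ p.asIdeal ^ 2 * J ∨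
      q.2 - q.1 ∈ p.asIdeal ^ 2 * J ∨ (q.1 ∈ p.asIdeal * J ∧ q.2 ∈ p.asIdeal * J))
    have a2 := card_or YF (fun q => q.2 ∈ p.asIdeal ^ 2 * J) (fun q =>
      q.2 - q.1 ∈ p.asIdeal ^ 2 * J ∨ (q.1 ∈ p.asIdeal * J ∧ q.2 ∈ p.asIdeal * J))
    have a3 := card_or YF (fun q => q.2 - q.1 ∈ p.asIdeal ^ 2 * J)
      (fun q => (q.1 ∈ p.asIdeal * J ∧ q.2 ∈ p.asIdeal * J))
    have b1 := hA1 p 2
    have b2 := hA2 p 2
    have b3 := hA3 p 2
    have b4 := hA4 p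
    have a1' : ((YF.filter fun q => q.1 ∈ p.asIdeal ^ 2 * J ∨ q.2 ∈ p.asIdeal ^ 2 * J ∨
      q.2 - q.1 ∈ p.asIdeal ^ 2 * J ∨ (q.1 ∈ p.asIdeal * J ∧ q.2 ∈ p.asIdeal * J)).card : ℝ) ≤
      ((YF.filter fun q => q.1 ∈ p.asIdeal ^ 2 * J).card : ℝ) +
      (((YF.filter fun q => q.2 ∈ p.asIdeal ^ 2 * J).card : ℝ) +
      (((YF.filter fun q => q.2 - q.1 ∈ p.asIdeal ^ 2 * J).card : ℝ) +
      ((YF.filter fun q => q.1 ∈ p.asIdeal * J ∧ q.2 ∈ p.asIdeal * J).card : ℝ))) := by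
      exact_mod_cast a1.trans (Nat.add_le_add_left (a2.trans (Nat.add_le_add_left a3 _)) _)
    refine (le_of_eq ?_).trans (a1'.trans ?_)
    · congr!
    · linarith
  have hBB : ∀ p, ((YF.filter (cB p)).card : ℝ) ≤
      4 * M * (Ideal.absNorm p.asIdeal : ℝ) ^ (-((k : ℝ) + 1)) := by
    intro p
    have e1 : (Ideal.absNorm p.asIdeal : ℝ) ^ (-((k : ℝ) + 1)) =
        ((Ideal.absNorm p.asIdeal : ℝ) ^ (k + 1))⁻¹ := by
      rw [Real.rpow_neg (Nat.cast_nonneg _)]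
      congr 1
      rw [← Real.rpow_natCast]
      push_cast
      rfl
    rw [e1, hcB]
    have a1 := card_or YF (fun q => q.1 ∈ p.asIdeal ^ (k + 1) * J)
      (fun q => q.2 ∈ p.asIdeal ^ (k + 1) * J ∨ q.2 - q.1 ∈ p.asIdeal ^ (k + 1) * J)
    have a2 := card_or YF (fun q => q.2 ∈ p.asIdeal ^ (k + 1) * J) (fun q =>
      q.2 - q.1 ∈ p.asIdeal ^ (k + 1) * J)
    have b1 := hA1 p (k + 1)
    have b2 := hA2 p (k + 1)
    have b3 := hA3 p (k + 1)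
    have b4 : 0 ≤ M * ((Ideal.absNorm p.asIdeal : ℝ) ^ (k + 1))⁻¹ := by positivity
    have a1' : ((YF.filter fun q => q.1 ∈ p.asIdeal ^ (k + 1) * J ∨
      q.2 ∈ p.asIdeal ^ (k + 1) * J ∨ q.2 - q.1 ∈ p.asIdeal ^ (k + 1) * J).card : ℝ) ≤
      ((YF.filter fun q => q.1 ∈ p.asIdeal ^ (k + 1) * J).card : ℝ) +
      (((YF.filter fun q => q.2 ∈ p.asIdeal ^ (k + 1) * J).card : ℝ) +
      ((YF.filter fun q => q.2 - q.1 ∈ p.asIdeal ^ (k + 1) * J).card : ℝ)) := by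
      exact_mod_cast a1.trans (Nat.add_le_add_left a2 _)
    refine (le_of_eq ?_).trans (a1'.trans ?_)
    · congr!
    · linarith
  -- the finite set of primes
  have hex : ∀ q ∈ YF.filter fun q => Special J S k q,
      ∃ p : HeightOneSpectrum (𝓞 K), (p ∉ S ∧ cA p q) ∨ cB p q := by
    intro q hq
    rw [Finset.mem_filter] at hq
    obtain ⟨p, hp⟩ := hq.2
    refine ⟨p, ?_⟩
    rw [hcA, hcB]
    exact hp
  choose f hf using hex
  obtain ⟨P, hP⟩ : ∃ P : Finset (HeightOneSpectrum (𝓞 K)), P =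
    (YF.filter fun q => Special J S k q).attach.image fun q => f q.1 q.2 := ⟨_, rfl⟩
  have hcov : (YF.filter fun q => Special J S k q) ⊆ P.biUnion fun p =>
      (if p ∈ S then ∅ else YF.filter (cA p)) ∪ YF.filter (cB p) := by
    intro q hq
    rw [Finset.mem_biUnion]
    refine ⟨f q hq, ?_, ?_⟩
    · rw [hP, Finset.mem_image]
      exact ⟨⟨q, hq⟩, Finset.mem_attach _ _, rfl⟩
    · have hq' := (Finset.mem_filter.1 hq).1
      rw [Finset.mem_union]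
      rcases hf q hq with ⟨h1, h2⟩ | h
      · left
        rw [if_neg h1, Finset.mem_filter]
        exact ⟨hq', h2⟩
      · right
        rw [Finset.mem_filter]
        exact ⟨hq', h⟩
  have hcard : ((YF.filter fun q => Special J S k q).card : ℝ) ≤ ∑ p ∈ P,
      (4 * M * (if p ∈ S then 0 else (Ideal.absNorm p.asIdeal : ℝ) ^ (-2 : ℝ)) +
        4 * M * (Ideal.absNorm p.asIdeal : ℝ) ^ (-((k : ℝ) + 1))) := by
    have h1 := (Finset.card_le_card hcov).trans Finset.card_biUnion_le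
    have h2 : ((YF.filter fun q => Special J S k q).card : ℝ) ≤ ∑ p ∈ P,
        ((((if p ∈ S then ∅ else YF.filter (cA p)) ∪ YF.filter (cB p) :
          Finset (𝓞 K × 𝓞 K)).card : ℕ) : ℝ) := by
      exact_mod_cast h1
    refine h2.trans (Finset.sum_le_sum fun p _ => ?_)
    have h3 : ((((if p ∈ S then ∅ else YF.filter (cA p)) ∪ YF.filter (cB p) :
          Finset (𝓞 K × 𝓞 K)).card : ℕ) : ℝ) ≤
        (((if p ∈ S then ∅ else YF.filter (cA p) : Finset (𝓞 K × 𝓞 K)).card : ℕ) : ℝ) +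
          ((YF.filter (cB p)).card : ℝ) := by
      exact_mod_cast Finset.card_union_le _ _
    refine h3.trans (add_le_add ?_ (hBB p))
    split_ifs with h
    · simp
    · exact hBA p
  refine hcard.trans ?_
  have s1 : Summable fun p : HeightOneSpectrum (𝓞 K) =>
      (Ideal.absNorm p.asIdeal : ℝ) ^ (-2 : ℝ) := summable_primes K (by norm_num)
  have hk' : (1 : ℝ) ≤ k := by exact_mod_cast hk
  have s2 : Summable fun p : HeightOneSpectrum (𝓞 K) =>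
      (Ideal.absNorm p.asIdeal : ℝ) ^ (-((k : ℝ) + 1)) := summable_primes K (by linarith)
  have s3 : Summable fun p : HeightOneSpectrum (𝓞 K) =>
      (if p ∈ S then 0 else (Ideal.absNorm p.asIdeal : ℝ) ^ (-2 : ℝ)) := by
    refine Summable.of_nonneg_of_le (fun p => ?_) (fun p => ?_) s1
    · split_ifs
      · exact le_rfl
      · exact Real.rpow_nonneg (Nat.cast_nonneg _) _
    · split_ifs
      · exact Real.rpow_nonneg (Nat.cast_nonneg _) _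
      · exact le_rfl
  have t1 : ∑ p ∈ P, (if p ∈ S then 0 else (Ideal.absNorm p.asIdeal : ℝ) ^ (-2 : ℝ)) ≤
      ∑' p : HeightOneSpectrum (𝓞 K),
        (if p ∈ S then 0 else (Ideal.absNorm p.asIdeal : ℝ) ^ (-2 : ℝ)) := by
    refine s3.sum_le_tsum P fun p _ => ?_
    split_ifs
    · exact le_rfl
    · exact Real.rpow_nonneg (Nat.cast_nonneg _) _
  have t2 : ∑ p ∈ P, (Ideal.absNorm p.asIdeal : ℝ) ^ (-((k : ℝ) + 1)) ≤
      ∑' p : HeightOneSpectrum (𝓞 K), (Ideal.absNorm p.asIdeal : ℝ) ^ (-((k : ℝ) + 1)) :=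
    s2.sum_le_tsum P fun p _ => Real.rpow_nonneg (Nat.cast_nonneg _) _
  rw [Finset.sum_add_distrib, ← Finset.mul_sum, ← Finset.mul_sum]
  have hM' : 4 * (2 ^ finrank ℚ K * C ^ 2) * b ^ (2 * finrank ℚ K) = 4 * M := by
    rw [hM]
    ring
  rw [hM']
  have t3 : errS S k = ∑' p : HeightOneSpectrum (𝓞 K),
        (if p ∈ S then 0 else (Ideal.absNorm p.asIdeal : ℝ) ^ (-2 : ℝ)) +
      ∑' p : HeightOneSpectrum (𝓞 K), (Ideal.absNorm p.asIdeal : ℝ) ^ (-((k : ℝ) + 1)) := by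
    unfold errS
    congr!
  rw [t3, mul_add]
  exact add_le_add (mul_le_mul_of_nonneg_left t1 (by positivity))
    (mul_le_mul_of_nonneg_left t2 (by positivity))

end AbcAsy
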