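import Pool.Agent.Work.MP_a793bb_nt.Asy.SMem

/-!
# The sieve conditions of `J` in terms of those of the unit ideal

Proof. For `p ∈ S`, `i ≤ k`: `MS S k * J ≤ p ^ i * J` (`p ^ k ∣ MS S k`), so `q.1 ∈ p ^ i * J` iff `α * o.1 ∈ p ^ i * J` iff
`o.1 ∈ p ^ i = p ^ i * ⊤` (`alpha_pow_iff`); the same for `q.2` and for `q.2 - q.1`
(`(q.2 - q.1) - α * (o.2 - o.1) ∈ MS S k * J`). So `vI J k p q.1 = vI ⊤ k p o.1` etc. (`Nat.findGreatest` of predicates which agree up to `k`), and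
the statement on `copI` is the case `i = 1 ≤ k`. `MS_ne_bot`: a product of nonzero ideals. `per_GS`: the case
`J = ⊤`, `α = 1` (or directly): `GS ⊤ S k` and `copI ⊤` depend only on the class modulo `MS S k`.
-/

set_option autoImplicit false
set_option linter.unusedSectionVars false

namespace AbcAsy

open NumberField IsDedekindDomain Pool.Agent.Work.MP_a793bb_nt Pool.Agent.Work.MP_a793bb_nt.BPlus

variable {K : Type*} [Field K] [NumberField K]

theorem MS_ne_bot (S : Finset (HeightOneSpectrum (𝓞 K))) (k : ℕ) : MS S k ≠ ⊥ := by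
  rw [MS, ← Ideal.zero_eq_bot, Finset.prod_ne_zero_iff]
  intro p _
  exact pow_ne_zero _ p.ne_bot

private theorem findGreatest_congr {P Q : ℕ → Prop} {_ : DecidablePred P} {_ : DecidablePred Q} (k : ℕ)
    (h : ∀ i ≤ k, (P i ↔ Q i)) : Nat.findGreatest P k = Nat.findGreatest Q k := by
  induction k with
  | zero => simp
  | succ k ih =>
    rw [Nat.findGreatest_succ, Nat.findGreatest_succ, ih (fun i hi => h i (by omega))]
    have h1 := h (k + 1) le_rfl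
    by_cases hP : P (k + 1)
    · rw [if_pos hP, if_pos (h1.1 hP)]
    · rw [if_neg hP, if_neg (fun hQ => hP (h1.2 hQ))]

private theorem mem_trans {J : Ideal (𝓞 K)} (hJ : J ≠ ⊥) {S : Finset (HeightOneSpectrum (𝓞 K))}
    {α : 𝓞 K} (hα : α ∈ J) (hS : ∀ p ∈ S, α ∉ p.asIdeal * J) {k : ℕ}
    {p : HeightOneSpectrum (𝓞 K)} (hp : p ∈ S) {x y : 𝓞 K} (h : x - α * y ∈ MS S k * J) {i : ℕ}
    (hi : i ≤ k) : x ∈ p.asIdeal ^ i * J ↔ y ∈ p.asIdeal ^ i * ⊤ := by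
  have hle : MS S k * J ≤ p.asIdeal ^ i * J := by
    apply Ideal.mul_mono_left
    rw [← Ideal.dvd_iff_le]
    refine (pow_dvd_pow _ hi).trans ?_
    rw [MS]
    exact Finset.dvd_prod_of_mem (fun p : HeightOneSpectrum (𝓞 K) => p.asIdeal ^ k) hp
  have h1 : x - α * y ∈ p.asIdeal ^ i * J := hle h
  rw [Ideal.mul_top, ← alpha_pow_iff hJ hα hS hp i y]
  constructor
  · intro hx
    have := Ideal.sub_mem _ hx h1
    rwa [sub_sub_cancel] at this
  · intro hy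
    have := Ideal.add_mem _ h1 hy
    rwa [sub_add_cancel] at this

private theorem vI_trans {J : Ideal (𝓞 K)} (hJ : J ≠ ⊥) {S : Finset (HeightOneSpectrum (𝓞 K))}
    {α : 𝓞 K} (hα : α ∈ J) (hS : ∀ p ∈ S, α ∉ p.asIdeal * J) {k : ℕ}
    {p : HeightOneSpectrum (𝓞 K)} (hp : p ∈ S) {x y : 𝓞 K} (h : x - α * y ∈ MS S k * J) :
    vI J k p x = vI ⊤ k p y := by
  unfold vI
  exact findGreatest_congr k (fun i hi => mem_trans hJ hα hS hp h hi)

theorem trans {J : Ideal (𝓞 K)} (hJ : J ≠ ⊥) {S : Finset (HeightOneSpectrum (𝓞 K))} {α : 𝓞 K}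
    (hα : α ∈ J) (hS : ∀ p ∈ S, α ∉ p.asIdeal * J) {k : ℕ} (hk : 1 ≤ k) {q o : 𝓞 K × 𝓞 K}
    (h1 : q.1 - α * o.1 ∈ MS S k * J) (h2 : q.2 - α * o.2 ∈ MS S k * J) :
    GS J S k q = GS ⊤ S k o ∧ ((∀ p ∈ S, copI J p q) ↔ ∀ p ∈ S, copI ⊤ p o) := by
  have h3 : (q.2 - q.1) - α * (o.2 - o.1) ∈ MS S k * J := by
    have := Ideal.sub_mem _ h2 h1
    have e : q.2 - α * o.2 - (q.1 - α * o.1) = (q.2 - q.1) - α * (o.2 - o.1) := by ring
    rwa [e] at this
  constructor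
  · unfold GS
    apply Finset.prod_congr rfl
    intro p hp
    have e : mI J k p q = mI ⊤ k p o := by
      unfold mI
      rw [vI_trans hJ hα hS hp h1, vI_trans hJ hα hS hp h2, vI_trans hJ hα hS hp h3]
    rw [e]
  · refine forall₂_congr fun p hp => ?_
    unfold copI
    have a1 := mem_trans hJ hα hS hp h1 hk
    have a2 := mem_trans hJ hα hS hp h2 hk
    rw [pow_one] at a1 a2
    rw [a1, a2]

theorem per_GS {S : Finset (HeightOneSpectrum (𝓞 K))} {k : ℕ} (hk : 1 ≤ k) {q q' : 𝓞 K × 𝓞 K}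
    (h1 : q.1 - q'.1 ∈ MS S k) (h2 : q.2 - q'.2 ∈ MS S k) :
    GS ⊤ S k q = GS ⊤ S k q' ∧ ((∀ p ∈ S, copI ⊤ p q) ↔ ∀ p ∈ S, copI ⊤ p q') := by
  apply trans (J := ⊤) (α := 1) top_ne_bot Submodule.mem_top _ hk
  · rw [one_mul, Ideal.mul_top]; exact h1
  · rw [one_mul, Ideal.mul_top]; exact h2
  · intro p _ h
    rw [Ideal.mul_top] at h
    exact p.isPrime.ne_top ((Ideal.eq_top_iff_one _).2 h)

end AbcAsy
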