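import Pool.Agent.Work.MP_a793bb_nt.Asy.LCoset
import Pool.Agent.Work.MP_a793bb_nt.Asy.STrans

/-!
# The limit for the sieved set

Proof. Let `M = MS S k`, `α` from `exists_alpha`. For `c = (c₁, c₂) ∈ (𝓞 K ⧸ M)²` let `o_c = (Quotient.out c₁, Quotient.out c₂)`,
`g_c = GS ⊤ S k o_c ≥ 1` and `Q_c(X) = {q | q.1 - α o_c.1 ∈ M * J, q.2 - α o_c.2 ∈ M * J, emb q ∈ coneT K T, Fn (emb q) ≤ X}`.
The set `AS J S k T R` is the disjoint union of the `Q_c(R N(J)³ g_c)` over the finitely many `c` with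
`(∀ p ∈ S, copI ⊤ p o_c) ∧ g_c ≤ T`: given `q` in it, `alpha_surj` gives `o` with `q ≡ α o mod M * J`, the class `c` of `o` is unique
(`alpha_mem_iff`) and `o` may be replaced by `o_c` (`α (o - o_c) ∈ M * J`); `trans` gives the conditions; conversely too (`q.1 ∈ J` because `M * J ≤ J`, `α ∈ J`).
By `coset_count` with `I = M * J` (nonzero), `#Q_c(R N(J)³ g_c) / R ^ (2 / 3)` tends to
`V 4 ^ r₂ (N(J)³ g_c) ^ (2 / 3) / (N(M)² N(J)² |discr|) = V 4 ^ r₂ / |discr| * g_c ^ (2 / 3) / N(M)²`. Sum over `c`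
(`tendsto_finset_sum`); `finsum` over a finite type is a finite sum (`finsum_eq_sum_of_fintype`).
(`𝓞 K ⧸ M` is finite because `M ≠ ⊥`: `Ideal.finiteQuotientOfFreeOfNeBot` or `Ideal.fintypeQuotientOfFreeOfNeBot`.)
-/

set_option autoImplicit false

namespace AbcAsy

open MeasureTheory NumberField NumberField.InfinitePlace IsDedekindDomain Filter Topology

private theorem GS_pos {K : Type*} [Field K] [NumberField K] (J : Ideal (𝓞 K))
    (S : Finset (HeightOneSpectrum (𝓞 K))) (k : ℕ) (q : 𝓞 K × 𝓞 K) : 0 < GS J S k q := by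
  refine Finset.prod_pos fun p _ => pow_pos ?_ _
  exact_mod_cast Nat.pos_of_ne_zero (fun h => p.ne_bot (Ideal.absNorm_eq_zero_iff.1 h))

private theorem scale_lim {f : ℝ → ℝ} {L a : ℝ} (ha : 0 < a)
    (h : Tendsto (fun X : ℝ => f X / X ^ (2 / 3 : ℝ)) atTop (𝓝 L)) :
    Tendsto (fun R : ℝ => f (R * a) / R ^ (2 / 3 : ℝ)) atTop (𝓝 (L * a ^ (2 / 3 : ℝ))) := by
  have h1 : Tendsto (fun R : ℝ => R * a) atTop atTop := tendsto_id.atTop_mul_const ha
  refine ((h.comp h1).mul_const (a ^ (2 / 3 : ℝ))).congr' ?_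
  filter_upwards [eventually_gt_atTop 0] with R hR
  have h2 : 0 < a ^ (2 / 3 : ℝ) := Real.rpow_pos_of_pos ha _
  have h3 : 0 < R ^ (2 / 3 : ℝ) := Real.rpow_pos_of_pos hR _
  simp only [Function.comp]
  rw [Real.mul_rpow hR.le ha.le]
  field_simp

open scoped Classical in
theorem AS_count (K : Type*) [Field K] [NumberField K] {T : ℝ} (hT : 1 ≤ T) {J : Ideal (𝓞 K)}
    (hJ : J ≠ ⊥) (S : Finset (HeightOneSpectrum (𝓞 K))) {k : ℕ} (hk : 1 ≤ k) :
    (∀ R : ℝ, 0 < R → (AS J S k T R).Finite) ∧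
    Tendsto (fun R : ℝ => ((AS J S k T R).ncard : ℝ) / R ^ (2 / 3 : ℝ)) atTop
      (𝓝 (volume.real (regT K T) * 4 ^ nrComplexPlaces K / |(discr K : ℝ)| * dens S k T)) := by
  obtain ⟨α, hα, hαS⟩ := exists_alpha hJ S
  have hM : MS S k ≠ ⊥ := MS_ne_bot S k
  have hMJ : MS S k * J ≠ ⊥ := mul_ne_zero hM hJ
  have hfinq : Finite (𝓞 K ⧸ MS S k) := Ideal.finiteQuotientOfFreeOfNeBot _ hM
  let _ : Fintype ((𝓞 K ⧸ MS S k) × (𝓞 K ⧸ MS S k)) := Fintype.ofFinite _
  set o : (𝓞 K ⧸ MS S k) × (𝓞 K ⧸ MS S k) → 𝓞 K × 𝓞 K :=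
    fun c => (Quotient.out c.1, Quotient.out c.2) with ho
  have hNJ : (0 : ℝ) < Ideal.absNorm J := by
    exact_mod_cast Nat.pos_of_ne_zero (fun h => hJ (Ideal.absNorm_eq_zero_iff.1 h))
  have hNM : (0 : ℝ) < Ideal.absNorm (MS S k) := by
    exact_mod_cast Nat.pos_of_ne_zero (fun h => hM (Ideal.absNorm_eq_zero_iff.1 h))
  have hdisc : (0 : ℝ) < |(discr K : ℝ)| := abs_pos.2 (by exact_mod_cast discr_ne_zero K)
  set good : (𝓞 K ⧸ MS S k) × (𝓞 K ⧸ MS S k) → Prop :=
    fun c => (∀ p ∈ S, copI ⊤ p (o c)) ∧ GS ⊤ S k (o c) ≤ T with hgood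
  set Q : (𝓞 K ⧸ MS S k) × (𝓞 K ⧸ MS S k) → ℝ → Set (𝓞 K × 𝓞 K) :=
    fun c X => {q : 𝓞 K × 𝓞 K | q.1 - (α * (o c).1, α * (o c).2).1 ∈ MS S k * J ∧
      q.2 - (α * (o c).1, α * (o c).2).2 ∈ MS S k * J ∧ emb q ∈ coneT K T ∧
      Fn (emb q) ≤ X} with hQ
  have hcc := fun c => coset_count K hT hMJ (α * (o c).1, α * (o c).2)
  set a : (𝓞 K ⧸ MS S k) × (𝓞 K ⧸ MS S k) → ℝ :=
    fun c => (Ideal.absNorm J : ℝ) ^ 3 * GS ⊤ S k (o c) with ha
  have ha0 : ∀ c, 0 < a c := fun c => mul_pos (pow_pos hNJ 3) (GS_pos _ _ _ _)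
  set F : ℝ → (𝓞 K ⧸ MS S k) × (𝓞 K ⧸ MS S k) → Set (𝓞 K × 𝓞 K) :=
    fun R c => if good c then Q c (R * a c) else ∅ with hF
  have hFfin : ∀ R c, (F R c).Finite := by
    intro R c
    simp only [hF]
    split_ifs
    · exact (hcc c).1 _
    · exact Set.finite_empty
  -- classes are determined
  have hmk : ∀ x : 𝓞 K, x - Quotient.out (Ideal.Quotient.mk (MS S k) x) ∈ MS S k := by
    intro x
    rw [← Ideal.Quotient.eq, Ideal.Quotient.mk_out]
  have hAS : ∀ R, AS J S k T R = ⋃ c, F R c := by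
    intro R
    ext q
    rw [Set.mem_iUnion]
    constructor
    · rintro ⟨h1, h2, h3, h4, h5, h6⟩
      obtain ⟨o1, ho1⟩ := alpha_surj hJ hα hαS k h1
      obtain ⟨o2, ho2⟩ := alpha_surj hJ hα hαS k h2
      set c : (𝓞 K ⧸ MS S k) × (𝓞 K ⧸ MS S k) :=
        (Ideal.Quotient.mk (MS S k) o1, Ideal.Quotient.mk (MS S k) o2) with hc
      have e1 : q.1 - α * (o c).1 ∈ MS S k * J := by
        have h7 : q.1 - α * (o c).1 = (q.1 - α * o1) + α * (o1 - (o c).1) := by ring
        rw [h7]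
        exact Ideal.add_mem _ ho1 ((alpha_mem_iff hJ hα hαS k _).2 (hmk o1))
      have e2 : q.2 - α * (o c).2 ∈ MS S k * J := by
        have h7 : q.2 - α * (o c).2 = (q.2 - α * o2) + α * (o2 - (o c).2) := by ring
        rw [h7]
        exact Ideal.add_mem _ ho2 ((alpha_mem_iff hJ hα hαS k _).2 (hmk o2))
      obtain ⟨t1, t2⟩ := trans hJ hα hαS hk e1 e2
      have hg : good c := ⟨t2.1 h4, t1 ▸ h5⟩
      refine ⟨c, ?_⟩
      simp only [hF]
      rw [if_pos hg]
      refine ⟨e1, e2, h3, ?_⟩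
      rw [t1] at h6
      simp only [ha]
      rw [← mul_assoc]
      exact h6
    · rintro ⟨c, hc⟩
      simp only [hF] at hc
      by_cases hg : good c
      · rw [if_pos hg] at hc
        obtain ⟨e1, e2, h3, h6⟩ := hc
        obtain ⟨t1, t2⟩ := trans hJ hα hαS hk e1 e2
        refine ⟨?_, ?_, h3, t2.2 hg.1, t1.symm ▸ hg.2, ?_⟩
        · have h7 : q.1 = (q.1 - α * (o c).1) + (o c).1 * α := by ring
          rw [h7]
          exact J.add_mem ((Ideal.mul_le_right : MS S k * J ≤ J) e1) (J.mul_mem_left _ hα)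
        · have h7 : q.2 = (q.2 - α * (o c).2) + (o c).2 * α := by ring
          rw [h7]
          exact J.add_mem ((Ideal.mul_le_right : MS S k * J ≤ J) e2) (J.mul_mem_left _ hα)
        · rw [t1, mul_assoc]
          exact h6
      · rw [if_neg hg] at hc
        exact absurd hc (Set.notMem_empty _)
  have hdisj : ∀ R, Pairwise (Function.onFun Disjoint (F R)) := by
    intro R c c' hne
    refine Set.disjoint_left.2 fun q h1 h2 => hne ?_
    simp only [hF] at h1 h2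
    by_cases hg : good c
    · by_cases hg' : good c'
      · rw [if_pos hg] at h1
        rw [if_pos hg'] at h2
        obtain ⟨e1, e2, -, -⟩ := h1
        obtain ⟨f1, f2, -, -⟩ := h2
        have key : ∀ x u v : 𝓞 K, x - α * u ∈ MS S k * J → x - α * v ∈ MS S k * J →
            Ideal.Quotient.mk (MS S k) u = Ideal.Quotient.mk (MS S k) v := by
          intro x u v hu hv
          rw [Ideal.Quotient.eq, ← alpha_mem_iff hJ hα hαS k]
          have h7 : α * (u - v) = (x - α * v) - (x - α * u) := by ring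
          rw [h7]
          exact Ideal.sub_mem _ hv hu
        refine Prod.ext ?_ ?_
        · have := key _ _ _ e1 f1
          rwa [Ideal.Quotient.mk_out, Ideal.Quotient.mk_out] at this
        · have := key _ _ _ e2 f2
          rwa [Ideal.Quotient.mk_out, Ideal.Quotient.mk_out] at this
      · rw [if_neg hg'] at h2
        exact absurd h2 (Set.notMem_empty _)
    · rw [if_neg hg] at h1
      exact absurd h1 (Set.notMem_empty _)
  refine ⟨fun R _ => ?_, ?_⟩
  · rw [hAS R]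
    exact Set.finite_iUnion (hFfin R)
  · have hcard : ∀ R, ((AS J S k T R).ncard : ℝ) = ∑ c, ((F R c).ncard : ℝ) := by
      intro R
      rw [hAS R, Set.ncard_iUnion_of_finite (hFfin R) (hdisj R), finsum_eq_sum_of_fintype]
      push_cast
      rfl
    have hlimc : ∀ c, Tendsto (fun R : ℝ => ((F R c).ncard : ℝ) / R ^ (2 / 3 : ℝ)) atTop
        (𝓝 (volume.real (regT K T) * 4 ^ nrComplexPlaces K / |(discr K : ℝ)| *
          ((if (∀ p ∈ S, copI ⊤ p (o c)) ∧ GS ⊤ S k (o c) ≤ T then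
            GS ⊤ S k (o c) ^ (2 / 3 : ℝ) else 0) / (Ideal.absNorm (MS S k) : ℝ) ^ 2))) := by
      intro c
      by_cases hg : good c
      · have h1 := scale_lim (ha0 c) (hcc c).2
        have hg' : (∀ p ∈ S, copI ⊤ p (o c)) ∧ GS ⊤ S k (o c) ≤ T := hg
        rw [if_pos hg']
        have h2 : volume.real (regT K T) * 4 ^ nrComplexPlaces K /
            ((Ideal.absNorm (MS S k * J) : ℝ) ^ 2 * |(discr K : ℝ)|) * a c ^ (2 / 3 : ℝ) =
            volume.real (regT K T) * 4 ^ nrComplexPlaces K / |(discr K : ℝ)| *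
            (GS ⊤ S k (o c) ^ (2 / 3 : ℝ) / (Ideal.absNorm (MS S k) : ℝ) ^ 2) := by
          simp only [ha]
          rw [Real.mul_rpow (pow_pos hNJ 3).le (GS_pos _ _ _ _).le, map_mul]
          have h3 : ((Ideal.absNorm J : ℝ) ^ 3) ^ (2 / 3 : ℝ) = (Ideal.absNorm J : ℝ) ^ 2 := by
            rw [← Real.rpow_natCast, ← Real.rpow_mul hNJ.le, ← Real.rpow_natCast]
            norm_num
          rw [h3]
          push_cast
          field_simp
        rw [← h2]
        refine h1.congr fun R => ?_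
        simp only [hF]
        rw [if_pos hg]
      · have hg' : ¬ ((∀ p ∈ S, copI ⊤ p (o c)) ∧ GS ⊤ S k (o c) ≤ T) := hg
        rw [if_neg hg', zero_div, mul_zero]
        refine tendsto_const_nhds.congr fun R => ?_
        simp only [hF]
        rw [if_neg hg, Set.ncard_empty]
        simp
    have hsum := tendsto_finsetSum Finset.univ (fun c _ => hlimc c)
    have hval : ∑ c, (volume.real (regT K T) * 4 ^ nrComplexPlaces K / |(discr K : ℝ)| *
          ((if (∀ p ∈ S, copI ⊤ p (o c)) ∧ GS ⊤ S k (o c) ≤ T then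
            GS ⊤ S k (o c) ^ (2 / 3 : ℝ) else 0) / (Ideal.absNorm (MS S k) : ℝ) ^ 2)) =
        volume.real (regT K T) * 4 ^ nrComplexPlaces K / |(discr K : ℝ)| * dens S k T := by
      rw [← Finset.mul_sum, ← Finset.sum_div, dens, avg, finsum_eq_sum_of_fintype]
    rw [← hval]
    refine hsum.congr fun R => ?_
    rw [hcard R, Finset.sum_div]

end AbcAsy
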