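import Pool.Agent.Work.MP_a793bb_nt.Asy.Defs

/-!
# VCone: the cone `coneT K T`, scaling, boundedness  (size M)

Let `d = [K : ℚ] = ∑ mult v`. `N = mixedEmbedding.norm` is multiplicative, `N(c x) = |c| ^ d N(x)`
(`mixedEmbedding.norm_smul`), `N(x) = ∏ |x|_v ^ mult v` (`mixedEmbedding.norm_apply`).

PROOF. `smul_mem_coneT`: `fundamentalCone.smul_mem_iff_mem`, `normAtPlace_smul`.
`Fn_smul`: `(c • q).2 - (c • q).1 = c • (q.2 - q.1)`.
`Fn_pos_of_mem`: `|z|_v > 0` (`fundamentalCone.normAtPlace_pos_of_mem`), so `|x|_v ≥ |z|_v / T > 0`,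
`|z - x|_v ≥ |z|_v / T > 0` for all `v`, and `N > 0` for the three factors.
`isBounded_regT`: for `q = (x, z) ∈ regT K T`, `N(x) ≥ T^{-d} N(z)`, `N(z - x) ≥ T^{-d} N(z)`, so
`1 ≥ Fn q ≥ T^{-2d} N(z)³` and `N(z) ≤ T^{2d} =: c^d` with `c = T ^ 2 ≥ 1` (as `N(z)³ ≤ T^{2d}`
implies `N(z) ≤ T^{2d}`: if `N(z) ≥ 1` then `N(z) ≤ N(z)³`). So `c⁻¹ • z ∈ normLeOne K`, which is
bounded (`fundamentalCone.isBounded_normLeOne`), `z` is bounded, and `|x|_v ≤ T |z|_v` with
`norm_eq_sup'_normAtPlace` shows that `x` is bounded.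
`box_coneT`: let `B'` bound `‖q‖` on `regT K T`, `B = B' + 1`. For `q ∈ coneT K T` let
`c = (Fn q) ^ (-1 / (3 d)) > 0`; then `Fn (c • q) = 1`, so `c • q ∈ regT K T` and
`c |x|_v = |c x|_v ≤ ‖c x‖ ≤ B'`, i.e. `|x|_v ≤ B' (Fn q) ^ (1/(3 d))`; the same for `z`.
-/

set_option autoImplicit false

namespace AbcAsy

open NumberField IsDedekindDomain MeasureTheory Pool.Agent.Work.MP_a793bb_nt mixedEmbedding

variable {K : Type*} [Field K] [NumberField K]

theorem continuous_Fn : Continuous (Fn : EE K → ℝ) := by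
  have h := mixedEmbedding.continuous_norm K
  exact ((h.comp continuous_fst).mul (h.comp continuous_snd)).mul
    (h.comp (continuous_snd.sub continuous_fst))

theorem Fn_nonneg (q : EE K) : 0 ≤ Fn q :=
  mul_nonneg (mul_nonneg (mixedEmbedding.norm_nonneg _) (mixedEmbedding.norm_nonneg _))
    (mixedEmbedding.norm_nonneg _)

theorem Fn_smul {c : ℝ} (hc : 0 ≤ c) (q : EE K) :
    Fn (c • q) = c ^ (3 * Module.finrank ℚ K) * Fn q := by
  have h1 : (c • q).1 = c • q.1 := rfl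
  have h2 : (c • q).2 = c • q.2 := rfl
  unfold Fn
  rw [h1, h2, ← smul_sub, mixedEmbedding.norm_smul, mixedEmbedding.norm_smul,
    mixedEmbedding.norm_smul, abs_of_nonneg hc]
  ring

private theorem vc_iff {c a b T : ℝ} (hc : 0 < c) : c * a ≤ T * (c * b) ↔ a ≤ T * b := by
  rw [mul_left_comm]
  exact ⟨fun h => le_of_mul_le_mul_left h hc, fun h => mul_le_mul_of_nonneg_left h hc.le⟩

private theorem vc_norm_mono {T : ℝ} (hT : 0 ≤ T) {x y : mixedSpace K}
    (h : ∀ v : InfinitePlace K, normAtPlace v x ≤ T * normAtPlace v y) :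
    mixedEmbedding.norm x ≤ T ^ Module.finrank ℚ K * mixedEmbedding.norm y := by
  have h1 := mixedEmbedding.norm_smul T y
  rw [abs_of_nonneg hT] at h1
  rw [← h1, mixedEmbedding.norm_apply, mixedEmbedding.norm_apply]
  refine Finset.prod_le_prod (fun v _ => pow_nonneg (normAtPlace_nonneg _ _) _) fun v _ => ?_
  refine pow_le_pow_left₀ (normAtPlace_nonneg _ _) ?_ _
  rw [normAtPlace_smul, abs_of_nonneg hT]
  exact h v

open scoped Classical in
private theorem vc_norm_le {x : mixedSpace K} {B : ℝ}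
    (h : ∀ v : InfinitePlace K, normAtPlace v x ≤ B) : ‖x‖ ≤ B := by
  rw [norm_eq_sup'_normAtPlace]
  exact Finset.sup'_le _ _ fun v _ => h v

open scoped Classical in
private theorem vc_le_norm (x : mixedSpace K) (v : InfinitePlace K) : normAtPlace v x ≤ ‖x‖ := by
  rw [norm_eq_sup'_normAtPlace]
  exact Finset.le_sup' (fun v => normAtPlace v x) (Finset.mem_univ v)

theorem smul_mem_coneT {T c : ℝ} (hc : 0 < c) (q : EE K) :
    c • q ∈ coneT K T ↔ q ∈ coneT K T := by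
  have h1 : (c • q).1 = c • q.1 := rfl
  have h2 : (c • q).2 = c • q.2 := rfl
  unfold coneT
  rw [Set.mem_ofPred_eq, Set.mem_ofPred_eq, h1, h2, ← smul_sub]
  refine and_congr (fundamentalCone.smul_mem_iff_mem hc.ne') (forall_congr' fun v => ?_)
  rw [normAtPlace_smul, normAtPlace_smul, normAtPlace_smul, abs_of_pos hc, vc_iff hc, vc_iff hc,
    vc_iff hc]

theorem Fn_pos_of_mem {T : ℝ} (hT : 1 ≤ T) {q : EE K} (hq : q ∈ coneT K T) : 0 < Fn q := by
  have hT0 : 0 < T := zero_lt_one.trans_le hT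
  obtain ⟨h1, h2⟩ := hq
  have hz : ∀ v : InfinitePlace K, 0 < normAtPlace v q.2 :=
    fundamentalCone.normAtPlace_pos_of_mem h1
  have hpos : ∀ y : mixedSpace K, (∀ v : InfinitePlace K,
      normAtPlace v q.2 ≤ T * normAtPlace v y) → 0 < mixedEmbedding.norm y := by
    intro y hy
    refine lt_of_le_of_ne (mixedEmbedding.norm_nonneg _)
      (mixedEmbedding.norm_ne_zero_iff.2 fun v hv => ?_).symm
    have h3 := hy v
    rw [hv, mul_zero] at h3
    exact absurd (hz v) (not_lt.2 h3)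
  exact mul_pos (mul_pos (hpos _ fun v => (h2 v).2.1) (fundamentalCone.norm_pos_of_mem h1))
    (hpos _ fun v => (h2 v).2.2)

open scoped Classical in
private theorem vc_bdd {T : ℝ} (hT : 1 ≤ T) : ∃ B : ℝ, ∀ q ∈ regT K T, ‖q‖ ≤ B := by
  have hT0 : 0 < T := zero_lt_one.trans_le hT
  obtain ⟨B, hB⟩ := isBounded_iff_forall_norm_le.1 (fundamentalCone.isBounded_normLeOne K)
  refine ⟨max (T * (T ^ 2 * B)) (T ^ 2 * B), fun q hq => ?_⟩
  obtain ⟨⟨h1, h2⟩, h3⟩ := hq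
  obtain ⟨d, hd⟩ : ∃ d, d = Module.finrank ℚ K := ⟨_, rfl⟩
  have hNz : 0 < mixedEmbedding.norm q.2 := fundamentalCone.norm_pos_of_mem h1
  have hx := vc_norm_mono hT0.le (fun v => (h2 v).2.1)
  have hw := vc_norm_mono hT0.le (fun v => (h2 v).2.2)
  rw [← hd] at hx hw
  have hTd : 1 ≤ T ^ d := one_le_pow₀ hT
  have hN3 : mixedEmbedding.norm q.2 ^ 3 ≤ (T ^ d) ^ 2 := by
    have h4 : mixedEmbedding.norm q.2 * mixedEmbedding.norm q.2 ≤
        (T ^ d * mixedEmbedding.norm q.1) * (T ^ d * mixedEmbedding.norm (q.2 - q.1)) :=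
      mul_le_mul hx hw hNz.le (mul_nonneg (zero_le_one.trans hTd) (mixedEmbedding.norm_nonneg _))
    calc mixedEmbedding.norm q.2 ^ 3
        = (mixedEmbedding.norm q.2 * mixedEmbedding.norm q.2) * mixedEmbedding.norm q.2 := by
          ring
      _ ≤ ((T ^ d * mixedEmbedding.norm q.1) * (T ^ d * mixedEmbedding.norm (q.2 - q.1))) *
            mixedEmbedding.norm q.2 := mul_le_mul_of_nonneg_right h4 hNz.le
      _ = (T ^ d) ^ 2 * Fn q := by
          unfold Fn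
          ring
      _ ≤ (T ^ d) ^ 2 * 1 := mul_le_mul_of_nonneg_left h3 (by positivity)
      _ = (T ^ d) ^ 2 := mul_one _
  have hN : mixedEmbedding.norm q.2 ≤ (T ^ 2) ^ d := by
    have e : (T ^ 2) ^ d = (T ^ d) ^ 2 := by
      rw [← pow_mul, ← pow_mul, mul_comm]
    rw [e]
    by_contra hc
    rw [not_le] at hc
    have h4 : 1 < mixedEmbedding.norm q.2 := (one_le_pow₀ hTd).trans_lt hc
    have h5 : mixedEmbedding.norm q.2 ≤ mixedEmbedding.norm q.2 ^ 3 :=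
      le_self_pow₀ h4.le (by norm_num)
    linarith
  have hT2 : (0 : ℝ) < T ^ 2 := by positivity
  have hmem : (T ^ 2)⁻¹ • q.2 ∈ fundamentalCone.normLeOne K := by
    rw [fundamentalCone.mem_normLeOne]
    refine ⟨(fundamentalCone.smul_mem_iff_mem (inv_ne_zero hT2.ne')).2 h1, ?_⟩
    rw [mixedEmbedding.norm_smul, abs_of_pos (inv_pos.2 hT2), ← hd, inv_pow,
      inv_mul_le_iff₀ (pow_pos hT2 d), mul_one]
    exact hN
  have hz : ‖q.2‖ ≤ T ^ 2 * B := by
    refine vc_norm_le fun v => ?_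
    have h4 := (vc_le_norm ((T ^ 2)⁻¹ • q.2) v).trans (hB _ hmem)
    rw [normAtPlace_smul, abs_of_pos (inv_pos.2 hT2), inv_mul_le_iff₀ hT2] at h4
    exact h4
  have hx' : ‖q.1‖ ≤ T * (T ^ 2 * B) := by
    refine vc_norm_le fun v => (h2 v).1.trans ?_
    exact mul_le_mul_of_nonneg_left ((vc_le_norm q.2 v).trans hz) hT0.le
  rw [Prod.norm_def]
  exact max_le_max hx' hz

theorem isBounded_regT {T : ℝ} (hT : 1 ≤ T) : Bornology.IsBounded (regT K T) := by
  classical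
  exact isBounded_iff_forall_norm_le.2 (vc_bdd hT)

theorem box_coneT {T : ℝ} (hT : 1 ≤ T) : ∃ B : ℝ, 0 < B ∧ ∀ q ∈ coneT K T,
    ∀ v : InfinitePlace K,
      normAtPlace v q.1 ≤ B * Fn q ^ (1 / (3 * (Module.finrank ℚ K : ℝ))) ∧
      normAtPlace v q.2 ≤ B * Fn q ^ (1 / (3 * (Module.finrank ℚ K : ℝ))) := by
  classical
  obtain ⟨B, hB⟩ := vc_bdd (K := K) hT
  refine ⟨|B| + 1, by positivity, fun q hq => ?_⟩
  have hF : 0 < Fn q := Fn_pos_of_mem hT hq
  obtain ⟨d, hd⟩ : ∃ d, d = Module.finrank ℚ K := ⟨_, rfl⟩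
  have hd0 : (0 : ℝ) < d := by
    rw [hd]
    exact_mod_cast Module.finrank_pos
  obtain ⟨r, hr⟩ : ∃ r, r = Fn q ^ (1 / (3 * (Module.finrank ℚ K : ℝ))) := ⟨_, rfl⟩
  have hr0 : 0 < r := hr ▸ Real.rpow_pos_of_pos hF _
  have hr3 : r ^ (3 * Module.finrank ℚ K) = Fn q := by
    rw [hr, ← Real.rpow_mul_natCast hF.le, ← hd]
    have e : 1 / (3 * (d : ℝ)) * ((3 * d : ℕ) : ℝ) = 1 := by
      push_cast
      field_simp
    rw [e, Real.rpow_one]
  have hmem : r⁻¹ • q ∈ regT K T := by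
    refine ⟨(smul_mem_coneT (inv_pos.2 hr0) q).2 hq, ?_⟩
    rw [Fn_smul (inv_pos.2 hr0).le, inv_pow, hr3, inv_mul_cancel₀ hF.ne']
  have hn := hB _ hmem
  rw [Prod.norm_def] at hn
  have hle : ∀ x : mixedSpace K, ∀ v : InfinitePlace K, ‖r⁻¹ • x‖ ≤ B →
      normAtPlace v x ≤ (|B| + 1) * r := by
    intro x v h
    have h1 := (vc_le_norm (r⁻¹ • x) v).trans h
    rw [normAtPlace_smul, abs_of_pos (inv_pos.2 hr0), inv_mul_le_iff₀ hr0] at h1
    have h2 : B ≤ |B| + 1 := (le_abs_self B).trans (by linarith)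
    nlinarith
  intro v
  rw [← hr]
  exact ⟨hle q.1 v ((le_max_left _ _).trans hn), hle q.2 v ((le_max_right _ _).trans hn)⟩

end AbcAsy
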