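import Pool.Agent.Work.MP_a793bb_nt.Asy.PPair
import Pool.Agent.Work.MP_a793bb_nt.Asy.SBox
import Pool.Agent.Work.MP_a793bb_nt.Asy.SCount
import Pool.Agent.Work.MP_a793bb_nt.Asy.VCone

/-!
# Comparison of the two sets of pairs

Proof. Let `t = x / z`. (1) If `q ∈ PT J T R` is not special then `q ∈ AS J S k T R`: `GS = exp (LG t) ≤ T`
(`GS_eq_of_not_special`), `Fn (emb q) = exp (Rs (Ip t)) exp (LG t) N(J)³ ≤ R N(J)³ GS` (`log_Fn_emb`), `copI_of_span`, `q.1, q.2 ∈ J`.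
(2) If `q ∈ AS J S k T R` is not special then `q ∈ PT J T R`: `q.1, q.2, q.2 - q.1 ≠ 0` because `emb q ∈ coneT K T`
(`normAtPlace` of the three is positive), `span {q.1, q.2} = J` (`special_of_not_span`), `GS = exp (LG t)`, so `LG t ≤ log T` and
`exp (Rs (Ip t)) ≤ R` (`log_Fn_emb`). (3) In both sets `Fn (emb q) ≤ R N(J)³ T` (in `PT`: `exp (LG t) ≤ T`; in `AS`: `GS ≤ T`), so by
`box_coneT` all `v q.1, v q.2 ≤ b = B (R N(J)³ T) ^ (1 / (3 d))` (`normAtPlace v (mixedEmbedding K x) = v x`), `b ^ (2 d) = B ^ (2 d) (R N(J)³ T) ^ (2 / 3)`. So both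
differences are contained in the set of `special_count`, and `|#PT - #AS| ≤ #(PT \ AS) + #(AS \ PT) ≤ 2 C b ^ (2 d) errS S k`
(both sets are finite: `AS_count`, and `PT ⊆ AS ∪ special set`). `PT_eq` is unfolding of definitions: for `J = rep C`,
`emb q ∈ coneT K T` is equivalent to `mixedEmbedding K q.2 ∈ fundamentalCone K` and `v x ≤ T v z`, `v z ≤ T v x`, `v z ≤ T v (z - x)` for all `v`,
i.e. (divide by `v z > 0`) to the conditions of `UT` on `t = x / z`, `1 - t = (z - x) / z`; and `exp (Rs (Ip t)) ≤ R` is `Rs (Ip t) ≤ log R` (`0 < R`).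
-/

set_option autoImplicit false
set_option linter.unusedSectionVars false

namespace AbcAsy

open NumberField NumberField.mixedEmbedding IsDedekindDomain

section aux

open Pool.Agent.Work.MP_a793bb_nt Pool.Agent.Work.MP_a793bb_nt.BPlus

variable {K : Type*} [Field K] [NumberField K]

private theorem nap (v : InfinitePlace K) (x : 𝓞 K) :
    normAtPlace v (mixedEmbedding K (x : K)) = v (x : K) := normAtPlace_apply v _

private theorem emb_mem_iff {T : ℝ} {q : 𝓞 K × 𝓞 K} : emb q ∈ coneT K T ↔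
    mixedEmbedding K (q.2 : K) ∈ fundamentalCone K ∧ ∀ v : InfinitePlace K,
      v (q.1 : K) ≤ T * v (q.2 : K) ∧ v (q.2 : K) ≤ T * v (q.1 : K) ∧
      v (q.2 : K) ≤ T * v ((q.2 : K) - (q.1 : K)) := by
  have h : ∀ v : InfinitePlace K, normAtPlace v ((emb q).2 - (emb q).1) =
      v ((q.2 : K) - (q.1 : K)) := by
    intro v
    show normAtPlace v (mixedEmbedding K (q.2 : K) - mixedEmbedding K (q.1 : K)) = _
    rw [← map_sub, normAtPlace_apply]
  unfold coneT
  simp only [Set.mem_ofPred_eq, h]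
  show (mixedEmbedding K (q.2 : K) ∈ fundamentalCone K ∧ ∀ v : InfinitePlace K,
      normAtPlace v (mixedEmbedding K (q.1 : K)) ≤ T * normAtPlace v (mixedEmbedding K (q.2 : K)) ∧
      normAtPlace v (mixedEmbedding K (q.2 : K)) ≤ T * normAtPlace v (mixedEmbedding K (q.1 : K)) ∧
      normAtPlace v (mixedEmbedding K (q.2 : K)) ≤ T * v ((q.2 : K) - (q.1 : K))) ↔ _
  simp only [normAtPlace_apply]

private theorem pos_of_mem {q : 𝓞 K × 𝓞 K}
    (h : mixedEmbedding K (q.2 : K) ∈ fundamentalCone K) (v : InfinitePlace K) :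
    0 < v (q.2 : K) := by
  have := fundamentalCone.normAtPlace_pos_of_mem h v
  rwa [normAtPlace_apply] at this

private theorem ne_of_cone {T : ℝ} {q : 𝓞 K × 𝓞 K} (hq : emb q ∈ coneT K T) :
    q.1 ≠ 0 ∧ q.2 ≠ 0 ∧ q.1 ≠ q.2 := by
  rw [emb_mem_iff] at hq
  obtain ⟨h1, h2⟩ := hq
  obtain ⟨v⟩ : Nonempty (InfinitePlace K) := inferInstance
  have hz := pos_of_mem h1 v
  obtain ⟨h3, h4, h5⟩ := h2 v
  refine ⟨?_, ?_, ?_⟩
  · intro h
    rw [h] at h4
    simp only [map_zero, mul_zero] at h4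
    linarith
  · intro h
    rw [h] at hz
    simp at hz
  · intro h
    rw [h, sub_self] at h5
    simp only [map_zero, mul_zero] at h5
    linarith

private theorem norm_pos' {x : K} (hx : x ≠ 0) : 0 < mixedEmbedding.norm (mixedEmbedding K x) := by
  apply lt_of_le_of_ne (mixedEmbedding.norm_nonneg _)
  intro h
  rw [eq_comm, mixedEmbedding.norm_eq_zero_iff] at h
  obtain ⟨w, hw⟩ := h
  rw [normAtPlace_apply] at hw
  exact hx ((map_eq_zero w).1 hw)

private theorem Fn_pos {q : 𝓞 K × 𝓞 K} (hx : q.1 ≠ 0) (hz : q.2 ≠ 0) (hne : q.1 ≠ q.2) :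
    0 < Fn (emb q) := by
  have h1 : (q.1 : K) ≠ 0 := by exact_mod_cast hx
  have h2 : (q.2 : K) ≠ 0 := by exact_mod_cast hz
  have h3 : (q.2 : K) - (q.1 : K) ≠ 0 := by
    rw [sub_ne_zero]
    intro h
    exact hne (by exact_mod_cast h.symm)
  have h4 : (emb q).2 - (emb q).1 = mixedEmbedding K ((q.2 : K) - (q.1 : K)) := by
    rw [map_sub]; rfl
  unfold Fn
  rw [h4]
  exact mul_pos (mul_pos (norm_pos' h1) (norm_pos' h2)) (norm_pos' h3)

private theorem Fn_eq {J : Ideal (𝓞 K)} {q : 𝓞 K × 𝓞 K} (hx : q.1 ≠ 0) (hz : q.2 ≠ 0)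
    (hne : q.1 ≠ q.2) (hJ0 : J ≠ ⊥) (hJ : Ideal.span {q.1, q.2} = J) :
    Fn (emb q) = Real.exp (Rs (Ip ((q.1 : K) / (q.2 : K)))) *
      Real.exp (LG ((q.1 : K) / (q.2 : K))) * (Ideal.absNorm J : ℝ) ^ 3 := by
  have h1 := log_Fn_emb hx hz hne hJ
  have h2 := one_le_absNorm K hJ0
  have h3 : (0 : ℝ) < (Ideal.absNorm J : ℝ) := by linarith
  rw [← Real.exp_log (Fn_pos hx hz hne), h1, Real.exp_add, Real.exp_add]
  congr 1
  rw [show (3 : ℝ) * Real.log (Ideal.absNorm J) = Real.log ((Ideal.absNorm J : ℝ) ^ 3) by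
    rw [Real.log_pow]; norm_num, Real.exp_log (by positivity)]

private theorem mem_span_pair_left (x z : 𝓞 K) : x ∈ Ideal.span {x, z} :=
  Ideal.subset_span (by simp)

private theorem mem_span_pair_right (x z : 𝓞 K) : z ∈ Ideal.span {x, z} :=
  Ideal.subset_span (by simp)

/-- the special pairs in a box -/
private def XB (J : Ideal (𝓞 K)) (S : Finset (HeightOneSpectrum (𝓞 K))) (k : ℕ) (b : ℝ) :
    Set (𝓞 K × 𝓞 K) :=
  {q : 𝓞 K × 𝓞 K | q.1 ∈ J ∧ q.2 ∈ J ∧ q.1 ≠ 0 ∧ q.2 ≠ 0 ∧ q.1 ≠ q.2 ∧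
    (∀ v : InfinitePlace K, v (q.1 : K) ≤ b ∧ v (q.2 : K) ≤ b) ∧ Special J S k q}

end aux

section main

open Pool.Agent.Work.MP_a793bb_nt Pool.Agent.Work.MP_a793bb_nt.BPlus

theorem comp (K : Type*) [Field K] [NumberField K] {T : ℝ} (hT : 2 ≤ T) {J : Ideal (𝓞 K)}
    (hJ : J ≠ ⊥) : ∃ C : ℝ, 0 ≤ C ∧ ∀ (S : Finset (HeightOneSpectrum (𝓞 K))) (k : ℕ) (R : ℝ),
      1 ≤ k → 0 < R → (PT J T R).Finite ∧
      |((PT J T R).ncard : ℝ) - ((AS J S k T R).ncard : ℝ)| ≤ C * R ^ (2 / 3 : ℝ) * errS S k := by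
  obtain ⟨C, hC, hspec⟩ := special_count K
  obtain ⟨B, hB, hbox⟩ := box_coneT (K := K) (T := T) (by linarith)
  set d : ℕ := Module.finrank ℚ K with hd
  have hd0 : 0 < d := Module.finrank_pos
  set N : ℝ := (Ideal.absNorm J : ℝ) with hN
  have hN1 : 1 ≤ N := one_le_absNorm K hJ
  have hN0 : 0 < N := by linarith
  have hT0 : 0 < T := by linarith
  refine ⟨C * (B ^ (2 * d) * (N ^ 3 * T) ^ (2 / 3 : ℝ)), by positivity, ?_⟩
  intro S k R hk hR
  obtain ⟨hASfin, -⟩ := AS_count K (T := T) (by linarith) hJ S hk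
  have hAS := hASfin R hR
  set b : ℝ := B * (R * N ^ 3 * T) ^ (1 / (3 * (d : ℝ))) with hb
  have hb0 : 0 ≤ b := by positivity
  obtain ⟨hXfin, hXcard⟩ := hspec J S k b hJ hk hb0
  have hbpow : b ^ (2 * d) = B ^ (2 * d) * (N ^ 3 * T) ^ (2 / 3 : ℝ) * R ^ (2 / 3 : ℝ) := by
    have hdr : (d : ℝ) ≠ 0 := by exact_mod_cast hd0.ne'
    rw [hb, mul_pow, ← Real.rpow_natCast ((R * N ^ 3 * T) ^ (1 / (3 * (d : ℝ)))) (2 * d),
      ← Real.rpow_mul (by positivity)]
    have e1 : 1 / (3 * (d : ℝ)) * ((2 * d : ℕ) : ℝ) = 2 / 3 := by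
      push_cast
      field_simp
    rw [e1, show R * N ^ 3 * T = (N ^ 3 * T) * R by ring,
      Real.mul_rpow (by positivity) hR.le]
    ring
  -- elements with bounded form lie in the box
  have hinbox : ∀ q : 𝓞 K × 𝓞 K, emb q ∈ coneT K T → Fn (emb q) ≤ R * N ^ 3 * T →
      0 ≤ Fn (emb q) → ∀ v : InfinitePlace K, v (q.1 : K) ≤ b ∧ v (q.2 : K) ≤ b := by
    intro q hq hF hF0 v
    have h1 := hbox (emb q) hq v
    have h2 : Fn (emb q) ^ (1 / (3 * (d : ℝ))) ≤ (R * N ^ 3 * T) ^ (1 / (3 * (d : ℝ))) :=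
      Real.rpow_le_rpow hF0 hF (by positivity)
    have h3 : B * Fn (emb q) ^ (1 / (3 * (d : ℝ))) ≤ b := mul_le_mul_of_nonneg_left h2 hB.le
    have e1 : normAtPlace v (emb q).1 = v (q.1 : K) := nap v q.1
    have e2 : normAtPlace v (emb q).2 = v (q.2 : K) := nap v q.2
    rw [e1, e2] at h1
    exact ⟨h1.1.trans h3, h1.2.trans h3⟩
  have hexpT : ∀ {x : ℝ}, x ≤ Real.log T → Real.exp x ≤ T := by
    intro x hx
    calc Real.exp x ≤ Real.exp (Real.log T) := Real.exp_le_exp.2 hx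
      _ = T := Real.exp_log hT0
  -- facts on `PT`
  have hPT : ∀ q ∈ PT J T R, q ∈ AS J S k T R ∨ q ∈ XB J S k b := by
    rintro q ⟨⟨hx, hz, hne, hspan, hcone, hrad⟩, hemb, hLG⟩
    have hq1 : q.1 ∈ J := by rw [← hspan]; exact mem_span_pair_left _ _
    have hq2 : q.2 ∈ J := by rw [← hspan]; exact mem_span_pair_right _ _
    have hF := Fn_eq hx hz hne hJ hspan
    have hG := hexpT hLG
    by_cases hs : Special J S k q
    · right
      refine ⟨hq1, hq2, hx, hz, hne, ?_, hs⟩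
      apply hinbox q hemb _ (Fn_pos hx hz hne).le
      rw [hF, ← hN]
      calc Real.exp (Rs (Ip ((q.1 : K) / (q.2 : K)))) * Real.exp (LG ((q.1 : K) / (q.2 : K))) * N ^ 3
          ≤ R * T * N ^ 3 := by gcongr
        _ = R * N ^ 3 * T := by ring
    · left
      have hGS := GS_eq_of_not_special hx hz hne hspan hk hs
      refine ⟨hq1, hq2, hemb, fun p _ => copI_of_span hx hspan p, ?_, ?_⟩
      · rw [hGS]; exact hG
      · rw [hGS, hF, ← hN]
        calc Real.exp (Rs (Ip ((q.1 : K) / (q.2 : K)))) *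
              Real.exp (LG ((q.1 : K) / (q.2 : K))) * N ^ 3
            ≤ R * Real.exp (LG ((q.1 : K) / (q.2 : K))) * N ^ 3 := by gcongr
          _ = R * N ^ 3 * Real.exp (LG ((q.1 : K) / (q.2 : K))) := by ring
  have hAS' : ∀ q ∈ AS J S k T R, q ∈ PT J T R ∨ q ∈ XB J S k b := by
    rintro q ⟨hq1, hq2, hemb, hcop, hGT, hFn⟩
    obtain ⟨hx, hz, hne⟩ := ne_of_cone hemb
    by_cases hs : Special J S k q
    · right
      refine ⟨hq1, hq2, hx, hz, hne, ?_, hs⟩
      apply hinbox q hemb _ (Fn_pos hx hz hne).le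
      calc Fn (emb q) ≤ R * N ^ 3 * GS J S k q := hFn
        _ ≤ R * N ^ 3 * T := by gcongr
    · left
      have hspan : Ideal.span {q.1, q.2} = J := by
        by_contra hc
        exact hs (special_of_not_span hJ hx hq1 hq2 hcop hc)
      have hGS := GS_eq_of_not_special hx hz hne hspan hk hs
      have hF := Fn_eq hx hz hne hJ hspan
      rw [hGS] at hGT hFn
      rw [hF, ← hN] at hFn
      refine ⟨⟨hx, hz, hne, hspan, (emb_mem_iff.1 hemb).1, ?_⟩, hemb, ?_⟩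
      · have h1 : 0 < Real.exp (LG ((q.1 : K) / (q.2 : K))) * N ^ 3 := by positivity
        have h2 : Real.exp (Rs (Ip ((q.1 : K) / (q.2 : K)))) *
            (Real.exp (LG ((q.1 : K) / (q.2 : K))) * N ^ 3) ≤
            R * (Real.exp (LG ((q.1 : K) / (q.2 : K))) * N ^ 3) := by
          calc _ = Real.exp (Rs (Ip ((q.1 : K) / (q.2 : K)))) *
                Real.exp (LG ((q.1 : K) / (q.2 : K))) * N ^ 3 := by ring
            _ ≤ R * N ^ 3 * Real.exp (LG ((q.1 : K) / (q.2 : K))) := hFn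
            _ = _ := by ring
        exact le_of_mul_le_mul_right h2 h1
      · rw [Real.le_log_iff_exp_le hT0]
        exact hGT
  have hXfin' : (XB J S k b).Finite := hXfin
  have hPTfin : (PT J T R).Finite := (hAS.union hXfin').subset hPT
  refine ⟨hPTfin, ?_⟩
  have c1 : (PT J T R).ncard ≤ (AS J S k T R).ncard + (XB J S k b).ncard :=
    (Set.ncard_le_ncard hPT (hAS.union hXfin')).trans (Set.ncard_union_le _ _)
  have c2 : (AS J S k T R).ncard ≤ (PT J T R).ncard + (XB J S k b).ncard :=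
    (Set.ncard_le_ncard hAS' (hPTfin.union hXfin')).trans (Set.ncard_union_le _ _)
  have c1' : ((PT J T R).ncard : ℝ) ≤ (AS J S k T R).ncard + (XB J S k b).ncard := by
    exact_mod_cast c1
  have c2' : ((AS J S k T R).ncard : ℝ) ≤ (PT J T R).ncard + (XB J S k b).ncard := by
    exact_mod_cast c2
  have c3 : ((XB J S k b).ncard : ℝ) ≤ C * b ^ (2 * d) * errS S k := hXcard
  have c4 : C * b ^ (2 * d) * errS S k =
      C * (B ^ (2 * d) * (N ^ 3 * T) ^ (2 / 3 : ℝ)) * R ^ (2 / 3 : ℝ) * errS S k := by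
    rw [hbpow]; ring
  rw [← c4, abs_le]
  constructor <;> linarith

theorem PT_eq {K : Type*} [Field K] [NumberField K] {T R : ℝ} (hT : 2 ≤ T) (hR : 0 < R)
    {J : Ideal (𝓞 K)} (hJ : J ≠ ⊥) :
    {q : 𝓞 K × 𝓞 K | q.2 ≠ 0 ∧ Ideal.span {q.1, q.2} = J ∧
      mixedEmbedding K (q.2 : K) ∈ fundamentalCone K ∧ (q.1 : K) / (q.2 : K) ∈ UT K T R} =
    PT J T R := by
  ext q
  constructor
  · rintro ⟨hz, hspan, hcone, ⟨h0, h1, hrad⟩, hLG, hv⟩
    have hz' : (q.2 : K) ≠ 0 := by exact_mod_cast hz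
    have hx : q.1 ≠ 0 := by
      intro h
      apply h0
      rw [h]
      simp
    have hne : q.1 ≠ q.2 := by
      intro h
      apply h1
      rw [h, div_self hz']
    refine ⟨⟨hx, hz, hne, hspan, hcone, ?_⟩, ?_, hLG⟩
    · rw [← Real.le_log_iff_exp_le hR]
      exact hrad
    · rw [emb_mem_iff]
      refine ⟨hcone, fun v => ?_⟩
      have hvz := pos_of_mem hcone v
      obtain ⟨a1, a2, a3⟩ := hv v
      have e : 1 - (q.1 : K) / (q.2 : K) = ((q.2 : K) - (q.1 : K)) / (q.2 : K) := by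
        field_simp
      rw [e] at a3
      rw [map_div₀] at a1 a2 a3
      refine ⟨?_, ?_, ?_⟩
      · rwa [div_le_iff₀ hvz] at a1
      · rw [mul_div_assoc', le_div_iff₀ hvz, one_mul] at a2
        exact a2
      · rw [mul_div_assoc', le_div_iff₀ hvz, one_mul] at a3
        exact a3
  · rintro ⟨⟨hx, hz, hne, hspan, hcone, hrad⟩, hemb, hLG⟩
    have hz' : (q.2 : K) ≠ 0 := by exact_mod_cast hz
    have hx' : (q.1 : K) ≠ 0 := by exact_mod_cast hx
    refine ⟨hz, hspan, hcone, ⟨div_ne_zero hx' hz', ?_, ?_⟩, hLG, fun v => ?_⟩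
    · intro h
      rw [div_eq_one_iff_eq hz'] at h
      exact hne (by exact_mod_cast h)
    · rw [Real.le_log_iff_exp_le hR]
      exact hrad
    · rw [emb_mem_iff] at hemb
      have hvz := pos_of_mem hcone v
      obtain ⟨a1, a2, a3⟩ := hemb.2 v
      have e : 1 - (q.1 : K) / (q.2 : K) = ((q.2 : K) - (q.1 : K)) / (q.2 : K) := by
        field_simp
      rw [e, map_div₀, map_div₀]
      refine ⟨?_, ?_, ?_⟩
      · rwa [div_le_iff₀ hvz]
      · rw [mul_div_assoc', le_div_iff₀ hvz, one_mul]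
        exact a2
      · rw [mul_div_assoc', le_div_iff₀ hvz, one_mul]
        exact a3

end main

end AbcAsy
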