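import Pool.Agent.Work.MP_a793bb_nt.Asy.Defs

/-!
# The excess ideal

Proof. `exI y = ∏ᶠ p, p ^ (kp p y - 1).toNat`, a product over the finite set `Zp y` (`finite_Zp`,
`av_lt_one_iff_kp`); copy the lemmas on `partI` in `Parts.lean` (`partI_eq`, `partI_ne_bot`,
`ex_partI`, `log_absNorm_partI`). `log_exI`: `∑ (kp - 1) lN p` over `Zp y` is `LP y univ - LR y univ`.
`log_rad_le`: the radical divides the ideal (`Ideal.le_radical`, `absNorm` is monotone for
divisibility). `log_rad_exI`: a prime dividing `exI y` has `kp p y ≥ 2`, so lies in `Zp y`; with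
`absNorm_radical` (see `log_absNorm_radical_partI`) the logarithm is `Rs {p | 2 ≤ kp p y} ≤ Rs (Zp y)`.
-/

set_option autoImplicit false

namespace AbcAsy

open NumberField IsDedekindDomain Pool.Agent.Work.MP_a793bb_nt
  Pool.Agent.Work.MP_a793bb_nt.BPlus

variable {K : Type*} [Field K] [NumberField K]

private theorem exI_exp_zero {y : K} (hy : y ≠ 0) {p : HeightOneSpectrum (𝓞 K)} (hp : p ∉ Zp y) :
    (kp p y - 1).toNat = 0 := by
  have h : ¬ 0 < kp p y := fun h => hp ((av_lt_one_iff_kp p hy).mpr h)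
  omega

theorem exI_eq {y : K} (hy : y ≠ 0) :
    exI y = ∏ p ∈ (finite_Zp hy).toFinset, p.asIdeal ^ (kp p y - 1).toNat := by
  apply finprod_eq_prod_of_mulSupport_subset
  intro p hp
  by_contra hcon
  apply hp
  have h : p ∉ Zp y := fun h => hcon (by simpa using h)
  simp [exI_exp_zero hy h]

theorem exI_ne_bot {y : K} (hy : y ≠ 0) : exI y ≠ ⊥ := by
  rw [exI_eq hy, ← Ideal.zero_eq_bot, Finset.prod_ne_zero_iff]
  intro p _
  exact pow_ne_zero _ p.ne_bot

theorem ex_exI {y : K} (hy : y ≠ 0) (p : HeightOneSpectrum (𝓞 K)) :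
    ex (exI y) p = (kp p y - 1).toNat := by
  classical
  rw [exI_eq hy, ex_prod]
  by_cases h : p ∈ (finite_Zp hy).toFinset
  · rw [if_pos h]
  · rw [if_neg h, exI_exp_zero hy (fun h2 => h (by simpa using h2))]

theorem log_exI {y : K} (hy : y ≠ 0) :
    Real.log (Ideal.absNorm (exI y)) = LP y Set.univ - LR y Set.univ := by
  classical
  have hT : ∀ p ∈ Zp y, p ∈ (finite_Zp hy).toFinset := fun p hp => by simpa using hp
  rw [LP_eq hy Set.univ _ hT, LR_eq_sum hy, exI_eq hy, map_prod, ← Finset.sum_sub_distrib]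
  push_cast
  rw [Real.log_prod]
  · refine Finset.sum_congr rfl fun p hp => ?_
    have hp' : p ∈ Zp y := by simpa using hp
    have h0 : 0 < kp p y := (av_lt_one_iff_kp p hy).mp hp'
    rw [map_pow]
    push_cast
    rw [Real.log_pow, lpt, if_pos ⟨h0, Set.mem_univ _⟩, if_pos ⟨h0, Set.mem_univ _⟩]
    have h2 : (((kp p y - 1).toNat : ℕ) : ℝ) = (kp p y : ℝ) - 1 := by
      have h3 : (((kp p y - 1).toNat : ℕ) : ℤ) = kp p y - 1 := Int.toNat_of_nonneg (by omega)
      exact_mod_cast h3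
    rw [h2]
    have h4 : Real.log (Ideal.absNorm p.asIdeal : ℝ) = lN p := rfl
    rw [h4]
    ring
  · intro p _
    rw [map_pow]
    push_cast
    have := two_le_Np p
    have h3 : (Ideal.absNorm p.asIdeal : ℝ) = Np p := rfl
    rw [h3]
    positivity

theorem log_rad_le {I : Ideal (𝓞 K)} (hI : I ≠ ⊥) :
    Real.log (Ideal.absNorm I.radical) ≤ Real.log (Ideal.absNorm I) := by
  have h1 : Ideal.absNorm I.radical ∣ Ideal.absNorm I :=
    Ideal.absNorm_dvd_absNorm_of_le Ideal.le_radical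
  have h2 : 0 < Ideal.absNorm I := Nat.pos_of_ne_zero (by rwa [Ne, Ideal.absNorm_eq_zero_iff])
  have h3 : 0 < Ideal.absNorm I.radical :=
    Nat.pos_of_ne_zero (by rw [Ne, Ideal.absNorm_eq_zero_iff]; exact radical_ne_bot hI)
  exact Real.log_le_log (by exact_mod_cast h3) (by exact_mod_cast Nat.le_of_dvd h2 h1)

theorem log_rad_exI {y : K} (hy : y ≠ 0) :
    Real.log (Ideal.absNorm (exI y).radical) ≤ LR y Set.univ := by
  rw [absNorm_radical (exI_ne_bot hy), Real.log_exp, LR]
  refine Rs_mono ((finite_Zp hy).subset fun p hp => (av_lt_one_iff_kp p hy).mpr hp.1) ?_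
  intro p hp
  have h1 := (dvd_iff_ex (exI_ne_bot hy) p).mp hp
  rw [ex_exI hy] at h1
  exact ⟨by omega, Set.mem_univ _⟩

/-- `LG t` is the sum of the logarithms of the norms of the three excess ideals. -/
theorem LG_eq {t : K} (h0 : t ≠ 0) (h1 : t ≠ 1) :
    LG t = ∑ j : Fin 3, Real.log (Ideal.absNorm (exI (side j t))) := by
  rw [LG]
  exact Finset.sum_congr rfl fun j _ => (log_exI (side_ne_zero h0 h1 j)).symm

end AbcAsy
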