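import Pool.Agent.Work.MP_a793bb_nt.Asy.Defs
import Pool.Agent.Work.MP_a793bb_nt.RadK.HtEq

/-!
# The identity `3 h = log rad + log G + archimedean deficiency`

Proof. `rs_ip`: `Ip t` is the disjoint union of the sets `Zp t`, `Zp (1 - t)`, `Zp t⁻¹`
(`Rs_three_le` and its neighbours in `SmallRad.lean` contain one half; `Rs_union_disjoint`), and
`LR y univ = Rs (Zp y)`.

`Av_nonneg`: with `M = max(1, |t|, |1 - t|)` one has `|t| ≤ M`, `|1 - t| ≤ M`, `1 ≤ M`.

`LG_nonneg`: `LR y univ ≤ LP y univ` because each exponent is at least one.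

`three_hh`: `hh t = logHeight ![t, 1 - t, -1]` is the sum over the infinite places of
`mult * log max(|t|, |1 - t|, 1)` plus the sum over the primes of `log max(av t, av (1 - t), 1)`
(`hs_eq` and `hs_sOf` give this with the same shape: `hs s = logHeight ![s, 1, 1 + s]`, see `Mv`). By the product
formula (`prodFormula_log`) for `t` and for `1 - t`, `∑_v mult (log |t|_v + log |1 - t|_v) = ∑_p (k + l) lN p`,
`k = kp p t`, `l = kp p (1 - t)`. So `3 hh t - ∑_v mult * Av v t = ∑_p ((k + l) lN p + 3 log max_p)`, and at a prime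
(`kp_tri`): if `k > 0` then `l = 0`, `max_p = 1`, the term is `k lN p`; if `l > 0` it is `l lN p`; if
`k < 0` then `l = k`, `max_p = N(p) ^ (-k)`, the term is `- k lN p`; if `k = l = 0` it is `0`. The total is
`∑_j LP (side j t) univ` (`LP_eq`, `side_eq`).
-/

set_option autoImplicit false

namespace AbcAsy

open NumberField IsDedekindDomain Height Pool.Agent.Work.MP_a793bb_nt
  Pool.Agent.Work.MP_a793bb_nt.BPlus

variable {K : Type*} [Field K] [NumberField K]

theorem LR_univ_eq_Rs {y : K} (hy : y ≠ 0) : LR y Set.univ = Rs (Zp y) := by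
  rw [LR]
  congr 1
  ext p
  constructor
  · rintro ⟨h, -⟩
    exact (av_lt_one_iff_kp p hy).mpr h
  · intro h
    exact ⟨(av_lt_one_iff_kp p hy).mp h, Set.mem_univ _⟩

theorem rs_ip {t : K} (h0 : t ≠ 0) (h1 : t ≠ 1) :
    Rs (Ip t) = ∑ j : Fin 3, LR (side j t) Set.univ := by
  have h1' : 1 - t ≠ 0 := sub_ne_zero.mpr (Ne.symm h1)
  have hsum : ∑ j : Fin 3, LR (side j t) Set.univ = Rs (Zp t) + Rs (Zp (1 - t)) + Rs (Zp t⁻¹) := by
    rw [Fin.sum_univ_three]
    change LR t Set.univ + LR (1 - t) Set.univ + LR t⁻¹ Set.univ = _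
    rw [LR_univ_eq_Rs h0, LR_univ_eq_Rs h1', LR_univ_eq_Rs (inv_ne_zero h0)]
  have d1 : Disjoint (Zp t) (Zp (1 - t)) := by
    rw [Set.disjoint_left]
    intro p hp hq
    rw [mem_Zp] at hp hq
    have := av_one_sub_eq_of_lt p hp
    linarith
  have d2 : Disjoint (Zp t ∪ Zp (1 - t)) (Zp t⁻¹) := by
    rw [Set.disjoint_left]
    intro p hp hq
    rw [mem_Zp_inv p h0] at hq
    rcases hp with hp | hp
    · rw [mem_Zp] at hp; linarith
    · rw [mem_Zp] at hp
      have := av_one_sub_eq_of_gt p hq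
      linarith
  rw [hsum, ← Rs_union_disjoint d1 (finite_Zp h0) (finite_Zp h1'),
    ← Rs_union_disjoint d2 ((finite_Zp h0).union (finite_Zp h1')) (finite_Zp (inv_ne_zero h0))]
  congr 1
  ext p
  constructor
  · intro hp
    rw [mem_Ip] at hp
    rcases lt_trichotomy (av p t) 1 with h | h | h
    · exact Or.inl (Or.inl h)
    · refine Or.inl (Or.inr ?_)
      have h2 : av p (1 - t) ≤ 1 := by
        refine (av_sub_le p 1 t).trans ?_
        rw [av_one, h, max_self]
      exact lt_of_le_of_ne h2 (fun h3 => hp ⟨h, h3⟩)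
    · exact Or.inr ((mem_Zp_inv p h0).mpr h)
  · rintro ((hp | hp) | hp)
    · exact Zp_subset_Ip t hp
    · exact Zp_one_sub_subset_Ip t hp
    · exact Zp_inv_subset_Ip h0 hp

theorem Av_nonneg (v : InfinitePlace K) {t : K} (h0 : t ≠ 0) (h1 : t ≠ 1) : 0 ≤ Av v t := by
  have h1' : 1 - t ≠ 0 := sub_ne_zero.mpr (Ne.symm h1)
  have e1 : Real.log (v t) ≤ Real.log (max 1 (max (v t) (v (1 - t)))) :=
    Real.log_le_log (InfinitePlace.pos_iff.mpr h0)
      ((le_max_left _ _).trans (le_max_right _ _))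
  have e2 : Real.log (v (1 - t)) ≤ Real.log (max 1 (max (v t) (v (1 - t)))) :=
    Real.log_le_log (InfinitePlace.pos_iff.mpr h1')
      ((le_max_right _ _).trans (le_max_right _ _))
  have e3 : 0 ≤ Real.log (max 1 (max (v t) (v (1 - t)))) := Real.log_nonneg (le_max_left _ _)
  rw [Av]
  linarith

theorem LR_le_LP {y : K} (hy : y ≠ 0) : LR y Set.univ ≤ LP y Set.univ := by
  classical
  have hT : ∀ p ∈ Zp y, p ∈ (finite_Zp hy).toFinset := fun p hp => by simpa using hp
  rw [LR_eq_sum hy, LP_eq hy Set.univ _ hT]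
  refine Finset.sum_le_sum fun p _ => ?_
  rw [lpt]
  split_ifs with h
  · have h2 : (1 : ℝ) ≤ (kp p y : ℝ) := by exact_mod_cast h.1
    have h3 := lN_pos p
    nlinarith
  · exact le_rfl

theorem LG_nonneg {t : K} (h0 : t ≠ 0) (h1 : t ≠ 1) : 0 ≤ LG t := by
  rw [LG]
  exact Finset.sum_nonneg fun j _ => sub_nonneg.mpr (LR_le_LP (side_ne_zero h0 h1 j))

omit [NumberField K] in
private theorem v_neg (v : InfinitePlace K) (x : K) : v (-x) = v x := v.1.map_neg x

private theorem log_max_div {a b c : ℝ} (ha : 0 < a) (hb : 0 < b) (hc : 0 < c) :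
    Real.log (max (a / b) (max 1 (c / b))) = Real.log (max b (max a c)) - Real.log b := by
  have h : max (a / b) (max 1 (c / b)) = max b (max a c) / b := by
    rw [show (1 : ℝ) = b / b from (div_self hb.ne').symm, ← max_div_div_right hb.le,
      ← max_div_div_right hb.le, max_left_comm]
  rw [h, Real.log_div (lt_max_of_lt_left hb).ne' hb.ne']

theorem three_hh {t : K} (h0 : t ≠ 0) (h1 : t ≠ 1) :
    3 * hh t = Rs (Ip t) + LG t + ∑ v : InfinitePlace K, (v.mult : ℝ) * Av v t := by
  have h1' : 1 - t ≠ 0 := sub_ne_zero.mpr (Ne.symm h1)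
  have h1'' : t - 1 ≠ 0 := sub_ne_zero.mpr h1
  have hrs : Rs (Ip t) + LG t = ∑ j : Fin 3, LP (side j t) Set.univ := by
    rw [rs_ip h0 h1, LG, ← Finset.sum_add_distrib]
    exact Finset.sum_congr rfl fun j _ => by ring
  have hu : ∀ u : Fin 3, ∑ v : InfinitePlace K, (v.mult : ℝ) *
      (Real.log (v (1 + sOf u t)) - Real.log (Mv v (sOf u t))) =
      LP (side u t) Set.univ - hh t := by
    intro u
    rw [side_eq (one_add_sOf_ne_zero h0 h1 u), hs_sOf h0 h1 u, (sameNum_c h0 h1 u).LP_eq]
  have hv : ∀ v : InfinitePlace K, ∑ u : Fin 3,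
      (Real.log (v (1 + sOf u t)) - Real.log (Mv v (sOf u t))) = -Av v t := by
    intro v
    have p0 : 0 < v t := InfinitePlace.pos_iff.mpr h0
    have p1 : 0 < v (1 - t) := InfinitePlace.pos_iff.mpr h1'
    have hsym : v (t - 1) = v (1 - t) := by rw [← v_neg, neg_sub]
    have e0 : Real.log (v (1 + sOf 0 t)) - Real.log (Mv v (sOf 0 t)) =
        Real.log (v t) - Real.log (max 1 (max (v t) (v (1 - t)))) := by
      rw [Mv, one_add_sOf h0 h1]
      change Real.log (v t) - Real.log (max (v (t - 1)) (max 1 (v t))) = _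
      rw [hsym]
      congr 2
      rw [max_comm, max_assoc]
    have e1 : Real.log (v (1 + sOf 1 t)) - Real.log (Mv v (sOf 1 t)) =
        Real.log (v (1 - t)) - Real.log (max 1 (max (v t) (v (1 - t)))) := by
      rw [Mv, one_add_sOf h0 h1]
      change Real.log (v ((t - 1) / t)) - Real.log (max (v (-t⁻¹)) (max 1 (v ((t - 1) / t)))) = _
      rw [v_neg, map_inv₀, map_div₀, hsym, ← one_div, log_max_div one_pos p0 p1,
        Real.log_div p1.ne' p0.ne', max_left_comm]
      ring
    have e2 : Real.log (v (1 + sOf 2 t)) - Real.log (Mv v (sOf 2 t)) =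
        -Real.log (max 1 (max (v t) (v (1 - t)))) := by
      rw [Mv, one_add_sOf h0 h1]
      change Real.log (v (1 - t)⁻¹) - Real.log (max (v (t / (1 - t))) (max 1 (v (1 - t)⁻¹))) = _
      rw [map_inv₀, map_div₀, ← one_div, log_max_div p0 p1 one_pos,
        Real.log_div one_ne_zero p1.ne', Real.log_one]
      have e3 : max (v (1 - t)) (max (v t) 1) = max 1 (max (v t) (v (1 - t))) := by
        rw [max_comm, max_comm (v t) 1, max_assoc]
      rw [e3]
      ring
    rw [Fin.sum_univ_three, e0, e1, e2, Av]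
    ring
  have hsum : ∑ u : Fin 3, (LP (side u t) Set.univ - hh t) =
      -∑ v : InfinitePlace K, (v.mult : ℝ) * Av v t := by
    rw [← Finset.sum_neg_distrib]
    rw [← Finset.sum_congr rfl fun u _ => hu u, Finset.sum_comm]
    refine Finset.sum_congr rfl fun v _ => ?_
    rw [← Finset.mul_sum, hv v]
    ring
  rw [Finset.sum_sub_distrib, Finset.sum_const, Finset.card_univ, Fintype.card_fin,
    nsmul_eq_mul] at hsum
  push_cast at hsum
  rw [hrs]
  linarith

/-- The height as a sum over the places. -/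
theorem hh_formula {t : K} (h0 : t ≠ 0) (h1 : t ≠ 1) (T : Finset (HeightOneSpectrum (𝓞 K)))
    (hT : ∀ p, 1 < av p t → p ∈ T) :
    hh t = ∑ v : InfinitePlace K, (v.mult : ℝ) * Real.log (max 1 (max (v t) (v (1 - t)))) +
      ∑ p ∈ T, Real.log (max 1 (av p t)) := by
  have hle : ∀ p : HeightOneSpectrum (𝓞 K), max (av p (t - 1)) 1 = max 1 (av p t) := by
    intro p
    rw [← av_neg, neg_sub]
    rcases lt_trichotomy (av p t) 1 with h | h | h
    · rw [av_one_sub_eq_of_lt p h, max_eq_left h.le, max_self]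
    · rw [h, max_self, max_eq_right]
      refine (av_sub_le p 1 t).trans ?_
      rw [av_one, h, max_self]
    · rw [av_one_sub_eq_of_gt p h, max_comm]
  rw [← hs_sOf h0 h1 0]
  change hs (t - 1) = _
  rw [hs_eq (t - 1) T]
  · congr 1
    · refine Finset.sum_congr rfl fun v _ => ?_
      rw [Mv]
      have e1 : (1 : K) + (t - 1) = t := by ring
      have e2 : v (t - 1) = v (1 - t) := by rw [← v_neg, neg_sub]
      rw [e1, e2, max_comm, max_assoc]
    · exact Finset.sum_congr rfl fun p _ => by rw [hle p]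
  · intro p hp
    refine hT p ?_
    have h2 := hle p
    rw [max_eq_left hp.le] at h2
    by_contra hcon
    rw [not_lt] at hcon
    rw [max_eq_left hcon] at h2
    linarith

end AbcAsy
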