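import Pool.Agent.Work.MP_a793bb_nt.Asy.SMem
import Pool.Agent.Work.MP_a793bb_nt.Asy.TIdent
import Pool.Agent.Work.MP_a793bb_nt.Asy.TExI

/-!
# Pairs and their quotients

Let `x, z ∈ 𝓞 K`, `x, z ≠ 0`, `x ≠ z`, `J = span {x, z}` (nonzero), `t = x / z`. For every prime `p`,
`ex J p = min (ex (span {x}) p) (ex (span {z}) p)` (`Ideal.span_pair`, sup of ideals), `ex (span {x}) p = kp p x` (`ex_span`).

Proof of `ex_side`: `kp p t = kp x - kp z`; if positive then `ex J p = kp z`, so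
`(kp p t).toNat = ex (span {x}) p - ex J p`; if not positive then `ex J p = kp x` and both sides vanish. For `t⁻¹` exchange `x` and
`z`; for `1 - t = (z - x) / z`: `J = span {z - x, z}` as well.

Proof of `log_Fn_emb`: `Fn (emb q) = |N(x)| |N(z)| |N(z - x)|` (`mixedEmbedding.norm_eq_norm`, `Ideal.absNorm_span_singleton`), the logarithm of
`absNorm (span {x})` is `∑_p ex (span {x}) p lN p = log N(J) + ∑_p (kp p t).toNat lN p = log N(J) + LP t univ` (`LP_eq`;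
`absNorm_prod_ex` in `IdealCount.lean`), the same for the others; `∑_j LP (side j t) univ = LG t + Rs (Ip t)` (definition of `LG`, `rs_ip`).

Proof of `mI_eq`: by `mem_pow_mul_iff` and `ex_side`, `vI J k p x = min k (kp p t).toNat` etc. (`Nat.findGreatest`; all of `x, z, z - x` are nonzero and
lie in `J`), so `mI J k p q = min k (max of the three exponents)`.

Proof of `GS_eq_of_not_special`: `exp (LG t) = ∏_p N(p) ^ (m_p - 1)`, `m_p` the largest of the three exponents (at most one is positive,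
`kp_tri`; `LG_eq`, `log_exI`); if `q` is not special then `m_p ≤ 1` for `p ∉ S` and `m_p ≤ k` for all `p` (`mem_pow_mul_iff`, `ex_side`), so the product
is `GS J S k q`.

Proof of `copI_of_span`: if `q.1, q.2 ∈ p * J` then `J ≤ p * J`, impossible. Proof of `special_of_not_span`: `span {q.1, q.2} = J * B` with `B ≠ ⊤`
(`Ideal.dvd_iff_le`; `q.1, q.2 ∈ J`), `B ≠ ⊥`, so some prime `p ∣ B`: `q.1, q.2 ∈ p * J`; by the hypothesis `p ∉ S`, so `q` is special (last alternative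
of the first line).
-/

set_option autoImplicit false

namespace AbcAsy

open NumberField IsDedekindDomain Pool.Agent.Work.MP_a793bb_nt Pool.Agent.Work.MP_a793bb_nt.BPlus

variable {K : Type*} [Field K] [NumberField K]

/-! ### Auxiliary lemmas -/

private theorem pp_kp_tri (p : HeightOneSpectrum (𝓞 K)) {t : K} (h0 : t ≠ 0) (h1 : t ≠ 1) :
    (0 < kp p t ∧ kp p (1 - t) = 0) ∨ (kp p t < 0 ∧ kp p (1 - t) = kp p t) ∨
      (kp p t = 0 ∧ 0 ≤ kp p (1 - t)) := kp_tri p h0 h1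

private theorem pp_mem_pow {x : 𝓞 K} (hx : x ≠ 0) (p : HeightOneSpectrum (𝓞 K)) (k : ℕ) :
    x ∈ p.asIdeal ^ k ↔ k ≤ ex (Ideal.span {x}) p := by
  have hI : Ideal.span {x} ≠ (⊥ : Ideal (𝓞 K)) := by simpa using hx
  rw [← pow_ex_dvd p hI, Ideal.dvd_span_singleton]

private theorem pp_ex_pair {x z : 𝓞 K} (hx : x ≠ 0) (hz : z ≠ 0) (p : HeightOneSpectrum (𝓞 K)) :
    ex (Ideal.span {x, z}) p = min (ex (Ideal.span {x}) p) (ex (Ideal.span {z}) p) := by
  have hI : Ideal.span {x, z} ≠ (⊥ : Ideal (𝓞 K)) := by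
    intro h
    have h1 : x ∈ (⊥ : Ideal (𝓞 K)) := by
      rw [← h]
      exact Ideal.subset_span (Set.mem_insert _ _)
    exact hx (by simpa using h1)
  refine ex_eq_iff p hI fun k => ?_
  rw [le_min_iff, ← pp_mem_pow hx, ← pp_mem_pow hz, Ideal.dvd_iff_le, Ideal.span_le]
  constructor
  · intro h
    exact ⟨h (Set.mem_insert _ _), h (Set.mem_insert_of_mem _ rfl)⟩
  · rintro ⟨h1, h2⟩ y hy
    rcases hy with rfl | hy
    · exact h1
    · rw [Set.mem_singleton_iff] at hy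
      rw [hy]
      exact h2

private theorem pp_span_sub (x z : 𝓞 K) : Ideal.span {z - x, z} = Ideal.span {x, z} := by
  apply le_antisymm
  · rw [Ideal.span_le]
    rintro y (rfl | hy)
    · exact Ideal.sub_mem _ (Ideal.subset_span (Set.mem_insert_of_mem _ rfl))
        (Ideal.subset_span (Set.mem_insert _ _))
    · rw [Set.mem_singleton_iff] at hy
      rw [hy]
      exact Ideal.subset_span (Set.mem_insert_of_mem _ rfl)
  · rw [Ideal.span_le]
    rintro y (rfl | hy)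
    · have h1 : y = z - (z - y) := by ring
      have h2 : z - (z - y) ∈ Ideal.span {z - y, z} :=
        Ideal.sub_mem _ (Ideal.subset_span (Set.mem_insert_of_mem _ rfl))
          (Ideal.subset_span (Set.mem_insert _ _))
      rw [← h1] at h2
      exact h2
    · rw [Set.mem_singleton_iff] at hy
      rw [hy]
      exact Ideal.subset_span (Set.mem_insert_of_mem _ rfl)

private theorem pp_coe_ne {x : 𝓞 K} (hx : x ≠ 0) : (x : K) ≠ 0 := by exact_mod_cast hx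

private theorem pp_t_ne {q : 𝓞 K × 𝓞 K} (hx : q.1 ≠ 0) (hz : q.2 ≠ 0) (hne : q.1 ≠ q.2) :
    ((q.1 : K) / (q.2 : K)) ≠ 0 ∧ ((q.1 : K) / (q.2 : K)) ≠ 1 := by
  refine ⟨div_ne_zero (pp_coe_ne hx) (pp_coe_ne hz), fun h => hne ?_⟩
  rw [div_eq_one_iff_eq (pp_coe_ne hz)] at h
  exact_mod_cast h

theorem ex_side {J : Ideal (𝓞 K)} {q : 𝓞 K × 𝓞 K} (hx : q.1 ≠ 0) (hz : q.2 ≠ 0) (hne : q.1 ≠ q.2)
    (hJ : Ideal.span {q.1, q.2} = J) (p : HeightOneSpectrum (𝓞 K)) :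
    (kp p ((q.1 : K) / (q.2 : K))).toNat + ex J p = ex (Ideal.span {q.1}) p ∧
    (kp p (1 - (q.1 : K) / (q.2 : K))).toNat + ex J p = ex (Ideal.span {q.2 - q.1}) p ∧
    (kp p ((q.1 : K) / (q.2 : K))⁻¹).toNat + ex J p = ex (Ideal.span {q.2}) p := by
  obtain ⟨x, z⟩ := q
  simp only at hx hz hne hJ ⊢
  have hd : z - x ≠ 0 := sub_ne_zero.2 (Ne.symm hne)
  have e1 : ex J p = min (ex (Ideal.span {x}) p) (ex (Ideal.span {z}) p) := by
    rw [← hJ]
    exact pp_ex_pair hx hz p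
  have e2 : ex J p = min (ex (Ideal.span {z - x}) p) (ex (Ideal.span {z}) p) := by
    rw [← hJ, ← pp_span_sub]
    exact pp_ex_pair hd hz p
  have a1 := ex_span hx p
  have a2 := ex_span hz p
  have a3 := ex_span hd p
  have b1 := kp_div p (pp_coe_ne hx) (pp_coe_ne hz)
  have b2 : kp p (1 - (x : K) / (z : K)) = kp p ((z - x : 𝓞 K) : K) - kp p (z : K) := by
    rw [← kp_div p (pp_coe_ne hd) (pp_coe_ne hz)]
    congr 1
    have := pp_coe_ne hz
    push_cast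
    field_simp
  have b3 : kp p ((x : K) / (z : K))⁻¹ = kp p (z : K) - kp p (x : K) := by
    rw [← kp_div p (pp_coe_ne hz) (pp_coe_ne hx), inv_div]
  rw [b1, b2, b3]
  refine ⟨?_, ?_, ?_⟩ <;> omega

private theorem pp_log_span {J : Ideal (𝓞 K)} (hJ : J ≠ ⊥) {x : 𝓞 K} (hx : x ≠ 0) {y : K}
    (hy : y ≠ 0) (h : ∀ p, (kp p y).toNat + ex J p = ex (Ideal.span {x}) p) :
    Real.log |(Algebra.norm ℚ (x : K) : ℝ)| = LP y Set.univ + Real.log (Ideal.absNorm J) := by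
  have hI : Ideal.span {x} ≠ (⊥ : Ideal (𝓞 K)) := by simpa using hx
  have h1 : Ideal.span {x} = numI y * J := by
    refine ideal_ext_of_ex hI (mul_ne_zero (numI_ne_bot hy) hJ) fun p => ?_
    rw [ex_mul (numI_ne_bot hy) hJ, ex_numI' hy, h p]
  have h2 : |(Algebra.norm ℚ (x : K) : ℝ)| = (Ideal.absNorm (Ideal.span {x}) : ℝ) := by
    rw [Ideal.absNorm_span_singleton, ← Algebra.coe_norm_int, Rat.cast_intCast,
      Nat.cast_natAbs, Int.cast_abs]
  have h3 : (Ideal.absNorm (numI y) : ℝ) ≠ 0 := by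
    have := Ideal.absNorm_ne_zero_iff (numI y)
    have h4 : Ideal.absNorm (numI y) ≠ 0 := by
      rw [Ne, Ideal.absNorm_eq_zero_iff]
      exact numI_ne_bot hy
    exact_mod_cast h4
  have h4 : (Ideal.absNorm J : ℝ) ≠ 0 := by
    have h4 : Ideal.absNorm J ≠ 0 := by
      rw [Ne, Ideal.absNorm_eq_zero_iff]
      exact hJ
    exact_mod_cast h4
  rw [h2, h1, map_mul, Nat.cast_mul, Real.log_mul h3 h4, ← partI_univ hy, log_absNorm_partI hy]

theorem log_Fn_emb {J : Ideal (𝓞 K)} {q : 𝓞 K × 𝓞 K} (hx : q.1 ≠ 0) (hz : q.2 ≠ 0)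
    (hne : q.1 ≠ q.2) (hJ : Ideal.span {q.1, q.2} = J) :
    Real.log (Fn (emb q)) = Rs (Ip ((q.1 : K) / (q.2 : K))) + LG ((q.1 : K) / (q.2 : K)) +
      3 * Real.log (Ideal.absNorm J) := by
  obtain ⟨h0, h1⟩ := pp_t_ne hx hz hne
  have hside := ex_side hx hz hne hJ
  have hJ0 : J ≠ ⊥ := by
    intro h
    rw [← hJ] at h
    have h2 : q.1 ∈ (⊥ : Ideal (𝓞 K)) := by
      rw [← h]
      exact Ideal.subset_span (Set.mem_insert _ _)
    exact hx (by simpa using h2)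
  have hd : q.2 - q.1 ≠ 0 := sub_ne_zero.2 (Ne.symm hne)
  have hpos : ∀ x : 𝓞 K, x ≠ 0 → |(Algebra.norm ℚ (x : K) : ℝ)| ≠ 0 := by
    intro x hx
    rw [abs_ne_zero]
    have : Algebra.norm ℚ (x : K) ≠ 0 := Algebra.norm_ne_zero_iff.2 (pp_coe_ne hx)
    exact_mod_cast this
  have h1t : 1 - (q.1 : K) / (q.2 : K) ≠ 0 := sub_ne_zero.2 (Ne.symm h1)
  have e1 : Fn (emb q) = |(Algebra.norm ℚ (q.1 : K) : ℝ)| * |(Algebra.norm ℚ (q.2 : K) : ℝ)| *
      |(Algebra.norm ℚ ((q.2 - q.1 : 𝓞 K) : K) : ℝ)| := by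
    unfold Fn emb
    simp only
    rw [← map_sub, mixedEmbedding.norm_eq_norm, mixedEmbedding.norm_eq_norm, ← map_sub,
      mixedEmbedding.norm_eq_norm]
    push_cast
    rfl
  rw [e1, Real.log_mul (mul_ne_zero (hpos _ hx) (hpos _ hz)) (hpos _ hd),
    Real.log_mul (hpos _ hx) (hpos _ hz), pp_log_span hJ0 hx h0 (fun p => (hside p).1),
    pp_log_span hJ0 hz (inv_ne_zero h0) (fun p => (hside p).2.2),
    pp_log_span hJ0 hd h1t (fun p => (hside p).2.1), rs_ip h0 h1]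
  unfold LG
  rw [← Finset.sum_add_distrib]
  simp only [Fin.sum_univ_three, side, Matrix.cons_val]
  ring

open Classical in
private theorem pp_vI {J : Ideal (𝓞 K)} (hJ : J ≠ ⊥) {x : 𝓞 K} (hx : x ≠ 0) (hxJ : x ∈ J)
    (p : HeightOneSpectrum (𝓞 K)) {m : ℕ} (hm : m + ex J p = ex (Ideal.span {x}) p) (k : ℕ) :
    vI J k p x = min k m := by
  unfold vI
  have hP : ∀ i, x ∈ p.asIdeal ^ i * J ↔ i ≤ m := by
    intro i
    rw [mem_pow_mul_iff hJ hx]
    constructor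
    · rintro ⟨-, h⟩
      omega
    · intro h
      exact ⟨hxJ, by omega⟩
  rw [Nat.findGreatest_eq_iff]
  refine ⟨min_le_left _ _, fun _ => ?_, fun i hi hik => ?_⟩
  · rw [hP]
    exact min_le_right _ _
  · rw [hP]
    omega

private theorem pp_log_prod (E : Ideal (𝓞 K)) (hE : E ≠ ⊥)
    (S : Finset (HeightOneSpectrum (𝓞 K)))
    (hS : ∀ p : HeightOneSpectrum (𝓞 K), ex E p ≠ 0 → p ∈ S) :
    Real.exp (Real.log (Ideal.absNorm E)) =
      ∏ p ∈ S, (Ideal.absNorm p.asIdeal : ℝ) ^ ex E p := by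
  have h0 : (0 : ℝ) < (Ideal.absNorm E : ℝ) := by
    have h4 : Ideal.absNorm E ≠ 0 := by
      rw [Ne, Ideal.absNorm_eq_zero_iff]
      exact hE
    exact_mod_cast Nat.pos_of_ne_zero h4
  rw [Real.exp_log h0, absNorm_prod_ex hE S fun p hp => hS p fun h => ?_]
  · rfl
  · have := one_le_ex hE hp
    omega

theorem GS_eq_of_not_special {J : Ideal (𝓞 K)} {q : 𝓞 K × 𝓞 K} (hx : q.1 ≠ 0) (hz : q.2 ≠ 0)
    (hne : q.1 ≠ q.2) (hJ : Ideal.span {q.1, q.2} = J) {S : Finset (HeightOneSpectrum (𝓞 K))}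
    {k : ℕ} (hk : 1 ≤ k) (hq : ¬ Special J S k q) :
    GS J S k q = Real.exp (LG ((q.1 : K) / (q.2 : K))) := by
  obtain ⟨h0, h1⟩ := pp_t_ne hx hz hne
  have hside := ex_side hx hz hne hJ
  have hJ0 : J ≠ ⊥ := by
    intro h
    rw [← hJ] at h
    have h2 : q.1 ∈ (⊥ : Ideal (𝓞 K)) := by
      rw [← h]
      exact Ideal.subset_span (Set.mem_insert _ _)
    exact hx (by simpa using h2)
  have hxJ : q.1 ∈ J := by
    rw [← hJ]
    exact Ideal.subset_span (Set.mem_insert _ _)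
  have hzJ : q.2 ∈ J := by
    rw [← hJ]
    exact Ideal.subset_span (Set.mem_insert_of_mem _ rfl)
  have hdJ : q.2 - q.1 ∈ J := Ideal.sub_mem _ hzJ hxJ
  have hd : q.2 - q.1 ≠ 0 := sub_ne_zero.2 (Ne.symm hne)
  have h1t : 1 - (q.1 : K) / (q.2 : K) ≠ 0 := sub_ne_zero.2 (Ne.symm h1)
  obtain ⟨t, ht⟩ : ∃ t : K, t = (q.1 : K) / (q.2 : K) := ⟨_, rfl⟩
  rw [← ht] at h0 h1 hside h1t ⊢
  -- the exponents
  have hmem : ∀ {x : 𝓞 K}, x ≠ 0 → x ∈ J → ∀ (p : HeightOneSpectrum (𝓞 K)) (m i : ℕ),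
      m + ex J p = ex (Ideal.span {x}) p → i ≤ m → x ∈ p.asIdeal ^ i * J := by
    intro x hx hxJ p m i hm hi
    rw [mem_pow_mul_iff hJ0 hx]
    exact ⟨hxJ, by omega⟩
  have hk' : ∀ p : HeightOneSpectrum (𝓞 K), (kp p t).toNat ≤ k ∧ (kp p (1 - t)).toNat ≤ k ∧
      (kp p t⁻¹).toNat ≤ k := by
    intro p
    refine ⟨?_, ?_, ?_⟩
    · by_contra hcon
      exact hq ⟨p, Or.inr (Or.inl (hmem hx hxJ p _ (k + 1) (hside p).1 (by omega)))⟩
    · by_contra hcon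
      exact hq ⟨p, Or.inr (Or.inr (Or.inr (hmem hd hdJ p _ (k + 1) (hside p).2.1 (by omega))))⟩
    · by_contra hcon
      exact hq ⟨p, Or.inr (Or.inr (Or.inl (hmem hz hzJ p _ (k + 1) (hside p).2.2 (by omega))))⟩
  have hS' : ∀ p : HeightOneSpectrum (𝓞 K), p ∉ S → (kp p t).toNat ≤ 1 ∧
      (kp p (1 - t)).toNat ≤ 1 ∧ (kp p t⁻¹).toNat ≤ 1 := by
    intro p hp
    refine ⟨?_, ?_, ?_⟩
    · by_contra hcon
      exact hq ⟨p, Or.inl ⟨hp, Or.inl (hmem hx hxJ p _ 2 (hside p).1 (by omega))⟩⟩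
    · by_contra hcon
      exact hq ⟨p, Or.inl ⟨hp, Or.inr (Or.inr (Or.inl
        (hmem hd hdJ p _ 2 (hside p).2.1 (by omega))))⟩⟩
    · by_contra hcon
      exact hq ⟨p, Or.inl ⟨hp, Or.inr (Or.inl (hmem hz hzJ p _ 2 (hside p).2.2 (by omega)))⟩⟩
  -- the product of the excess ideals
  have n1 := exI_ne_bot h0
  have n2 := exI_ne_bot h1t
  have n3 := exI_ne_bot (inv_ne_zero h0)
  have hLG : LG t = Real.log (Ideal.absNorm (exI t * exI (1 - t) * exI t⁻¹)) := by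
    have hp : ∀ I : Ideal (𝓞 K), I ≠ ⊥ → (Ideal.absNorm I : ℝ) ≠ 0 := by
      intro I hI
      have h4 : Ideal.absNorm I ≠ 0 := by
        rw [Ne, Ideal.absNorm_eq_zero_iff]
        exact hI
      exact_mod_cast h4
    rw [LG_eq h0 h1, map_mul, map_mul, Nat.cast_mul, Nat.cast_mul,
      Real.log_mul (mul_ne_zero (hp _ n1) (hp _ n2)) (hp _ n3), Real.log_mul (hp _ n1) (hp _ n2)]
    simp only [Fin.sum_univ_three, side, Matrix.cons_val]
  have hex : ∀ p, ex (exI t * exI (1 - t) * exI t⁻¹) p =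
      (kp p t - 1).toNat + (kp p (1 - t) - 1).toNat + (kp p t⁻¹ - 1).toNat := by
    intro p
    rw [ex_mul (mul_ne_zero n1 n2) n3, ex_mul n1 n2, ex_exI h0, ex_exI h1t,
      ex_exI (inv_ne_zero h0)]
  rw [hLG, pp_log_prod _ (mul_ne_zero (mul_ne_zero n1 n2) n3) S (by
    intro p hp
    by_contra hcon
    have h2 := hS' p hcon
    rw [hex] at hp
    omega)]
  unfold GS
  refine Finset.prod_congr rfl fun p _ => ?_
  congr 1
  unfold mI
  rw [pp_vI hJ0 hx hxJ p (hside p).1, pp_vI hJ0 hz hzJ p (hside p).2.2,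
    pp_vI hJ0 hd hdJ p (hside p).2.1, hex]
  have h2 := hk' p
  have h3 := kp_inv p h0
  have h4 := kp_tri p h0 h1
  omega

theorem copI_of_span {J : Ideal (𝓞 K)} {q : 𝓞 K × 𝓞 K} (hx : q.1 ≠ 0)
    (hJ : Ideal.span {q.1, q.2} = J) (p : HeightOneSpectrum (𝓞 K)) : copI J p q := by
  rintro ⟨h1, h2⟩
  have hJ0 : J ≠ ⊥ := by
    intro h
    rw [← hJ] at h
    have h2 : q.1 ∈ (⊥ : Ideal (𝓞 K)) := by
      rw [← h]
      exact Ideal.subset_span (Set.mem_insert _ _)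
    exact hx (by simpa using h2)
  have h3 : J ≤ p.asIdeal * J := by
    conv_lhs => rw [← hJ]
    rw [Ideal.span_le]
    rintro y (rfl | hy)
    · exact h1
    · rw [Set.mem_singleton_iff] at hy
      rw [hy]
      exact h2
  have h4 : p.asIdeal * J ∣ J := Ideal.dvd_iff_le.2 h3
  have hp0 : p.asIdeal ≠ ⊥ := p.ne_bot
  have h5 : p.asIdeal ^ (ex J p + 1) ∣ J := by
    have h6 : p.asIdeal ^ (ex J p + 1) ∣ p.asIdeal * J := by
      rw [pow_succ, mul_comm]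
      exact mul_dvd_mul_left _ ((pow_ex_dvd p hJ0).2 le_rfl)
    exact h6.trans h4
  have h6 := (pow_ex_dvd p hJ0).1 h5
  omega

theorem special_of_not_span {J : Ideal (𝓞 K)} (hJ0 : J ≠ ⊥) {q : 𝓞 K × 𝓞 K} (hx : q.1 ≠ 0)
    (h1 : q.1 ∈ J) (h2 : q.2 ∈ J) {S : Finset (HeightOneSpectrum (𝓞 K))} {k : ℕ}
    (hS : ∀ p ∈ S, copI J p q) (hne : Ideal.span {q.1, q.2} ≠ J) : Special J S k q := by
  have hle : Ideal.span {q.1, q.2} ≤ J := by
    rw [Ideal.span_le]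
    rintro y (rfl | hy)
    · exact h1
    · rw [Set.mem_singleton_iff] at hy
      rw [hy]
      exact h2
  obtain ⟨B, hB⟩ := Ideal.dvd_iff_le.2 hle
  have hB1 : B ≠ ⊤ := by
    rintro rfl
    apply hne
    rw [hB, Ideal.mul_top]
  have hB0 : B ≠ ⊥ := by
    rintro rfl
    rw [Ideal.mul_bot] at hB
    have h3 : q.1 ∈ (⊥ : Ideal (𝓞 K)) := by
      rw [← hB]
      exact Ideal.subset_span (Set.mem_insert _ _)
    exact hx (by simpa using h3)
  obtain ⟨M, hM, hBM⟩ := Ideal.exists_le_maximal B hB1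
  have hM0 : M ≠ ⊥ := fun h => hB0 (le_bot_iff.1 (h ▸ hBM))
  obtain ⟨p, hp⟩ : ∃ p : HeightOneSpectrum (𝓞 K), p.asIdeal = M := ⟨⟨M, hM.isPrime, hM0⟩, rfl⟩
  have h3 : J * B ≤ p.asIdeal * J := by
    rw [mul_comm, hp]
    exact Ideal.mul_mono_left hBM
  have h4 : q.1 ∈ p.asIdeal * J := by
    apply h3
    rw [← hB]
    exact Ideal.subset_span (Set.mem_insert _ _)
  have h5 : q.2 ∈ p.asIdeal * J := by
    apply h3
    rw [← hB]
    exact Ideal.subset_span (Set.mem_insert_of_mem _ rfl)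
  have h6 : p ∉ S := fun h => hS p h ⟨h4, h5⟩
  exact ⟨p, Or.inl ⟨h6, Or.inr (Or.inr (Or.inr ⟨h4, h5⟩))⟩⟩

end AbcAsy
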