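import Pool.Agent.Work.MP_a793bb_nt.Asy.STrans

/-!
# Averages are multiplicative

Proof of `avg_mul`. By the Chinese remainder theorem (`Ideal.quotientMulEquivQuotientProd`) the map
`(𝓞 K ⧸ I * J)² → (𝓞 K ⧸ I)² × (𝓞 K ⧸ J)²` is a bijection; for `c ∈ (𝓞 K ⧸ I * J)²` with images `a`, `b` one has
`f (out c) = f (out a)` and `g (out c) = g (out b)` because `f` is periodic modulo `I` and `g` modulo `J`. So the sum over `c` of
`f g` is the product of the two sums (`Fintype.sum_prod_type`, `Finset.sum_mul_sum`), and `absNorm (I * J) = absNorm I * absNorm J`. All the quotients are finite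
(`Ideal.fintypeQuotientOfFreeOfNeBot`), so `finsum` is a finite sum. `avg_congr_per`: for periodic functions the
representatives do not matter.

Proof of `avg_prod`. Induction on `S` (`Finset.induction_on`): `MS (insert p S) k = p ^ k * MS S k`, coprime; `wI k s p` is periodic modulo
`p ^ k` (membership of `x`, `z`, `z - x` in `p ^ i * ⊤`, `i ≤ k`, and of `x`, `z` in `p * ⊤`, `1 ≤ k`), the product over `S` is periodic modulo `MS S k`
(each factor is, as `MS S k ≤ p ^ k`). For `S = ∅`: `avg ⊤ (fun _ => 1) = 1` (one class, norm one).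
-/

set_option autoImplicit false

namespace AbcAsy

open NumberField IsDedekindDomain

variable {K : Type*} [Field K] [NumberField K]

private theorem out_sub {I : Ideal (𝓞 K)} {x : 𝓞 K} {a : 𝓞 K ⧸ I}
    (h : Ideal.Quotient.mk I x = a) : x - Quotient.out a ∈ I := by
  rw [← Ideal.Quotient.eq, Ideal.Quotient.mk_out, h]

theorem avg_mul {I J : Ideal (𝓞 K)} (hI : I ≠ ⊥) (hJ : J ≠ ⊥) (hIJ : IsCoprime I J)
    {f g : 𝓞 K × 𝓞 K → ℝ} (hf : Per I f) (hg : Per J g) :
    avg (I * J) (fun q => f q * g q) = avg I f * avg J g := by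
  have hfI : Finite (𝓞 K ⧸ I) := Ideal.finiteQuotientOfFreeOfNeBot _ hI
  have hfJ : Finite (𝓞 K ⧸ J) := Ideal.finiteQuotientOfFreeOfNeBot _ hJ
  have hfIJ : Finite (𝓞 K ⧸ I * J) := Ideal.finiteQuotientOfFreeOfNeBot _ (mul_ne_zero hI hJ)
  let _ : Fintype (𝓞 K ⧸ I) := Fintype.ofFinite _
  let _ : Fintype (𝓞 K ⧸ J) := Fintype.ofFinite _
  let _ : Fintype (𝓞 K ⧸ I * J) := Fintype.ofFinite _
  set e := Ideal.quotientMulEquivQuotientProd I J hIJ with he
  have he1 : ∀ c : 𝓞 K ⧸ I * J, Quotient.out c - Quotient.out (e c).1 ∈ I := by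
    intro c
    refine out_sub ?_
    rw [he, Ideal.quotientMulEquivQuotientProd_fst]
    conv_rhs => rw [← Ideal.Quotient.mk_out c]
    rw [Ideal.Quotient.factor_mk]
  have he2 : ∀ c : 𝓞 K ⧸ I * J, Quotient.out c - Quotient.out (e c).2 ∈ J := by
    intro c
    refine out_sub ?_
    rw [he, Ideal.quotientMulEquivQuotientProd_snd]
    conv_rhs => rw [← Ideal.Quotient.mk_out c]
    rw [Ideal.Quotient.factor_mk]
  let E : (𝓞 K ⧸ I * J) × (𝓞 K ⧸ I * J) ≃
      ((𝓞 K ⧸ I) × (𝓞 K ⧸ I)) × ((𝓞 K ⧸ J) × (𝓞 K ⧸ J)) :=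
    (Equiv.prodCongr e.toEquiv e.toEquiv).trans (Equiv.prodProdProdComm _ _ _ _)
  have hE : ∀ c, E c = (((e c.1).1, (e c.2).1), ((e c.1).2, (e c.2).2)) := fun c => rfl
  rw [avg, avg, avg, finsum_eq_sum_of_fintype, finsum_eq_sum_of_fintype, finsum_eq_sum_of_fintype,
    map_mul]
  have hsum : ∑ c : (𝓞 K ⧸ I * J) × (𝓞 K ⧸ I * J),
      f (Quotient.out c.1, Quotient.out c.2) * g (Quotient.out c.1, Quotient.out c.2) =
      (∑ c : (𝓞 K ⧸ I) × (𝓞 K ⧸ I), f (Quotient.out c.1, Quotient.out c.2)) *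
      ∑ c : (𝓞 K ⧸ J) × (𝓞 K ⧸ J), g (Quotient.out c.1, Quotient.out c.2) := by
    rw [Finset.sum_mul_sum, ← Fintype.sum_prod_type', ← E.sum_comp]
    refine Finset.sum_congr rfl fun c _ => ?_
    rw [hE]
    congr 1
    · exact hf _ _ (he1 c.1) (he1 c.2)
    · exact hg _ _ (he2 c.1) (he2 c.2)
  rw [hsum]
  push_cast
  rw [mul_pow, div_mul_div_comm]

private theorem findGreatest_congr {P Q : ℕ → Prop} [DecidablePred P] [DecidablePred Q] {k : ℕ}
    (h : ∀ i ≤ k, P i ↔ Q i) : Nat.findGreatest P k = Nat.findGreatest Q k := by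
  induction k with
  | zero => simp
  | succ n ih =>
    rw [Nat.findGreatest_succ, Nat.findGreatest_succ, ih (fun i hi => h i (hi.trans n.le_succ))]
    simp only [h (n + 1) le_rfl]

private theorem mem_congr {p : HeightOneSpectrum (𝓞 K)} {k i : ℕ} (hi : i ≤ k) {x y : 𝓞 K}
    (h : x - y ∈ p.asIdeal ^ k) : x ∈ p.asIdeal ^ i * ⊤ ↔ y ∈ p.asIdeal ^ i * ⊤ := by
  rw [Ideal.mul_top]
  have h2 : x - y ∈ p.asIdeal ^ i := Ideal.pow_le_pow_right hi h
  constructor
  · intro hx
    have : y = x - (x - y) := by ring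
    rw [this]
    exact Ideal.sub_mem _ hx h2
  · intro hy
    have : x = (x - y) + y := by ring
    rw [this]
    exact Ideal.add_mem _ h2 hy

theorem per_wI (k : ℕ) (hk : 1 ≤ k) (s : ℝ) (p : HeightOneSpectrum (𝓞 K)) :
    Per (p.asIdeal ^ k) (wI k s p) := by
  classical
  intro q q' h1 h2
  have h3 : (q.2 - q.1) - (q'.2 - q'.1) ∈ p.asIdeal ^ k := by
    have : (q.2 - q.1) - (q'.2 - q'.1) = (q.2 - q'.2) - (q.1 - q'.1) := by ring
    rw [this]
    exact Ideal.sub_mem _ h2 h1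
  have hv : ∀ x y : 𝓞 K, x - y ∈ p.asIdeal ^ k → vI ⊤ k p x = vI ⊤ k p y := by
    intro x y h
    exact findGreatest_congr fun i hi => mem_congr hi h
  have hm : mI ⊤ k p q = mI ⊤ k p q' := by
    rw [mI, mI, hv _ _ h1, hv _ _ h2, hv _ _ h3]
  have hc : copI ⊤ p q ↔ copI ⊤ p q' := by
    have e1 := mem_congr (p := p) hk h1
    have e2 := mem_congr (p := p) hk h2
    rw [pow_one] at e1 e2
    rw [copI, copI, e1, e2]
  rw [wI, wI, hm]
  by_cases h : copI ⊤ p q
  · rw [if_pos h, if_pos (hc.1 h)]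
  · rw [if_neg h, if_neg (fun h' => h (hc.2 h'))]

theorem avg_prod (S : Finset (HeightOneSpectrum (𝓞 K))) (k : ℕ) (hk : 1 ≤ k) (s : ℝ) :
    avg (MS S k) (fun q => ∏ p ∈ S, wI k s p q) = ∏ p ∈ S, avg (p.asIdeal ^ k) (wI k s p) := by
  classical
  induction S using Finset.induction_on with
  | empty =>
    have h1 : MS (∅ : Finset (HeightOneSpectrum (𝓞 K))) k = 1 := by simp [MS]
    rw [h1]
    have hsub : Subsingleton (𝓞 K ⧸ (1 : Ideal (𝓞 K))) :=
      Ideal.Quotient.subsingleton_iff.2 Ideal.one_eq_top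
    let _ : Unique ((𝓞 K ⧸ (1 : Ideal (𝓞 K))) × (𝓞 K ⧸ (1 : Ideal (𝓞 K)))) :=
      { default := (0, 0), uniq := fun a => Subsingleton.elim _ _ }
    simp only [Finset.prod_empty]
    rw [avg, finsum_unique, map_one]
    norm_num
  | insert p S hp ih =>
    have h1 : MS (insert p S) k = p.asIdeal ^ k * MS S k := by
      rw [MS, Finset.prod_insert hp, MS]
    have hcop : IsCoprime (p.asIdeal ^ k) (MS S k) := by
      refine IsCoprime.pow_left (IsCoprime.prod_right fun q hq => IsCoprime.pow_right ?_)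
      have := p.isMaximal
      have := q.isMaximal
      refine Ideal.isCoprime_of_isMaximal fun h => hp ?_
      have : p = q := HeightOneSpectrum.ext h
      rw [this]
      exact hq
    have hper : Per (MS S k) (fun q => ∏ p ∈ S, wI k s p q) := by
      intro q q' h2 h3
      refine Finset.prod_congr rfl fun r hr => ?_
      have hle : MS S k ≤ r.asIdeal ^ k :=
        Ideal.le_of_dvd (Finset.dvd_prod_of_mem (fun p : HeightOneSpectrum (𝓞 K) =>
          p.asIdeal ^ k) hr)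
      exact per_wI k hk s r q q' (hle h2) (hle h3)
    have hbot : MS S k ≠ ⊥ := MS_ne_bot S k
    have h4 := avg_mul (pow_ne_zero k p.ne_bot) hbot hcop (per_wI k hk s p) hper
    rw [Finset.prod_insert hp, ← ih, ← h4, h1]
    congr 1
    ext q
    rw [Finset.prod_insert hp]

end AbcAsy
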