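import Pool.Agent.Work.MP_a793bb_nt.Asy.Defs

/-!
# More definitions for the sieve
-/

set_option autoImplicit false

namespace AbcAsy

open NumberField IsDedekindDomain

variable {K : Type*} [Field K] [NumberField K]

/-- The modulus of the sieve. -/
noncomputable def MS (S : Finset (HeightOneSpectrum (𝓞 K))) (k : ℕ) : Ideal (𝓞 K) :=
  ∏ p ∈ S, p.asIdeal ^ k

open Classical in
/-- The density of the sieved set. -/
noncomputable def dens (S : Finset (HeightOneSpectrum (𝓞 K))) (k : ℕ) (T : ℝ) : ℝ :=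
  avg (MS S k) (fun q => if (∀ p ∈ S, copI ⊤ p q) ∧ GS ⊤ S k q ≤ T then
    GS ⊤ S k q ^ (2 / 3 : ℝ) else 0)

/-- `f` depends only on the residue classes modulo `I`. -/
def Per (I : Ideal (𝓞 K)) (f : 𝓞 K × 𝓞 K → ℝ) : Prop :=
  ∀ q q' : 𝓞 K × 𝓞 K, q.1 - q'.1 ∈ I → q.2 - q'.2 ∈ I → f q = f q'

open Classical in
/-- The error term of the sieve. -/
noncomputable def errS (S : Finset (HeightOneSpectrum (𝓞 K))) (k : ℕ) : ℝ :=
  ∑' p : HeightOneSpectrum (𝓞 K),
      (if p ∈ S then 0 else (Ideal.absNorm p.asIdeal : ℝ) ^ (-2 : ℝ)) +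
    ∑' p : HeightOneSpectrum (𝓞 K), (Ideal.absNorm p.asIdeal : ℝ) ^ (-((k : ℝ) + 1))

/-- The pairs with `(x, z) = J`, `z` in the fundamental cone, `x`, `z`, `z - x` of comparable size, quotient of radical
at most `R` and `G ≤ T`. -/
def PT (J : Ideal (𝓞 K)) (T R : ℝ) : Set (𝓞 K × 𝓞 K) :=
  {q | q ∈ PS J R ∧ emb q ∈ coneT K T ∧ LG ((q.1 : K) / (q.2 : K)) ≤ Real.log T}

/-- The elements with radical at most `R`, `G ≤ T` and `t`, `1 - t` of size comparable to one at all infinite places. -/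
def UT (K : Type*) [Field K] [NumberField K] (T R : ℝ) : Set K :=
  {t | t ∈ tset K (Real.log R) ∧ LG t ≤ Real.log T ∧
    ∀ v : InfinitePlace K, v t ≤ T ∧ 1 ≤ T * v t ∧ 1 ≤ T * v (1 - t)}

end AbcAsy
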