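import Pool.Agent.Work.MP_a793bb_nt.Asy.SDefs

/-!
# Estimates for the local factors

Proof. `Lk_nonneg`: `1 - 3 / N + 2 / N ^ 2 = (1 - 1 / N) (1 - 2 / N) ≥ 0`, the rest is a sum of nonnegative terms.

`Lk_le`: for `k = 1`, `Lk = 1 - 1 / N ^ 2`. For `k ≥ 2` separate the term `i = 0`, equal to `3 (1 - 1 / N) ^ 2 / N`:
`1 - 3 / N + 2 / N ^ 2 + 3 (1 - 1 / N) ^ 2 / N = 1 - 4 / N ^ 2 + 3 / N ^ 3 ≤ 1`. The others are at most
`3 ∑_{i ≥ 1} N ^ (- 1 - i / 6) = 3 N ^ (- 7 / 6) / (1 - N ^ (- 1 / 6)) ≤ 28 N ^ (- 7 / 6)` (`2 ^ (1 / 6) ≥ 1.12`, i.e.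
`1.12 ^ 6 ≤ 2`), and the last one is `≤ 3 N ^ (- k) N ^ (5 (k - 1) / 6) = 3 N ^ (- 5 / 6 - k / 6) ≤ 3 N ^ (- 7 / 6)`.

`tendsto_Lk`: geometric series with ratio `N ^ (- 1 / 3)`: `∑_i (1 - 1 / N) N ^ (- (i + 1)) (N ^ (2 / 3)) ^ i =
(1 - 1 / N) / (N (1 - N ^ (- 1 / 3)))`, and `N ^ (- k) N ^ (2 (k - 1) / 3) = N ^ (- 2 / 3) (N ^ (- 1 / 3)) ^ k → 0`.

`locFac_bound`: with `x = N ^ (- 1 / 3) ≤ 2 ^ (- 1 / 3) ≤ 0.8`: `locFac N - 1 = - 3 x³ + 2 x⁶ + 3 (1 - x³)² x³ / (1 - x)`, and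
`x³ / (1 - x) = x³ + x⁴ / (1 - x)`, so it is `- 4 x⁶ + 3 x⁹ + 3 (1 - x³)² x⁴ / (1 - x)`, of absolute value at most
`(4 + 3 + 15) x⁴ = 22 N ^ (- 4 / 3)`. `locFac_pos`: `(1 - x³) (1 - 2 x³) ≥ 0` and the last term is positive.
-/

set_option autoImplicit false

namespace AbcAsy

open NumberField Filter Topology Pool.Agent.Work.MP_a793bb_nt

theorem Lk_nonneg (s : ℝ) (k : ℕ) {N : ℝ} (hN : 2 ≤ N) : 0 ≤ Lk s k N := by
  have hN0 : 0 < N := by linarith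
  have h1 : 1 / N ≤ 1 / 2 := one_div_le_one_div_of_le (by norm_num) hN
  have h1' : 0 < 1 / N := by positivity
  have h2 : 1 - 3 / N + 2 / N ^ 2 = (1 - 1 / N) * (1 - 2 * (1 / N)) := by
    field_simp
    ring
  have h3 : 0 ≤ (1 - 1 / N) * (1 - 2 * (1 / N)) :=
    mul_nonneg (by linarith) (by linarith)
  have h4 : 0 ≤ N ^ s := (Real.rpow_pos_of_pos hN0 s).le
  have h5 : 0 ≤ ∑ i ∈ Finset.range (k - 1), (1 - 1 / N) * N⁻¹ ^ (i + 1) * (N ^ s) ^ i :=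
    Finset.sum_nonneg fun i _ => mul_nonneg (mul_nonneg (by linarith) (by positivity))
      (by positivity)
  have h6 : 0 ≤ N⁻¹ ^ k * (N ^ s) ^ (k - 1) := by positivity
  unfold Lk
  rw [h2]
  have h7 : 0 ≤ 3 * (1 - 1 / N) := by linarith
  have := mul_nonneg h7 (add_nonneg h5 h6)
  linarith

private theorem Lk_sub {N x y : ℝ} (s : ℝ) (a b : ℕ) (hx : x ^ (a + b + 1) = N⁻¹)
    (hxy : x * y = 1) (hs : N ^ s = y ^ (a + b)) (m : ℕ) :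
    Lk s (m + 1) N = 1 - 3 * x ^ (a + b + 1) + 2 * (x ^ (a + b + 1)) ^ 2 +
      3 * (1 - x ^ (a + b + 1)) *
        (∑ i ∈ Finset.range m, (1 - x ^ (a + b + 1)) * (x ^ i * x ^ (a + b + 1)) +
          x ^ m * x ^ (a + b + 1)) := by
  have h1 : ∀ i : ℕ, (x ^ (a + b + 1)) ^ (i + 1) * (y ^ (a + b)) ^ i =
      x ^ i * x ^ (a + b + 1) := by
    intro i
    have h2 : (x ^ (a + b + 1)) ^ (i + 1) * (y ^ (a + b)) ^ i =
        (x * y) ^ ((a + b) * i) * (x ^ i * x ^ (a + b + 1)) := by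
      rw [mul_pow, ← pow_mul, ← pow_mul]
      ring
    rw [h2, hxy, one_pow, one_mul]
  unfold Lk
  rw [hs, div_eq_mul_inv 3 N, div_eq_mul_inv 2 (N ^ 2), ← inv_pow, one_div, ← hx,
    Nat.add_sub_cancel, h1]
  congr 3
  refine Finset.sum_congr rfl fun i _ => ?_
  rw [mul_assoc, h1]

theorem Lk_le {k : ℕ} (hk : 1 ≤ k) {N : ℝ} (hN : 2 ≤ N) :
    Lk (5 / 6) k N ≤ 1 + 40 * N ^ (-(7 / 6) : ℝ) := by
  have hN0 : 0 < N := by linarith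
  obtain ⟨m, rfl⟩ : ∃ m, k = m + 1 := ⟨k - 1, by omega⟩
  set x : ℝ := N ^ (-(1 / 6) : ℝ) with hxdef
  have hx0 : 0 < x := Real.rpow_pos_of_pos hN0 _
  have hx6 : x ^ (3 + 2 + 1) = N⁻¹ := by
    rw [hxdef, ← Real.rpow_natCast, ← Real.rpow_mul hN0.le]
    norm_num
    exact Real.rpow_neg_one N
  have hx7 : x ^ 7 = N ^ (-(7 / 6) : ℝ) := by
    rw [hxdef, ← Real.rpow_natCast, ← Real.rpow_mul hN0.le]
    norm_num
  have hxy : x * N ^ ((1 / 6) : ℝ) = 1 := by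
    rw [hxdef, ← Real.rpow_add hN0]
    norm_num
  have hs : N ^ ((5 / 6) : ℝ) = (N ^ ((1 / 6) : ℝ)) ^ (3 + 2) := by
    rw [← Real.rpow_natCast, ← Real.rpow_mul hN0.le]
    norm_num
  have hxb : x ≤ 25 / 28 := by
    by_contra hcon
    push Not at hcon
    have h1 : (25 / 28 : ℝ) ^ 6 < x ^ 6 := pow_lt_pow_left₀ hcon (by norm_num) (by norm_num)
    have h2 : x ^ 6 = N⁻¹ := hx6
    have h3 : N⁻¹ ≤ 2⁻¹ := inv_anti₀ (by norm_num) hN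
    rw [h2] at h1
    norm_num at h1 h3
    linarith
  rw [Lk_sub (5 / 6) 3 2 hx6 hxy hs m, ← hx7]
  simp only [show 3 + 2 + 1 = 6 from rfl]
  have hx1 : x ≤ 1 := by linarith
  have hx6' : x ^ 6 ≤ 1 := pow_le_one₀ hx0.le hx1
  have hx60 : 0 ≤ x ^ 6 := by positivity
  have hx70 : 0 ≤ x ^ 7 := by positivity
  rcases m with _ | n
  · simp only [Finset.range_zero, Finset.sum_empty, pow_zero, one_mul, zero_add]
    nlinarith [sq_nonneg (x ^ 6)]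
  · have h1 : ∑ i ∈ Finset.range (n + 1), (1 - x ^ 6) * (x ^ i * x ^ 6) =
        (1 - x ^ 6) * (x ^ 6 + x ^ 7 * ∑ i ∈ Finset.range n, x ^ i) := by
      rw [Finset.sum_range_succ', Finset.mul_sum]
      have : ∀ i : ℕ, (1 - x ^ 6) * (x ^ (i + 1) * x ^ 6) = (1 - x ^ 6) * (x ^ 7 * x ^ i) :=
        fun i => by ring
      simp only [this]
      rw [← Finset.mul_sum]
      ring
    have h2 : ∑ i ∈ Finset.range n, x ^ i ≤ 28 / 3 := by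
      have h3 : (∑ i ∈ Finset.range n, x ^ i) * (1 - x) = 1 - x ^ n := by
        have := geom_sum_mul x n
        linarith
      have h4 : 0 ≤ x ^ n := by positivity
      have h5 : (∑ i ∈ Finset.range n, x ^ i) * (3 / 28) ≤
          (∑ i ∈ Finset.range n, x ^ i) * (1 - x) :=
        mul_le_mul_of_nonneg_left (by linarith) (Finset.sum_nonneg fun i _ => by positivity)
      linarith
    have h3 : x ^ (n + 1) * x ^ 6 ≤ x ^ 7 := by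
      have h4 : x ^ n ≤ 1 := pow_le_one₀ hx0.le hx1
      have h5 : x ^ (n + 1) * x ^ 6 = x ^ n * x ^ 7 := by ring
      rw [h5]
      nlinarith
    rw [h1]
    set A : ℝ := ∑ i ∈ Finset.range n, x ^ i with hA
    have hA0 : 0 ≤ A := Finset.sum_nonneg fun i _ => by positivity
    set B : ℝ := x ^ (n + 1) * x ^ 6 with hB
    have hB0 : 0 ≤ B := by positivity
    have h4 : x ^ 7 * A ≤ 28 / 3 * x ^ 7 := by nlinarith
    have h40 : 0 ≤ x ^ 7 * A := by positivity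
    set u : ℝ := x ^ 6 with hu
    set v : ℝ := x ^ 7 with hv
    -- 1 - 3u + 2u² + 3 (1-u) ((1-u)(u + vA) + B)
    have h5 : (1 - u) * ((1 - u) * (v * A)) ≤ v * A := by
      nlinarith [mul_nonneg hx60 h40, mul_nonneg hx60 (mul_nonneg hx60 h40)]
    have h6 : (1 - u) * B ≤ B := by nlinarith
    have h7 : 3 * u ^ 3 ≤ 4 * u ^ 2 := by nlinarith [sq_nonneg u]
    nlinarith

private theorem cube_facts {N : ℝ} (hN : 2 ≤ N) :
    0 < N ^ (-(1 / 3) : ℝ) ∧ (N ^ (-(1 / 3) : ℝ)) ^ 3 = N⁻¹ ∧ N ^ (-(1 / 3) : ℝ) ≤ 4 / 5 ∧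
      (N ^ (-(1 / 3) : ℝ)) ^ 3 ≤ 1 / 2 ∧
      locFac N = 1 - 3 * (N ^ (-(1 / 3) : ℝ)) ^ 3 + 2 * ((N ^ (-(1 / 3) : ℝ)) ^ 3) ^ 2 +
        3 * (1 - (N ^ (-(1 / 3) : ℝ)) ^ 3) ^ 2 * (N ^ (-(1 / 3) : ℝ)) ^ 3 /
          (1 - N ^ (-(1 / 3) : ℝ)) := by
  have hN0 : 0 < N := by linarith
  have hx0 : 0 < N ^ (-(1 / 3) : ℝ) := Real.rpow_pos_of_pos hN0 _
  have hx3 : (N ^ (-(1 / 3) : ℝ)) ^ 3 = N⁻¹ := by
    rw [← Real.rpow_natCast, ← Real.rpow_mul hN0.le]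
    norm_num
    exact Real.rpow_neg_one N
  have h3 : N⁻¹ ≤ 2⁻¹ := inv_anti₀ (by norm_num) hN
  have hxb : N ^ (-(1 / 3) : ℝ) ≤ 4 / 5 := by
    by_contra hcon
    push Not at hcon
    have h1 : (4 / 5 : ℝ) ^ 3 < (N ^ (-(1 / 3) : ℝ)) ^ 3 :=
      pow_lt_pow_left₀ hcon (by norm_num) (by norm_num)
    rw [hx3] at h1
    norm_num at h1 h3
    linarith
  refine ⟨hx0, hx3, hxb, by rw [hx3]; norm_num at h3 ⊢; exact h3, ?_⟩
  rw [hx3]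
  unfold locFac
  have h4 : (1 - N ^ (-(1 / 3) : ℝ)) ≠ 0 := by linarith
  field_simp

theorem tendsto_Lk {N : ℝ} (hN : 2 ≤ N) :
    Tendsto (fun k : ℕ => Lk (2 / 3) k N) atTop (𝓝 (locFac N)) := by
  have hN0 : 0 < N := by linarith
  obtain ⟨hx0, hx3, hxb, -, hloc⟩ := cube_facts hN
  rw [hloc]
  have hxy : N ^ (-(1 / 3) : ℝ) * N ^ ((1 / 3) : ℝ) = 1 := by
    rw [← Real.rpow_add hN0]
    norm_num
  have hs : N ^ ((2 / 3) : ℝ) = (N ^ ((1 / 3) : ℝ)) ^ (1 + 1) := by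
    rw [← Real.rpow_natCast, ← Real.rpow_mul hN0.le]
    norm_num
  set x : ℝ := N ^ (-(1 / 3) : ℝ) with hxdef
  have hx3' : x ^ (1 + 1 + 1) = N⁻¹ := hx3
  rw [← tendsto_add_atTop_iff_nat 1]
  have h1 : ∀ m, Lk (2 / 3) (m + 1) N = 1 - 3 * x ^ 3 + 2 * (x ^ 3) ^ 2 +
      3 * (1 - x ^ 3) * ((1 - x ^ 3) * x ^ 3 * (∑ i ∈ Finset.range m, x ^ i) +
          x ^ m * x ^ 3) := by
    intro m
    rw [Lk_sub (2 / 3) 1 1 hx3' hxy hs m]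
    simp only [show 1 + 1 + 1 = 3 from rfl]
    rw [Finset.mul_sum]
    congr 3
    exact Finset.sum_congr rfl fun i _ => by ring
  simp only [h1]
  have h2 : Tendsto (fun m : ℕ => ∑ i ∈ Finset.range m, x ^ i) atTop (𝓝 (1 - x)⁻¹) :=
    (hasSum_geometric_of_lt_one hx0.le (by linarith)).tendsto_sum_nat
  have h3 : Tendsto (fun m : ℕ => x ^ m) atTop (𝓝 0) :=
    tendsto_pow_atTop_nhds_zero_of_lt_one hx0.le (by linarith)
  have h4 := ((((h2.const_mul ((1 - x ^ 3) * x ^ 3)).add (h3.mul_const (x ^ 3))).const_mul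
    (3 * (1 - x ^ 3))).const_add (1 - 3 * x ^ 3 + 2 * (x ^ 3) ^ 2))
  convert h4 using 2
  ring

theorem locFac_bound {N : ℝ} (hN : 2 ≤ N) : |locFac N - 1| ≤ 40 * N ^ (-(4 / 3) : ℝ) := by
  have hN0 : 0 < N := by linarith
  obtain ⟨hx0, hx3, hxb, hx3b, hloc⟩ := cube_facts hN
  have hx4 : (N ^ (-(1 / 3) : ℝ)) ^ 4 = N ^ (-(4 / 3) : ℝ) := by
    rw [← Real.rpow_natCast, ← Real.rpow_mul hN0.le]
    norm_num
  rw [hloc, ← hx4]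
  set x : ℝ := N ^ (-(1 / 3) : ℝ) with hxdef
  have h1 : 0 < 1 - x := by linarith
  set w : ℝ := (1 - x)⁻¹ with hw
  have hw0 : 0 < w := by positivity
  have hw5 : w ≤ 5 := by
    rw [hw, inv_le_comm₀ h1 (by norm_num)]
    linarith
  have hww : (1 - x) * w = 1 := mul_inv_cancel₀ h1.ne'
  have h2 : 1 - 3 * x ^ 3 + 2 * (x ^ 3) ^ 2 + 3 * (1 - x ^ 3) ^ 2 * x ^ 3 / (1 - x) - 1 =
      -(4 * x ^ 6) + 3 * x ^ 9 + 3 * (1 - x ^ 3) ^ 2 * x ^ 4 * w := by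
    rw [div_eq_mul_inv, ← hw]
    have h3 : w = 1 + x * w := by linarith
    have h4 : 3 * (1 - x ^ 3) ^ 2 * x ^ 3 * w =
        3 * (1 - x ^ 3) ^ 2 * x ^ 3 + 3 * (1 - x ^ 3) ^ 2 * x ^ 4 * w := by
      calc 3 * (1 - x ^ 3) ^ 2 * x ^ 3 * w = 3 * (1 - x ^ 3) ^ 2 * x ^ 3 * (1 + x * w) := by
            rw [← h3]
        _ = _ := by ring
    rw [h4]
    ring
  rw [h2]
  have hx4' : 0 ≤ x ^ 4 := by positivity
  have h5 : x ^ 6 ≤ x ^ 4 := pow_le_pow_of_le_one hx0.le (by linarith) (by norm_num)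
  have h6 : x ^ 9 ≤ x ^ 4 := pow_le_pow_of_le_one hx0.le (by linarith) (by norm_num)
  have h60 : 0 ≤ x ^ 6 := by positivity
  have h90 : 0 ≤ x ^ 9 := by positivity
  have h7 : (1 - x ^ 3) ^ 2 ≤ 1 := by
    have : 0 ≤ x ^ 3 := by positivity
    nlinarith
  have h8 : 3 * (1 - x ^ 3) ^ 2 * x ^ 4 * w ≤ 15 * x ^ 4 := by
    have h9 : (1 - x ^ 3) ^ 2 * (x ^ 4 * w) ≤ 1 * (x ^ 4 * w) :=
      mul_le_mul_of_nonneg_right h7 (by positivity)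
    have h10 : x ^ 4 * w ≤ x ^ 4 * 5 := mul_le_mul_of_nonneg_left hw5 hx4'
    linarith
  have h80 : 0 ≤ 3 * (1 - x ^ 3) ^ 2 * x ^ 4 * w := by positivity
  rw [abs_le]
  constructor <;> linarith

theorem locFac_pos {N : ℝ} (hN : 2 ≤ N) : 0 < locFac N := by
  obtain ⟨hx0, hx3, hxb, hx3b, hloc⟩ := cube_facts hN
  rw [hloc]
  set x : ℝ := N ^ (-(1 / 3) : ℝ) with hxdef
  have h1 : 0 < 1 - x := by linarith
  have h0 : 0 < x ^ 3 := by positivity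
  have h2 : 0 < 3 * (1 - x ^ 3) ^ 2 * x ^ 3 / (1 - x) := by
    have h3 : 0 < 1 - x ^ 3 := by linarith
    positivity
  have h4 : 0 ≤ 1 - 3 * x ^ 3 + 2 * (x ^ 3) ^ 2 := by
    nlinarith [mul_nonneg (show (0 : ℝ) ≤ 1 - x ^ 3 by linarith)
      (show (0 : ℝ) ≤ 1 - 2 * x ^ 3 by linarith)]
  linarith

end AbcAsy
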