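import Pool.Agent.Work.MP_a793bb_nt.Asy.SDefs

/-!
# Membership and exponents

Proof of `mem_pow_mul_iff`. `x ∈ I` iff `I ∣ span {x}` iff `ex I q ≤ ex (span {x}) q` for all `q`
(`Ideal.dvd_span_singleton`, unique factorization: `Ideal.dvd_iff_le`, `pow_ex_dvd`, `ex_mul`, `ex_pow`,
`ideal_ext_of_ex` in `Selmer.lean`). `ex (p ^ i * J) q = ex J q + (i if q = p)`.

Proof of `exists_alpha`. `IsDedekindDomain.exists_sup_span_eq` (or `Ideal.exists_...`) with
`(∏ p ∈ S, p) * J ≤ J`, nonzero: there is `α` with `(∏ p ∈ S, p) * J ⊔ span {α} = J`. If `α ∈ p * J`, `p ∈ S`, then both terms lie in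
`p * J`, so `J ≤ p * J`, which contradicts `J ≠ ⊥` (cancel: `p = ⊤`).

Proof of `alpha_pow_iff`: exponents: `α * o ∈ p ^ i * J` iff (for `α o ≠ 0`) `α o ∈ J` (true) and
`ex J p + i ≤ ex (span {α}) p + ex (span {o}) p`, and `ex (span {α}) p = ex J p` because `α ∈ J`, `α ∉ p * J`. `o = 0` is trivial; `α ≠ 0` if `S` is
nonempty (it is, `p ∈ S`).

Proof of `alpha_mem_iff`: `MS S k * J` has exponent `k + ex J p` at `p ∈ S` and `ex J p` at the other primes (`ex_prod` in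
`Parts.lean`). If `S = ∅` then `MS S k = ⊤` and both sides hold (`α o ∈ J`).

Proof of `alpha_surj`: `MS S k * J ⊔ span {α} = J`: the left side is contained in `J`, and the exponent of a sum of two nonzero ideals is
the minimum, which is `ex J p` at every prime (if `k = 0` or `p ∉ S` from the first ideal, at `p ∈ S` from `α`); alternatively, write
`MS S k * J = J * A`, `span {α} = J * B` with `A`, `B` coprime (no prime divides both), so `J * A ⊔ J * B = J * (A ⊔ B) = J`.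
Then `x = m + α o` (`Ideal.mem_sup`, `Ideal.mem_span_singleton'`). If `α = 0` then `S = ∅` and `MS S k * J = J`.
-/

set_option autoImplicit false
set_option linter.unusedSectionVars false

namespace AbcAsy

open NumberField IsDedekindDomain Pool.Agent.Work.MP_a793bb_nt Pool.Agent.Work.MP_a793bb_nt.BPlus

variable {K : Type*} [Field K] [NumberField K]

private theorem dvd_iff_ex' {I J : Ideal (𝓞 K)} (hI : I ≠ ⊥) (hJ : J ≠ ⊥) :
    I ∣ J ↔ ∀ q, ex I q ≤ ex J q := by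
  classical
  constructor
  · rintro ⟨C, rfl⟩ q
    have hC : C ≠ ⊥ := by
      rintro rfl
      exact hJ (by rw [← Ideal.zero_eq_bot, mul_zero])
    rw [ex_mul hI hC]
    exact Nat.le_add_right _ _
  · intro h
    set F := (finite_dvd hI).toFinset ∪ (finite_dvd hJ).toFinset with hF
    rw [← prod_ex hI F (fun p hp => Finset.mem_union_left _ ((Set.Finite.mem_toFinset _).mpr hp)),
      ← prod_ex hJ F (fun p hp => Finset.mem_union_right _ ((Set.Finite.mem_toFinset _).mpr hp))]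
    apply Finset.prod_dvd_prod_of_dvd
    intro p _
    exact pow_dvd_pow _ (h p)

private theorem span_ne {x : 𝓞 K} (hx : x ≠ 0) : Ideal.span {x} ≠ (⊥ : Ideal (𝓞 K)) := by
  simpa using hx

private theorem mem_iff_ex {I : Ideal (𝓞 K)} (hI : I ≠ ⊥) {x : 𝓞 K} (hx : x ≠ 0) :
    x ∈ I ↔ ∀ q, ex I q ≤ ex (Ideal.span {x}) q := by
  rw [← dvd_iff_ex' hI (span_ne hx), Ideal.dvd_span_singleton]

private theorem mul_ne {I J : Ideal (𝓞 K)} (hI : I ≠ ⊥) (hJ : J ≠ ⊥) : I * J ≠ ⊥ := by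
  rw [← Ideal.zero_eq_bot] at *
  exact mul_ne_zero hI hJ

private theorem MS_ne (S : Finset (HeightOneSpectrum (𝓞 K))) (k : ℕ) : MS S k ≠ ⊥ := by
  rw [MS, ← Ideal.zero_eq_bot, Finset.prod_ne_zero_iff]
  intro p _
  exact pow_ne_zero _ p.ne_bot

open Classical in
private theorem ex_MS (S : Finset (HeightOneSpectrum (𝓞 K))) (k : ℕ)
    (q : HeightOneSpectrum (𝓞 K)) : ex (MS S k) q = if q ∈ S then k else 0 := by
  rw [MS, ex_prod]

open Classical in
private theorem ex_pow_prime (p : HeightOneSpectrum (𝓞 K)) (i : ℕ)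
    (q : HeightOneSpectrum (𝓞 K)) : ex (p.asIdeal ^ i) q = if q = p then i else 0 := by
  rw [ex_pow p.ne_bot]
  by_cases h : q = p
  · subst h
    rw [ex_self, if_pos rfl, mul_one]
  · rw [ex_ne (fun h' => h h'.symm), if_neg h, mul_zero]

theorem mem_pow_mul_iff {J : Ideal (𝓞 K)} (hJ : J ≠ ⊥) {x : 𝓞 K} (hx : x ≠ 0)
    (p : HeightOneSpectrum (𝓞 K)) (i : ℕ) :
    x ∈ p.asIdeal ^ i * J ↔ x ∈ J ∧ ex J p + i ≤ ex (Ideal.span {x}) p := by
  classical
  have hp : p.asIdeal ^ i ≠ ⊥ := pow_ne_zero _ p.ne_bot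
  rw [mem_iff_ex (mul_ne hp hJ) hx, mem_iff_ex hJ hx]
  constructor
  · intro h
    refine ⟨fun q => ?_, ?_⟩
    · have := h q
      rw [ex_mul hp hJ] at this
      omega
    · have := h p
      rw [ex_mul hp hJ, ex_pow_prime, if_pos rfl] at this
      omega
  · rintro ⟨h1, h2⟩ q
    rw [ex_mul hp hJ, ex_pow_prime]
    by_cases h : q = p
    · subst h
      rw [if_pos rfl]
      omega
    · rw [if_neg h]
      have := h1 q
      omega

theorem exists_alpha {J : Ideal (𝓞 K)} (hJ : J ≠ ⊥) (S : Finset (HeightOneSpectrum (𝓞 K))) :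
    ∃ α : 𝓞 K, α ∈ J ∧ ∀ p ∈ S, α ∉ p.asIdeal * J := by
  classical
  have hP : (∏ p ∈ S, p.asIdeal) ≠ ⊥ := by
    rw [← Ideal.zero_eq_bot, Finset.prod_ne_zero_iff]
    intro p _
    exact p.ne_bot
  obtain ⟨α, hα⟩ := IsDedekindDomain.exists_sup_span_eq
    (I := (∏ p ∈ S, p.asIdeal) * J) (J := J) Ideal.mul_le_right (mul_ne hP hJ)
  refine ⟨α, ?_, fun p hp hmem => ?_⟩
  · rw [← hα]
    exact Ideal.mem_sup_right (Ideal.mem_span_singleton_self α)
  · have h1 : J ≤ p.asIdeal * J := by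
      conv_lhs => rw [← hα]
      apply sup_le
      · apply Ideal.mul_mono_left
        rw [← Ideal.dvd_iff_le]
        exact Finset.dvd_prod_of_mem _ hp
      · rw [Ideal.span_le, Set.singleton_subset_iff]
        exact hmem
    rw [← Ideal.dvd_iff_le, dvd_iff_ex' (mul_ne p.ne_bot hJ) hJ] at h1
    have := h1 p
    rw [ex_mul p.ne_bot hJ, ex_self] at this
    omega

private theorem alpha_ne {J : Ideal (𝓞 K)} {S : Finset (HeightOneSpectrum (𝓞 K))}
    {α : 𝓞 K} (hS : ∀ p ∈ S, α ∉ p.asIdeal * J) {p : HeightOneSpectrum (𝓞 K)}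
    (hp : p ∈ S) : α ≠ 0 := by
  rintro rfl
  exact hS p hp (Ideal.zero_mem _)

private theorem ex_alpha {J : Ideal (𝓞 K)} (hJ : J ≠ ⊥) {S : Finset (HeightOneSpectrum (𝓞 K))}
    {α : 𝓞 K} (hα : α ∈ J) (hS : ∀ p ∈ S, α ∉ p.asIdeal * J) {p : HeightOneSpectrum (𝓞 K)}
    (hp : p ∈ S) : ex (Ideal.span {α}) p = ex J p := by
  have h0 := alpha_ne hS hp
  have h1 := (mem_iff_ex hJ h0).1 hα p
  have h2 := hS p hp
  rw [← pow_one p.asIdeal, mem_pow_mul_iff hJ h0 p 1] at h2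
  by_contra hc
  exact h2 ⟨hα, by omega⟩

private theorem span_mul' {a b : 𝓞 K} (ha : a ≠ 0) (hb : b ≠ 0) (p : HeightOneSpectrum (𝓞 K)) :
    ex (Ideal.span {a * b}) p = ex (Ideal.span {a}) p + ex (Ideal.span {b}) p := by
  rw [← Ideal.span_singleton_mul_span_singleton, ex_mul (span_ne ha) (span_ne hb)]

theorem alpha_pow_iff {J : Ideal (𝓞 K)} (hJ : J ≠ ⊥) {S : Finset (HeightOneSpectrum (𝓞 K))}
    {α : 𝓞 K} (hα : α ∈ J) (hS : ∀ p ∈ S, α ∉ p.asIdeal * J) {p : HeightOneSpectrum (𝓞 K)}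
    (hp : p ∈ S) (i : ℕ) (o : 𝓞 K) : α * o ∈ p.asIdeal ^ i * J ↔ o ∈ p.asIdeal ^ i := by
  rcases eq_or_ne o 0 with rfl | ho
  · rw [mul_zero]
    exact ⟨fun _ => Ideal.zero_mem _, fun _ => Ideal.zero_mem _⟩
  have h0 := alpha_ne hS hp
  have hT : (⊤ : Ideal (𝓞 K)) ≠ ⊥ := top_ne_bot
  have h1 : o ∈ p.asIdeal ^ i ↔ i ≤ ex (Ideal.span {o}) p := by
    have h2 := mem_pow_mul_iff hT ho p i
    rw [Ideal.mul_top] at h2
    rw [h2]
    have h3 : ex (⊤ : Ideal (𝓞 K)) p = 0 := by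
      rw [← Ideal.one_eq_top]; exact ex_one p
    rw [h3, zero_add]
    exact ⟨fun h => h.2, fun h => ⟨Submodule.mem_top, h⟩⟩
  rw [h1, mem_pow_mul_iff hJ (mul_ne_zero h0 ho), span_mul' h0 ho, ex_alpha hJ hα hS hp]
  constructor
  · rintro ⟨-, h⟩
    omega
  · intro h
    exact ⟨Ideal.mul_mem_right _ _ hα, by omega⟩

theorem alpha_mem_iff {J : Ideal (𝓞 K)} (hJ : J ≠ ⊥) {S : Finset (HeightOneSpectrum (𝓞 K))}
    {α : 𝓞 K} (hα : α ∈ J) (hS : ∀ p ∈ S, α ∉ p.asIdeal * J) (k : ℕ) (o : 𝓞 K) :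
    α * o ∈ MS S k * J ↔ o ∈ MS S k := by
  classical
  rcases eq_or_ne o 0 with rfl | ho
  · rw [mul_zero]
    exact ⟨fun _ => Ideal.zero_mem _, fun _ => Ideal.zero_mem _⟩
  rcases S.eq_empty_or_nonempty with rfl | ⟨p₀, hp₀⟩
  · have h1 : MS (∅ : Finset (HeightOneSpectrum (𝓞 K))) k = ⊤ := by
      rw [MS, Finset.prod_empty, Ideal.one_eq_top]
    rw [h1, Ideal.top_mul]
    exact ⟨fun _ => Submodule.mem_top, fun _ => Ideal.mul_mem_right _ _ hα⟩
  have h0 := alpha_ne hS hp₀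
  rw [mem_iff_ex (mul_ne (MS_ne S k) hJ) (mul_ne_zero h0 ho), mem_iff_ex (MS_ne S k) ho]
  refine forall_congr' fun q => ?_
  rw [ex_mul (MS_ne S k) hJ, ex_MS, span_mul' h0 ho]
  by_cases hq : q ∈ S
  · rw [if_pos hq, ex_alpha hJ hα hS hq]
    omega
  · rw [if_neg hq]
    have := (mem_iff_ex hJ h0).1 hα q
    omega

theorem alpha_surj {J : Ideal (𝓞 K)} (hJ : J ≠ ⊥) {S : Finset (HeightOneSpectrum (𝓞 K))}
    {α : 𝓞 K} (hα : α ∈ J) (hS : ∀ p ∈ S, α ∉ p.asIdeal * J) (k : ℕ) {x : 𝓞 K} (hx : x ∈ J) :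
    ∃ o : 𝓞 K, x - α * o ∈ MS S k * J := by
  classical
  have hMJ := mul_ne (MS_ne S k) hJ
  have hle : MS S k * J ⊔ Ideal.span {α} ≤ J := by
    apply sup_le Ideal.mul_le_right
    rw [Ideal.span_le, Set.singleton_subset_iff]
    exact hα
  have hI : MS S k * J ⊔ Ideal.span {α} ≠ ⊥ := by
    intro h
    apply hMJ
    rw [eq_bot_iff, ← h]
    exact le_sup_left
  have heq : MS S k * J ⊔ Ideal.span {α} = J := by
    apply ideal_ext_of_ex hI hJ
    intro q
    apply le_antisymm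
    · by_cases hq : q ∈ S
      · have h0 := alpha_ne hS hq
        rw [← ex_alpha hJ hα hS hq]
        apply (dvd_iff_ex' hI (span_ne h0)).1
        rw [Ideal.dvd_iff_le]
        exact le_sup_right
      · have h1 : MS S k * J ⊔ Ideal.span {α} ∣ MS S k * J := by
          rw [Ideal.dvd_iff_le]
          exact le_sup_left
        have h2 := (dvd_iff_ex' hI hMJ).1 h1 q
        rw [ex_mul (MS_ne S k) hJ, ex_MS, if_neg hq, zero_add] at h2
        exact h2
    · apply (dvd_iff_ex' hJ hI).1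
      rw [Ideal.dvd_iff_le]
      exact hle
  have hx' : x ∈ MS S k * J ⊔ Ideal.span {α} := by rw [heq]; exact hx
  obtain ⟨m, hm, a, ha, hma⟩ := Submodule.mem_sup.1 hx'
  obtain ⟨o, ho⟩ := Ideal.mem_span_singleton'.1 ha
  refine ⟨o, ?_⟩
  have : x - α * o = m := by
    rw [← hma, ← ho]
    ring
  rw [this]
  exact hm

end AbcAsy
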