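import Pool.Agent.Work.MP_a793bb_nt.Asy.SLoc
import Pool.Agent.Work.MP_a793bb_nt.RadL.LowTail

/-!
# Sums and products over the primes

Proof of `summable_primes`. `RadL.card_primes_le`: at most `C x` primes of norm at most `x`. Dyadic decomposition: the primes with
`2 ^ j ≤ N(p) < 2 ^ (j + 1)` contribute at most `C 2 ^ (j + 1) 2 ^ (- j s)`, summable for `s > 1`. (E.g. `summable_of_sum_le`: a finite
sum over `F` is at most `∑_j C 2 ^ (j + 1) 2 ^ (- j s)`, grouping by `j = Nat.log 2 N(p)`.)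

`multipliable_locFac`: `multipliable_one_add_of_summable` (real numbers) with `locFac N - 1`, `locFac_bound`.
`prod_Lk_le`: `∏ Lk ≤ exp (∑ 40 N ^ (- 7 / 6))` (`Lk_le`, `1 + x ≤ exp x`, `Lk_nonneg`).
`errS_small`: the first sum is the tail of a convergent series (`tendsto_tsum_compl_atTop_zero` or
`Summable.vanishing`-type lemmas; `Finset` filter); the second is at most `2 ^ (- (k - 1)) ∑ N ^ (- 2)` because `N ≥ 2`.
`prod_lim`: for fixed `S`, `∏ p ∈ S, Lk (2 / 3) k N(p) → ∏ p ∈ S, locFac N(p)` as `k → ∞` (`tendsto_finset_prod`, `tendsto_Lk`).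
-/

set_option autoImplicit false
set_option linter.unusedSectionVars false

namespace AbcAsy

open NumberField IsDedekindDomain Filter Topology Pool.Agent.Work.MP_a793bb_nt

private theorem two_le_N {K : Type*} [Field K] [NumberField K] (p : HeightOneSpectrum (𝓞 K)) :
    (2 : ℝ) ≤ (Ideal.absNorm p.asIdeal : ℝ) := two_le_Np p

theorem summable_primes (K : Type*) [Field K] [NumberField K] {s : ℝ} (hs : 1 < s) :
    Summable (fun p : HeightOneSpectrum (𝓞 K) => (Ideal.absNorm p.asIdeal : ℝ) ^ (-s)) := by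
  classical
  obtain ⟨C, hC1, hC⟩ := RadL.card_primes_le K
  set r : ℝ := (2 : ℝ) ^ (1 - s) with hr
  have hr0 : 0 < r := Real.rpow_pos_of_pos (by norm_num) _
  have hr1 : r < 1 := Real.rpow_lt_one_of_one_lt_of_neg (by norm_num) (by linarith)
  apply summable_of_sum_le (c := 2 * C * (1 - r)⁻¹)
  · intro p
    exact Real.rpow_nonneg (by positivity) _
  intro F
  set k : HeightOneSpectrum (𝓞 K) → ℕ := fun p => Nat.log 2 (Ideal.absNorm p.asIdeal) with hk
  rw [← Finset.sum_fiberwise_of_maps_to (g := k) (t := F.image k)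
    (fun p hp => Finset.mem_image_of_mem _ hp)]
  have hterm : ∀ j ∈ F.image k, ∑ p ∈ F with k p = j, (Ideal.absNorm p.asIdeal : ℝ) ^ (-s) ≤
      2 * C * r ^ j := by
    intro j _
    have hlo : ∀ p ∈ F.filter (fun p => k p = j),
        (2 : ℝ) ^ j ≤ (Ideal.absNorm p.asIdeal : ℝ) ∧ Np p ≤ 2 ^ (j + 1) := by
      intro p hp
      rw [Finset.mem_filter] at hp
      have h3 : Nat.log 2 (Ideal.absNorm p.asIdeal) = j := hp.2
      have h2 : Ideal.absNorm p.asIdeal ≠ 0 := by
        have := two_le_N p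
        intro h0
        rw [h0] at this
        norm_num at this
      constructor
      · have h4 := Nat.pow_log_le_self 2 h2
        rw [h3] at h4
        exact_mod_cast h4
      · have h4 := Nat.lt_pow_succ_log_self (b := 2) (by norm_num) (Ideal.absNorm p.asIdeal)
        rw [h3] at h4
        unfold Np
        exact_mod_cast h4.le
    have hcard := hC (2 ^ (j + 1)) (F.filter (fun p => k p = j)) (by positivity)
      (fun p hp => (hlo p hp).2)
    have hb : ∀ p ∈ F.filter (fun p => k p = j), (Ideal.absNorm p.asIdeal : ℝ) ^ (-s) ≤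
        ((2 : ℝ) ^ j) ^ (-s) := by
      intro p hp
      exact Real.rpow_le_rpow_of_nonpos (by positivity) (hlo p hp).1 (by linarith)
    refine (Finset.sum_le_card_nsmul _ _ _ hb).trans ?_
    rw [nsmul_eq_mul]
    refine (mul_le_mul_of_nonneg_right hcard (Real.rpow_nonneg (by positivity) _)).trans
      (le_of_eq ?_)
    have e1 : r ^ j = (2 : ℝ) ^ j * ((2 : ℝ) ^ j) ^ (-s) := by
      rw [hr, ← Real.rpow_natCast, ← Real.rpow_natCast, ← Real.rpow_mul (by norm_num),
        ← Real.rpow_mul (by norm_num), ← Real.rpow_add (by norm_num)]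
      congr 1
      ring
    rw [e1, pow_succ]
    ring
  refine (Finset.sum_le_sum hterm).trans ?_
  rw [← Finset.mul_sum]
  apply mul_le_mul_of_nonneg_left _ (by positivity)
  rw [← tsum_geometric_of_lt_one hr0.le hr1]
  exact Summable.sum_le_tsum _ (fun i _ => by positivity) (summable_geometric_of_lt_one hr0.le hr1)

theorem multipliable_locFac (K : Type*) [Field K] [NumberField K] :
    Multipliable (fun p : HeightOneSpectrum (𝓞 K) => locFac (Ideal.absNorm p.asIdeal)) := by
  have h1 : Summable (fun p : HeightOneSpectrum (𝓞 K) =>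
      locFac (Ideal.absNorm p.asIdeal) - 1) := by
    apply Summable.of_norm_bounded
      (g := fun p : HeightOneSpectrum (𝓞 K) => 40 * (Ideal.absNorm p.asIdeal : ℝ) ^ (-(4 / 3) : ℝ))
    · exact (summable_primes K (by norm_num)).mul_left 40
    · intro p
      rw [Real.norm_eq_abs]
      exact locFac_bound (two_le_N p)
  have h2 := Real.multipliable_one_add_of_summable h1
  refine h2.congr (fun p => ?_)
  ring

theorem prod_Lk_le (K : Type*) [Field K] [NumberField K] : ∃ C : ℝ, 0 ≤ C ∧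
    ∀ (S : Finset (HeightOneSpectrum (𝓞 K))) (k : ℕ), 1 ≤ k →
      ∏ p ∈ S, Lk (5 / 6) k (Ideal.absNorm p.asIdeal) ≤ C := by
  have hsum : Summable (fun p : HeightOneSpectrum (𝓞 K) =>
      40 * (Ideal.absNorm p.asIdeal : ℝ) ^ (-(7 / 6) : ℝ)) :=
    (summable_primes K (by norm_num)).mul_left 40
  refine ⟨Real.exp (∑' p : HeightOneSpectrum (𝓞 K),
    40 * (Ideal.absNorm p.asIdeal : ℝ) ^ (-(7 / 6) : ℝ)), (Real.exp_pos _).le, fun S k hk => ?_⟩
  calc ∏ p ∈ S, Lk (5 / 6) k (Ideal.absNorm p.asIdeal)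
      ≤ ∏ p ∈ S, Real.exp (40 * (Ideal.absNorm p.asIdeal : ℝ) ^ (-(7 / 6) : ℝ)) := by
        apply Finset.prod_le_prod
        · intro p _
          exact Lk_nonneg _ _ (two_le_N p)
        · intro p _
          refine (Lk_le hk (two_le_N p)).trans ?_
          rw [add_comm]
          exact Real.add_one_le_exp _
    _ = Real.exp (∑ p ∈ S, 40 * (Ideal.absNorm p.asIdeal : ℝ) ^ (-(7 / 6) : ℝ)) := by
        rw [Real.exp_sum]
    _ ≤ _ := by
        apply Real.exp_le_exp.2
        exact hsum.sum_le_tsum _ (fun p _ => mul_nonneg (by norm_num)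
          (Real.rpow_nonneg (by positivity) _))

/-- The order of the choices: first a large set `S` of primes, then a large `k`. -/
theorem choose_S_k (K : Type*) [Field K] [NumberField K] (ε : ℝ) (hε : 0 < ε) :
    ∃ (S : Finset (HeightOneSpectrum (𝓞 K))) (k : ℕ), 1 ≤ k ∧ errS S k ≤ ε ∧
      |∏ p ∈ S, Lk (2 / 3) k (Ideal.absNorm p.asIdeal) -
        ∏' p : HeightOneSpectrum (𝓞 K), locFac (Ideal.absNorm p.asIdeal)| ≤ ε := by
  classical
  have hs2 := summable_primes K (s := 2) (by norm_num)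
  set f : HeightOneSpectrum (𝓞 K) → ℝ := fun p => (Ideal.absNorm p.asIdeal : ℝ) ^ (-2 : ℝ) with hf
  have hf0 : ∀ p, 0 ≤ f p := fun p => Real.rpow_nonneg (by positivity) _
  -- the tail
  have htail : ∀ S : Finset (HeightOneSpectrum (𝓞 K)),
      ∑' p : HeightOneSpectrum (𝓞 K), (if p ∈ S then 0 else f p) = ∑' p, f p - ∑ p ∈ S, f p := by
    intro S
    have e1 : ∀ p, (if p ∈ S then 0 else f p) = f p - (if p ∈ S then f p else 0) := by
      intro p
      by_cases hp : p ∈ S
      · rw [if_pos hp, if_pos hp, sub_self]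
      · rw [if_neg hp, if_neg hp, sub_zero]
    have e2 : Summable (fun p => if p ∈ S then f p else 0) := by
      apply summable_of_ne_finset_zero (s := S)
      intro p hp
      rw [if_neg hp]
    rw [tsum_congr e1, hs2.tsum_sub e2]
    congr 1
    rw [tsum_eq_sum (s := S) (fun p hp => if_neg hp)]
    apply Finset.sum_congr rfl
    intro p hp
    rw [if_pos hp]
  have h1 : ∀ᶠ S : Finset (HeightOneSpectrum (𝓞 K)) in atTop,
      |∑ p ∈ S, f p - ∑' p, f p| < ε / 2 := by
    have := hs2.hasSum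
    rw [HasSum] at this
    simp only [SummationFilter.unconditional_filter] at this
    have h2 := (Metric.tendsto_nhds.1 this) (ε / 2) (by positivity)
    filter_upwards [h2] with S hS
    rwa [Real.dist_eq] at hS
  have h2 : ∀ᶠ S : Finset (HeightOneSpectrum (𝓞 K)) in atTop,
      |∏ p ∈ S, locFac (Ideal.absNorm p.asIdeal) -
        ∏' p : HeightOneSpectrum (𝓞 K), locFac (Ideal.absNorm p.asIdeal)| < ε / 2 := by
    have := (multipliable_locFac K).hasProd
    rw [HasProd] at this
    simp only [SummationFilter.unconditional_filter] at this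
    have h2 := (Metric.tendsto_nhds.1 this) (ε / 2) (by positivity)
    filter_upwards [h2] with S hS
    rwa [Real.dist_eq] at hS
  obtain ⟨S, hS1, hS2⟩ := (h1.and h2).exists
  -- the choice of `k`
  have h3 : Tendsto (fun k : ℕ => ∏ p ∈ S, Lk (2 / 3) k (Ideal.absNorm p.asIdeal)) atTop
      (𝓝 (∏ p ∈ S, locFac (Ideal.absNorm p.asIdeal))) := by
    apply tendsto_finsetProd
    intro p _
    exact tendsto_Lk (two_le_N p)
  have h4 : ∀ᶠ k : ℕ in atTop, |∏ p ∈ S, Lk (2 / 3) k (Ideal.absNorm p.asIdeal) -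
      ∏ p ∈ S, locFac (Ideal.absNorm p.asIdeal)| < ε / 2 := by
    have h2 := (Metric.tendsto_nhds.1 h3) (ε / 2) (by positivity)
    filter_upwards [h2] with k hk
    rwa [Real.dist_eq] at hk
  have h5 : ∀ k : ℕ, 1 ≤ k → ∑' p : HeightOneSpectrum (𝓞 K),
      (Ideal.absNorm p.asIdeal : ℝ) ^ (-((k : ℝ) + 1)) ≤ (1 / 2 : ℝ) ^ (k - 1) * ∑' p, f p := by
    intro k hk
    rw [← tsum_mul_left]
    have hsk : Summable (fun p : HeightOneSpectrum (𝓞 K) =>
        (Ideal.absNorm p.asIdeal : ℝ) ^ (-((k : ℝ) + 1))) := by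
      apply summable_primes K
      have : (1 : ℝ) ≤ k := by exact_mod_cast hk
      linarith
    apply Summable.tsum_le_tsum _ hsk (hs2.mul_left _)
    intro p
    have hN := two_le_N p
    have hN0 : (0 : ℝ) < (Ideal.absNorm p.asIdeal : ℝ) := by linarith
    obtain ⟨m, rfl⟩ : ∃ m, k = m + 1 := ⟨k - 1, by omega⟩
    have e1 : (Ideal.absNorm p.asIdeal : ℝ) ^ (-(((m + 1 : ℕ) : ℝ) + 1)) =
        ((Ideal.absNorm p.asIdeal : ℝ)⁻¹) ^ m * f p := by
      rw [hf]
      simp only []
      rw [← Real.rpow_natCast, ← Real.rpow_neg_one, ← Real.rpow_mul hN0.le,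
        ← Real.rpow_add hN0]
      congr 1
      push_cast
      ring
    rw [e1, Nat.add_sub_cancel]
    apply mul_le_mul_of_nonneg_right _ (hf0 p)
    apply pow_le_pow_left₀ (by positivity)
    rw [one_div]
    exact inv_anti₀ (by norm_num) hN
  have h6 : ∀ᶠ k : ℕ in atTop, (1 / 2 : ℝ) ^ (k - 1) * ∑' p, f p < ε / 2 := by
    have h7 : Tendsto (fun k : ℕ => (1 / 2 : ℝ) ^ (k - 1) * ∑' p, f p) atTop (𝓝 0) := by
      have := (tendsto_pow_atTop_nhds_zero_of_lt_one (r := (1 / 2 : ℝ)) (by norm_num)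
        (by norm_num)).mul_const (∑' p, f p)
      rw [zero_mul] at this
      exact this.comp (tendsto_sub_atTop_nat 1)
    exact h7.eventually_lt_const (by positivity)
  obtain ⟨k, hk4, hk6, hk1⟩ := (h4.and (h6.and (eventually_ge_atTop 1))).exists
  refine ⟨S, k, hk1, ?_, ?_⟩
  · unfold errS
    have e1 := htail S
    have e2 := h5 k hk1
    have e3 := abs_lt.1 hS1
    have e4 : ∑' p : HeightOneSpectrum (𝓞 K),
      (if p ∈ S then 0 else (Ideal.absNorm p.asIdeal : ℝ) ^ (-2 : ℝ)) =
        ∑' p, f p - ∑ p ∈ S, f p := e1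
    rw [e4]
    linarith [e3.1]
  · have e1 := abs_lt.1 hk4
    have e2 := abs_lt.1 hS2
    rw [abs_le]
    constructor <;> linarith [e1.1, e1.2, e2.1, e2.2]

end AbcAsy
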