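import Pool.Agent.Work.MP_a793bb_nt.Asy.Defs

/-!
# The cusp near `t`, and the truncation

Proof of `exists_side`. Let `a = v t`, `b = v (1 - t)`, both positive, `1 ≤ a + b`, `a ≤ 1 + b`, `b ≤ 1 + a`,
`M = max 1 (max a b)`, `exp (- Av v t) = a b / M ^ 3`. If `a ≤ b` and `a ≤ 1`: `b ≥ 1 / 2`, `M ≤ 2`, so
`16 a b / M ^ 3 ≥ a = v (side 0 t)`. If `b ≤ a` and `b ≤ 1`: the same with `side 1 t`. Otherwise `a > 1` and `b > 1`
(if `a ≤ 1` then `b < a ≤ 1`, second case; if `b ≤ 1` then `a < b ≤ 1`, first case), `M ≤ 2 a` (`b ≤ 1 + a`), and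
`b ≥ a / 2` (if `a ≥ 2` then `b ≥ a - 1 ≥ a / 2`, else `b ≥ 1 ≥ a / 2`); so
`16 a b / M ^ 3 ≥ 16 a (a / 2) / (8 a ^ 3) = 1 / a = v (side 2 t)`.

Proof of `Av_large`: (contrapositive form used for the truncation) with the same notation, if `a < 1 / T`, or
`a > T`, or `b < 1 / T`, and `T ≥ 2`, then `a b / M ^ 3 ≤ 2 / T`. If `a < 1 / T`: `b ≤ 2`, so `a b ≤ 2 / T`, `M ≥ 1`.
If `b < 1 / T`: the same. If `a > T`: `a b / M ^ 3 ≤ 1 / M ≤ 1 / T`.
-/

set_option autoImplicit false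

namespace AbcAsy

open NumberField IsDedekindDomain Pool.Agent.Work.MP_a793bb_nt
  Pool.Agent.Work.MP_a793bb_nt.BPlus

variable {K : Type*} [Field K] [NumberField K]

private theorem ta_tri (v : InfinitePlace K) (t : K) :
    1 ≤ v t + v (1 - t) ∧ v t ≤ 1 + v (1 - t) ∧ v (1 - t) ≤ 1 + v t := by
  have h1 : v.1 (1 : K) = 1 := v.1.map_one
  refine ⟨?_, ?_, ?_⟩
  · have h := v.1.add_le t (1 - t)
    have e : t + (1 - t) = 1 := by ring
    rw [e, h1] at h
    exact h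
  · have h := v.1.add_le 1 (-(1 - t))
    have e : 1 + -(1 - t) = t := by ring
    rw [e, h1, v.1.map_neg] at h
    exact h
  · have h := v.1.add_le 1 (-t)
    have e : 1 + -t = 1 - t := by ring
    rw [e, h1, v.1.map_neg] at h
    exact h

private theorem ta_pos (v : InfinitePlace K) {t : K} (h0 : t ≠ 0) (h1 : t ≠ 1) :
    0 < v t ∧ 0 < v (1 - t) :=
  ⟨InfinitePlace.pos_iff.2 h0, InfinitePlace.pos_iff.2 (sub_ne_zero.2 h1.symm)⟩

private theorem ta_exp (v : InfinitePlace K) {t : K} (h0 : t ≠ 0) (h1 : t ≠ 1) :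
    Real.exp (-Av v t) = v t * v (1 - t) / max 1 (max (v t) (v (1 - t))) ^ 3 := by
  obtain ⟨ha, hb⟩ := ta_pos v h0 h1
  have hM : 0 < max 1 (max (v t) (v (1 - t))) := zero_lt_one.trans_le (le_max_left _ _)
  have h : -Av v t = Real.log (v t * v (1 - t) / max 1 (max (v t) (v (1 - t))) ^ 3) := by
    rw [Real.log_div (mul_pos ha hb).ne' (pow_pos hM 3).ne', Real.log_mul ha.ne' hb.ne',
      Real.log_pow, Av]
    push_cast
    ring
  rw [h, Real.exp_log (div_pos (mul_pos ha hb) (pow_pos hM 3))]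

theorem exists_side (v : InfinitePlace K) {t : K} (h0 : t ≠ 0) (h1 : t ≠ 1) :
    ∃ j : Fin 3, v (side j t) ≤ 16 * Real.exp (-Av v t) := by
  obtain ⟨ha, hb⟩ := ta_pos v h0 h1
  obtain ⟨t1, t2, t3⟩ := ta_tri v t
  rw [ta_exp v h0 h1]
  have hs0 : v (side 0 t) = v t := rfl
  have hs1 : v (side 1 t) = v (1 - t) := rfl
  have hs2 : v (side 2 t) = (v t)⁻¹ := by
    have e : side 2 t = t⁻¹ := rfl
    rw [e, map_inv₀]
  generalize v t = a at *
  generalize v (1 - t) = b at *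
  obtain ⟨M, hMd⟩ : ∃ M, M = max 1 (max a b) := ⟨_, rfl⟩
  rw [← hMd]
  have hM1 : 1 ≤ M := hMd ▸ le_max_left _ _
  have hM0 : 0 < M := zero_lt_one.trans_le hM1
  have hM3 : 0 < M ^ 3 := pow_pos hM0 3
  by_cases h2 : a ≤ 1 ∨ b ≤ 1
  · have hM2 : M ≤ 2 := by
      rw [hMd]
      refine max_le (by norm_num) (max_le ?_ ?_)
      · rcases h2 with h | h <;> linarith
      · rcases h2 with h | h <;> linarith
    have hM8 : M ^ 3 ≤ 8 := by
      calc M ^ 3 ≤ 2 ^ 3 := pow_le_pow_left₀ hM0.le hM2 3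
        _ = 8 := by norm_num
    rcases le_total a b with h | h
    · refine ⟨0, ?_⟩
      rw [hs0, ← mul_div_assoc, le_div_iff₀ hM3]
      have h3 : 1 / 2 ≤ b := by linarith
      nlinarith
    · refine ⟨1, ?_⟩
      rw [hs1, ← mul_div_assoc, le_div_iff₀ hM3]
      have h3 : 1 / 2 ≤ a := by linarith
      nlinarith
  · push Not at h2
    obtain ⟨h2, h3⟩ := h2
    refine ⟨2, ?_⟩
    have hM2 : M ≤ 2 * a := by
      rw [hMd]
      exact max_le (by linarith) (max_le (by linarith) (by linarith))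
    have hM8 : M ^ 3 ≤ 8 * a ^ 3 := by
      calc M ^ 3 ≤ (2 * a) ^ 3 := pow_le_pow_left₀ hM0.le hM2 3
        _ = 8 * a ^ 3 := by ring
    rw [hs2, ← mul_div_assoc, le_div_iff₀ hM3, inv_mul_le_iff₀ ha]
    have h4 : a ≤ 2 * b := by linarith
    have h5 : a ^ 2 * a ≤ a ^ 2 * (2 * b) := mul_le_mul_of_nonneg_left h4 (sq_nonneg a)
    nlinarith

theorem Av_large (v : InfinitePlace K) {t : K} (h0 : t ≠ 0) (h1 : t ≠ 1) {T : ℝ} (hT : 2 ≤ T)
    (h : Real.exp (-Av v t) > 2 / T) : v t ≤ T ∧ 1 ≤ T * v t ∧ 1 ≤ T * v (1 - t) := by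
  obtain ⟨ha, hb⟩ := ta_pos v h0 h1
  obtain ⟨t1, t2, t3⟩ := ta_tri v t
  rw [ta_exp v h0 h1] at h
  generalize v t = a at *
  generalize v (1 - t) = b at *
  obtain ⟨M, hMd⟩ : ∃ M, M = max 1 (max a b) := ⟨_, rfl⟩
  rw [← hMd] at h
  have hM1 : 1 ≤ M := hMd ▸ le_max_left _ _
  have hMa : a ≤ M := hMd ▸ (le_max_left _ _).trans (le_max_right _ _)
  have hMb : b ≤ M := hMd ▸ (le_max_right _ _).trans (le_max_right _ _)
  have hM0 : 0 < M := zero_lt_one.trans_le hM1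
  have hM3 : 0 < M ^ 3 := pow_pos hM0 3
  have hT0 : 0 < T := by linarith
  rw [gt_iff_lt, div_lt_div_iff₀ hT0 hM3] at h
  have hM13 : 1 ≤ M ^ 3 := one_le_pow₀ hM1
  refine ⟨?_, ?_, ?_⟩
  · by_contra hc
    rw [not_le] at hc
    have h2 : a * b ≤ M * M := mul_le_mul hMa hMb hb.le hM0.le
    have h3 : a * b * T ≤ M * M * M := mul_le_mul h2 (hc.le.trans hMa) hT0.le
      (mul_nonneg hM0.le hM0.le)
    nlinarith
  · by_contra hc
    rw [not_le] at hc
    have h2 : a < 1 := by nlinarith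
    have h3 : b ≤ 2 := by linarith
    have h4 : a * b * T ≤ 2 := by
      calc a * b * T = (T * a) * b := by ring
        _ ≤ 1 * 2 := mul_le_mul hc.le h3 hb.le zero_le_one
        _ = 2 := by norm_num
    nlinarith
  · by_contra hc
    rw [not_le] at hc
    have h2 : b < 1 := by nlinarith
    have h3 : a ≤ 2 := by linarith
    have h4 : a * b * T ≤ 2 := by
      calc a * b * T = (T * b) * a := by ring
        _ ≤ 1 * 2 := mul_le_mul hc.le h3 ha.le zero_le_one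
        _ = 2 := by norm_num
    nlinarith

end AbcAsy
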