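import Mathlib

/-!
# Cells of a disc at an infinite place

Proof. Let `σ = v.embedding`, `v x = ‖σ x‖` (`InfinitePlace.norm_embedding_eq`), and
`f x = (⌊n Re(σ x) / ρ⌋, ⌊n Im(σ x) / ρ⌋)`; if `v` is real (`mult = 1`) the imaginary part is zero, so the second
entry is `0`. If `v x ≤ ρ` then both entries lie in `Icc (-n) n`, so `L = Icc (-n) n ×ˢ {0}` (`2 n + 1 ≤ 3 n` elements)
in the real case and `L = Icc (-n) n ×ˢ Icc (-n) n` (at most `(3 n) ^ 2` elements) in the complex case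
(`InfinitePlace.mult`). If `f x = f y` then the real and imaginary parts differ by less than `ρ / n`, so
`v (x - y) ≤ |Re| + |Im| ≤ 2 ρ / n`.
-/

set_option autoImplicit false

namespace AbcAsy

open NumberField

private theorem dc_floor {n : ℕ} {ρ r : ℝ} (hρ : 0 < ρ) (h : |r| ≤ ρ) :
    ⌊n * r / ρ⌋ ∈ Finset.Icc (-(n : ℤ)) n := by
  obtain ⟨h1, h2⟩ := abs_le.1 h
  have hn : (0 : ℝ) ≤ n := Nat.cast_nonneg n
  rw [Finset.mem_Icc]
  constructor
  · rw [Int.le_floor, le_div_iff₀ hρ]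
    push_cast
    nlinarith
  · have h3 : (n : ℝ) * r / ρ ≤ n := by
      rw [div_le_iff₀ hρ]
      exact mul_le_mul_of_nonneg_left h2 hn
    have h4 := (Int.floor_le ((n : ℝ) * r / ρ)).trans h3
    exact_mod_cast h4

private theorem dc_close {n : ℕ} (hn : 1 ≤ n) {ρ r r' : ℝ} (hρ : 0 < ρ)
    (h : ⌊n * r / ρ⌋ = ⌊n * r' / ρ⌋) : |r - r'| ≤ ρ / n := by
  have hn0 : (0 : ℝ) < n := by exact_mod_cast hn
  have h1 := Int.abs_sub_lt_one_of_floor_eq_floor h
  have h2 : (n : ℝ) * r / ρ - n * r' / ρ = (r - r') * (n / ρ) := by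
    field_simp
  rw [h2, abs_mul, abs_of_pos (div_pos hn0 hρ)] at h1
  have h3 : ρ / n = 1 / (n / ρ) := by
    field_simp
  rw [h3, le_div_iff₀ (div_pos hn0 hρ)]
  exact h1.le

theorem disc_cells {K : Type*} [Field K] [NumberField K] (v : InfinitePlace K) (ρ : ℝ) (hρ : 0 < ρ)
    (n : ℕ) (hn : 1 ≤ n) :
    ∃ (f : K → ℤ × ℤ) (L : Finset (ℤ × ℤ)), L.card ≤ (3 * n) ^ v.mult ∧
      (∀ x, v x ≤ ρ → f x ∈ L) ∧ ∀ x y, f x = f y → v (x - y) ≤ 2 * ρ / n := by
  classical
  have hcard : (Finset.Icc (-(n : ℤ)) n).card ≤ 3 * n := by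
    rw [Int.card_Icc]
    omega
  have hclose : ∀ x y : K, (⌊n * (v.embedding x).re / ρ⌋, ⌊n * (v.embedding x).im / ρ⌋) =
      (⌊n * (v.embedding y).re / ρ⌋, ⌊n * (v.embedding y).im / ρ⌋) →
      v (x - y) ≤ 2 * ρ / n := by
    intro x y h
    rw [Prod.mk.injEq] at h
    have h1 := dc_close hn hρ h.1
    have h2 := dc_close hn hρ h.2
    rw [← InfinitePlace.norm_embedding_eq, map_sub]
    refine (Complex.norm_le_abs_re_add_abs_im _).trans ?_
    rw [Complex.sub_re, Complex.sub_im]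
    have h3 : 2 * ρ / n = ρ / n + ρ / n := by ring
    rw [h3]
    exact add_le_add h1 h2
  have hre : ∀ x, v x ≤ ρ → ⌊n * (v.embedding x).re / ρ⌋ ∈ Finset.Icc (-(n : ℤ)) n := by
    intro x hx
    refine dc_floor hρ ((Complex.abs_re_le_norm _).trans ?_)
    rw [InfinitePlace.norm_embedding_eq]
    exact hx
  have him : ∀ x, v x ≤ ρ → ⌊n * (v.embedding x).im / ρ⌋ ∈ Finset.Icc (-(n : ℤ)) n := by
    intro x hx
    refine dc_floor hρ ((Complex.abs_im_le_norm _).trans ?_)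
    rw [InfinitePlace.norm_embedding_eq]
    exact hx
  by_cases hv : v.IsReal
  · refine ⟨fun x => (⌊n * (v.embedding x).re / ρ⌋, ⌊n * (v.embedding x).im / ρ⌋),
      Finset.Icc (-(n : ℤ)) n ×ˢ {0}, ?_, fun x hx => ?_, hclose⟩
    · rw [Finset.card_product, Finset.card_singleton, mul_one, InfinitePlace.mult, if_pos hv,
        pow_one]
      exact hcard
    · rw [Finset.mem_product]
      refine ⟨hre x hx, ?_⟩
      rw [Finset.mem_singleton]
      have h1 : (v.embedding x).im = 0 := by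
        rw [← (InfinitePlace.isReal_iff.1 hv).coe_embedding_apply x]
        exact Complex.ofReal_im _
      show ⌊n * (v.embedding x).im / ρ⌋ = 0
      rw [h1, mul_zero, zero_div, Int.floor_zero]
  · refine ⟨fun x => (⌊n * (v.embedding x).re / ρ⌋, ⌊n * (v.embedding x).im / ρ⌋),
      Finset.Icc (-(n : ℤ)) n ×ˢ Finset.Icc (-(n : ℤ)) n, ?_, fun x hx => ?_, hclose⟩
    · rw [Finset.card_product, InfinitePlace.mult, if_neg hv, sq]
      exact Nat.mul_le_mul hcard hcard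
    · rw [Finset.mem_product]
      exact ⟨hre x hx, him x hx⟩

end AbcAsy
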