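import Pool.Agent.Work.MP_a793bb_nt.Asy.TTwoPt
import Pool.Agent.Work.MP_a793bb_nt.Asy.TDisc

/-!
# The number of points of a cell

Proof. Let `d = finrank ℚ K = ∑_v mult` (`InfinitePlace.sum_mult_eq`), fix an infinite place `v₀` (there is one), `m = mult v₀ ∈ {1, 2}`,
`E = ∑_j (log N(I_j) + log N(rad I_j))`, `X = exp (2 h + ∑_v mult log (ρ v) - E)` and
`n = ⌊(2 ^ d X) ^ (1 / m)⌋₊ + 1`, so `n ^ m > 2 ^ d X`. Apply `disc_cells v₀ (ρ v₀) n` to the elements `side (ι v₀) t`, `t ∈ F`: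
it suffices that two elements `t, t'` of `F` with the same label are equal (`Finset.card_le_card_of_injOn`).
If they differ, `two_point` with `ρ' v = 2 ρ v` for `v ≠ v₀` (`v (s - s') ≤ v s + v s'`) and `ρ' v₀ = 2 ρ v₀ / n` gives
`E ≤ 2 h + ∑ mult log (2 ρ v) - m log n`, i.e. `n ^ m ≤ 2 ^ d X`, contradiction. So
`F.card ≤ (3 n) ^ m ≤ 9 (1 + (2 ^ d X) ^ (1 / m)) ^ m ≤ 9 * 2 * (1 + 2 ^ d X) ≤ C (1 + X)`, `C = 18 * 2 ^ d`.
-/

set_option autoImplicit false

namespace AbcAsy

open NumberField IsDedekindDomain Height Pool.Agent.Work.MP_a793bb_nt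
  Pool.Agent.Work.MP_a793bb_nt.BPlus

private theorem cc_pow {m : ℕ} (hm : m = 1 ∨ m = 2) {A n : ℝ} (hA : 0 ≤ A) (hn0 : 0 ≤ n)
    (hn : n ≤ A + 1) : (3 * n) ^ m ≤ 18 * (1 + A ^ m) := by
  rcases hm with rfl | rfl
  · simp only [pow_one]; linarith
  · nlinarith [sq_nonneg (A - 1), mul_nonneg hn0 hA]

theorem cell_count (K : Type*) [Field K] [NumberField K] : ∃ C : ℝ, 1 ≤ C ∧
    ∀ (I : Fin 3 → Ideal (𝓞 K)) (ι : InfinitePlace K → Fin 3) (ρ : InfinitePlace K → ℝ) (h : ℝ)
      (F : Finset K), (∀ v, 0 < ρ v) →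
      (∀ t ∈ F, t ≠ 0 ∧ t ≠ 1 ∧ (∀ j, exI (side j t) = I j) ∧ (∀ v, v (side (ι v) t) ≤ ρ v) ∧
        hh t ≤ h) →
      (F.card : ℝ) ≤ C * (1 + Real.exp (2 * h + ∑ v : InfinitePlace K, (v.mult : ℝ) * Real.log (ρ v) -
        ∑ j : Fin 3, (Real.log (Ideal.absNorm (I j)) + Real.log (Ideal.absNorm (I j).radical)))) := by
  classical
  have hd1 : (1 : ℝ) ≤ 2 ^ Module.finrank ℚ K := one_le_pow₀ (by norm_num)
  refine ⟨18 * 2 ^ Module.finrank ℚ K, by linarith, ?_⟩
  intro I ι ρ h F hρ hF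
  obtain ⟨v₀⟩ : Nonempty (InfinitePlace K) := inferInstance
  set E := ∑ j : Fin 3, (Real.log (Ideal.absNorm (I j)) + Real.log (Ideal.absNorm (I j).radical))
    with hE
  set S := ∑ v : InfinitePlace K, (v.mult : ℝ) * Real.log (ρ v) with hS
  set X := Real.exp (2 * h + S - E) with hX
  have hXpos : 0 < X := Real.exp_pos _
  set d := Module.finrank ℚ K with hd
  have hdsum : ∑ v : InfinitePlace K, (v.mult : ℝ) = d := by
    rw [hd, ← InfinitePlace.sum_mult_eq (K := K)]; push_cast; rfl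
  set m := v₀.mult with hm
  have hm12 : m = 1 ∨ m = 2 := by
    rw [hm, InfinitePlace.mult]; split_ifs <;> simp
  have hm0 : m ≠ 0 := by omega
  set A : ℝ := (2 ^ d * X) ^ ((m : ℝ)⁻¹) with hA
  have hApos : 0 ≤ A := by positivity
  have hAm : A ^ m = 2 ^ d * X := Real.rpow_inv_natCast_pow (by positivity) hm0
  obtain ⟨n, hn⟩ : ∃ n : ℕ, n = ⌊A⌋₊ + 1 := ⟨_, rfl⟩
  have hnA : A < n := by rw [hn]; push_cast; exact Nat.lt_floor_add_one A
  have hnle : (n : ℝ) ≤ A + 1 := by rw [hn]; push_cast; linarith [Nat.floor_le hApos]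
  have hn0 : (0 : ℝ) < n := lt_of_le_of_lt hApos hnA
  obtain ⟨f, L, hL, hfL, hf⟩ := disc_cells v₀ (ρ v₀) (hρ v₀) n (by omega)
  have hinj : Set.InjOn (fun t => f (side (ι v₀) t)) (F : Set K) := by
    intro t ht t' ht' hft
    by_contra hne
    obtain ⟨h0, h1, hI, hv, hh1⟩ := hF t ht
    obtain ⟨h0', h1', hI', hv', hh1'⟩ := hF t' ht'
    have key := two_point h0 h1 h0' h1' hne (fun j => (hI j).trans (hI' j).symm) ι
      (fun v => if v = v₀ then 2 * ρ v / n else 2 * ρ v) (by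
        intro v
        have := hρ v
        split_ifs <;> positivity) (by
        intro v
        split_ifs with hvv
        · subst hvv
          exact hf _ _ hft
        · calc v (side (ι v) t - side (ι v) t') ≤ v (side (ι v) t) + v (side (ι v) t') := by
                have h8 := v.1.add_le (side (ι v) t) (-side (ι v) t')
                rw [v.1.map_neg, ← sub_eq_add_neg] at h8
                exact h8
            _ ≤ 2 * ρ v := by linarith [hv v, hv' v])
    have hsum : ∑ v : InfinitePlace K, (v.mult : ℝ) *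
        Real.log (if v = v₀ then 2 * ρ v / n else 2 * ρ v) =
        d * Real.log 2 + S - m * Real.log n := by
      have e : ∀ v : InfinitePlace K, (v.mult : ℝ) *
          Real.log (if v = v₀ then 2 * ρ v / n else 2 * ρ v) =
          (v.mult : ℝ) * Real.log 2 + (v.mult : ℝ) * Real.log (ρ v) -
            (if v = v₀ then (m : ℝ) * Real.log n else 0) := by
        intro v
        have hρv := (hρ v).ne'
        by_cases hvv : v = v₀
        · rw [if_pos hvv, if_pos hvv, Real.log_div (by positivity) hn0.ne',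
            Real.log_mul (by norm_num) hρv, hvv]
          ring
        · rw [if_neg hvv, if_neg hvv, Real.log_mul (by norm_num) hρv]
          ring
      rw [Finset.sum_congr rfl (fun v _ => e v), Finset.sum_sub_distrib, Finset.sum_add_distrib,
        ← Finset.sum_mul, hdsum, Finset.sum_ite_eq' Finset.univ v₀ (fun _ => (m : ℝ) * Real.log n),
        if_pos (Finset.mem_univ v₀)]
    have hEE : ∑ j : Fin 3, (Real.log (Ideal.absNorm (exI (side j t))) +
      Real.log (Ideal.absNorm (exI (side j t)).radical)) = E := by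
      rw [hE]
      exact Finset.sum_congr rfl (fun j _ => by rw [hI j])
    rw [hsum, hEE] at key
    have h2 : (m : ℝ) * Real.log n ≤ d * Real.log 2 + (2 * h + S - E) := by linarith
    have h3 : (n : ℝ) ^ m ≤ 2 ^ d * X := by
      have : Real.exp ((m : ℝ) * Real.log n) ≤ Real.exp (d * Real.log 2 + (2 * h + S - E)) :=
        Real.exp_le_exp.2 h2
      rwa [Real.exp_add, Real.exp_nat_mul, Real.exp_nat_mul, Real.exp_log hn0,
        Real.exp_log (by norm_num)] at this
    have h4 : A ^ m < (n : ℝ) ^ m := pow_lt_pow_left₀ hnA hApos hm0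
    linarith
  have hcard : F.card ≤ L.card := Finset.card_le_card_of_injOn _ (fun t ht => hfL _ ((hF t ht).2.2.2.1 v₀)) hinj
  have hc1 : (F.card : ℝ) ≤ (3 * n) ^ m := by
    have : F.card ≤ (3 * n) ^ m := hcard.trans hL
    exact_mod_cast this
  calc (F.card : ℝ) ≤ (3 * n) ^ m := hc1
    _ ≤ 18 * (1 + A ^ m) := cc_pow hm12 hApos hn0.le hnle
    _ = 18 * (1 + 2 ^ d * X) := by rw [hAm]
    _ ≤ 18 * 2 ^ d * (1 + X) := by nlinarith

end AbcAsy
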