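import Pool.Agent.Work.MP_a793bb_nt.Asy.TCell
import Pool.Agent.Work.MP_a793bb_nt.Asy.TArch
import Pool.Agent.Work.MP_a793bb_nt.RadCount

/-!
# The points with a fixed label

Proof. We may assume that `F` is nonempty (else the right side is nonnegative); let `t ∈ F`. By
`three_hh` and `LG_eq`, `w ≤ LG t + ∑_v mult Av v t ≤ w + 1`, `LG t = ∑_j log N(exI (side j t))`. Let
`d = finrank ℚ K`, `X = ∑_j x_j`, `Y = ∑_j y_j` (real numbers). Then `X ≤ LG t ≤ w + 1`, and
`∑_v mult a_v ≥ ∑_v mult (Av v t - 1) ≥ w - LG t - d ≥ w - X - 3 - d`. Also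
`2 Y ≤ ∑_j (log N(rad) + log N(exI)) ≤ ∑_j LP (side j t) univ = Rs (Ip t) + LG t ≤ 3 hh t ≤ r + w + 1`
(`log_rad_le`, `log_rad_exI`, `log_exI`, `rs_ip`, `Av_nonneg`).

The triple of ideals `(exI (side j t))_j` lies in the product of the three sets
`idealsRad K (exp (x_j + 1)) (exp (y_j + 1))`, of cardinality at most `C₂ exp (ε' (x_j + 1)) exp (y_j + 1)`
(`card_idealsRad_le`, `ε' = ε`), in total at most `C₃ exp (ε X + Y)`, `C₃ = C₂ ^ 3 exp (3 ε + 3)`. The points of `F` with a given triple: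
`cell_count` with `ρ v = 16 exp (- a_v)`, `h = (r + w + 1) / 3`
(`hh t = (Rs + (3 hh - Rs)) / 3`): at most
`C₁ (1 + exp (2 (r + w + 1) / 3 + d log 16 - ∑ mult a_v - X - Y)) ≤ C₄ (1 + exp (2 r / 3 - w / 3 - Y))`. The product is
`≤ C exp (ε X) (exp Y + exp (2 r / 3 - w / 3)) ≤ C' exp (ε w) (exp ((r + w) / 2) + exp (2 r / 3 - w / 3))`.
(`Finset.card_le_mul_card_image_of_maps_to`, as in `CountBlock.lean`.)
-/

set_option autoImplicit false

namespace AbcAsy

open NumberField IsDedekindDomain Height Pool.Agent.Work.MP_a793bb_nt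
  Pool.Agent.Work.MP_a793bb_nt.BPlus

private lemma final_ineq {C₁ C₂ ε X Y r w c T N : ℝ} (hC₁ : 1 ≤ C₁) (hC₂ : 1 ≤ C₂) (hε : 0 < ε)
    (hT0 : 0 ≤ T)
    (hX : X ≤ w + 1) (hY : 2 * Y ≤ r + w + 1)
    (hT : T ≤ C₂ ^ 3 * Real.exp (ε * X + 3 * ε + Y + 3))
    (hN : N ≤ C₁ * (1 + Real.exp (2 / 3 * r - w / 3 - Y + c))) :
    T * N ≤ C₂ ^ 3 * C₁ * Real.exp (3 * ε + 3) * Real.exp ε * (Real.exp (1 / 2) + Real.exp c) *
      Real.exp (ε * w) * (Real.exp (2 / 3 * r - w / 3) + Real.exp ((r + w) / 2)) := by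
  have h0 : T * N ≤ (C₂ ^ 3 * Real.exp (ε * X + 3 * ε + Y + 3)) *
      (C₁ * (1 + Real.exp (2 / 3 * r - w / 3 - Y + c))) := by
    calc T * N ≤ T * (C₁ * (1 + Real.exp (2 / 3 * r - w / 3 - Y + c))) :=
          mul_le_mul_of_nonneg_left hN hT0
      _ ≤ _ := mul_le_mul_of_nonneg_right hT (by positivity)
  refine h0.trans ?_
  have e1 : (C₂ ^ 3 * Real.exp (ε * X + 3 * ε + Y + 3)) *
      (C₁ * (1 + Real.exp (2 / 3 * r - w / 3 - Y + c))) =
      C₂ ^ 3 * C₁ * Real.exp (3 * ε + 3) * (Real.exp (ε * X + Y) +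
        Real.exp (ε * X + (2 / 3 * r - w / 3 + c))) := by
    rw [show ε * X + 3 * ε + Y + 3 = (3 * ε + 3) + (ε * X + Y) by ring, Real.exp_add (3 * ε + 3),
      show ε * X + (2 / 3 * r - w / 3 + c) = (ε * X + Y) + (2 / 3 * r - w / 3 - Y + c) by ring,
      Real.exp_add (ε * X + Y) (2 / 3 * r - w / 3 - Y + c)]
    ring
  rw [e1]
  have hεX : ε * X ≤ ε + ε * w := by nlinarith
  have e2 : Real.exp (ε * X + Y) ≤ Real.exp ε * Real.exp (ε * w) *
      (Real.exp (1 / 2) * Real.exp ((r + w) / 2)) := by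
    rw [← Real.exp_add, ← Real.exp_add, ← Real.exp_add]
    apply Real.exp_le_exp.mpr
    linarith
  have e3 : Real.exp (ε * X + (2 / 3 * r - w / 3 + c)) ≤ Real.exp ε * Real.exp (ε * w) *
      (Real.exp c * Real.exp (2 / 3 * r - w / 3)) := by
    rw [← Real.exp_add, ← Real.exp_add, ← Real.exp_add]
    apply Real.exp_le_exp.mpr
    linarith
  have e4 : Real.exp (1 / 2) * Real.exp ((r + w) / 2) + Real.exp c * Real.exp (2 / 3 * r - w / 3) ≤
      (Real.exp (1 / 2) + Real.exp c) *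
        (Real.exp (2 / 3 * r - w / 3) + Real.exp ((r + w) / 2)) := by
    have a1 := Real.exp_pos (1 / 2)
    have a2 := Real.exp_pos ((r + w) / 2)
    have a3 := Real.exp_pos c
    have a4 := Real.exp_pos (2 / 3 * r - w / 3)
    nlinarith [mul_pos a1 a4, mul_pos a3 a2]
  have hpos : 0 ≤ C₂ ^ 3 * C₁ * Real.exp (3 * ε + 3) := by positivity
  calc C₂ ^ 3 * C₁ * Real.exp (3 * ε + 3) * (Real.exp (ε * X + Y) +
        Real.exp (ε * X + (2 / 3 * r - w / 3 + c)))
      ≤ C₂ ^ 3 * C₁ * Real.exp (3 * ε + 3) * (Real.exp ε * Real.exp (ε * w) *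
      ((Real.exp (1 / 2) + Real.exp c) *
        (Real.exp (2 / 3 * r - w / 3) + Real.exp ((r + w) / 2)))) := by
        apply mul_le_mul_of_nonneg_left _ hpos
        calc _ ≤ Real.exp ε * Real.exp (ε * w) * (Real.exp (1 / 2) * Real.exp ((r + w) / 2) +
              Real.exp c * Real.exp (2 / 3 * r - w / 3)) := by linarith
          _ ≤ _ := mul_le_mul_of_nonneg_left e4 (by positivity)
    _ = _ := by ring

theorem label_count (K : Type*) [Field K] [NumberField K] (ε : ℝ) (hε : 0 < ε) :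
    ∃ C : ℝ, 1 ≤ C ∧ ∀ (a : InfinitePlace K → ℕ) (ι : InfinitePlace K → Fin 3) (x y : Fin 3 → ℕ)
      (r w : ℝ) (F : Finset K), 0 ≤ r → 0 ≤ w →
      (∀ t ∈ F, t ≠ 0 ∧ t ≠ 1 ∧ Rs (Ip t) ≤ r ∧ w ≤ 3 * hh t - Rs (Ip t) ∧
        3 * hh t - Rs (Ip t) ≤ w + 1 ∧
        (∀ v, (a v : ℝ) ≤ Av v t ∧ Av v t ≤ a v + 1 ∧ v (side (ι v) t) ≤ 16 * Real.exp (-Av v t)) ∧
        (∀ j, (x j : ℝ) ≤ Real.log (Ideal.absNorm (exI (side j t))) ∧
          Real.log (Ideal.absNorm (exI (side j t))) ≤ x j + 1 ∧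
          (y j : ℝ) ≤ Real.log (Ideal.absNorm (exI (side j t)).radical) ∧
          Real.log (Ideal.absNorm (exI (side j t)).radical) ≤ y j + 1)) →
      (F.card : ℝ) ≤ C * Real.exp (ε * w) *
        (Real.exp (2 / 3 * r - w / 3) + Real.exp ((r + w) / 2)) := by
  classical
  obtain ⟨C₁, hC₁, h1⟩ := cell_count K
  obtain ⟨C₂, hC₂, h2⟩ := card_idealsRad_le K hε
  set d : ℝ := ∑ v : InfinitePlace K, (v.mult : ℝ) with hd
  have hd0 : 0 ≤ d := Finset.sum_nonneg fun v _ => by positivity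
  have hlog16 : 0 ≤ Real.log 16 := Real.log_nonneg (by norm_num)
  set c : ℝ := 2 / 3 + d * Real.log 16 + 3 + d with hc
  have hc0 : 0 ≤ c := by positivity
  refine ⟨C₂ ^ 3 * C₁ * Real.exp (3 * ε + 3) * Real.exp ε * (Real.exp (1 / 2) + Real.exp c), ?_, ?_⟩
  · have b1 : 1 ≤ C₂ ^ 3 := one_le_pow₀ hC₂
    have b2 : 1 ≤ Real.exp (3 * ε + 3) := Real.one_le_exp (by positivity)
    have b3 : 1 ≤ Real.exp ε := Real.one_le_exp hε.le
    have b4 : 1 ≤ Real.exp (1 / 2) + Real.exp c := by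
      have := Real.one_le_exp hc0
      have := Real.exp_pos (1 / 2)
      linarith
    have b5 : 1 ≤ C₂ ^ 3 * C₁ := one_le_mul_of_one_le_of_one_le b1 hC₁
    have b6 := one_le_mul_of_one_le_of_one_le b5 b2
    have b7 := one_le_mul_of_one_le_of_one_le b6 b3
    exact one_le_mul_of_one_le_of_one_le b7 b4
  intro a ι x y r w F hr hw hF
  rcases F.eq_empty_or_nonempty with rfl | ⟨t₀, ht₀⟩
  · simp only [Finset.card_empty, Nat.cast_zero]
    positivity
  -- the set of triples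
  set T : Finset (Fin 3 → Ideal (𝓞 K)) := Fintype.piFinset fun j =>
    (finite_idealsRad (K := K) (Real.exp (x j + 1)) (Real.exp (y j + 1))).toFinset with hTdef
  have hside : ∀ t : K, t ≠ 0 → t ≠ 1 → ∀ j : Fin 3, side j t ≠ 0 := by
    intro t h0 h1' j
    fin_cases j
    · simpa [side] using h0
    · simpa [side, sub_eq_zero] using h1'.symm
    · simpa [side] using h0
  have hmaps : ∀ t ∈ F, (fun j => exI (side j t)) ∈ T := by
    intro t ht
    obtain ⟨h0, h1', -, -, -, -, hxy⟩ := hF t ht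
    rw [hTdef, Fintype.mem_piFinset]
    intro j
    rw [Set.Finite.mem_toFinset]
    have hne := exI_ne_bot (hside t h0 h1' j)
    obtain ⟨-, g1, -, g2⟩ := hxy j
    have p1 : (0 : ℝ) < Ideal.absNorm (exI (side j t)) := by
      have : Ideal.absNorm (exI (side j t)) ≠ 0 := by
        rw [Ne, Ideal.absNorm_eq_zero_iff]; exact hne
      exact_mod_cast Nat.pos_of_ne_zero this
    have p2 : (0 : ℝ) < Ideal.absNorm (exI (side j t)).radical := by
      have : Ideal.absNorm (exI (side j t)).radical ≠ 0 := by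
        rw [Ne, Ideal.absNorm_eq_zero_iff]; exact radical_ne_bot hne
      exact_mod_cast Nat.pos_of_ne_zero this
    refine ⟨hne, ?_, ?_⟩
    · exact (Real.log_le_iff_le_exp p1).mp g1
    · exact (Real.log_le_iff_le_exp p2).mp g2
  set X : ℝ := ∑ j : Fin 3, (x j : ℝ) with hX
  set Y : ℝ := ∑ j : Fin 3, (y j : ℝ) with hY
  -- facts from any point
  have hfacts : ∀ t ∈ F, X ≤ LG t ∧ LG t ≤ X + 3 ∧ 2 * Y ≤ Rs (Ip t) + LG t ∧
      w ≤ LG t + ∑ v : InfinitePlace K, (v.mult : ℝ) * Av v t ∧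
      LG t + ∑ v : InfinitePlace K, (v.mult : ℝ) * Av v t ≤ w + 1 ∧
      0 ≤ ∑ v : InfinitePlace K, (v.mult : ℝ) * Av v t ∧
      ∑ v : InfinitePlace K, (v.mult : ℝ) * Av v t ≤
        ∑ v : InfinitePlace K, (v.mult : ℝ) * a v + d := by
    intro t ht
    obtain ⟨h0, h1', hR, hw1, hw2, hv, hxy⟩ := hF t ht
    have hLG := LG_eq h0 h1'
    have hthree := three_hh h0 h1'
    refine ⟨?_, ?_, ?_, by linarith, by linarith, ?_, ?_⟩
    · rw [hLG, hX]
      exact Finset.sum_le_sum fun j _ => (hxy j).1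
    · rw [hLG, hX]
      calc _ ≤ ∑ j : Fin 3, ((x j : ℝ) + 1) := Finset.sum_le_sum fun j _ => (hxy j).2.1
        _ = _ := by simp [Finset.sum_add_distrib]
    · have s1 : Y ≤ Rs (Ip t) := by
        rw [rs_ip h0 h1', hY]
        exact Finset.sum_le_sum fun j _ => (hxy j).2.2.1.trans (log_rad_exI (hside t h0 h1' j))
      have s2 : Y ≤ LG t := by
        rw [hLG, hY]
        exact Finset.sum_le_sum fun j _ => (hxy j).2.2.1.trans
          (log_rad_le (exI_ne_bot (hside t h0 h1' j)))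
      linarith
    · exact Finset.sum_nonneg fun v _ => mul_nonneg (by positivity) (Av_nonneg v h0 h1')
    · rw [hd, ← Finset.sum_add_distrib]
      refine Finset.sum_le_sum fun v _ => ?_
      have := (hv v).2.1
      have hm : (0 : ℝ) ≤ v.mult := by positivity
      nlinarith
  obtain ⟨f1, f2, f3, f4, f5, f6, f7⟩ := hfacts t₀ ht₀
  have hRt₀ : Rs (Ip t₀) ≤ r := (hF t₀ ht₀).2.2.1
  have hXw : X ≤ w + 1 := by linarith
  have hYw : 2 * Y ≤ r + w + 1 := by linarith
  -- number of triples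
  have hTcard : (T.card : ℝ) ≤ C₂ ^ 3 * Real.exp (ε * X + 3 * ε + Y + 3) := by
    rw [hTdef, Fintype.card_piFinset]
    push_cast
    have hj : ∀ j : Fin 3, ((finite_idealsRad (K := K) (Real.exp (x j + 1))
        (Real.exp (y j + 1))).toFinset.card : ℝ) ≤
        C₂ * (Real.exp (ε * (x j + 1)) * Real.exp (y j + 1)) := by
      intro j
      have := h2 (Real.exp (x j + 1)) (Real.exp (y j + 1)) (Real.one_le_exp (by positivity))
        (Real.exp_pos _).le
      rw [Set.ncard_eq_toFinset_card _ (finite_idealsRad (K := K) (Real.exp (x j + 1))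
        (Real.exp (y j + 1)))] at this
      refine this.trans (le_of_eq ?_)
      rw [← Real.exp_mul, mul_comm ((x j : ℝ) + 1) ε, mul_assoc]
    calc _ ≤ ∏ j : Fin 3, C₂ * (Real.exp (ε * (x j + 1)) * Real.exp (y j + 1)) :=
          Finset.prod_le_prod (fun _ _ => by positivity) fun j _ => hj j
      _ = _ := by
          rw [Finset.prod_mul_distrib]
          simp only [← Real.exp_add]
          rw [← Real.exp_sum]
          simp only [Finset.prod_const, Finset.card_univ, Fintype.card_fin]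
          congr 2
          rw [hX, hY]
          simp only [Fin.sum_univ_three]
          ring
  -- fibres
  set N : ℝ := C₁ * (1 + Real.exp (2 / 3 * r - w / 3 - Y + c)) with hN
  have hfib : ∀ I ∈ T, (((F.filter fun t => (fun j => exI (side j t)) = I).card : ℕ) : ℝ) ≤ N := by
    intro I hI
    rcases (F.filter fun t => (fun j => exI (side j t)) = I).eq_empty_or_nonempty with he | ⟨s, hs⟩
    · rw [he]
      simp only [Finset.card_empty, Nat.cast_zero]
      positivity
    have hρ : ∀ v : InfinitePlace K, (0 : ℝ) < 16 * Real.exp (-(a v : ℝ)) := fun v => by positivity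
    have key := h1 I ι (fun v => 16 * Real.exp (-(a v : ℝ))) ((r + w + 1) / 3)
      (F.filter fun t => (fun j => exI (side j t)) = I) hρ ?_
    · refine key.trans ?_
      rw [hN]
      gcongr
      rw [Finset.mem_filter] at hs
      obtain ⟨hsF, hsI⟩ := hs
      obtain ⟨h0, h1', hR, hw1, hw2, hv, hxy⟩ := hF s hsF
      obtain ⟨g1, g2, g3, g4, g5, g6, g7⟩ := hfacts s hsF
      have e1 : ∑ v : InfinitePlace K, (v.mult : ℝ) * Real.log (16 * Real.exp (-(a v : ℝ))) =
          d * Real.log 16 - ∑ v : InfinitePlace K, (v.mult : ℝ) * a v := by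
        rw [hd, Finset.sum_mul, ← Finset.sum_sub_distrib]
        refine Finset.sum_congr rfl fun v _ => ?_
        rw [Real.log_mul (by norm_num) (Real.exp_ne_zero _), Real.log_exp]
        ring
      have e2 : X + Y ≤ ∑ j : Fin 3, (Real.log (Ideal.absNorm (I j)) +
          Real.log (Ideal.absNorm (I j).radical)) := by
        rw [hX, hY, ← Finset.sum_add_distrib]
        refine Finset.sum_le_sum fun j _ => ?_
        have hIj : I j = exI (side j s) := by rw [← hsI]
        rw [hIj]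
        exact add_le_add (hxy j).1 (hxy j).2.2.1
      rw [e1]
      linarith
    · intro t ht
      rw [Finset.mem_filter] at ht
      obtain ⟨htF, htI⟩ := ht
      obtain ⟨h0, h1', hR, hw1, hw2, hv, hxy⟩ := hF t htF
      refine ⟨h0, h1', fun j => by rw [← htI], fun v => ?_, by linarith⟩
      refine (hv v).2.2.trans ?_
      gcongr
      exact (hv v).1
  have hcard : (F.card : ℝ) ≤ T.card * N := by
    rw [Finset.card_eq_sum_card_fiberwise (f := fun t => fun j => exI (side j t)) (t := T) hmaps]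
    push_cast
    calc _ ≤ ∑ I ∈ T, N := Finset.sum_le_sum fun I hI => hfib I hI
      _ = _ := by rw [Finset.sum_const, nsmul_eq_mul]
  refine hcard.trans ?_
  exact final_ineq hC₁ hC₂ hε (by positivity) hXw hYw hTcard le_rfl

end AbcAsy
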