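import Pool.Agent.Work.MP_a793bb_nt.Asy.TWindow

/-!
# The tail for heights at most `3 / 8` of the logarithm of the radical bound

Proof. Put `t ∈ F` in the window `(i, w)`, `i = ⌊Rs (Ip t)⌋₊ ≤ ℓ`, `w = ⌊3 hh t - Rs (Ip t)⌋₊`
(`3 hh t - Rs (Ip t) ≥ 0` by `three_hh`), so `i + w ≤ 3 hh t ≤ 9 ℓ / 8`, `w > τ - 1`. `window_bound` with
`ε = 1 / 48`, `r = i + 1`: at most `C exp (w / 48) (exp (2 (i + 1) / 3 - w / 3) + exp ((i + 1 + w) / 2))`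
elements. First terms: `w / 48 - w / 3 = - 15 w / 48 ≤ - w / 4 - w / 16`, so the sum over all `i ≤ ℓ`, `w > τ - 1` is at most
`C' exp (2 ℓ / 3) exp (- τ / 4)` (two geometric series, `∑_{i ≤ ℓ} exp (2 i / 3) ≤ 3 exp (2 ℓ / 3)`,
`∑_{w > τ - 1} exp (- w / 4 - w / 16) ≤ exp (- (τ - 1) / 4) ∑_w exp (- w / 16)`).
Second terms: each is at most `C exp (9 ℓ / (8 * 48) + 1 / 2 + 9 ℓ / 16)`, there are at most `(9 ℓ / 8 + 1) ^ 2` pairs, and
`9 / 384 + 9 / 16 = 75 / 128 < 5 / 8`, so the total is at most `C'' exp (5 ℓ / 8)`.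
-/

set_option autoImplicit false

namespace AbcAsy

open NumberField IsDedekindDomain Height Pool.Agent.Work.MP_a793bb_nt
  Pool.Agent.Work.MP_a793bb_nt.BPlus

private theorem to_geo1 (n : ℕ) :
    ∑ i ∈ Finset.range (n + 1), Real.exp (2 / 3 * (i : ℝ)) ≤ 3 * Real.exp (2 / 3 * (n : ℝ)) := by
  induction n with
  | zero => simp
  | succ n ih =>
    rw [Finset.sum_range_succ]
    push_cast
    have h1 : Real.exp (2 / 3 * ((n : ℝ) + 1)) = Real.exp (2 / 3 * (n : ℝ)) * Real.exp (2 / 3) := by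
      rw [← Real.exp_add]; congr 1; ring
    have h2 : (5 : ℝ) / 3 ≤ Real.exp (2 / 3) := by
      have := Real.add_one_le_exp (2 / 3 : ℝ); linarith
    rw [h1]
    have h3 := Real.exp_pos (2 / 3 * (n : ℝ))
    nlinarith

private theorem to_geo2 (n : ℕ) :
    ∑ k ∈ Finset.range n, Real.exp (-(k : ℝ) / 16) ≤ 17 := by
  have h1 : ∀ k : ℕ, Real.exp (-(k : ℝ) / 16) = (Real.exp (-(1 / 16))) ^ k := by
    intro k; rw [← Real.exp_nat_mul]; congr 1; ring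
  rw [Finset.sum_congr rfl (fun k _ => h1 k)]
  set q := Real.exp (-(1 / 16)) with hq
  have hq0 : 0 < q := Real.exp_pos _
  have hq1 : q ≤ 16 / 17 := by
    have h2 : (17 : ℝ) / 16 ≤ Real.exp (1 / 16) := by
      have := Real.add_one_le_exp (1 / 16 : ℝ); linarith
    rw [hq, Real.exp_neg]
    calc (Real.exp (1 / 16))⁻¹ ≤ (17 / 16 : ℝ)⁻¹ := inv_anti₀ (by norm_num) h2
      _ = 16 / 17 := by norm_num
  have h3 := mul_neg_geom_sum q n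
  have h4 : 0 < q ^ n := by positivity
  have h5 : 0 ≤ ∑ i ∈ Finset.range n, q ^ i := Finset.sum_nonneg (fun i _ => by positivity)
  nlinarith

private theorem to_exp3 {x : ℝ} (hx : x ≤ 1) : Real.exp x ≤ 3 :=
  (Real.exp_le_exp.2 hx).trans (by linarith [Real.exp_one_lt_d9])

private theorem to_sq {ℓ : ℝ} (hℓ : 0 ≤ ℓ) :
    (9 / 8 * ℓ + 1) ^ 2 * Real.exp (1 / 2 + 75 / 128 * ℓ) ≤ 5000 * Real.exp (5 / 8 * ℓ) := by
  set x := 5 / 144 * (9 / 8 * ℓ + 1) with hx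
  have hx0 : 0 ≤ x := by positivity
  have h1 := Real.quadratic_le_exp_of_nonneg hx0
  have h2 : (9 / 8 * ℓ + 1) ^ 2 ≤ 2 * (144 / 5) ^ 2 * Real.exp x := by
    have : (9 / 8 * ℓ + 1) = 144 / 5 * x := by rw [hx]; ring
    rw [this]; nlinarith
  have h3 : Real.exp x * Real.exp (1 / 2 + 75 / 128 * ℓ) =
      Real.exp (5 / 144 + 1 / 2) * Real.exp (5 / 8 * ℓ) := by
    rw [← Real.exp_add, ← Real.exp_add]; congr 1; rw [hx]; ring
  have h4 : Real.exp (5 / 144 + 1 / 2 : ℝ) ≤ 3 := to_exp3 (by norm_num)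
  calc (9 / 8 * ℓ + 1) ^ 2 * Real.exp (1 / 2 + 75 / 128 * ℓ)
      ≤ (2 * (144 / 5) ^ 2 * Real.exp x) * Real.exp (1 / 2 + 75 / 128 * ℓ) :=
        mul_le_mul_of_nonneg_right h2 (Real.exp_pos _).le
    _ = 2 * (144 / 5) ^ 2 * (Real.exp (5 / 144 + 1 / 2) * Real.exp (5 / 8 * ℓ)) := by
        rw [mul_assoc, h3]
    _ ≤ 2 * (144 / 5) ^ 2 * (3 * Real.exp (5 / 8 * ℓ)) := by gcongr
    _ ≤ 5000 * Real.exp (5 / 8 * ℓ) := by
        have := Real.exp_pos (5 / 8 * ℓ); nlinarith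

theorem tail_one (K : Type*) [Field K] [NumberField K] :
    ∃ C : ℝ, 1 ≤ C ∧ ∀ (ℓ τ : ℝ) (F : Finset K), 0 ≤ ℓ → 0 ≤ τ →
      (∀ t ∈ F, t ∈ tset K ℓ ∧ hh t ≤ 3 / 8 * ℓ ∧ τ ≤ 3 * hh t - Rs (Ip t)) →
      (F.card : ℝ) ≤ C * (Real.exp (2 / 3 * ℓ - τ / 4) + Real.exp (5 / 8 * ℓ)) := by
  classical
  obtain ⟨C₁, hC₁, hwin⟩ := window_bound K (1 / 48) (by norm_num)
  refine ⟨5000 * C₁, by linarith, ?_⟩
  intro ℓ τ F hℓ hτ hF
  have hC₁0 : 0 ≤ C₁ := by linarith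
  let lab : K → ℕ × ℕ := fun t => (⌊Rs (Ip t)⌋₊, ⌊3 * hh t - Rs (Ip t)⌋₊)
  set Q : Finset (ℕ × ℕ) := Finset.range (⌊ℓ⌋₊ + 1) ×ˢ Finset.range (⌊9 / 8 * ℓ⌋₊ + 1) with hQ
  set P : Finset (ℕ × ℕ) := Q.filter (fun q => τ - 1 < (q.2 : ℝ) ∧
    (q.1 : ℝ) + q.2 ≤ 9 / 8 * ℓ) with hP
  have hmaps : ∀ t ∈ F, lab t ∈ P := by
    intro t ht
    obtain ⟨⟨h0, h1, hR⟩, hh1, hτ1⟩ := hF t ht
    have hRn : 0 ≤ Rs (Ip t) := Rs_nonneg _
    have hwn : 0 ≤ 3 * hh t - Rs (Ip t) := hτ.trans hτ1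
    have e1 := Nat.floor_le hRn
    have e2 := Nat.floor_le hwn
    have e3 := Nat.lt_floor_add_one (3 * hh t - Rs (Ip t))
    simp only [hP, hQ, lab, Finset.mem_filter, Finset.mem_product, Finset.mem_range]
    refine ⟨⟨?_, ?_⟩, ?_, ?_⟩
    · exact Nat.lt_succ_of_le (Nat.floor_le_floor hR)
    · refine Nat.lt_succ_of_le (Nat.floor_le_floor ?_)
      linarith
    · linarith
    · linarith
  have hfib : ∀ q ∈ P, ((F.filter (fun t => lab t = q)).card : ℝ) ≤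
      C₁ * (Real.exp (11 / 12 - τ / 4) * (Real.exp (2 / 3 * (q.1 : ℝ)) *
        Real.exp (-(q.2 : ℝ) / 16)) + Real.exp (1 / 2 + 75 / 128 * ℓ)) := by
    rintro ⟨i, k⟩ hq
    simp only [hP, Finset.mem_filter] at hq
    obtain ⟨-, hk, hik⟩ := hq
    have h1 := hwin ((i : ℝ) + 1) k (F.filter (fun t => lab t = (i, k))) (by positivity)
      (by positivity) (by
        intro t ht
        rw [Finset.mem_filter] at ht
        obtain ⟨htF, hlt⟩ := ht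
        obtain ⟨⟨h0, h1, hR⟩, hh1, hτ1⟩ := hF t htF
        have hRn : 0 ≤ Rs (Ip t) := Rs_nonneg _
        have hwn : 0 ≤ 3 * hh t - Rs (Ip t) := hτ.trans hτ1
        simp only [lab, Prod.mk.injEq] at hlt
        obtain ⟨rfl, rfl⟩ := hlt
        exact ⟨h0, h1, (Nat.lt_floor_add_one _).le, Nat.floor_le hwn,
          (Nat.lt_floor_add_one _).le⟩)
    refine h1.trans ?_
    rw [mul_assoc]
    refine mul_le_mul_of_nonneg_left ?_ hC₁0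
    rw [mul_add, ← Real.exp_add, ← Real.exp_add, ← Real.exp_add, ← Real.exp_add]
    refine add_le_add (Real.exp_le_exp.2 ?_) (Real.exp_le_exp.2 ?_)
    · have hk' : τ - 1 < (k : ℝ) := hk
      linarith
    · have hik' : (i : ℝ) + k ≤ 9 / 8 * ℓ := hik
      have hi : (0 : ℝ) ≤ i := Nat.cast_nonneg i
      linarith
  have hsum : (F.card : ℝ) = ∑ q ∈ P, ((F.filter (fun t => lab t = q)).card : ℝ) := by
    exact_mod_cast Finset.card_eq_sum_card_fiberwise hmaps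
  have hQcard : (Q.card : ℝ) ≤ (9 / 8 * ℓ + 1) ^ 2 := by
    rw [hQ, Finset.card_product, Finset.card_range, Finset.card_range]
    push_cast
    have e1 : (⌊ℓ⌋₊ : ℝ) ≤ 9 / 8 * ℓ := (Nat.floor_le hℓ).trans (by linarith)
    have e2 : (⌊9 / 8 * ℓ⌋₊ : ℝ) ≤ 9 / 8 * ℓ := Nat.floor_le (by positivity)
    have e3 : (0 : ℝ) ≤ (⌊ℓ⌋₊ : ℝ) := by positivity
    have e4 : (0 : ℝ) ≤ (⌊9 / 8 * ℓ⌋₊ : ℝ) := by positivity
    nlinarith
  have hfirst : ∑ q ∈ Q, Real.exp (2 / 3 * (q.1 : ℝ)) * Real.exp (-(q.2 : ℝ) / 16) ≤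
      51 * Real.exp (2 / 3 * ℓ) := by
    rw [hQ, Finset.sum_product]
    have e1 : ∀ i ∈ Finset.range (⌊ℓ⌋₊ + 1), ∑ k ∈ Finset.range (⌊9 / 8 * ℓ⌋₊ + 1),
        Real.exp (2 / 3 * (((i, k) : ℕ × ℕ).1 : ℝ)) * Real.exp (-(((i, k) : ℕ × ℕ).2 : ℝ) / 16) ≤
        Real.exp (2 / 3 * (i : ℝ)) * 17 := by
      intro i _
      dsimp only
      rw [← Finset.mul_sum]
      exact mul_le_mul_of_nonneg_left (to_geo2 _) (Real.exp_pos _).le
    refine (Finset.sum_le_sum e1).trans ?_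
    rw [← Finset.sum_mul]
    have e2 := to_geo1 ⌊ℓ⌋₊
    have e3 : Real.exp (2 / 3 * (⌊ℓ⌋₊ : ℝ)) ≤ Real.exp (2 / 3 * ℓ) :=
      Real.exp_le_exp.2 (by linarith [Nat.floor_le hℓ])
    nlinarith
  have hexp : Real.exp (11 / 12 - τ / 4) * Real.exp (2 / 3 * ℓ) =
      Real.exp (11 / 12) * Real.exp (2 / 3 * ℓ - τ / 4) := by
    rw [← Real.exp_add, ← Real.exp_add]; congr 1; ring
  have h1112 : Real.exp (11 / 12 : ℝ) ≤ 3 := to_exp3 (by norm_num)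
  have hPQ : P ⊆ Q := Finset.filter_subset _ _
  have hx0 := Real.exp_pos (2 / 3 * ℓ - τ / 4)
  have hbig : (F.card : ℝ) ≤ C₁ * (Real.exp (11 / 12 - τ / 4) * (51 * Real.exp (2 / 3 * ℓ)) +
      (9 / 8 * ℓ + 1) ^ 2 * Real.exp (1 / 2 + 75 / 128 * ℓ)) := by
    rw [hsum]
    calc ∑ q ∈ P, ((F.filter (fun t => lab t = q)).card : ℝ)
        ≤ ∑ q ∈ P, C₁ * (Real.exp (11 / 12 - τ / 4) * (Real.exp (2 / 3 * (q.1 : ℝ)) *
          Real.exp (-(q.2 : ℝ) / 16)) + Real.exp (1 / 2 + 75 / 128 * ℓ)) := Finset.sum_le_sum hfib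
      _ ≤ ∑ q ∈ Q, C₁ * (Real.exp (11 / 12 - τ / 4) * (Real.exp (2 / 3 * (q.1 : ℝ)) *
          Real.exp (-(q.2 : ℝ) / 16)) + Real.exp (1 / 2 + 75 / 128 * ℓ)) :=
          Finset.sum_le_sum_of_subset_of_nonneg hPQ (fun q _ _ => by positivity)
      _ = C₁ * (Real.exp (11 / 12 - τ / 4) * (∑ q ∈ Q, Real.exp (2 / 3 * (q.1 : ℝ)) *
          Real.exp (-(q.2 : ℝ) / 16)) + Q.card * Real.exp (1 / 2 + 75 / 128 * ℓ)) := by
          rw [← Finset.mul_sum, Finset.sum_add_distrib, ← Finset.mul_sum, Finset.sum_const,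
            nsmul_eq_mul]
      _ ≤ C₁ * (Real.exp (11 / 12 - τ / 4) * (51 * Real.exp (2 / 3 * ℓ)) +
          (9 / 8 * ℓ + 1) ^ 2 * Real.exp (1 / 2 + 75 / 128 * ℓ)) := by
          refine mul_le_mul_of_nonneg_left (add_le_add ?_ ?_) hC₁0
          · exact mul_le_mul_of_nonneg_left hfirst (Real.exp_pos _).le
          · exact mul_le_mul_of_nonneg_right hQcard (Real.exp_pos _).le
  refine hbig.trans ?_
  have h5 := to_sq hℓ
  have h6 : Real.exp (11 / 12 - τ / 4) * (51 * Real.exp (2 / 3 * ℓ)) ≤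
      5000 * Real.exp (2 / 3 * ℓ - τ / 4) := by
    calc Real.exp (11 / 12 - τ / 4) * (51 * Real.exp (2 / 3 * ℓ))
        = 51 * (Real.exp (11 / 12 - τ / 4) * Real.exp (2 / 3 * ℓ)) := by ring
      _ = 51 * (Real.exp (11 / 12) * Real.exp (2 / 3 * ℓ - τ / 4)) := by rw [hexp]
      _ ≤ 5000 * Real.exp (2 / 3 * ℓ - τ / 4) := by nlinarith
  calc C₁ * (Real.exp (11 / 12 - τ / 4) * (51 * Real.exp (2 / 3 * ℓ)) +
        (9 / 8 * ℓ + 1) ^ 2 * Real.exp (1 / 2 + 75 / 128 * ℓ))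
      ≤ C₁ * (5000 * Real.exp (2 / 3 * ℓ - τ / 4) + 5000 * Real.exp (5 / 8 * ℓ)) :=
        mul_le_mul_of_nonneg_left (add_le_add h6 h5) hC₁0
    _ = 5000 * C₁ * (Real.exp (2 / 3 * ℓ - τ / 4) + Real.exp (5 / 8 * ℓ)) := by ring

end AbcAsy
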