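import Pool.Agent.Work.MP_a793bb_nt.Asy.TIdent
import Pool.Agent.Work.MP_a793bb_nt.Asy.TExI

/-!
# Two points of a cell

Proof. Product formula (`prodFormula_log`) for `t - t' ≠ 0`:
`∑_v mult log v(t - t') + ∑_p log av_p(t - t') = 0`.

Infinite places: let `M_v(t) = max(1, |t|, |1 - t|) ≥ 1`. If `ι v = 0` or `1` then
`v (t - t') = v (side - side') ≤ ρ v ≤ ρ v * M_v(t) * M_v(t')`; if `ι v = 2` then
`t - t' = - t t' (t⁻¹ - t'⁻¹)`, so `v (t - t') ≤ M_v(t) M_v(t') ρ v`. (`v (t - t') > 0`.)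

Finite places: for every `p`, `av_p(t - t') ≤ max(1, av t) max(1, av t') N(p)^(-m)` where
`m = ∑_j (ex (exI (side j t)) p + ex (exI (side j t)).radical p)`: at most one side has positive
exponent (`kp_tri`). If no side has exponent at least two then `m = 0` and the bound is `av_sub_le`.
If `e = kp p (side j t) ≥ 2` then `ex (exI (side j t)) p = e - 1`, the radical has exponent one, `m = e`,
and `exI (side j t') = exI (side j t)` gives the same exponent `e` for `side j t'`
(`ex_exI`: `(kp - 1).toNat = e - 1 ≥ 1` forces `kp = e`). For `j = 0`: `av t = av t' = N ^ (-e)`; for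
`j = 1`: `t - t' = (1 - t') - (1 - t)`; for `j = 2`: `av t = av t' = N ^ e` and
`t - t' = - t t' (t⁻¹ - t'⁻¹)`, `av (t⁻¹ - t'⁻¹) ≤ N ^ (-e)`.

Finally `hh t = ∑_v mult log M_v(t) + ∑_p log max(1, av t)` (see the proof of `three_hh`; note
`max(av t, av (1 - t), 1) = max(1, av t)`), and
`∑_p (ex I p + ex I.radical p) lN p = log N(I) + log N(rad I)`.
-/

set_option autoImplicit false

namespace AbcAsy

open NumberField IsDedekindDomain Height Pool.Agent.Work.MP_a793bb_nt
  Pool.Agent.Work.MP_a793bb_nt.BPlus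

variable {K : Type*} [Field K] [NumberField K]

private theorem tp_v_neg (v : InfinitePlace K) (x : K) : v (-x) = v x := v.1.map_neg x

private theorem tp_Rs {S : Set (HeightOneSpectrum (𝓞 K))} (T : Finset (HeightOneSpectrum (𝓞 K)))
    (hT : ∀ p ∈ S, p ∈ T) : open Classical in Rs S = ∑ p ∈ T, if p ∈ S then lN p else 0 := by
  classical
  have h : S = ((T.filter (fun p => p ∈ S) : Finset (HeightOneSpectrum (𝓞 K))) :
      Set (HeightOneSpectrum (𝓞 K))) := by
    ext p
    rw [Finset.mem_coe, Finset.mem_filter]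
    exact ⟨fun h => ⟨hT p h, h⟩, fun h => h.2⟩
  rw [← Finset.sum_filter]
  conv_lhs => rw [h]
  exact finsum_mem_coe_finset _ _

private theorem tp_sum {y : K} (hy : y ≠ 0) (T : Finset (HeightOneSpectrum (𝓞 K)))
    (hT : ∀ p ∈ Zp y, p ∈ T) :
    Real.log (Ideal.absNorm (exI y)) + Real.log (Ideal.absNorm (exI y).radical) =
      ∑ p ∈ T, (if 2 ≤ kp p y then (kp p y : ℝ) else 0) * lN p := by
  classical
  have hdvd : ∀ p : HeightOneSpectrum (𝓞 K), p.asIdeal ∣ exI y ↔ 2 ≤ kp p y := by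
    intro p
    rw [dvd_iff_ex (exI_ne_bot hy), ex_exI hy]
    omega
  have hZ : ∀ p : HeightOneSpectrum (𝓞 K), p ∈ Zp y ↔ 0 < kp p y := fun p =>
    av_lt_one_iff_kp p hy
  rw [log_exI hy, LR_univ_eq_Rs hy, absNorm_radical (exI_ne_bot hy), Real.log_exp,
    LP_eq hy Set.univ T hT, tp_Rs T hT, tp_Rs (S := {p | p.asIdeal ∣ exI y}) T ?_,
    ← Finset.sum_sub_distrib, ← Finset.sum_add_distrib]
  · refine Finset.sum_congr rfl fun p _ => ?_
    have e1 : (p ∈ {p : HeightOneSpectrum (𝓞 K) | p.asIdeal ∣ exI y}) ↔ 2 ≤ kp p y := hdvd p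
    simp only [e1, hZ, lpt, Set.mem_univ, and_true]
    by_cases h1 : 2 ≤ kp p y
    · have h2 : 0 < kp p y := by omega
      rw [if_pos h1, if_pos h2, if_pos h1, if_pos h2]
      ring
    · by_cases h2 : 0 < kp p y
      · have h3 : kp p y = 1 := by omega
        rw [if_pos h2, if_pos h2, if_neg h1, if_neg h1, h3]
        push_cast
        ring
      · rw [if_neg h2, if_neg h2, if_neg h1, if_neg h1]
        ring
  · intro p hp
    have h1 : 2 ≤ kp p y := (hdvd p).mp hp
    exact hT p ((hZ p).mpr (by omega))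

private theorem tp_sub {x y : K} (hx : x ≠ 0) (hy : y ≠ 0) (hne : x - y ≠ 0)
    (p : HeightOneSpectrum (𝓞 K)) (h : kp p y = kp p x) :
    Real.log (av p (x - y)) ≤ -((kp p x : ℝ) * lN p) := by
  have h1 : av p y = av p x := by rw [av_eq_zpow p hx, av_eq_zpow p hy, h]
  have h2 : av p (x - y) ≤ av p x := by
    refine (av_sub_le p x y).trans ?_
    rw [h1, max_self]
  have h3 := Real.log_le_log (av_pos p hne) h2
  rw [log_av hx] at h3
  linarith

private theorem tp_loc {t t' : K} (h0 : t ≠ 0) (h1 : t ≠ 1) (h0' : t' ≠ 0) (h1' : t' ≠ 1)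
    (hne : t ≠ t') (p : HeightOneSpectrum (𝓞 K)) (j : Fin 3)
    (he : kp p (side j t') = kp p (side j t)) :
    Real.log (av p (t - t')) ≤ Real.log (max 1 (av p t)) + Real.log (max 1 (av p t')) -
      (kp p (side j t) : ℝ) * lN p := by
  have n1 : 0 ≤ Real.log (max 1 (av p t)) := Real.log_nonneg (le_max_left _ _)
  have n2 : 0 ≤ Real.log (max 1 (av p t')) := Real.log_nonneg (le_max_left _ _)
  have hsub : t - t' ≠ 0 := sub_ne_zero.mpr hne
  have g1 : 1 - t ≠ 0 := sub_ne_zero.mpr (Ne.symm h1)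
  have g1' : 1 - t' ≠ 0 := sub_ne_zero.mpr (Ne.symm h1')
  fin_cases j
  · replace he : kp p t' = kp p t := he
    have h2 := tp_sub h0 h0' hsub p he
    change _ ≤ _ - (kp p t : ℝ) * lN p
    linarith
  · replace he : kp p (1 - t') = kp p (1 - t) := he
    have e1 : (1 - t) - (1 - t') = -(t - t') := by ring
    have h2 := tp_sub g1 g1' (by rw [e1]; exact neg_ne_zero.mpr hsub) p he
    rw [e1, av_neg] at h2
    change _ ≤ _ - (kp p (1 - t) : ℝ) * lN p
    linarith
  · replace he : kp p t'⁻¹ = kp p t⁻¹ := he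
    have e1 : t - t' = -(t * t' * (t⁻¹ - t'⁻¹)) := by
      field_simp
      ring
    have e2 : t⁻¹ - t'⁻¹ ≠ 0 := by
      intro h
      rw [h, mul_zero, neg_zero] at e1
      exact hsub e1
    have h2 := tp_sub (inv_ne_zero h0) (inv_ne_zero h0') e2 p he
    have m1 : Real.log (av p t) ≤ Real.log (max 1 (av p t)) :=
      Real.log_le_log (av_pos p h0) (le_max_right _ _)
    have m2 : Real.log (av p t') ≤ Real.log (max 1 (av p t')) :=
      Real.log_le_log (av_pos p h0') (le_max_right _ _)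
    have e3 : Real.log (av p (t - t')) =
        Real.log (av p t) + Real.log (av p t') + Real.log (av p (t⁻¹ - t'⁻¹)) := by
      rw [e1, av_neg, av_mul, av_mul, Real.log_mul (mul_pos (av_pos p h0) (av_pos p h0')).ne'
        (av_pos p e2).ne', Real.log_mul (av_pos p h0).ne' (av_pos p h0').ne']
    change _ ≤ _ - (kp p t⁻¹ : ℝ) * lN p
    linarith

private theorem tp_loc0 {t t' : K} (hne : t ≠ t') (p : HeightOneSpectrum (𝓞 K)) :
    Real.log (av p (t - t')) ≤ Real.log (max 1 (av p t)) + Real.log (max 1 (av p t')) := by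
  have hsub : t - t' ≠ 0 := sub_ne_zero.mpr hne
  have p1 : 1 ≤ max 1 (av p t) := le_max_left _ _
  have p2 : 1 ≤ max 1 (av p t') := le_max_left _ _
  rw [← Real.log_mul (by linarith) (by linarith)]
  refine Real.log_le_log (av_pos p hsub) ((av_sub_le p t t').trans (max_le ?_ ?_))
  · exact (le_max_right 1 (av p t)).trans (le_mul_of_one_le_right (by linarith) p2)
  · exact (le_max_right 1 (av p t')).trans (le_mul_of_one_le_left (by linarith) p1)

theorem two_point {t t' : K} (h0 : t ≠ 0) (h1 : t ≠ 1) (h0' : t' ≠ 0) (h1' : t' ≠ 1)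
    (hne : t ≠ t') (hI : ∀ j : Fin 3, exI (side j t) = exI (side j t'))
    (ι : InfinitePlace K → Fin 3) (ρ : InfinitePlace K → ℝ) (hρ : ∀ v, 0 < ρ v)
    (hv : ∀ v, v (side (ι v) t - side (ι v) t') ≤ ρ v) :
    ∑ j : Fin 3, (Real.log (Ideal.absNorm (exI (side j t))) +
      Real.log (Ideal.absNorm (exI (side j t)).radical)) ≤
      hh t + hh t' + ∑ v : InfinitePlace K, (v.mult : ℝ) * Real.log (ρ v) := by
  classical
  have hsub : t - t' ≠ 0 := sub_ne_zero.mpr hne
  have g1 : 1 - t ≠ 0 := sub_ne_zero.mpr (Ne.symm h1)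
  obtain ⟨T, hT⟩ : ∃ T : Finset (HeightOneSpectrum (𝓞 K)),
      T = (finite_av_ne_one h0).toFinset ∪ (finite_av_ne_one h0').toFinset ∪
        (finite_av_ne_one g1).toFinset ∪ (finite_av_ne_one hsub).toFinset := ⟨_, rfl⟩
  have hT1 : ∀ p, av p t ≠ 1 → p ∈ T := fun p hp => by
    rw [hT]; simp only [Finset.mem_union, Set.Finite.mem_toFinset]
    exact Or.inl (Or.inl (Or.inl hp))
  have hT2 : ∀ p, av p t' ≠ 1 → p ∈ T := fun p hp => by
    rw [hT]; simp only [Finset.mem_union, Set.Finite.mem_toFinset]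
    exact Or.inl (Or.inl (Or.inr hp))
  have hT3 : ∀ p, av p (1 - t) ≠ 1 → p ∈ T := fun p hp => by
    rw [hT]; simp only [Finset.mem_union, Set.Finite.mem_toFinset]
    exact Or.inl (Or.inr hp)
  have hT4 : ∀ p, av p (t - t') ≠ 1 → p ∈ T := fun p hp => by
    rw [hT]; simp only [Finset.mem_union, Set.Finite.mem_toFinset]
    exact Or.inr hp
  have hside : ∀ j : Fin 3, ∀ p ∈ Zp (side j t), p ∈ T := by
    intro j p hp
    fin_cases j
    · exact hT1 p (ne_of_lt hp)
    · exact hT3 p (ne_of_lt hp)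
    · have h2 : p ∈ Zp t⁻¹ := hp
      rw [mem_Zp_inv p h0] at h2
      exact hT1 p h2.ne'
  have hprod := prodFormula_log hsub T hT4
  have hh1 := hh_formula h0 h1 T (fun p hp => hT1 p hp.ne')
  have hh2 := hh_formula h0' h1' T (fun p hp => hT2 p hp.ne')
  -- the local exponents
  obtain ⟨S, hS⟩ : ∃ S : HeightOneSpectrum (𝓞 K) → ℝ, ∀ p, S p =
      ∑ j : Fin 3, (if 2 ≤ kp p (side j t) then (kp p (side j t) : ℝ) else 0) := ⟨_, fun _ => rfl⟩
  have hSsum : ∑ j : Fin 3, (Real.log (Ideal.absNorm (exI (side j t))) +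
      Real.log (Ideal.absNorm (exI (side j t)).radical)) = ∑ p ∈ T, S p * lN p := by
    rw [Finset.sum_congr rfl fun j _ => tp_sum (side_ne_zero h0 h1 j) T (hside j),
      Finset.sum_comm]
    refine Finset.sum_congr rfl fun p _ => ?_
    rw [hS, Finset.sum_mul]
  have hkp : ∀ (p : HeightOneSpectrum (𝓞 K)) (j : Fin 3), 2 ≤ kp p (side j t) →
      kp p (side j t') = kp p (side j t) := by
    intro p j h2
    have h3 := ex_exI (side_ne_zero h0 h1 j) p
    have h4 := ex_exI (side_ne_zero h0' h1' j) p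
    rw [← hI j, h3] at h4
    omega
  have hcase : ∀ p : HeightOneSpectrum (𝓞 K), S p = 0 ∨
      ∃ j : Fin 3, 2 ≤ kp p (side j t) ∧ S p = (kp p (side j t) : ℝ) := by
    intro p
    have e : S p = (if 2 ≤ kp p t then (kp p t : ℝ) else 0) +
        (if 2 ≤ kp p (1 - t) then (kp p (1 - t) : ℝ) else 0) +
        (if 2 ≤ kp p t⁻¹ then (kp p t⁻¹ : ℝ) else 0) := by
      rw [hS, Fin.sum_univ_three]
      rfl
    have hinv : kp p t⁻¹ = -kp p t := BPlus.kp_inv p t
    rcases kp_tri p h0 h1 with ⟨h2, h3⟩ | ⟨h2, h3⟩ | ⟨h2, h3⟩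
    · have n1 : ¬ 2 ≤ kp p (1 - t) := by omega
      have n2 : ¬ 2 ≤ kp p t⁻¹ := by omega
      rw [if_neg n1, if_neg n2, add_zero, add_zero] at e
      by_cases h4 : 2 ≤ kp p t
      · rw [if_pos h4] at e
        exact Or.inr ⟨0, h4, e⟩
      · rw [if_neg h4] at e
        exact Or.inl e
    · have n1 : ¬ 2 ≤ kp p (1 - t) := by omega
      have n2 : ¬ 2 ≤ kp p t := by omega
      rw [if_neg n1, if_neg n2, zero_add, zero_add] at e
      by_cases h4 : 2 ≤ kp p t⁻¹
      · rw [if_pos h4] at e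
        exact Or.inr ⟨2, h4, e⟩
      · rw [if_neg h4] at e
        exact Or.inl e
    · have n1 : ¬ 2 ≤ kp p t := by omega
      have n2 : ¬ 2 ≤ kp p t⁻¹ := by omega
      rw [if_neg n1, if_neg n2, zero_add, add_zero] at e
      by_cases h4 : 2 ≤ kp p (1 - t)
      · rw [if_pos h4] at e
        exact Or.inr ⟨1, h4, e⟩
      · rw [if_neg h4] at e
        exact Or.inl e
  have hfin : ∀ p ∈ T, Real.log (av p (t - t')) ≤
      Real.log (max 1 (av p t)) + Real.log (max 1 (av p t')) - S p * lN p := by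
    intro p _
    rcases hcase p with h2 | ⟨j, h2, h3⟩
    · rw [h2, zero_mul, sub_zero]
      exact tp_loc0 hne p
    · rw [h3]
      exact tp_loc h0 h1 h0' h1' hne p j (hkp p j h2)
  have hinf : ∀ v ∈ (Finset.univ : Finset (InfinitePlace K)),
      (v.mult : ℝ) * Real.log (v (t - t')) ≤ (v.mult : ℝ) * (Real.log (ρ v) +
        Real.log (max 1 (max (v t) (v (1 - t)))) + Real.log (max 1 (max (v t') (v (1 - t'))))) := by
    intro v _
    refine mul_le_mul_of_nonneg_left ?_ (Nat.cast_nonneg _)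
    obtain ⟨M, hM⟩ : ∃ M : ℝ, M = max 1 (max (v t) (v (1 - t))) := ⟨_, rfl⟩
    obtain ⟨M', hM'⟩ : ∃ M' : ℝ, M' = max 1 (max (v t') (v (1 - t'))) := ⟨_, rfl⟩
    rw [← hM, ← hM']
    have a1 : 1 ≤ M := by rw [hM]; exact le_max_left _ _
    have a2 : 1 ≤ M' := by rw [hM']; exact le_max_left _ _
    have a3 : v t ≤ M := by rw [hM]; exact (le_max_left _ _).trans (le_max_right _ _)
    have a4 : v t' ≤ M' := by rw [hM']; exact (le_max_left _ _).trans (le_max_right _ _)
    have hpos : 0 < v (t - t') := InfinitePlace.pos_iff.mpr hsub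
    have hle : v (t - t') ≤ ρ v * M * M' := by
      have hbase : v (t - t') ≤ ρ v → v (t - t') ≤ ρ v * M * M' := by
        intro h
        have h3 : ρ v ≤ ρ v * M := le_mul_of_one_le_right (hρ v).le a1
        have h4 : ρ v * M ≤ ρ v * M * M' :=
          le_mul_of_one_le_right (mul_nonneg (hρ v).le (by linarith)) a2
        linarith
      have h2 := hv v
      generalize ι v = j at h2
      fin_cases j
      · exact hbase h2
      · refine hbase ?_
        have h3 : v ((1 - t) - (1 - t')) ≤ ρ v := h2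
        have e1 : (1 - t) - (1 - t') = -(t - t') := by ring
        rwa [e1, tp_v_neg] at h3
      · have h3 : v (t⁻¹ - t'⁻¹) ≤ ρ v := h2
        have e1 : t - t' = -(t * t' * (t⁻¹ - t'⁻¹)) := by
          field_simp
          ring
        rw [e1, tp_v_neg, map_mul, map_mul]
        have b1 : 0 ≤ v t := apply_nonneg v t
        have b2 : 0 ≤ v t' := apply_nonneg v t'
        have b3 : 0 ≤ v (t⁻¹ - t'⁻¹) := apply_nonneg v _
        calc v t * v t' * v (t⁻¹ - t'⁻¹) ≤ (M * M') * ρ v :=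
              mul_le_mul (mul_le_mul a3 a4 b2 (by linarith)) h3 b3
                (mul_nonneg (by linarith) (by linarith))
          _ = ρ v * M * M' := by ring
    have h5 := Real.log_le_log hpos hle
    rwa [Real.log_mul (mul_pos (hρ v) (by linarith)).ne' (by linarith),
      Real.log_mul (hρ v).ne' (by linarith)] at h5
  have s1 := Finset.sum_le_sum hfin
  have s2 := Finset.sum_le_sum hinf
  rw [Finset.sum_sub_distrib, Finset.sum_add_distrib] at s1
  simp only [mul_add, Finset.sum_add_distrib] at s2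
  rw [hSsum]
  linarith

end AbcAsy
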