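import Pool.Agent.Work.MP_a793bb_nt.Asy.TLabel

/-!
# The points in a window

Proof. Give `t ∈ F` the label `(a, ι, x, y)`: `a_v = ⌊Av v t⌋₊` (`Av_nonneg`), `ι v` from `exists_side`,
`x_j = ⌊log N(exI (side j t))⌋₊`, `y_j = ⌊log N(rad (exI (side j t)))⌋₊` (`exI_ne_bot`, so the logarithms are nonnegative). By `three_hh`
and `LG_eq`, `log_rad_le` all the entries are at most `w + 1` (`mult ≥ 1`), so natural numbers `< w + 2`; the number of
labels is at most `(⌊w⌋₊ + 3) ^ (m + 6) * 3 ^ m`, `m` the number of infinite places, which is at most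
`C exp (ε w / 2)`. For each label apply `label_count` with `ε / 2` to the subset of `F` with this label
(`Finset.card_le_mul_card_image_of_maps_to` or `Finset.card_eq_sum_card_fiberwise`; the bound is the same for all labels). (The choice of `ι`
needs `t ≠ 0, 1`; use `Function`s defined by `if h : t ≠ 0 ∧ t ≠ 1 then choose else 0`.)
-/

set_option autoImplicit false

namespace AbcAsy

open NumberField IsDedekindDomain Height Pool.Agent.Work.MP_a793bb_nt
  Pool.Agent.Work.MP_a793bb_nt.BPlus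

private theorem wb_poly (N : ℕ) (δ : ℝ) (hδ : 0 < δ) :
    ∃ C : ℝ, 1 ≤ C ∧ ∀ w : ℝ, 0 ≤ w → (w + 2) ^ N ≤ C * Real.exp (δ * w) := by
  refine ⟨max 1 (N.factorial * (δ⁻¹) ^ N * Real.exp (2 * δ)), le_max_left _ _, ?_⟩
  intro w hw
  have h1 : (δ * (w + 2)) ^ N / N.factorial ≤ Real.exp (δ * (w + 2)) :=
    Real.pow_div_factorial_le_exp _ (by positivity) N
  have hf : (0 : ℝ) < N.factorial := by positivity
  rw [div_le_iff₀ hf, mul_pow] at h1
  have hδN : (0 : ℝ) < (δ⁻¹) ^ N := by positivity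
  have h2 : (w + 2) ^ N = (δ⁻¹) ^ N * (δ ^ N * (w + 2) ^ N) := by
    rw [← mul_assoc, ← mul_pow, inv_mul_cancel₀ hδ.ne', one_pow, one_mul]
  have h3 : (w + 2) ^ N ≤ (N.factorial * (δ⁻¹) ^ N * Real.exp (2 * δ)) * Real.exp (δ * w) := by
    rw [h2]
    calc (δ⁻¹) ^ N * (δ ^ N * (w + 2) ^ N)
        ≤ (δ⁻¹) ^ N * (Real.exp (δ * (w + 2)) * N.factorial) :=
          mul_le_mul_of_nonneg_left h1 hδN.le
      _ = (N.factorial * (δ⁻¹) ^ N * Real.exp (2 * δ)) * Real.exp (δ * w) := by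
          have : Real.exp (δ * (w + 2)) = Real.exp (2 * δ) * Real.exp (δ * w) := by
            rw [← Real.exp_add]; congr 1; ring
          rw [this]; ring
  exact h3.trans (mul_le_mul_of_nonneg_right (le_max_right _ _) (Real.exp_pos _).le)

private theorem wb_floor {x w : ℝ} (hx : 0 ≤ x) (h : x ≤ w + 1) : ⌊x⌋₊ < ⌊w⌋₊ + 2 := by
  rw [Nat.floor_lt hx]
  push_cast
  linarith [Nat.lt_floor_add_one w]

theorem window_bound (K : Type*) [Field K] [NumberField K] (ε : ℝ) (hε : 0 < ε) :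
    ∃ C : ℝ, 1 ≤ C ∧ ∀ (r w : ℝ) (F : Finset K), 0 ≤ r → 0 ≤ w →
      (∀ t ∈ F, t ≠ 0 ∧ t ≠ 1 ∧ Rs (Ip t) ≤ r ∧ w ≤ 3 * hh t - Rs (Ip t) ∧
        3 * hh t - Rs (Ip t) ≤ w + 1) →
      (F.card : ℝ) ≤ C * Real.exp (ε * w) *
        (Real.exp (2 / 3 * r - w / 3) + Real.exp ((r + w) / 2)) := by
  classical
  obtain ⟨C₁, hC₁, hlab⟩ := label_count K (ε / 2) (by positivity)
  set p := Fintype.card (InfinitePlace K) with hp
  obtain ⟨C₂, hC₂, hpoly⟩ := wb_poly (p + 6) (ε / 2) (by positivity)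
  have h3p : (1 : ℝ) ≤ 3 ^ p := one_le_pow₀ (by norm_num)
  refine ⟨C₁ * 3 ^ p * C₂, ?_, ?_⟩
  · exact one_le_mul_of_one_le_of_one_le (one_le_mul_of_one_le_of_one_le hC₁ h3p) hC₂
  intro r w F hr hw hF
  have hch : ∀ t : K, ∃ i : InfinitePlace K → Fin 3, t ≠ 0 → t ≠ 1 →
      ∀ v, v (side (i v) t) ≤ 16 * Real.exp (-Av v t) := by
    intro t
    by_cases h0 : t = 0
    · exact ⟨fun _ => 0, fun h => absurd h0 h⟩
    by_cases h1 : t = 1
    · exact ⟨fun _ => 0, fun _ h => absurd h1 h⟩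
    · choose i hi using fun v : InfinitePlace K => exists_side v h0 h1
      exact ⟨i, fun _ _ => hi⟩
  choose ιf hιf using hch
  let lab : K → (InfinitePlace K → ℕ) × (InfinitePlace K → Fin 3) × (Fin 3 → ℕ) × (Fin 3 → ℕ) :=
    fun t => (fun v => ⌊Av v t⌋₊, ιf t, fun j => ⌊Real.log (Ideal.absNorm (exI (side j t)))⌋₊,
      fun j => ⌊Real.log (Ideal.absNorm (exI (side j t)).radical)⌋₊)
  let P : Finset ((InfinitePlace K → ℕ) × (InfinitePlace K → Fin 3) × (Fin 3 → ℕ) × (Fin 3 → ℕ)) :=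
    Fintype.piFinset (fun _ => Finset.range (⌊w⌋₊ + 2)) ×ˢ (Finset.univ ×ˢ
      (Fintype.piFinset (fun _ => Finset.range (⌊w⌋₊ + 2)) ×ˢ
        Fintype.piFinset (fun _ => Finset.range (⌊w⌋₊ + 2))))
  set B := Real.exp (2 / 3 * r - w / 3) + Real.exp ((r + w) / 2) with hB
  have hBpos : 0 < B := by positivity
  have hmaps : ∀ t ∈ F, lab t ∈ P := by
    intro t ht
    obtain ⟨h0, h1, -, -, hle⟩ := hF t ht
    have h3 := three_hh h0 h1
    have hLG := LG_eq h0 h1
    have hAvn : ∀ v : InfinitePlace K, 0 ≤ Av v t := fun v => Av_nonneg v h0 h1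
    have hm1 : ∀ v : InfinitePlace K, (1 : ℝ) ≤ v.mult := fun v => by
      exact_mod_cast InfinitePlace.mult_pos (w := v)
    have hsumn : 0 ≤ ∑ v : InfinitePlace K, (v.mult : ℝ) * Av v t :=
      Finset.sum_nonneg (fun v _ => mul_nonneg (by positivity) (hAvn v))
    have hLGn := LG_nonneg h0 h1
    have hAv : ∀ v : InfinitePlace K, Av v t ≤ w + 1 := by
      intro v
      have h4 : (v.mult : ℝ) * Av v t ≤ ∑ v : InfinitePlace K, (v.mult : ℝ) * Av v t :=
        Finset.single_le_sum (f := fun v : InfinitePlace K => (v.mult : ℝ) * Av v t)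
          (fun v _ => mul_nonneg (by positivity) (hAvn v)) (Finset.mem_univ v)
      have h5 : Av v t ≤ (v.mult : ℝ) * Av v t := le_mul_of_one_le_left (hAvn v) (hm1 v)
      linarith
    have hx : ∀ j : Fin 3, Real.log (Ideal.absNorm (exI (side j t))) ≤ w + 1 := by
      intro j
      have h4 : Real.log (Ideal.absNorm (exI (side j t))) ≤
          ∑ j : Fin 3, Real.log (Ideal.absNorm (exI (side j t))) :=
        Finset.single_le_sum (f := fun j : Fin 3 => Real.log (Ideal.absNorm (exI (side j t))))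
          (fun v _ => Real.log_natCast_nonneg _) (Finset.mem_univ j)
      linarith
    have hside : ∀ j : Fin 3, side j t ≠ 0 := by
      intro j
      have h1' : 1 - t ≠ 0 := sub_ne_zero.2 (Ne.symm h1)
      fin_cases j <;> simp [side, h0, h1']
    have hy : ∀ j : Fin 3, Real.log (Ideal.absNorm (exI (side j t)).radical) ≤ w + 1 := fun j =>
      (log_rad_le (exI_ne_bot (hside j))).trans (hx j)
    simp only [P, lab, Finset.mem_product, Fintype.mem_piFinset, Finset.mem_range,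
      Finset.mem_univ, true_and]
    exact ⟨fun v => wb_floor (hAvn v) (hAv v), fun j => wb_floor (Real.log_natCast_nonneg _) (hx j),
      fun j => wb_floor (Real.log_natCast_nonneg _) (hy j)⟩
  have hfib : ∀ q ∈ P, ((F.filter (fun t => lab t = q)).card : ℝ) ≤
      C₁ * Real.exp (ε / 2 * w) * B := by
    rintro ⟨a, ι, x, y⟩ -
    refine hlab a ι x y r w _ hr hw ?_
    intro t ht
    rw [Finset.mem_filter] at ht
    obtain ⟨htF, hlt⟩ := ht
    obtain ⟨h0, h1, h2, h3, h4⟩ := hF t htF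
    simp only [lab, Prod.mk.injEq] at hlt
    obtain ⟨rfl, rfl, rfl, rfl⟩ := hlt
    refine ⟨h0, h1, h2, h3, h4, ?_, ?_⟩
    · intro v
      exact ⟨Nat.floor_le (Av_nonneg v h0 h1), (Nat.lt_floor_add_one _).le, hιf t h0 h1 v⟩
    · intro j
      exact ⟨Nat.floor_le (Real.log_natCast_nonneg _), (Nat.lt_floor_add_one _).le,
        Nat.floor_le (Real.log_natCast_nonneg _), (Nat.lt_floor_add_one _).le⟩
  have hsum : (F.card : ℝ) = ∑ q ∈ P, ((F.filter (fun t => lab t = q)).card : ℝ) := by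
    exact_mod_cast Finset.card_eq_sum_card_fiberwise hmaps
  have hPcard : (P.card : ℝ) ≤ 3 ^ p * (w + 2) ^ (p + 6) := by
    have hc : P.card = (⌊w⌋₊ + 2) ^ p * (3 ^ p * ((⌊w⌋₊ + 2) ^ 3 * (⌊w⌋₊ + 2) ^ 3)) := by
      simp only [P, Finset.card_product, Fintype.card_piFinset, Finset.card_range,
        Finset.prod_const, Finset.card_univ, Fintype.card_fin, Fintype.card_fun, hp]
    rw [hc]
    push_cast
    have hfl : (⌊w⌋₊ : ℝ) + 2 ≤ w + 2 := by linarith [Nat.floor_le hw]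
    have h0 : (0 : ℝ) ≤ (⌊w⌋₊ : ℝ) + 2 := by positivity
    calc ((⌊w⌋₊ : ℝ) + 2) ^ p * (3 ^ p * (((⌊w⌋₊ : ℝ) + 2) ^ 3 * ((⌊w⌋₊ : ℝ) + 2) ^ 3))
        = 3 ^ p * ((⌊w⌋₊ : ℝ) + 2) ^ (p + 6) := by ring
      _ ≤ 3 ^ p * (w + 2) ^ (p + 6) :=
          mul_le_mul_of_nonneg_left (pow_le_pow_left₀ h0 hfl _) (by positivity)
  have hK : 0 ≤ C₁ * Real.exp (ε / 2 * w) * B := by positivity
  calc (F.card : ℝ) = ∑ q ∈ P, ((F.filter (fun t => lab t = q)).card : ℝ) := hsum
    _ ≤ ∑ q ∈ P, C₁ * Real.exp (ε / 2 * w) * B := Finset.sum_le_sum hfib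
    _ = P.card * (C₁ * Real.exp (ε / 2 * w) * B) := by rw [Finset.sum_const, nsmul_eq_mul]
    _ ≤ (3 ^ p * (w + 2) ^ (p + 6)) * (C₁ * Real.exp (ε / 2 * w) * B) :=
        mul_le_mul_of_nonneg_right hPcard hK
    _ ≤ (3 ^ p * (C₂ * Real.exp (ε / 2 * w))) * (C₁ * Real.exp (ε / 2 * w) * B) :=
        mul_le_mul_of_nonneg_right (mul_le_mul_of_nonneg_left (hpoly w hw) (by positivity)) hK
    _ = C₁ * 3 ^ p * C₂ * Real.exp (ε * w) * B := by
        have : Real.exp (ε * w) = Real.exp (ε / 2 * w) * Real.exp (ε / 2 * w) := by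
          rw [← Real.exp_add]; congr 1; ring
        rw [this]; ring

end AbcAsy
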