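import Pool.Agent.Work.MP_a793bb_nt.Asy.Defs

/-!
# VMul: multiplication by an element of the mixed space  (size M)

PROOF. `z` has `N(z) ≠ 0`, i.e. all its coordinates are nonzero. The map `u ↦ z u` is a linear
automorphism of the real space `mixedSpace K = (ℝ^r₁) × (ℂ^r₂)`; the absolute value of its
determinant is `∏ |z_v| * ∏ |z_v|² = N(z)` (multiplication by a complex number `w` has determinant
`normSq w`: `Algebra.norm_complex_eq`/`LinearMap.det` of `LinearMap.mulLeft`; product maps:
`LinearMap.det_prodMap`, `LinearMap.det_pi`). Then use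
`MeasureTheory.Measure.map_linearMap_addHaar_eq_smul_addHaar` and `lintegral_map_equiv` (or
`lintegral_image_eq_lintegral_abs_det_fderiv_mul`). Alternative without determinants: the measure is a
product of one-dimensional Haar measures, and the statement for `ℝ` and `ℂ` gives the measure
`map (z * ·) volume = N(z)⁻¹ • volume` by `Measure.pi` and `Measure.prod` (check on boxes).
`volume` on `mixedSpace K` is an additive Haar measure (instance in Mathlib).
-/

set_option autoImplicit false

namespace AbcAsy

open NumberField IsDedekindDomain MeasureTheory Pool.Agent.Work.MP_a793bb_nt mixedEmbedding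

variable {K : Type*} [Field K] [NumberField K]

open scoped Classical in
/-- Multiplication by `z` as a linear map. -/
private noncomputable def mulL (z : mixedSpace K) : mixedSpace K →ₗ[ℝ] mixedSpace K :=
  LinearMap.prodMap
    (LinearMap.pi fun w => (LinearMap.mulLeft ℝ (z.1 w)).comp (LinearMap.proj w))
    (LinearMap.pi fun w => (LinearMap.mulLeft ℝ (z.2 w)).comp (LinearMap.proj w))

private theorem mulL_apply (z u : mixedSpace K) : mulL z u = z * u := rfl

open scoped Classical in
private theorem det_mulL (z : mixedSpace K) : |LinearMap.det (mulL z)| = mixedEmbedding.norm z := by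
  have hc : ∀ c : ℂ, LinearMap.det (LinearMap.mulLeft ℝ c) = ‖c‖ ^ 2 := by
    intro c
    rw [← Complex.normSq_eq_norm_sq, ← Algebra.norm_complex_apply, Algebra.norm_apply]
    rfl
  rw [mulL, LinearMap.det_prodMap, LinearMap.det_pi, LinearMap.det_pi]
  simp only [LinearMap.det_mulLeft, hc]
  rw [abs_mul, Finset.abs_prod, Finset.abs_prod, mixedEmbedding.norm_apply,
    InfinitePlace.prod_eq_prod_mul_prod]
  congr 1
  · refine Finset.prod_congr rfl fun w _ => ?_
    rw [normAtPlace_apply_of_isReal w.2, InfinitePlace.mult_isReal w, pow_one, Real.norm_eq_abs]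
  · refine Finset.prod_congr rfl fun w _ => ?_
    rw [normAtPlace_apply_of_isComplex w.2, InfinitePlace.mult_isComplex w,
      abs_of_nonneg (by positivity)]

open scoped Classical in
theorem lintegral_mul_left {z : mixedSpace K} (hz : mixedEmbedding.norm z ≠ 0)
    {f : mixedSpace K → ENNReal} (hf : Measurable f) :
    ∫⁻ x, f x = ENNReal.ofReal (mixedEmbedding.norm z) * ∫⁻ u, f (z * u) := by
  have hdet : LinearMap.det (mulL z) ≠ 0 := by
    intro h
    apply hz
    rw [← det_mulL, h, abs_zero]
  have hpos : 0 < mixedEmbedding.norm z := lt_of_le_of_ne (mixedEmbedding.norm_nonneg z) hz.symm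
  have hmap := Measure.map_linearMap_addHaar_eq_smul_addHaar
    (volume : Measure (mixedSpace K)) hdet
  have hmeas : Measurable (mulL z) := (mulL z).continuous_of_finiteDimensional.measurable
  have h1 : ∫⁻ u, f (z * u) = ∫⁻ x, f x ∂(Measure.map (mulL z) volume) := by
    rw [lintegral_map hf hmeas]
    rfl
  rw [h1, hmap, lintegral_smul_measure, smul_eq_mul, ← mul_assoc, abs_inv, det_mulL,
    ENNReal.ofReal_inv_of_pos hpos, ENNReal.mul_inv_cancel, one_mul]
  · rw [Ne, ENNReal.ofReal_eq_zero, not_le]
    exact hpos
  · exact ENNReal.ofReal_ne_top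

end AbcAsy
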