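import Pool.Agent.Work.MP_a793bb_nt.Asy.VCone

/-!
# VSc: scaling of the fundamental cone  (size M)

PROOF. `volume_cone_le`: for `s > 0` put `c = s ^ (1/d)`; the set is `c • normLeOne K`
(`fundamentalCone.smul_mem_iff_mem`, `mixedEmbedding.norm_smul`), and the volume is multiplied by
`c ^ d = s` (`Measure.addHaar_smul`, the dimension of `mixedSpace K` is `d`:
`mixedEmbedding.finrank`). For `s = 0` the set is empty (`fundamentalCone.norm_pos_of_mem`).
`lintegral_cone_norm`: by `lintegral_eq_lintegral_meas_lt` (restricted measure) the left side is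
`∫⁻ t in Ioi 0, volume {z ∈ FC, N(z) ≤ s, t < N(z)}`; the integrand is `0` for `t ≥ s`, and for
`0 < t < s` it is `ofReal (s - t) * V`, `V = volume (normLeOne K) < ∞` (difference of the sets for
`s` and `t`), and `∫_0^s (s - t) dt = s² / 2`.
-/

set_option autoImplicit false

namespace AbcAsy

open NumberField IsDedekindDomain MeasureTheory Pool.Agent.Work.MP_a793bb_nt mixedEmbedding
open scoped Pointwise

variable (K : Type*) [Field K] [NumberField K]

open scoped Classical in
theorem volume_cone_le (s : ℝ) (hs : 0 ≤ s) :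
    volume {z : mixedSpace K | z ∈ fundamentalCone K ∧ mixedEmbedding.norm z ≤ s} =
      ENNReal.ofReal s * volume (fundamentalCone.normLeOne K) := by
  rcases hs.eq_or_lt with h0 | hs0
  · subst h0
    have : {z : mixedSpace K | z ∈ fundamentalCone K ∧ mixedEmbedding.norm z ≤ 0} = ∅ := by
      ext z
      simp only [Set.mem_ofPred_eq, Set.mem_empty_iff_false, iff_false, not_and, not_le]
      exact fun h => fundamentalCone.norm_pos_of_mem h
    rw [this]
    simp
  · have hd : (0 : ℝ) < Module.finrank ℚ K := by exact_mod_cast Module.finrank_pos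
    set c : ℝ := s ^ (1 / (Module.finrank ℚ K : ℝ)) with hc
    have hc0 : 0 < c := Real.rpow_pos_of_pos hs0 _
    have hcd : c ^ Module.finrank ℚ K = s := by
      rw [hc, ← Real.rpow_natCast, ← Real.rpow_mul hs, one_div_mul_cancel hd.ne', Real.rpow_one]
    have hS : {z : mixedSpace K | z ∈ fundamentalCone K ∧ mixedEmbedding.norm z ≤ s} =
        c • fundamentalCone.normLeOne K := by
      ext z
      rw [Set.mem_smul_set_iff_inv_smul_mem₀ hc0.ne', fundamentalCone.mem_normLeOne,
        fundamentalCone.smul_mem_iff_mem (inv_ne_zero hc0.ne'), mixedEmbedding.norm_smul,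
        abs_of_pos (inv_pos.2 hc0), inv_pow, hcd, inv_mul_le_iff₀ hs0, mul_one]
      rfl
    rw [hS, Measure.addHaar_smul, mixedEmbedding.finrank, hcd, abs_of_pos hs0]

private theorem lint_aux (s : ℝ) (hs : 0 ≤ s) :
    ∫⁻ t in Set.Ioi (0 : ℝ), ENNReal.ofReal (s - t) = ENNReal.ofReal (s ^ 2 / 2) := by
  have h1 : Set.Ioi (0 : ℝ) = Set.Ioc 0 s ∪ Set.Ioi s := (Set.Ioc_union_Ioi_eq_Ioi hs).symm
  rw [h1, lintegral_union measurableSet_Ioi (Set.Ioc_disjoint_Ioi le_rfl)]
  have h2 : ∫⁻ t in Set.Ioi s, ENNReal.ofReal (s - t) = 0 := by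
    rw [setLIntegral_congr_fun (g := fun _ => 0) measurableSet_Ioi, lintegral_zero]
    intro t ht
    simp only [Set.mem_Ioi] at ht
    exact ENNReal.ofReal_eq_zero.2 (by linarith)
  rw [h2, add_zero, ← ofReal_integral_eq_lintegral_ofReal]
  · congr 1
    rw [← intervalIntegral.integral_of_le hs]
    rw [intervalIntegral.integral_sub (by simp) (by simp), intervalIntegral.integral_const,
      integral_id, smul_eq_mul]
    ring
  · exact (Continuous.integrableOn_Icc (by fun_prop)).mono_set Set.Ioc_subset_Icc_self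
  · refine (ae_restrict_iff' measurableSet_Ioc).2 (Filter.Eventually.of_forall fun t ht => ?_)
    exact sub_nonneg.2 ht.2

open scoped Classical in
theorem lintegral_cone_norm (s : ℝ) (hs : 0 ≤ s) :
    ∫⁻ z in {z : mixedSpace K | z ∈ fundamentalCone K ∧ mixedEmbedding.norm z ≤ s},
      ENNReal.ofReal (mixedEmbedding.norm z) =
      ENNReal.ofReal (s ^ 2 / 2) * volume (fundamentalCone.normLeOne K) := by
  have hV : volume (fundamentalCone.normLeOne K) < ⊤ :=
    (fundamentalCone.isBounded_normLeOne K).measure_lt_top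
  have hcn : Continuous (mixedEmbedding.norm : mixedSpace K → ℝ) := mixedEmbedding.continuous_norm K
  have hm : ∀ t : ℝ, MeasurableSet
      {z : mixedSpace K | z ∈ fundamentalCone K ∧ mixedEmbedding.norm z ≤ t} := fun t =>
    (measurableSet_fundamentalCone K).inter
      (measurableSet_le hcn.measurable measurable_const)
  rw [lintegral_eq_lintegral_meas_lt _ (Filter.Eventually.of_forall fun z =>
    mixedEmbedding.norm_nonneg z) hcn.measurable.aemeasurable,
    ← lint_aux s hs, ← lintegral_mul_const' _ _ hV.ne]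
  refine setLIntegral_congr_fun measurableSet_Ioi fun t ht => ?_
  simp only [Set.mem_Ioi] at ht
  rw [Measure.restrict_apply (measurableSet_lt measurable_const hcn.measurable)]
  have e : {z : mixedSpace K | t < mixedEmbedding.norm z} ∩
      {z : mixedSpace K | z ∈ fundamentalCone K ∧ mixedEmbedding.norm z ≤ s} =
      {z : mixedSpace K | z ∈ fundamentalCone K ∧ mixedEmbedding.norm z ≤ s} \
      {z : mixedSpace K | z ∈ fundamentalCone K ∧ mixedEmbedding.norm z ≤ t} := by
    ext z
    simp only [Set.mem_inter_iff, Set.mem_ofPred_eq, Set.mem_sdiff, not_and, not_le]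
    tauto
  rw [e]
  rcases le_total t s with hts | hst
  · rw [measure_sdiff _ (hm t).nullMeasurableSet, volume_cone_le K s hs, volume_cone_le K t ht.le,
      ← ENNReal.sub_mul (fun _ _ => hV.ne), ← ENNReal.ofReal_sub _ ht.le]
    · rw [volume_cone_le K t ht.le]
      exact ENNReal.mul_ne_top ENNReal.ofReal_ne_top hV.ne
    · exact fun z hz => ⟨hz.1, hz.2.trans hts⟩
  · have hsub : {z : mixedSpace K | z ∈ fundamentalCone K ∧ mixedEmbedding.norm z ≤ s} ⊆
        {z : mixedSpace K | z ∈ fundamentalCone K ∧ mixedEmbedding.norm z ≤ t} :=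
      fun z hz => ⟨hz.1, hz.2.trans hst⟩
    rw [Set.sdiff_eq_empty.2 hsub, measure_empty,
      ENNReal.ofReal_of_nonpos (by linarith), zero_mul]

end AbcAsy
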