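import Pool.Agent.Work.MP_a793bb_nt.Asy.VMeas
import Pool.Agent.Work.MP_a793bb_nt.Asy.VNull
import Pool.Agent.Work.MP_a793bb_nt.Asy.VSc
import Pool.Agent.Work.MP_a793bb_nt.Asy.VMul

/-!
# VTon: the volume of `regInf K`, Tonelli  (size M-L)

PROOF. `volume` on `EE K` is the product measure and `regInf K` is measurable
(`measurableSet_regInf`), so (`Measure.prod_apply_symm`) the volume is
`∫⁻ z, volume {x : (x, z) ∈ regInf K} = ∫⁻ z in FC, volume {x : N(x) N(z) N(z - x) ≤ 1}`. For
`z ∈ FC` (`N(z) > 0`), `lintegral_mul_left` with the indicator of that set and `x = z u`,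
`N(z - z u) = N(z) N(1 - u)`, gives
`volume {x : ...} = ofReal N(z) * ∫⁻ u, 1[N(z) ^ 3 * N(u (1 - u)) ≤ 1]`. Tonelli
(`lintegral_lintegral_swap`): the volume is `∫⁻ u, ∫⁻ z in FC, ofReal N(z) * 1[N(z)^3 n_u ≤ 1]`,
`n_u = N(u (1 - u))`. For almost every `u`, `n_u > 0` (`null_norm_zero`, `null_norm_sub_zero`), then
`N(z)^3 n_u ≤ 1` iff `N(z) ≤ s := n_u ^ (-1/3)` and by `lintegral_cone_norm` the inner integral is
`ofReal (s² / 2) V = ofReal (n_u ^ (-2/3)) * (V / 2)`.
-/

set_option autoImplicit false

namespace AbcAsy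

open NumberField IsDedekindDomain MeasureTheory Pool.Agent.Work.MP_a793bb_nt mixedEmbedding

variable (K : Type*) [Field K] [NumberField K]

open scoped Classical in
private noncomputable def vtG (z u : mixedSpace K) : ENNReal :=
  if z ∈ fundamentalCone K ∧ mixedEmbedding.norm z ^ 3 * mixedEmbedding.norm (u * (1 - u)) ≤ 1
  then ENNReal.ofReal (mixedEmbedding.norm z) else 0

open scoped Classical in
private theorem vtG_meas : Measurable (Function.uncurry (vtG K)) := by
  unfold vtG
  refine Measurable.ite ?_ ?_ measurable_const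
  · have h1 : MeasurableSet {p : mixedSpace K × mixedSpace K | p.1 ∈ fundamentalCone K} :=
      measurable_fst (measurableSet_fundamentalCone K)
    have h2 : Continuous fun p : mixedSpace K × mixedSpace K =>
        mixedEmbedding.norm p.1 ^ 3 * mixedEmbedding.norm (p.2 * (1 - p.2)) :=
      (((mixedEmbedding.continuous_norm K).comp continuous_fst).pow 3).mul
        ((mixedEmbedding.continuous_norm K).comp
          (continuous_snd.mul (continuous_const.sub continuous_snd)))
    exact h1.inter (isClosed_le h2 continuous_const).measurableSet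
  · exact ENNReal.measurable_ofReal.comp
      ((mixedEmbedding.continuous_norm K).measurable.comp measurable_fst)

open scoped Classical in
private theorem vt_section (z : mixedSpace K) :
    volume ((fun x => (x, z)) ⁻¹' regInf K) = ∫⁻ u, vtG K z u := by
  by_cases hz : z ∈ fundamentalCone K
  · have hN : 0 < mixedEmbedding.norm z := fundamentalCone.norm_pos_of_mem hz
    set S : Set (mixedSpace K) := (fun x => (x, z)) ⁻¹' regInf K with hS
    have hSm : MeasurableSet S := measurable_prodMk_right measurableSet_regInf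
    have hmem : ∀ x, x ∈ S ↔ mixedEmbedding.norm x * mixedEmbedding.norm z *
        mixedEmbedding.norm (z - x) ≤ 1 := by
      intro x
      constructor
      · intro hx
        exact hx.2
      · intro hx
        exact ⟨hz, hx⟩
    have h1 : volume S = ∫⁻ x, S.indicator 1 x := by
      rw [lintegral_indicator_one hSm]
    rw [h1, lintegral_mul_left hN.ne' (measurable_one.indicator hSm), ← lintegral_const_mul]
    · refine lintegral_congr fun u => ?_
      have h2 : z * u ∈ S ↔ mixedEmbedding.norm z ^ 3 * mixedEmbedding.norm (u * (1 - u)) ≤ 1 := by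
        rw [hmem]
        have h3 : z - z * u = z * (1 - u) := by ring
        rw [h3, map_mul, map_mul, map_mul]
        have h4 : mixedEmbedding.norm z * mixedEmbedding.norm u * mixedEmbedding.norm z *
            (mixedEmbedding.norm z * mixedEmbedding.norm (1 - u)) =
            mixedEmbedding.norm z ^ 3 * (mixedEmbedding.norm u * mixedEmbedding.norm (1 - u)) := by
          ring
        rw [h4]
      unfold vtG
      by_cases hu : mixedEmbedding.norm z ^ 3 * mixedEmbedding.norm (u * (1 - u)) ≤ 1
      · rw [Set.indicator_of_mem (h2.mpr hu), if_pos ⟨hz, hu⟩, Pi.one_apply, mul_one]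
      · rw [Set.indicator_of_notMem (fun h => hu (h2.mp h)), if_neg (fun h => hu h.2), mul_zero]
    · exact (measurable_one.indicator hSm).comp (measurable_const_mul z)
  · have h1 : ((fun x => (x, z)) ⁻¹' regInf K) = ∅ := by
      ext x
      simp only [Set.mem_preimage, Set.mem_empty_iff_false, iff_false]
      exact fun h => hz h.1
    have h2 : ∀ u, vtG K z u = 0 := fun u => if_neg fun h => hz h.1
    rw [h1, measure_empty]
    simp only [h2, lintegral_zero]

open scoped Classical in
private theorem vt_inner (u : mixedSpace K) (hu : 0 < mixedEmbedding.norm (u * (1 - u))) :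
    ∫⁻ z, vtG K z u = ENNReal.ofReal (mixedEmbedding.norm (u * (1 - u)) ^ (-(2 / 3) : ℝ)) *
      (volume (fundamentalCone.normLeOne K) / 2) := by
  set n := mixedEmbedding.norm (u * (1 - u)) with hn
  set s : ℝ := n ^ (-(1 / 3) : ℝ) with hs
  have hs0 : 0 ≤ s := Real.rpow_nonneg hu.le _
  have hs3 : s ^ 3 * n = 1 := by
    rw [hs, ← Real.rpow_natCast, ← Real.rpow_mul hu.le]
    norm_num
    rw [Real.rpow_neg hu.le, Real.rpow_one, inv_mul_cancel₀ hu.ne']
  have hs2 : s ^ 2 = n ^ (-(2 / 3) : ℝ) := by
    rw [hs, ← Real.rpow_natCast, ← Real.rpow_mul hu.le]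
    norm_num
  have hset : MeasurableSet {z : mixedSpace K | z ∈ fundamentalCone K ∧ mixedEmbedding.norm z ≤ s} :=
    (measurableSet_fundamentalCone K).inter
      (isClosed_le (mixedEmbedding.continuous_norm K) continuous_const).measurableSet
  have h1 : ∫⁻ z, vtG K z u = ∫⁻ z in {z : mixedSpace K | z ∈ fundamentalCone K ∧
      mixedEmbedding.norm z ≤ s}, ENNReal.ofReal (mixedEmbedding.norm z) := by
    rw [← lintegral_indicator hset]
    refine lintegral_congr fun z => ?_
    have h2 : 0 ≤ mixedEmbedding.norm z := mixedEmbedding.norm_nonneg z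
    have h3 : mixedEmbedding.norm z ^ 3 * n ≤ 1 ↔ mixedEmbedding.norm z ≤ s := by
      rw [← hs3, mul_le_mul_iff_left₀ hu, pow_le_pow_iff_left₀ h2 hs0 (by norm_num)]
    unfold vtG
    by_cases hz : z ∈ fundamentalCone K ∧ mixedEmbedding.norm z ^ 3 * n ≤ 1
    · rw [if_pos hz, Set.indicator_of_mem]
      exact ⟨hz.1, h3.mp hz.2⟩
    · rw [if_neg hz, Set.indicator_of_notMem]
      exact fun h => hz ⟨h.1, h3.mpr h.2⟩
  rw [h1, lintegral_cone_norm K s hs0, hs2, ENNReal.ofReal_div_of_pos (by norm_num : (0 : ℝ) < 2),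
    ENNReal.ofReal_ofNat, ENNReal.div_eq_inv_mul, ENNReal.div_eq_inv_mul]
  ring

open scoped Classical in
private theorem vt_ae : ∀ᵐ u : mixedSpace K, 0 < mixedEmbedding.norm (u * (1 - u)) := by
  have h1 : ∀ᵐ u : mixedSpace K, mixedEmbedding.norm u ≠ 0 := by
    rw [ae_iff]
    simpa using null_norm_zero (K := K)
  have h2 : ∀ᵐ u : mixedSpace K, mixedEmbedding.norm (1 - u) ≠ 0 := by
    rw [ae_iff]
    simpa using null_norm_sub_zero (1 : mixedSpace K)
  filter_upwards [h1, h2] with u hu1 hu2
  rw [map_mul]
  exact mul_pos (lt_of_le_of_ne (mixedEmbedding.norm_nonneg _) (Ne.symm hu1))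
    (lt_of_le_of_ne (mixedEmbedding.norm_nonneg _) (Ne.symm hu2))

open scoped Classical in
theorem volume_regInf :
    volume (regInf K) = volume (fundamentalCone.normLeOne K) / 2 *
      ∫⁻ u : mixedSpace K,
        ENNReal.ofReal (mixedEmbedding.norm (u * (1 - u)) ^ (-(2 / 3) : ℝ)) := by
  have h1 : volume (regInf K) = ∫⁻ z, ∫⁻ u, vtG K z u := by
    rw [Measure.volume_eq_prod, Measure.prod_apply_symm measurableSet_regInf]
    exact lintegral_congr fun z => vt_section K z
  rw [h1, lintegral_lintegral_swap (vtG_meas K).aemeasurable]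
  have h2 : ∫⁻ u, ∫⁻ z, vtG K z u = ∫⁻ u : mixedSpace K,
      ENNReal.ofReal (mixedEmbedding.norm (u * (1 - u)) ^ (-(2 / 3) : ℝ)) *
      (volume (fundamentalCone.normLeOne K) / 2) := by
    refine lintegral_congr_ae ?_
    filter_upwards [vt_ae K] with u hu
    exact vt_inner K u hu
  rw [h2, lintegral_mul_const, mul_comm]
  refine ENNReal.measurable_ofReal.comp (Measurable.pow_const ?_ _)
  exact ((mixedEmbedding.continuous_norm K).comp
    (continuous_id.mul (continuous_const.sub continuous_id))).measurable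

end AbcAsy
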